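import Mathlib

/-!
# Bivariate polynomials as functions on `ℂ × ℂ`; local branches of an algebraic curve
-/

open Polynomial Filter Topology Metric Set Complex

namespace Pool.Agent.Stek

/-- Complex polynomials in two variables `z` (inner) and `w` (outer). -/
abbrev Biv := Polynomial (Polynomial ℂ)

/-- The value `Q(z,w)`. -/
noncomputable def ev (Q : Biv) (z w : ℂ) : ℂ := Q.evalEval z w

theorem ev_eq_sum (Q : Biv) (z w : ℂ) :
    ev Q z w = ∑ i ∈ Finset.range (Q.natDegree + 1), (Q.coeff i).eval z * w ^ i := by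
  unfold ev Polynomial.evalEval
  rw [Polynomial.eval_eq_sum_range (p := Q) (C w), Polynomial.eval_finsetSum]
  refine Finset.sum_congr rfl fun i _ => ?_
  rw [← C_pow, Polynomial.eval_mul, Polynomial.eval_C]

theorem ev_add (P Q : Biv) (z w : ℂ) : ev (P + Q) z w = ev P z w + ev Q z w := by
  simp [ev]

theorem ev_mul (P Q : Biv) (z w : ℂ) : ev (P * Q) z w = ev P z w * ev Q z w := by
  simp [ev]

theorem ev_C (p : Polynomial ℂ) (z w : ℂ) : ev (C p) z w = p.eval z := by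
  unfold ev
  rw [evalEval_C]

/-- The specialisation `Q(z,·)`. -/
noncomputable def sp (Q : Biv) (z : ℂ) : Polynomial ℂ := Q.map (evalRingHom z)

theorem sp_eval (Q : Biv) (z w : ℂ) : (sp Q z).eval w = ev Q z w := by
  unfold sp ev
  rw [map_evalRingHom_eval]

/-- Derivative in the second variable. -/
noncomputable def dw (Q : Biv) : Biv := derivative Q

/-- Derivative in the first variable. -/
noncomputable def dz (Q : Biv) : Biv := Bivariate.swap (derivative (Bivariate.swap Q))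

theorem ev_swap (Q : Biv) (z w : ℂ) : ev (Bivariate.swap Q) z w = ev Q w z := by
  unfold ev
  rw [← coe_aevalAeval_eq_evalEval, ← coe_aevalAeval_eq_evalEval, Bivariate.aevalAeval_swap]

theorem sp_dw (Q : Biv) (z : ℂ) : sp (dw Q) z = derivative (sp Q z) := by
  unfold sp dw
  rw [derivative_map]

theorem hasDerivAt_w (Q : Biv) (z w : ℂ) : HasDerivAt (fun w => ev Q z w) (ev (dw Q) z w) w := by
  have h := (sp Q z).hasDerivAt w
  rw [← sp_eval, sp_dw]
  simpa [sp_eval] using h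

theorem hasDerivAt_z (Q : Biv) (z w : ℂ) : HasDerivAt (fun z => ev Q z w) (ev (dz Q) z w) z := by
  have h := hasDerivAt_w (Bivariate.swap Q) w z
  have e1 : (fun z => ev Q z w) = fun z => ev (Bivariate.swap Q) w z := by
    ext z; rw [ev_swap]
  rw [e1, dz, ev_swap]
  exact h

theorem contDiff_ev (Q : Biv) {n : WithTop ℕ∞} : ContDiff ℂ n (fun p : ℂ × ℂ => ev Q p.1 p.2) := by
  have e : (fun p : ℂ × ℂ => ev Q p.1 p.2) = fun p : ℂ × ℂ =>
      ∑ i ∈ Finset.range (Q.natDegree + 1), (Q.coeff i).eval p.1 * p.2 ^ i := by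
    ext p; exact ev_eq_sum Q p.1 p.2
  rw [e]
  apply ContDiff.sum
  intro i _
  apply ContDiff.mul
  · have h := (Polynomial.contDiff_aeval (𝕜 := ℂ) (Q.coeff i) n).comp
      (contDiff_fst (𝕜 := ℂ) (E := ℂ) (F := ℂ))
    simpa [Function.comp_def, Polynomial.coe_aeval_eq_eval] using h
  · exact contDiff_snd.pow i

theorem continuous_ev (Q : Biv) : Continuous (fun p : ℂ × ℂ => ev Q p.1 p.2) :=
  (contDiff_ev Q (n := 0)).continuous

theorem fderiv_ev (Q : Biv) (p v : ℂ × ℂ) :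
    fderiv ℂ (fun p : ℂ × ℂ => ev Q p.1 p.2) p v = ev (dz Q) p.1 p.2 * v.1 + ev (dw Q) p.1 p.2 * v.2 := by
  have hd : HasFDerivAt (fun p : ℂ × ℂ => ev Q p.1 p.2)
      (fderiv ℂ (fun p : ℂ × ℂ => ev Q p.1 p.2) p) p :=
    ((contDiff_ev Q (n := 1)).differentiable (by simp) p).hasFDerivAt
  set L := fderiv ℂ (fun p : ℂ × ℂ => ev Q p.1 p.2) p with hL
  have h1 : L (1, 0) = ev (dz Q) p.1 p.2 := by
    have hc : HasDerivAt (fun z : ℂ => ((z, p.2) : ℂ × ℂ)) (1, 0) p.1 :=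
      (hasDerivAt_id p.1).prodMk (hasDerivAt_const p.1 p.2)
    have h2 : HasDerivAt (fun z : ℂ => ev Q z p.2) (L (1, 0)) p.1 := by
      have := HasFDerivAt.comp_hasDerivAt (x := p.1) (f := fun z : ℂ => ((z, p.2) : ℂ × ℂ))
        (l := fun p : ℂ × ℂ => ev Q p.1 p.2) (l' := L) (by simpa using hd) hc
      exact this
    exact h2.unique (hasDerivAt_z Q p.1 p.2)
  have h2 : L (0, 1) = ev (dw Q) p.1 p.2 := by
    have hc : HasDerivAt (fun w : ℂ => ((p.1, w) : ℂ × ℂ)) (0, 1) p.2 :=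
      (hasDerivAt_const p.2 p.1).prodMk (hasDerivAt_id p.2)
    have h2 : HasDerivAt (fun w : ℂ => ev Q p.1 w) (L (0, 1)) p.2 := by
      have := HasFDerivAt.comp_hasDerivAt (x := p.2) (f := fun w : ℂ => ((p.1, w) : ℂ × ℂ))
        (l := fun p : ℂ × ℂ => ev Q p.1 p.2) (l' := L) (by simpa using hd) hc
      exact this
    exact h2.unique (hasDerivAt_w Q p.1 p.2)
  have e : v = v.1 • ((1, 0) : ℂ × ℂ) + v.2 • ((0, 1) : ℂ × ℂ) := by
    ext <;> simp
  rw [e, map_add, map_smul, map_smul, h1, h2]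
  simp
  ring

/-- Implicit function theorem in `w`: a local branch through a point with `Q_w ≠ 0`. -/
theorem local_branch (Q : Biv) {z₁ u : ℂ} (h0 : ev Q z₁ u = 0) (hw : ev (dw Q) z₁ u ≠ 0) :
    ∃ φ : ℂ → ℂ, AnalyticAt ℂ φ z₁ ∧ φ z₁ = u ∧
      ∀ᶠ p : ℂ × ℂ in 𝓝 (z₁, u), ev Q p.1 p.2 = 0 ↔ p.2 = φ p.1 := by
  set f : ℂ × ℂ → ℂ := fun p => ev Q p.1 p.2 with hf
  have cdf : ContDiffAt ℂ ((⊤ : WithTop ℕ∞)) f (z₁, u) := (contDiff_ev Q).contDiffAt
  have hinv : (fderiv ℂ f (z₁, u) ∘L .inr ℂ ℂ ℂ).IsInvertible := by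
    have e : (fderiv ℂ f (z₁, u) ∘L .inr ℂ ℂ ℂ) =
        ((ContinuousLinearEquiv.unitsEquivAut ℂ (Units.mk0 _ hw) : ℂ ≃L[ℂ] ℂ) : ℂ →L[ℂ] ℂ) := by
      ext
      simp only [ContinuousLinearMap.comp_apply, ContinuousLinearMap.inr_apply]
      rw [hf, fderiv_ev]
      simp
    rw [e]
    exact ⟨_, rfl⟩
  refine ⟨cdf.implicitFunction (by simp) hinv, ?_, cdf.implicitFunction_apply_self (by simp) hinv, ?_⟩
  · exact (cdf.contDiffAt_implicitFunction (by simp) hinv).analyticAt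
  · have := cdf.eventually_apply_eq_iff_implicitFunction (by simp) hinv
    filter_upwards [this] with p hp
    rw [eq_comm (a := p.2), ← hp]
    simp [hf, h0]

end Pool.Agent.Stek
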