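import Pool.Agent.Lib.MP_bd8415_an.Alg.Basic

/-!
# Common zeros of bivariate polynomials
-/

open Polynomial Filter Topology Metric Set Complex

namespace Pool.Agent.Stek

/-- The field of rational functions. -/
abbrev KK := RatFunc ℂ

theorem bezout {Q F : Biv} (hQ : Irreducible Q) (hd : Q.natDegree ≠ 0) (h : ¬ Q ∣ F) :
    ∃ (A B : Biv) (r : Polynomial ℂ), r ≠ 0 ∧ A * Q + B * F = C r := by
  have hinj : Function.Injective (algebraMap (Polynomial ℂ) KK) := IsFractionRing.injective _ _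
  have hprim : Q.IsPrimitive := hQ.isPrimitive hd
  have hirr : Irreducible (Q.map (algebraMap (Polynomial ℂ) KK)) :=
    (hprim.irreducible_iff_irreducible_map_fraction_map).1 hQ
  have hnd : ¬ Q.map (algebraMap (Polynomial ℂ) KK) ∣ F.map (algebraMap (Polynomial ℂ) KK) := by
    intro h1
    exact h (hprim.dvd_of_fraction_map_dvd_fraction_map h1)
  have hcop : IsCoprime (Q.map (algebraMap (Polynomial ℂ) KK)) (F.map (algebraMap (Polynomial ℂ) KK)) :=
    (hirr.coprime_iff_not_dvd).2 hnd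
  obtain ⟨a, b, hab⟩ := hcop
  obtain ⟨r₁, hr₁, h1⟩ := IsLocalization.integerNormalization_spec (nonZeroDivisors (Polynomial ℂ)) a
  obtain ⟨r₂, hr₂, h2⟩ := IsLocalization.integerNormalization_spec (nonZeroDivisors (Polynomial ℂ)) b
  set A := IsLocalization.integerNormalization (nonZeroDivisors (Polynomial ℂ)) a with hA
  set B := IsLocalization.integerNormalization (nonZeroDivisors (Polynomial ℂ)) b with hB
  refine ⟨C r₂ * A, C r₁ * B, r₁ * r₂, mul_ne_zero (nonZeroDivisors.ne_zero hr₁)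
    (nonZeroDivisors.ne_zero hr₂), ?_⟩
  apply Polynomial.map_injective _ hinj
  simp only [Polynomial.map_add, Polynomial.map_mul, Polynomial.map_C, h1, h2]
  have e1 : ∀ (r : Polynomial ℂ) (p : Polynomial KK), r • p = C (algebraMap (Polynomial ℂ) KK r) * p := by
    intro r p
    rw [← Polynomial.smul_eq_C_mul, algebraMap_smul]
  rw [e1, e1, map_mul, C_mul]
  linear_combination C (algebraMap (Polynomial ℂ) KK r₁) * C (algebraMap (Polynomial ℂ) KK r₂) * hab

theorem dvd_of_infinite {Q F : Biv} (hQ : Irreducible Q) (hd : Q.natDegree ≠ 0)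
    (h : {z : ℂ | ∃ w, ev Q z w = 0 ∧ ev F z w = 0}.Infinite) : Q ∣ F := by
  by_contra hcon
  obtain ⟨A, B, r, hr, hab⟩ := bezout hQ hd hcon
  apply h
  refine (r.rootSet_finite ℂ).subset ?_
  rintro z ⟨w, h1, h2⟩
  rw [Polynomial.mem_rootSet]
  refine ⟨hr, ?_⟩
  have := congrArg (fun P => ev P z w) hab
  simp only [ev_add, ev_mul, ev_C, h1, h2, mul_zero, add_zero] at this
  simpa using this.symm

theorem ev_of_dvd {Q F : Biv} (h : Q ∣ F) {z w : ℂ} (h0 : ev Q z w = 0) : ev F z w = 0 := by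
  obtain ⟨R, rfl⟩ := h
  rw [ev_mul, h0, zero_mul]

/-- Outside a finite set the leading coefficient does not vanish and the roots are simple. -/
theorem exists_bad {Q : Biv} (hQ : Irreducible Q) (hd : Q.natDegree ≠ 0) :
    ∃ S : Set ℂ, S.Finite ∧ ∀ z ∉ S, (Q.leadingCoeff).eval z ≠ 0 ∧
      ∀ w, ev Q z w = 0 → ev (dw Q) z w ≠ 0 := by
  have hQ0 : Q ≠ 0 := hQ.ne_zero
  have h1 : ¬ Q ∣ dw Q := by
    intro h
    have h2 : dw Q = 0 := by
      apply Polynomial.eq_zero_of_dvd_of_natDegree_lt h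
      unfold dw
      exact natDegree_derivative_lt hd
    exact hd (Polynomial.derivative_eq_zero.1 h2)
  obtain ⟨A, B, r, hr, hab⟩ := bezout hQ hd h1
  refine ⟨{z | (Q.leadingCoeff * r).eval z = 0}, ?_, ?_⟩
  · have := (Q.leadingCoeff * r).rootSet_finite ℂ
    refine this.subset ?_
    intro z hz
    rw [Polynomial.mem_rootSet]
    exact ⟨mul_ne_zero (leadingCoeff_ne_zero.2 hQ0) hr, by simpa using hz⟩
  · intro z hz
    simp only [mem_ofPred_eq, eval_mul, mul_eq_zero, not_or] at hz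
    refine ⟨hz.1, fun w hw h2 => hz.2 ?_⟩
    have := congrArg (fun P => ev P z w) hab
    simp only [ev_add, ev_mul, ev_C, hw, h2, mul_zero, add_zero] at this
    exact this.symm

end Pool.Agent.Stek
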