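import Pool.Agent.Lib.MP_bd8415_an.Alg.Bezout

/-!
# All branches of an algebraic curve over a small disc
-/

open Polynomial Filter Topology Metric Set Complex

namespace Pool.Agent.Stek

/-- The functions `φ j` are the roots of `Q(z,·)` on the disc `ball z₁ r`. -/
structure IsBranches (Q : Biv) (n : ℕ) (z₁ : ℂ) (r : ℝ) (φ : Fin n → ℂ → ℂ) : Prop where
  pos : 0 < r
  an : ∀ j, AnalyticOnNhd ℂ (φ j) (ball z₁ r)
  root : ∀ j, ∀ z ∈ ball z₁ r, ev Q z (φ j z) = 0
  inj : ∀ z ∈ ball z₁ r, Function.Injective fun j => φ j z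
  all : ∀ z ∈ ball z₁ r, ∀ w, ev Q z w = 0 → ∃ j, w = φ j z

theorem all_roots_of_injective {p : Polynomial ℂ} (hp : p ≠ 0) {n : ℕ} (hn : p.natDegree ≤ n)
    {f : Fin n → ℂ} (hf : Function.Injective f) (hr : ∀ j, p.eval (f j) = 0) {w : ℂ}
    (hw : p.eval w = 0) : ∃ j, w = f j := by
  have h1 : Finset.univ.image f ⊆ p.roots.toFinset := by
    intro x hx
    obtain ⟨j, -, rfl⟩ := Finset.mem_image.1 hx
    rw [Multiset.mem_toFinset, mem_roots hp]
    exact hr j
  have h2 : (Finset.univ.image f).card = n := by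
    rw [Finset.card_image_of_injective _ hf, Finset.card_univ, Fintype.card_fin]
  have h3 : p.roots.toFinset.card ≤ n :=
    (Multiset.toFinset_card_le _).trans ((card_roots' p).trans hn)
  have h4 := Finset.eq_of_subset_of_card_le h1 (by rw [h2]; exact h3)
  have h5 : w ∈ p.roots.toFinset := by
    rw [Multiset.mem_toFinset, mem_roots hp]; exact hw
  rw [← h4] at h5
  obtain ⟨j, -, hj⟩ := Finset.mem_image.1 h5
  exact ⟨j, hj.symm⟩

theorem sp_coeff (Q : Biv) (z : ℂ) (i : ℕ) : (sp Q z).coeff i = (Q.coeff i).eval z := by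
  simp [sp]

theorem sp_natDegree_le (Q : Biv) (z : ℂ) : (sp Q z).natDegree ≤ Q.natDegree :=
  natDegree_map_le

theorem sp_ne_zero {Q : Biv} {z : ℂ} (h : Q.leadingCoeff.eval z ≠ 0) : sp Q z ≠ 0 := by
  intro h0
  apply h
  rw [leadingCoeff, ← sp_coeff, h0, coeff_zero]

theorem sp_natDegree {Q : Biv} {z : ℂ} (h : Q.leadingCoeff.eval z ≠ 0) :
    (sp Q z).natDegree = Q.natDegree := by
  apply le_antisymm (sp_natDegree_le Q z)
  apply le_natDegree_of_ne_zero
  rw [sp_coeff]
  exact h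

/-- The `n` distinct roots over a good point. -/
theorem exists_roots {Q : Biv} {z : ℂ} (h : Q.leadingCoeff.eval z ≠ 0)
    (hs : ∀ w, ev Q z w = 0 → ev (dw Q) z w ≠ 0) :
    ∃ u : Fin Q.natDegree → ℂ, Function.Injective u ∧ ∀ j, ev Q z (u j) = 0 := by
  have h0 := sp_ne_zero h
  have hnd : (sp Q z).roots.Nodup := by
    rw [Multiset.nodup_iff_count_le_one]
    intro a
    rw [count_roots]
    by_contra hcon
    push Not at hcon
    have ha : (sp Q z).IsRoot a := by
      rw [← rootMultiplicity_pos h0]; omega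
    have h1 : (derivative (sp Q z)).IsRoot a := by
      have := (one_lt_rootMultiplicity_iff_isRoot h0).1 hcon
      exact this.2
    rw [IsRoot, ← sp_dw, sp_eval] at h1
    rw [IsRoot, sp_eval] at ha
    exact hs a ha h1
  have hcard : (sp Q z).roots.toFinset.card = Q.natDegree := by
    rw [Multiset.toFinset_card_of_nodup hnd, ← sp_natDegree h]
    exact (IsAlgClosed.card_roots_eq_natDegree)
  have e := (sp Q z).roots.toFinset.equivFinOfCardEq hcard
  refine ⟨fun j => (e.symm j : ℂ), fun i j hij => ?_, fun j => ?_⟩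
  · exact e.symm.injective (Subtype.ext hij)
  · have := (e.symm j).2
    rw [Multiset.mem_toFinset, mem_roots h0, IsRoot, sp_eval] at this
    exact this

theorem exists_branches {Q : Biv} {z₁ : ℂ} (h : Q.leadingCoeff.eval z₁ ≠ 0)
    (hs : ∀ w, ev Q z₁ w = 0 → ev (dw Q) z₁ w ≠ 0) {U : Set ℂ} (hU : U ∈ 𝓝 z₁) :
    ∃ (r : ℝ) (φ : Fin Q.natDegree → ℂ → ℂ), IsBranches Q Q.natDegree z₁ r φ ∧ ball z₁ r ⊆ U := by
  obtain ⟨u, hu, hr⟩ := exists_roots h hs
  choose φ h1 h2 h3 using fun j => local_branch Q (hr j) (hs _ (hr j))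
  have e1 : ∀ᶠ z in 𝓝 z₁, ∀ j, AnalyticAt ℂ (φ j) z :=
    eventually_all.2 fun j => (h1 j).eventually_analyticAt
  have e2 : ∀ᶠ z in 𝓝 z₁, ∀ j, ev Q z (φ j z) = 0 := by
    refine eventually_all.2 fun j => ?_
    have hc : Tendsto (fun z => (z, φ j z)) (𝓝 z₁) (𝓝 (z₁, u j)) := by
      have := (continuousAt_id (x := z₁)).prodMk (h1 j).continuousAt
      have e : ((id z₁, φ j z₁) : ℂ × ℂ) = (z₁, u j) := by rw [h2]; rfl
      simpa [ContinuousAt, e, h2 j] using this
    filter_upwards [hc.eventually (h3 j)] with z hz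
    exact hz.2 rfl
  have e3 : ∀ᶠ z in 𝓝 z₁, ∀ i j, i ≠ j → φ i z ≠ φ j z := by
    refine eventually_all.2 fun i => eventually_all.2 fun j => ?_
    by_cases hij : i = j
    · exact Eventually.of_forall fun z h => absurd hij h
    · have : φ i z₁ ≠ φ j z₁ := by rw [h2, h2]; exact fun h => hij (hu h)
      filter_upwards [((h1 i).continuousAt.ne_iff_eventually_ne (h1 j).continuousAt).1 this]
        with z hz _ using hz
  have e4 : ∀ᶠ z in 𝓝 z₁, Q.leadingCoeff.eval z ≠ 0 :=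
    (Polynomial.continuous Q.leadingCoeff).continuousAt.eventually_ne h
  obtain ⟨r, hr0, hball⟩ := Metric.eventually_nhds_iff_ball.1
    (e1.and (e2.and (e3.and (e4.and hU))))
  refine ⟨r, φ, ⟨hr0, fun j z hz => (hball z hz).1 j, fun j z hz => (hball z hz).2.1 j,
    fun z hz i j hij => ?_, fun z hz w hw => ?_⟩, fun z hz => (hball z hz).2.2.2.2⟩
  · by_contra hne
    exact (hball z hz).2.2.1 i j hne hij
  · obtain ⟨-, b2, b3, b4, -⟩ := hball z hz
    refine all_roots_of_injective (sp_ne_zero b4) (sp_natDegree_le Q z) (f := fun j => φ j z) ?_ ?_ ?_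
    · intro i j hij
      by_contra hne
      exact b3 i j hne hij
    · intro j; rw [sp_eval]; exact b2 j
    · rw [sp_eval]; exact hw

/-- Near a point of the graph of `φ j` the curve is this graph. -/
theorem IsBranches.eventually_eq {Q : Biv} {n : ℕ} {z₁ : ℂ} {r : ℝ} {φ : Fin n → ℂ → ℂ}
    (h : IsBranches Q n z₁ r φ) {z : ℂ} (hz : z ∈ ball z₁ r) (j : Fin n) :
    ∀ᶠ p : ℂ × ℂ in 𝓝 (z, φ j z), ev Q p.1 p.2 = 0 → p.2 = φ j p.1 := by
  have e1 : ∀ᶠ p : ℂ × ℂ in 𝓝 (z, φ j z), p.1 ∈ ball z₁ r :=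
    (continuous_fst.tendsto _).eventually (isOpen_ball.mem_nhds hz)
  have e2 : ∀ᶠ p : ℂ × ℂ in 𝓝 (z, φ j z), ∀ i, i ≠ j → p.2 ≠ φ i p.1 := by
    refine eventually_all.2 fun i => ?_
    by_cases hij : i = j
    · exact Eventually.of_forall fun _ h => absurd hij h
    · have hne : φ j z ≠ φ i z := fun hh => hij (h.inj z hz hh).symm
      have c1 : ContinuousAt (fun p : ℂ × ℂ => p.2) (z, φ j z) := continuousAt_snd
      have c2 : ContinuousAt (fun p : ℂ × ℂ => φ i p.1) (z, φ j z) :=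
        ContinuousAt.comp (g := φ i) (f := Prod.fst) ((h.an i z hz).continuousAt) continuousAt_fst
      filter_upwards [(c1.ne_iff_eventually_ne c2).1 hne] with p hp _ using hp
  filter_upwards [e1, e2] with p h1 h2 h3
  obtain ⟨i, hi⟩ := h.all p.1 h1 p.2 h3
  by_cases hij : i = j
  · rw [hi, hij]
  · exact absurd hi (h2 i hij)

end Pool.Agent.Stek
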