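import Pool.Agent.Lib.MP_bd8415_an.CsFinal2

/-!
# A boundary curve with finitely many centres is a circle
-/

open Filter Topology Metric Set Complex Bornology

namespace Pool.Agent.Stek

/-- `grad ρ z / ‖grad ρ z‖` is the unit normal `ν z`; the centre `z - r ν z` takes finitely many values on
the closed and relatively open part `{ρ = 0} ∩ V` of the boundary.
Proof sketch. The centre map is continuous on `Σ = {ρ = 0} ∩ V` (`ρ` is `C¹`) with values in the finite
set `T`, so near each `z ∈ Σ` it is constant on `Σ`: for `y ∈ Σ` near `z`, `y - r ν y = c z`, hence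
`‖y - c z‖ = r`. Fix `z₁ ∈ Σ`, `z₀ = c z₁`, `v = z₁ - z₀`. The set of the `θ : ℝ` with
`polar z₀ v (1, θ) ∈ Σ` and centre `z₀` is closed (`hcl`), nonempty (`θ = 0`) and open by `fill_circle`
(file CsFinal2; the centre is constant near); so it is all of `ℝ`, and the whole circle
`‖w - z₀‖ = r` consists of zeros of `ρ`. From there on copy the end of the proof of `csfinal2`
(file CsFinal2, from `have hall` on: `hsep`, `hpos`, `hball`; there `hholes : IsConnected {0 < ρ}` is
what is called `hholes` here). -/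
theorem disk_of_centres {ρ : ℂ → ℝ} (hρ : ContDiff ℝ 1 ρ)
    (hgrad : ∀ z : ℂ, ρ z = 0 → fderiv ℝ ρ z ≠ 0)
    (hbdd : Bornology.IsBounded {z : ℂ | ρ z < 0}) (hconn : IsConnected {z : ℂ | ρ z < 0})
    (hholes : IsConnected {z : ℂ | 0 < ρ z}) {V : Set ℂ} (hV : IsOpen V)
    (hcl : IsClosed ({z : ℂ | ρ z = 0} ∩ V)) (hne : ({z : ℂ | ρ z = 0} ∩ V).Nonempty)
    {r : ℝ} (hr : 0 < r) {T : Set ℂ} (hT : T.Finite)
    (hc : ∀ z ∈ V, ρ z = 0 → z - ((r / ‖grad ρ z‖ : ℝ) : ℂ) * grad ρ z ∈ T) :
    ∃ z₀ : ℂ, {z : ℂ | ρ z < 0} = ball z₀ r := by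
  have hρd : Differentiable ℝ ρ := hρ.differentiable one_ne_zero
  have hfd : Continuous (fderiv ℝ ρ) := hρ.continuous_fderiv one_ne_zero
  have hgc : Continuous (grad ρ) := by
    unfold grad
    fun_prop
  set c : ℂ → ℂ := fun z => z - ((r / ‖grad ρ z‖ : ℝ) : ℂ) * grad ρ z with hcdef
  have hg0 : ∀ z, ρ z = 0 → 0 < ‖grad ρ z‖ := fun z hz =>
    norm_pos_iff.2 (grad_ne_zero (hgrad z hz))
  have hnorm : ∀ z, ρ z = 0 → ‖z - c z‖ = r := by
    intro z hz
    have h := hg0 z hz
    have e : z - c z = ((r / ‖grad ρ z‖ : ℝ) : ℂ) * grad ρ z := by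
      rw [hcdef]
      ring
    rw [e, norm_mul, Complex.norm_real, Real.norm_eq_abs, abs_of_pos (by positivity)]
    field_simp
  have hcc : ∀ z, ρ z = 0 → ContinuousAt c z := by
    intro z hz
    have h := (hg0 z hz).ne'
    have h1 : ContinuousAt (fun z => r / ‖grad ρ z‖) z :=
      continuousAt_const.div hgc.norm.continuousAt h
    have h2 : ContinuousAt (fun z => ((r / ‖grad ρ z‖ : ℝ) : ℂ)) z :=
      Complex.continuous_ofReal.continuousAt.comp h1
    exact continuousAt_id.sub (h2.mul hgc.continuousAt)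
  have hloc : ∀ z, ρ z = 0 → ∀ᶠ y in 𝓝 z, ρ y = 0 → y ∈ V → c y = c z := by
    intro z hz
    have h1 : IsOpen (T \ {c z})ᶜ := (hT.subset sdiff_subset).isClosed.isOpen_compl
    have h2 : (T \ {c z})ᶜ ∈ 𝓝 (c z) := h1.mem_nhds (fun h => h.2 rfl)
    filter_upwards [(hcc z hz).eventually h2] with y hy hy0 hyV
    by_contra hne
    exact hy ⟨hc y hyV hy0, hne⟩
  obtain ⟨z₁, hz₁, hz₁V⟩ := hne
  have hz₁' : ρ z₁ = 0 := hz₁
  set z₀ := c z₁ with hz₀
  have hfill : ∀ z, ρ z = 0 → z ∈ V → c z = z₀ →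
      ∀ᶠ w in 𝓝 z, ‖w - z₀‖ = r → (ρ w = 0 ∧ w ∈ V ∧ c w = z₀) := by
    intro z hz hzV hcz
    have h3 := fill_circle (z₀ := z₀) hρd (by rw [← hcz]; exact hnorm z hz) hr (hgrad z hz) hz (by
      filter_upwards [hV.mem_nhds hzV, hloc z hz] with w hw h1 hw0
      rw [← hcz, ← h1 hw0 hw]
      exact hnorm w hw0)
    filter_upwards [h3, hV.mem_nhds hzV, hloc z hz] with w h4 h5 h6 h7
    exact ⟨h4 h7, h5, (h6 (h4 h7) h5).trans hcz⟩
  -- the whole circle
  have hall : ∀ w, ‖w - z₀‖ = r → ρ w = 0 := by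
    set v := z₁ - z₀ with hv
    set S : Set ℝ := {θ : ℝ | polar z₀ v (1, θ) ∈ {z : ℂ | ρ z = 0} ∩ V ∧
      c (polar z₀ v (1, θ)) = z₀} with hS
    have hvr : ‖v‖ = r := hnorm z₁ hz₁'
    have hcont : Continuous (fun θ : ℝ => polar z₀ v (1, θ)) :=
      (polar_continuous z₀ v).comp (by fun_prop)
    have hScl : IsClosed S := by
      rw [← isOpen_compl_iff, isOpen_iff_mem_nhds]
      intro θ hθ
      by_cases h3 : polar z₀ v (1, θ) ∈ {z : ℂ | ρ z = 0} ∩ V
      · have h4 : c (polar z₀ v (1, θ)) ≠ z₀ := fun h => hθ ⟨h3, h⟩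
        have h5 := hcont.continuousAt.tendsto.eventually (hloc _ h3.1)
        filter_upwards [h5] with θ' hθ' h6
        exact h4 ((hθ' h6.1.1 h6.1.2).symm.trans h6.2)
      · have h4 := hcont.continuousAt.preimage_mem_nhds (hcl.isOpen_compl.mem_nhds h3)
        filter_upwards [h4] with θ' hθ' h6
        exact hθ' h6.1
    have hSo : IsOpen S := by
      rw [isOpen_iff_mem_nhds]
      rintro θ ⟨⟨h3, h4⟩, h5⟩
      have h6 := hcont.continuousAt.tendsto.eventually (hfill _ h3 h4 h5)
      filter_upwards [h6] with θ' hθ'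
      obtain ⟨h7, h8, h9⟩ := hθ' (by rw [polar_norm, abs_one, one_mul, hvr])
      exact ⟨⟨h7, h8⟩, h9⟩
    have hSne : S.Nonempty := by
      refine ⟨0, ?_⟩
      have e : polar z₀ v (1, 0) = z₁ := by
        rw [polar_one, hv, add_sub_cancel]
      show polar z₀ v (1, 0) ∈ {z : ℂ | ρ z = 0} ∩ V ∧ c (polar z₀ v (1, 0)) = z₀
      rw [e]
      exact ⟨⟨hz₁, hz₁V⟩, rfl⟩
    have hSu : S = univ := IsClopen.eq_univ ⟨hScl, hSo⟩ hSne
    intro w hw
    have hv0 : v ≠ 0 := norm_pos_iff.1 (by rw [hvr]; exact hr)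
    have h3 : Complex.arg ((w - z₀) / v) ∈ S := by rw [hSu]; trivial
    have h4 := h3.1.1
    have h5 : polar z₀ v (1, Complex.arg ((w - z₀) / v)) = w := by
      have h6 := Complex.norm_mul_exp_arg_mul_I ((w - z₀) / v)
      have h7 : ‖(w - z₀) / v‖ = 1 := by
        rw [norm_div, hw, hvr]; exact div_self hr.ne'
      rw [h7] at h6
      simp only [polar]
      rw [h6]
      field_simp
      ring
    rw [h5] at h4
    exact h4
  -- conclusion
  have hsep : ∀ S : Set ℂ, IsPreconnected S → (∀ z ∈ S, ρ z ≠ 0) →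
      (S ⊆ ball z₀ r ∨ S ⊆ {z | r < ‖z - z₀‖}) := by
    intro S hS hS0
    have hcover : S ⊆ ball z₀ r ∪ {z | r < ‖z - z₀‖} := by
      intro z hz
      rcases lt_trichotomy ‖z - z₀‖ r with h | h | h
      · left; rwa [mem_ball, dist_eq_norm]
      · exact absurd (hall z h) (hS0 z hz)
      · right; exact h
    have hdisj' : Disjoint (ball z₀ r) {z | r < ‖z - z₀‖} := by
      rw [Set.disjoint_left]
      intro z hz hz2
      rw [mem_ball, dist_eq_norm] at hz
      exact absurd hz2 (not_lt.2 hz.le)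
    exact hS.subset_or_subset isOpen_ball (isOpen_lt continuous_const (by fun_prop)) hdisj' hcover
  -- the positive set lies outside
  have hpos : {z : ℂ | 0 < ρ z} ⊆ {z | r < ‖z - z₀‖} := by
    rcases hsep _ hholes.isPreconnected (fun z hz => ne_of_gt hz) with h | h
    · exfalso
      obtain ⟨R, hR⟩ := hbdd.exists_norm_le
      -- a far point
      set x₀ : ℂ := z₀ + ((r + |R| + ‖z₀‖ + 1 : ℝ) : ℂ) with hx₀
      have hx₀n : ‖x₀ - z₀‖ = r + |R| + ‖z₀‖ + 1 := by
        rw [hx₀, add_sub_cancel_left, Complex.norm_real, Real.norm_eq_abs]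
        apply abs_of_pos
        positivity
      have hx₀R : |R| < ‖x₀‖ := by
        have := norm_sub_le x₀ z₀
        rw [hx₀n] at this
        linarith
      have hx₀pos : 0 ≤ ρ x₀ := by
        by_contra hcon
        push Not at hcon
        have := (hR x₀ hcon).trans (le_abs_self R)
        linarith
      have hx₀out : r < ‖x₀ - z₀‖ := by
        rw [hx₀n]
        have := abs_nonneg R
        have := norm_nonneg z₀
        linarith
      rcases lt_or_eq_of_le hx₀pos with h3 | h3
      · have := h h3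
        rw [mem_ball, dist_eq_norm] at this
        linarith
      · have h4 := zero_subset_closure (ρ := ρ) hρd h3.symm (hgrad x₀ h3.symm)
        have h5 : closure {w : ℂ | ρ w < 0} ⊆ closedBall 0 |R| := by
          apply closure_minimal _ isClosed_closedBall
          intro w hw
          rw [mem_closedBall, dist_zero_right]
          exact (hR w hw).trans (le_abs_self R)
        have h6 := h5 h4
        rw [mem_closedBall, dist_zero_right] at h6
        linarith
    · exact h
  have hball : ball z₀ r ⊆ {z : ℂ | ρ z < 0} := by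
    intro z hz
    have hz' : ‖z - z₀‖ < r := by rwa [mem_ball, dist_eq_norm] at hz
    rcases lt_trichotomy (ρ z) 0 with h | h | h
    · exact h
    · exfalso
      have h3 := zero_subset_closure (ρ := fun w => -ρ w) hρd.neg (z := z) (by rw [h, neg_zero]) (by
        rw [fderiv_fun_neg]
        exact neg_ne_zero.2 (hgrad z h))
      obtain ⟨w, hw1, hw2⟩ := mem_closure_iff.1 h3 (ball z₀ r) isOpen_ball hz
      have h4 : 0 < ρ w := by
        have : -ρ w < 0 := hw2
        linarith
      have h5 : r < ‖w - z₀‖ := hpos h4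
      rw [mem_ball, dist_eq_norm] at hw1
      linarith
    · exfalso
      have h5 : r < ‖z - z₀‖ := hpos h
      linarith
  refine ⟨z₀, Subset.antisymm ?_ hball⟩
  rcases hsep _ hconn.isPreconnected (fun z hz => ne_of_lt hz) with h | h
  · exact h
  · exfalso
    have h3 : z₀ ∈ {z : ℂ | ρ z < 0} := hball (mem_ball_self hr)
    have h4 := h h3
    simp only [mem_ofPred_eq, sub_self, norm_zero] at h4
    linarith

end Pool.Agent.Stek
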