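import Pool.Agent.Lib.MP_bd8415_an.CsFinal2

/-!
# The centre of a circular piece of the boundary
-/

open Filter Topology Metric Set Complex

namespace Pool.Agent.Stek

private theorem circDir_dir {ρ : ℂ → ℝ} {z z₀ : ℂ} {r : ℝ} (hρ : DifferentiableAt ℝ ρ z)
    (hfr : ∃ᶠ w in 𝓝[≠] z, ρ w = 0 ∧ ‖w - z₀‖ = r) :
    ∃ τ : ℂ, τ ≠ 0 ∧ fderiv ℝ ρ z τ = 0 ∧
      (z - z₀).re * τ.re + (z - z₀).im * τ.im = 0 := by
  by_contra hcon
  push Not at hcon
  set M : ℂ →L[ℝ] ℝ := 2 • (innerSL ℝ (z - z₀)).comp (ContinuousLinearMap.id ℝ ℂ) with hM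
  have hN : HasFDerivAt (fun w : ℂ => ‖w - z₀‖ ^ 2) M z :=
    ((hasFDerivAt_id z).sub_const z₀).norm_sq
  have hL : HasFDerivAt (fun w : ℂ => ((ρ w, ‖w - z₀‖ ^ 2) : ℝ × ℝ))
      ((fderiv ℝ ρ z).prod M) z := hρ.hasFDerivAt.prodMk hN
  have hker : LinearMap.ker (((fderiv ℝ ρ z).prod M : ℂ →L[ℝ] ℝ × ℝ) : ℂ →ₗ[ℝ] ℝ × ℝ) = ⊥ := by
    rw [LinearMap.ker_eq_bot']
    intro τ hτ
    by_contra hne
    have h1 : fderiv ℝ ρ z τ = 0 := congrArg Prod.fst hτ
    have h2 : M τ = 0 := congrArg Prod.snd hτ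
    apply hcon τ hne h1
    rw [hM] at h2
    simp [Complex.inner] at h2
    simp only [Complex.sub_re, Complex.sub_im]
    linarith [h2]
  obtain ⟨K, -, hK⟩ := LinearMap.exists_antilipschitzWith
    (((fderiv ℝ ρ z).prod M : ℂ →L[ℝ] ℝ × ℝ) : ℂ →ₗ[ℝ] ℝ × ℝ) hker
  have h1 := hL.eventually_ne (c := (0, r ^ 2)) ⟨K, hK⟩
  apply hfr
  filter_upwards [h1] with w hw h2
  apply hw
  rw [h2.1, h2.2]

/-- Proof sketch. `‖z - z₀‖ = r` by continuity. The map `w ↦ (ρ w, ‖w - z₀‖ ^ 2)` takes the value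
`(0, r ^ 2)` at points accumulating at `z`, so its derivative at `z` is not injective
(`HasFDerivAt.eventually_ne` and `LinearMap.exists_antilipschitzWith`; compare `exists_dir`, file
Alg/Rel): there is `τ ≠ 0` with `fderiv ℝ ρ z τ = 0` and `((z - z₀) * conj τ).re = 0`; with
`fderiv_eq_grad` (file Boundary) `grad ρ z = t (z - z₀)` for a real `t ≠ 0`. Since
`deriv G z * (z - z₀) = m a (z - z₀) ^ m` has real part `m (G z).re` (because `b.re = 0`), the boundary
condition reads `t m (G z).re = σ (G z).re |t| r = |t| m (G z).re`, so `t > 0`. -/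
theorem centre_of_circle {ρ : ℂ → ℝ} {z z₀ a b : ℂ} {r σ : ℝ} {m : ℕ} (hm : 1 ≤ m)
    (hρ : DifferentiableAt ℝ ρ z) (hg : grad ρ z ≠ 0) (hσ : 0 < σ) (hr : r = m / σ)
    (hfr : ∃ᶠ w in 𝓝[≠] z, ρ w = 0 ∧ ‖w - z₀‖ = r) {G : ℂ → ℂ}
    (hG : ∀ y, G y = a * (y - z₀) ^ m + b) (hb : b.re = 0)
    (hbc : (deriv G z * grad ρ z).re = σ * (G z).re * ‖grad ρ z‖) (hU : (G z).re ≠ 0) :
    z - ((r / ‖grad ρ z‖ : ℝ) : ℂ) * grad ρ z = z₀ := by
  have hm0 : (0 : ℝ) < m := by exact_mod_cast hm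
  have hr0 : 0 < r := by rw [hr]; positivity
  have hσr : σ * r = m := by rw [hr]; field_simp
  -- the norm
  have hzr : ‖z - z₀‖ = r := by
    by_contra hne
    have h1 : ∀ᶠ w in 𝓝 z, ‖w - z₀‖ ≠ r := by
      have hc : ContinuousAt (fun w : ℂ => ‖w - z₀‖) z := by fun_prop
      exact hc.eventually_ne hne
    apply hfr
    filter_upwards [h1.filter_mono nhdsWithin_le_nhds] with w hw h2
    exact hw h2.2
  obtain ⟨τ, hτ0, hτ1, hτ2⟩ := circDir_dir hρ hfr
  set v := z - z₀ with hv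
  set g := grad ρ z with hgdef
  rw [fderiv_eq_grad, ← hgdef] at hτ1
  have hcross : g.re * v.im - g.im * v.re = 0 := by
    have e1 : τ.re * (g.re * v.im - g.im * v.re) = 0 := by
      linear_combination v.im * hτ1 - g.im * hτ2
    have e2 : τ.im * (g.re * v.im - g.im * v.re) = 0 := by
      linear_combination (-v.re) * hτ1 + g.re * hτ2
    by_contra hne
    have e3 := (mul_eq_zero.1 e1).resolve_right hne
    have e4 := (mul_eq_zero.1 e2).resolve_right hne
    exact hτ0 (Complex.ext e3 e4)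
  have hvsq : v.re ^ 2 + v.im ^ 2 = r ^ 2 := by
    rw [← hzr, ← Complex.normSq_eq_norm_sq, Complex.normSq_apply]
    ring
  have hr2 : r ^ 2 ≠ 0 := by positivity
  obtain ⟨t, ht⟩ : ∃ t : ℝ, g = t * v := by
    refine ⟨(g.re * v.re + g.im * v.im) / r ^ 2, ?_⟩
    apply Complex.ext
    · simp only [Complex.mul_re, Complex.ofReal_re, Complex.ofReal_im, zero_mul, sub_zero]
      field_simp
      rw [← hvsq]
      linear_combination v.im * hcross
    · simp only [Complex.mul_im, Complex.ofReal_re, Complex.ofReal_im, zero_mul, add_zero]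
      field_simp
      rw [← hvsq]
      linear_combination (-v.re) * hcross
  have ht0 : t ≠ 0 := by
    rintro rfl
    apply hg
    rw [ht]
    simp
  have hgn : ‖g‖ = |t| * r := by
    rw [ht, norm_mul, hzr, Complex.norm_real, Real.norm_eq_abs]
  -- the derivative of `G`
  have hGd : deriv G z * v = m * (G z - b) := by
    have h1 : HasDerivAt G (a * (m * (z - z₀) ^ (m - 1) * 1)) z := by
      have h2 : HasDerivAt (fun y => a * (y - z₀) ^ m + b) (a * (m * (z - z₀) ^ (m - 1) * 1)) z :=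
        ((((hasDerivAt_id z).sub_const z₀).pow m).const_mul a).add_const b
      have h3 : G = fun y => a * (y - z₀) ^ m + b := funext hG
      rw [h3]
      exact h2
    rw [h1.deriv, hG z, ← hv]
    obtain ⟨k, rfl⟩ : ∃ k, m = k + 1 := ⟨m - 1, by omega⟩
    simp only [Nat.add_sub_cancel]
    ring
  have hre : (deriv G z * g).re = t * (m * (G z).re) := by
    have h1 : deriv G z * g = (t : ℂ) * (deriv G z * v) := by rw [ht]; ring
    rw [h1, hGd, Complex.re_ofReal_mul]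
    congr 1
    rw [← Complex.ofReal_natCast, Complex.re_ofReal_mul, Complex.sub_re, hb, sub_zero]
  have htpos : 0 < t := by
    rw [hre, hgn] at hbc
    have h2 : (m * (G z).re) * (t - |t|) = 0 := by
      linear_combination hbc + (G z).re * |t| * hσr
    have h3 : (m * (G z).re : ℝ) ≠ 0 := mul_ne_zero hm0.ne' hU
    have h4 := (mul_eq_zero.1 h2).resolve_left h3
    have h5 : t = |t| := by linarith
    rw [h5]
    exact abs_pos.2 ht0
  rw [hgn, abs_of_pos htpos, ht]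
  have htc : (t : ℂ) ≠ 0 := by exact_mod_cast ht0
  have hrc : (r : ℂ) ≠ 0 := by exact_mod_cast hr0.ne'
  have h6 : ((r / (t * r) : ℝ) : ℂ) * ((t : ℂ) * v) = v := by
    push_cast
    field_simp
  rw [h6, hv]
  ring

end Pool.Agent.Stek
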