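import Pool.Agent.Lib.MP_bd8415_an.Alg.Defs2

/-!
# An irreducible conic has a focus
-/

open Polynomial Filter Topology Metric Set Complex

namespace Pool.Agent.Stek

/-- A complex polynomial of degree `≤ 2` without simple roots is a square. -/
private theorem sq_of_no_simple {D : Polynomial ℂ} (hD : D.natDegree ≤ 2)
    (h : ∀ z, D.eval z = 0 → (derivative D).eval z = 0) : ∃ δ : Polynomial ℂ, D = δ ^ 2 := by
  by_cases h0 : D.natDegree = 0
  · obtain ⟨a, ha⟩ := natDegree_eq_zero.1 h0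
    obtain ⟨s, hs⟩ := IsAlgClosed.exists_pow_nat_eq a (n := 2) (by norm_num)
    exact ⟨C s, by rw [← ha, ← C_pow, hs]⟩
  · have hdeg : D.degree ≠ 0 := by
      intro h1
      exact h0 (natDegree_eq_of_degree_eq_some h1)
    obtain ⟨r, hr⟩ := IsAlgClosed.exists_root D hdeg
    have hr0 : D.eval r = 0 := hr
    obtain ⟨E, hE⟩ := dvd_iff_isRoot.2 hr
    have hD0 : D ≠ 0 := by
      intro h1; rw [h1] at h0; simp at h0
    have hE0 : E ≠ 0 := by
      intro h1; rw [h1, mul_zero] at hE; exact hD0 hE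
    have h1 : (derivative D).eval r = E.eval r := by
      rw [hE]
      simp
    have h2 : E.eval r = 0 := by rw [← h1]; exact h r hr0
    obtain ⟨F, hF⟩ := dvd_iff_isRoot.2 (show E.IsRoot r from h2)
    have hF0 : F ≠ 0 := by
      intro h1; rw [h1, mul_zero] at hF; exact hE0 hF
    have hdF : F.natDegree = 0 := by
      have e1 : D.natDegree = 1 + E.natDegree := by
        rw [hE, natDegree_mul (X_sub_C_ne_zero r) hE0, natDegree_X_sub_C]
      have e2 : E.natDegree = 1 + F.natDegree := by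
        rw [hF, natDegree_mul (X_sub_C_ne_zero r) hF0, natDegree_X_sub_C]
      omega
    obtain ⟨a, ha⟩ := natDegree_eq_zero.1 hdF
    obtain ⟨s, hs⟩ := IsAlgClosed.exists_pow_nat_eq a (n := 2) (by norm_num)
    refine ⟨C s * (X - C r), ?_⟩
    rw [hE, hF, ← ha, mul_pow, ← C_pow, hs]
    ring

/-- Proof sketch: `Δ = q₁ ^ 2 - C (4 c) * q₀` has degree `≤ 2`. If `Δ` is a square `δ ^ 2` in `ℂ[z]` then
`Q = C (C c) * (X - C r₁) * (X - C r₂)` with `r₁, r₂ = (-q₁ ± δ) / (2 c)` is not irreducible. A polynomial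
of degree `≤ 2` over `ℂ` without simple roots is a square, so `Δ` has a root `z₀` with
`Δ' (z₀) ≠ 0`. By the implicit function theorem (`local_branch`, file Basic, applied to the polynomial
`Δ(Z) - y` with inner variable `y` and outer variable `Z`, that is `Δ.map C - C X`) there is `Z`
analytic at `0` with `Z 0 = z₀` and `Δ (Z y) = y` near `0`. Put `a t = Z (t ^ 2)`,
`b t = (- q₁ (a t) + t) / (2 c)`. Then `Q(a t, b t) = 0`, `deriv a t = 2 t Z' (t ^ 2)` with `Z' 0 ≠ 0`,
`deriv b 0 = 1 / (2 c) ≠ 0` (because `deriv a 0 = 0`), so `deriv a * deriv b` has order `1` at `0`. -/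
theorem conic_focus {Q : Biv} (hQ : Irreducible Q) {c : ℂ} {q₁ q₀ : Polynomial ℂ} (hc : c ≠ 0)
    (h1 : q₁.natDegree ≤ 1) (h0 : q₀.natDegree ≤ 2)
    (hQf : Q = C (C c) * X ^ 2 + C q₁ * X + C q₀) :
    ∃ a b : ℂ → ℂ, AnalyticAt ℂ a 0 ∧ AnalyticAt ℂ b 0 ∧
      (∀ᶠ t in 𝓝 (0 : ℂ), ev Q (a t) (b t) = 0) ∧
      analyticOrderAt (fun t => deriv a t * deriv b t) 0 = ((2 * 0 + 1 : ℕ) : ℕ∞) := by
  set D : Polynomial ℂ := q₁ ^ 2 - C (4 * c) * q₀ with hDdef
  have hDdeg : D.natDegree ≤ 2 := by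
    rw [hDdef]
    refine (natDegree_sub_le _ _).trans (max_le ?_ ?_)
    · refine natDegree_pow_le.trans ?_
      omega
    · exact (natDegree_C_mul_le _ _).trans h0
  have h2c : (2 : ℂ) * c ≠ 0 := mul_ne_zero two_ne_zero hc
  have h4c : (4 : ℂ) * c ≠ 0 := mul_ne_zero (by norm_num) hc
  -- a simple root of the discriminant
  obtain ⟨z₀, hz₀, hz₀'⟩ : ∃ z₀, D.eval z₀ = 0 ∧ (derivative D).eval z₀ ≠ 0 := by
    by_contra hcon
    push Not at hcon
    obtain ⟨δ, hδ⟩ := sq_of_no_simple hDdeg hcon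
    have hfac : Q = (C (C (4 * c)⁻¹) * (C (C (2 * c)) * X + C (q₁ - δ))) *
        (C (C (2 * c)) * X + C (q₁ + δ)) := by
      have e1 : C (C (4 * c)) * Q = (C (C (2 * c)) * X + C (q₁ - δ)) *
          (C (C (2 * c)) * X + C (q₁ + δ)) := by
        have e2 : (C (q₁ - δ) : Biv) * C (q₁ + δ) = C (C (4 * c) * q₀) := by
          rw [← C_mul]
          congr 1
          have : D = δ ^ 2 := hδ
          rw [hDdef] at this
          linear_combination this
        have e3 : (C (q₁ - δ) : Biv) + C (q₁ + δ) = 2 * C q₁ := by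
          rw [← C_add]
          have : (2 : Biv) * C q₁ = C (2 * q₁) := by
            rw [C_mul]; rfl
          rw [this]
          congr 1
          ring
        have e4 : (C (C (4 * c)) : Biv) = 4 * C (C c) := by
          rw [C_mul, C_mul]; rfl
        have e5 : (C (C (2 * c)) : Biv) = 2 * C (C c) := by
          rw [C_mul, C_mul]; rfl
        rw [C_mul] at e2
        rw [hQf, e5]
        linear_combination (C (C c) * X ^ 2 + C q₁ * X) * e4 - e2 - 2 * C (C c) * X * e3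
      have e2 : (C (C (4 * c)⁻¹) : Biv) * C (C (4 * c)) = 1 := by
        rw [← C_mul, ← C_mul, inv_mul_cancel₀ h4c, C_1, C_1]
      rw [mul_assoc, ← e1, ← mul_assoc, e2, one_mul]
    have hnd : ∀ q : Polynomial ℂ, (C (C (2 * c)) * X + C q : Biv).natDegree = 1 := by
      intro q
      exact natDegree_linear (C_ne_zero.2 h2c)
    have hnu : ∀ P : Biv, P.natDegree = 1 → ¬ IsUnit P := by
      intro P hP hu
      have := natDegree_eq_zero_of_isUnit hu
      omega
    rcases hQ.isUnit_or_isUnit hfac with hu | hu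
    · exact hnu _ (hnd _) (isUnit_of_mul_isUnit_right hu)
    · exact hnu _ (hnd _) hu
  -- the local inverse of the discriminant
  have hev : ∀ y Z, ev (D.map C - C X) y Z = D.eval Z - y := by
    intro y Z
    unfold ev
    rw [evalEval_sub, evalEval_C, eval_X, evalEval_map_C]
  have hevw : ∀ y Z, ev (dw (D.map C - C X)) y Z = (derivative D).eval Z := by
    intro y Z
    unfold dw ev
    rw [derivative_sub, derivative_C, sub_zero, derivative_map, evalEval_map_C]
  obtain ⟨φ, hφ, hφ0, hφ1⟩ := local_branch (D.map C - C X) (z₁ := 0) (u := z₀)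
    (by rw [hev, hz₀, sub_zero]) (by rw [hevw]; exact hz₀')
  have hinv : ∀ᶠ y in 𝓝 (0 : ℂ), D.eval (φ y) = y := by
    have hc1 : Tendsto (fun y : ℂ => ((y, φ y) : ℂ × ℂ)) (𝓝 0) (𝓝 (0, z₀)) := by
      have := (continuousAt_id (x := (0 : ℂ))).prodMk hφ.continuousAt
      have h2 : Tendsto (fun y : ℂ => ((y, φ y) : ℂ × ℂ)) (𝓝 0) (𝓝 (0, φ 0)) := this
      rwa [hφ0] at h2
    filter_upwards [hc1.eventually hφ1] with y hy
    have := hy.2 rfl
    rw [hev] at this
    linear_combination this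
  have hφ' : deriv φ 0 ≠ 0 := by
    intro hzero
    have d1 : HasDerivAt φ (deriv φ 0) 0 := hφ.differentiableAt.hasDerivAt
    have d2 : HasDerivAt (fun y => D.eval (φ y)) ((derivative D).eval (φ 0) * deriv φ 0) 0 :=
      (D.hasDerivAt (φ 0)).comp (0 : ℂ) d1
    have d3 : HasDerivAt (fun y => D.eval (φ y)) 1 0 :=
      (hasDerivAt_id (0 : ℂ)).congr_of_eventuallyEq hinv
    have d4 := d2.unique d3
    rw [hzero, mul_zero] at d4
    exact zero_ne_one d4
  have hsq : AnalyticAt ℂ (fun t : ℂ => t ^ 2) 0 := analyticAt_id.pow 2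
  have hsq0 : (0 : ℂ) ^ 2 = 0 := by simp
  have ha : AnalyticAt ℂ (fun t : ℂ => φ (t ^ 2)) 0 := by
    exact hφ.fun_comp_of_eq hsq hsq0
  have hq : ∀ (p : Polynomial ℂ) (z : ℂ), AnalyticAt ℂ (fun z => p.eval z) z := fun p z =>
    p.differentiable.analyticAt z
  have hb : AnalyticAt ℂ (fun t : ℂ => (-q₁.eval (φ (t ^ 2)) + t) / (2 * c)) 0 := by
    have h2 : AnalyticAt ℂ (fun t : ℂ => q₁.eval (φ (t ^ 2))) 0 :=
      (hq q₁ (φ (0 ^ 2))).fun_comp_of_eq ha rfl
    exact (h2.neg.add analyticAt_id).div analyticAt_const h2c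
  have htend : Tendsto (fun t : ℂ => t ^ 2) (𝓝 0) (𝓝 0) := by
    have := hsq.continuousAt.tendsto
    rwa [hsq0] at this
  refine ⟨fun t => φ (t ^ 2), fun t => (-q₁.eval (φ (t ^ 2)) + t) / (2 * c), ha, hb, ?_, ?_⟩
  · filter_upwards [htend.eventually hinv] with t ht
    have e1 : ∀ z w, ev Q z w = c * w ^ 2 + q₁.eval z * w + q₀.eval z := by
      intro z w
      rw [hQf]
      simp [ev, evalEval_C]
    rw [e1]
    have e2 : D.eval (φ (t ^ 2)) = (q₁.eval (φ (t ^ 2))) ^ 2 - 4 * c * q₀.eval (φ (t ^ 2)) := by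
      rw [hDdef]; simp
    rw [e2] at ht
    field_simp
    linear_combination (-1 : ℂ) * ht
  · have hder : ∀ᶠ t in 𝓝 (0 : ℂ), deriv (fun t : ℂ => φ (t ^ 2)) t = 2 * t * deriv φ (t ^ 2) := by
      filter_upwards [htend.eventually hφ.eventually_analyticAt] with t ht
      have d1 : HasDerivAt (fun t : ℂ => t ^ 2) (2 * t) t := by
        simpa using hasDerivAt_pow 2 t
      have d2 : HasDerivAt (fun t : ℂ => φ (t ^ 2)) (deriv φ (t ^ 2) * (2 * t)) t :=
        HasDerivAt.comp t (h₂ := φ) (ht.differentiableAt.hasDerivAt) d1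
      rw [d2.deriv]; ring
    have hder0 : deriv (fun t : ℂ => φ (t ^ 2)) 0 = 0 := by
      rw [hder.self_of_nhds]; ring
    have hb0 : deriv (fun t : ℂ => (-q₁.eval (φ (t ^ 2)) + t) / (2 * c)) 0 = 1 / (2 * c) := by
      have d1 : HasDerivAt (fun t : ℂ => φ (t ^ 2)) 0 0 := by
        have := ha.differentiableAt.hasDerivAt
        rwa [hder0] at this
      have d2 : HasDerivAt (fun t : ℂ => q₁.eval (φ (t ^ 2)))
          ((derivative q₁).eval (φ (0 ^ 2)) * 0) 0 :=
        HasDerivAt.comp (0 : ℂ) (h₂ := fun z => q₁.eval z) (q₁.hasDerivAt (φ (0 ^ 2))) d1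
      have d3 := ((d2.neg.add (hasDerivAt_id (0 : ℂ))).div_const (2 * c)).deriv
      have e : deriv (fun t : ℂ => (-q₁.eval (φ (t ^ 2)) + t) / (2 * c)) 0 =
          (-((derivative q₁).eval (φ (0 ^ 2)) * 0) + 1) / (2 * c) := d3
      rw [e]; simp
    have hd : AnalyticAt ℂ (fun t : ℂ => deriv (fun t : ℂ => φ (t ^ 2)) t *
        deriv (fun t : ℂ => (-q₁.eval (φ (t ^ 2)) + t) / (2 * c)) t) 0 := ha.deriv.mul hb.deriv
    rw [hd.analyticOrderAt_eq_natCast]
    refine ⟨fun t => 2 * deriv φ (t ^ 2) *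
      deriv (fun t : ℂ => (-q₁.eval (φ (t ^ 2)) + t) / (2 * c)) t, ?_, ?_, ?_⟩
    · have h2 : AnalyticAt ℂ (fun t : ℂ => deriv φ (t ^ 2)) 0 := by
        exact hφ.deriv.fun_comp_of_eq hsq hsq0
      exact (analyticAt_const.mul h2).mul hb.deriv
    · simp only
      rw [hb0]
      refine mul_ne_zero (mul_ne_zero two_ne_zero ?_) (one_div_ne_zero h2c)
      simpa using hφ'
    · filter_upwards [hder] with t ht
      rw [ht, sub_zero, smul_eq_mul]
      ring

end Pool.Agent.Stek
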