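import Pool.Agent.Lib.MP_bd8415_an.Alg.Defs2

/-!
# A curve with one unbounded small branch at infinity is a conic
-/

open Polynomial Filter Topology Metric Set Complex

namespace Pool.Agent.Stek

private theorem cf_growth : ∀ (k : ℕ) (p : Polynomial ℂ) (A : ℝ),
    (∀ z : ℂ, 1 ≤ ‖z‖ → ‖p.eval z‖ ≤ A * ‖z‖ ^ k) → p.natDegree ≤ k := by
  intro k
  induction k with
  | zero =>
    intro p A h
    by_contra hcon
    have hd : 0 < p.degree := by
      rw [← natDegree_pos_iff_degree_pos]; omega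
    have ht : Tendsto (fun n : ℕ => ‖((n : ℂ) + 1)‖) atTop atTop := by
      have : (fun n : ℕ => ‖((n : ℂ) + 1)‖) = fun n : ℕ => (n : ℝ) + 1 := by
        ext n
        have : ((n : ℂ) + 1) = ((n + 1 : ℕ) : ℂ) := by push_cast; ring
        rw [this, Complex.norm_natCast]; push_cast; ring
      rw [this]
      exact tendsto_atTop_add_const_right _ _ tendsto_natCast_atTop_atTop
    have h2 := p.tendsto_norm_atTop hd ht
    obtain ⟨n, hn1, hn2⟩ := ((h2.eventually_gt_atTop A).and (ht.eventually_ge_atTop 1)).exists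
    have := h _ hn2
    rw [pow_zero, mul_one] at this
    linarith
  | succ k ih =>
    intro p A h
    have h1 : p.divX.natDegree ≤ k := by
      apply ih p.divX (A + ‖p.coeff 0‖)
      intro z hz
      have e : p.eval z = p.divX.eval z * z + p.coeff 0 := by
        conv_lhs => rw [← divX_mul_X_add p]
        simp
      have h3 := h z hz
      have h4 : ‖p.divX.eval z‖ * ‖z‖ ≤ ‖p.eval z‖ + ‖p.coeff 0‖ := by
        rw [← norm_mul]
        have : p.divX.eval z * z = p.eval z - p.coeff 0 := by rw [e]; ring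
        rw [this]
        exact norm_sub_le _ _
      have hz0 : 0 < ‖z‖ := by linarith
      have h5 : 1 ≤ ‖z‖ ^ (k + 1) := one_le_pow₀ hz
      have h6 : ‖p.divX.eval z‖ * ‖z‖ ≤ ((A + ‖p.coeff 0‖) * ‖z‖ ^ k) * ‖z‖ := by
        have : ((A + ‖p.coeff 0‖) * ‖z‖ ^ k) * ‖z‖ = A * ‖z‖ ^ (k + 1) + ‖p.coeff 0‖ * ‖z‖ ^ (k + 1) := by
          ring
        rw [this]
        have : ‖p.coeff 0‖ ≤ ‖p.coeff 0‖ * ‖z‖ ^ (k + 1) :=
          le_mul_of_one_le_right (norm_nonneg _) h5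
        linarith
      exact le_of_mul_le_mul_right h6 hz0
    rw [natDegree_divX_eq_natDegree_tsub_one] at h1
    omega

/-- All roots are `O(1 + ‖z‖)`. -/
private theorem cf_bound {Q : Biv} {S : Set ℂ} {α R : ℝ} (h : AtInf Q S α R) (hs : StarSym Q)
    {f : ℂ → ℂ} {β : ℂ} {K R₁ : ℝ} (hβ : β ≠ 0) (hR₁ : R < R₁) (hK : 0 ≤ K)
    (hf : ∀ z, R₁ ≤ ‖z‖ → ev Q z (f z) = 0 ∧ ‖f z‖ ≤ α * ‖z‖ ∧
      ∀ w, ev Q z w = 0 → ‖w‖ ≤ α * ‖z‖ → w = f z)
    (hlin : ∀ z, R₁ ≤ ‖z‖ → ‖f z - β * z‖ ≤ K) {z w : ℂ} (h0 : ev Q z w = 0) :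
    ‖w‖ ≤ R₁ + ‖z‖ / α + (‖z‖ + K) / ‖β‖ := by
  by_contra hcon
  push Not at hcon
  have hβ0 : 0 < ‖β‖ := norm_pos_iff.2 hβ
  have hα := h.hα0
  have hR := h.hR
  have n1 : 0 ≤ ‖z‖ / α := by positivity
  have n2 : 0 ≤ (‖z‖ + K) / ‖β‖ := by positivity
  have g1 : R₁ ≤ ‖(starRingEnd ℂ) w‖ := by rw [RCLike.norm_conj]; linarith
  have g2 : ‖z‖ / α < ‖w‖ := by linarith
  have g3 : (‖z‖ + K) / ‖β‖ < ‖w‖ := by linarith
  have g4 : ‖(starRingEnd ℂ) z‖ ≤ α * ‖(starRingEnd ℂ) w‖ := by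
    rw [RCLike.norm_conj, RCLike.norm_conj]
    rw [div_lt_iff₀ hα] at g2
    linarith
  have e := (hf _ g1).2.2 _ (hs.zero h0) g4
  have l := hlin _ g1
  rw [← e] at l
  have l2 : ‖β * (starRingEnd ℂ) w‖ ≤ ‖(starRingEnd ℂ) z‖ + K := by
    have : β * (starRingEnd ℂ) w = (starRingEnd ℂ) z -
        ((starRingEnd ℂ) z - β * (starRingEnd ℂ) w) := by ring
    rw [this]
    exact (norm_sub_le _ _).trans (by linarith)
  rw [norm_mul, RCLike.norm_conj, RCLike.norm_conj] at l2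
  rw [div_lt_iff₀ hβ0] at g3
  linarith

/-- For large `z` there is at most one root which is not small. -/
private theorem cf_unique {Q : Biv} {S : Set ℂ} {α R : ℝ} (h : AtInf Q S α R) (hs : StarSym Q)
    {f : ℂ → ℂ} {β : ℂ} {K R₁ : ℝ} (hβ : β ≠ 0) (hR₁ : R < R₁) (hK : 0 ≤ K)
    (hf : ∀ z, R₁ ≤ ‖z‖ → ev Q z (f z) = 0 ∧ ‖f z‖ ≤ α * ‖z‖ ∧
      ∀ w, ev Q z w = 0 → ‖w‖ ≤ α * ‖z‖ → w = f z)
    (hlin : ∀ z, R₁ ≤ ‖z‖ → ‖f z - β * z‖ ≤ K)
    (hder : ∀ z, R₁ ≤ ‖z‖ → DifferentiableAt ℂ f z ∧ ‖deriv f z - β‖ ≤ K / ‖z‖ ^ 2)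
    {z w w' : ℂ} (hz : R₁ + 3 * (K / ‖β‖) ≤ ‖z‖) (h0 : ev Q z w = 0) (h0' : ev Q z w' = 0)
    (hw : ¬ ‖w‖ ≤ α * ‖z‖) (hw' : ¬ ‖w'‖ ≤ α * ‖z‖) : w = w' := by
  have hβ0 : 0 < ‖β‖ := norm_pos_iff.2 hβ
  have hα := h.hα0
  have hα1 := h.hα1
  have hR := h.hR
  have hKβ : 0 ≤ K / ‖β‖ := by positivity
  have hρ0 : 0 < R₁ + K / ‖β‖ := by linarith
  have key : ∀ v : ℂ, ev Q z v = 0 → ¬ ‖v‖ ≤ α * ‖z‖ → ‖z‖ ≤ ‖(starRingEnd ℂ) v‖ ∧
      f ((starRingEnd ℂ) v) = (starRingEnd ℂ) z := by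
    intro v hv hv'
    have h1 := (h.sep z v hv (Or.inl (by linarith))).resolve_left hv'
    have h2 : ‖z‖ ≤ ‖(starRingEnd ℂ) v‖ := by
      rw [RCLike.norm_conj]
      have : α * ‖v‖ ≤ ‖v‖ := mul_le_of_le_one_left (norm_nonneg _) hα1.le
      linarith
    refine ⟨h2, ?_⟩
    have h3 := (hf _ (show R₁ ≤ ‖(starRingEnd ℂ) v‖ by linarith)).2.2 _ (hs.zero hv)
      (by rw [RCLike.norm_conj, RCLike.norm_conj]; exact h1)
    exact h3.symm
  obtain ⟨a1, a2⟩ := key w h0 hw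
  obtain ⟨b1, b2⟩ := key w' h0' hw'
  set y := (starRingEnd ℂ) w with hy
  set y' := (starRingEnd ℂ) w' with hy'
  have c1 : R₁ ≤ ‖y‖ := by linarith
  have c2 : R₁ ≤ ‖y'‖ := by linarith
  have l1 := hlin y c1
  have l2 := hlin y' c2
  rw [a2] at l1
  rw [b2] at l2
  have l3 : ‖β‖ * ‖y' - y‖ ≤ 2 * K := by
    rw [← norm_mul]
    have : β * (y' - y) = ((starRingEnd ℂ) z - β * y) - ((starRingEnd ℂ) z - β * y') := by ring
    rw [this]
    exact (norm_sub_le _ _).trans (by linarith)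
  have l4 : ‖y' - y‖ ≤ 2 * (K / ‖β‖) := by
    rw [← mul_div_assoc, le_div_iff₀ hβ0]; linarith
  have hball : ∀ x ∈ closedBall y (2 * (K / ‖β‖)), R₁ + K / ‖β‖ ≤ ‖x‖ := by
    intro x hx
    rw [mem_closedBall, dist_eq_norm] at hx
    have : ‖y‖ ≤ ‖x‖ + ‖x - y‖ := by
      have e : y = x - (x - y) := by ring
      calc ‖y‖ = ‖x - (x - y)‖ := by rw [← e]
        _ ≤ ‖x‖ + ‖x - y‖ := norm_sub_le _ _
    linarith
  have hmv := Convex.norm_image_sub_le_of_norm_deriv_le (𝕜 := ℂ) (f := fun x => f x - β * x)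
    (s := closedBall y (2 * (K / ‖β‖))) (C := K / (R₁ + K / ‖β‖) ^ 2) (x := y) (y := y')
    (by
      intro x hx
      have hx1 := hball x hx
      exact (hder x (by linarith)).1.sub (differentiableAt_id.const_mul β))
    (by
      intro x hx
      have hx1 := hball x hx
      obtain ⟨d1, d2⟩ := hder x (by linarith)
      have e : deriv (fun x => f x - β * x) x = deriv f x - β := by
        have := d1.hasDerivAt.sub ((hasDerivAt_id x).const_mul β)
        rw [mul_one] at this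
        exact this.deriv
      rw [e]
      refine d2.trans ?_
      apply div_le_div_of_nonneg_left hK (pow_pos hρ0 2)
      exact pow_le_pow_left₀ hρ0.le hx1 2)
    (convex_closedBall _ _) (mem_closedBall_self (by positivity))
    (by rw [mem_closedBall, dist_eq_norm]; exact l4)
  have e : (f y' - β * y') - (f y - β * y) = -(β * (y' - y)) := by rw [a2, b2]; ring
  rw [e, norm_neg, norm_mul] at hmv
  by_contra hne
  have hyy : y' ≠ y := by
    intro hh
    apply hne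
    have := congrArg (starRingEnd ℂ) hh
    rw [hy, hy', Complex.conj_conj, Complex.conj_conj] at this
    exact this.symm
  have hpos : 0 < ‖y' - y‖ := norm_pos_iff.2 (sub_ne_zero.2 hyy)
  have hmv2 : ‖β‖ ≤ K / (R₁ + K / ‖β‖) ^ 2 := le_of_mul_le_mul_right hmv hpos
  rw [le_div_iff₀ (by positivity)] at hmv2
  have m1 : 1 < R₁ + K / ‖β‖ := by linarith
  have m2 : K / ‖β‖ < (R₁ + K / ‖β‖) ^ 2 := by nlinarith
  rw [div_lt_iff₀ hβ0] at m2
  linarith

/-- `f z` is the only small root for large `z`, and `f z = β z + O(1)`, `f' z = β + O(1 / z ^ 2)`.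
Proof sketch. Write `z* = conj z`. By `StarSym.zero` the curve is invariant under `(z,w) ↦ (w*,z*)`.
(1) If `‖z‖ ≥ R₁` and `w` is a root which is not small, then `‖z‖ ≤ α ‖w‖` (`h.sep`), so `w*` is large, `z*`
is a small root over `w*`, hence `z* = f (w*)`. If two different such `w, w'` exist for the same large `z`
then `f (w*) = f (w'*)`, so `‖β‖ ‖w - w'‖ ≤ 2 K`, and then by the mean value inequality on the segment
(which stays in `{R₁ ≤ ‖y‖}` for large `z`) `‖β‖ ‖w - w'‖ ≤ K / (‖w‖ - 2 K / ‖β‖) ^ 2 * ‖w - w'‖`, impossible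
for large `z`. So there is at most one root which is not small.
(2) `Q.natDegree` is the number of roots over a good point (`exists_roots`, all roots simple), so it
is `≤ 2`. For large `y` the point `((f y)*, y*)` is on the curve, `‖f y‖` is large, and the root `y*` over
`(f y)*` is not small (`‖f y‖ ≤ α ‖y‖`), while `f ((f y)*)` is small: so `Q.natDegree = 2`.
(3) The leading coefficient `a = Q.coeff 2` has no zeros: if `a.eval z₁ = 0` then, near `z₁`, either all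
roots stay bounded along a sequence `z → z₁`, and then all coefficients of `Q` vanish at `z₁`
(`Q.coeff 1 = - a (w₁ + w₂)`, `Q.coeff 0 = a w₁ w₂`), so `X - C z₁` divides `Q`, contradiction to
irreducibility (`Irreducible.isPrimitive`); or there is a sequence of points `(z,w)` with `z → z₁`,
`‖w‖ → ∞`; then `z* = f (w*)` is unbounded, contradiction. So `a` is a nonzero constant.
(4) Every root over a large `z` is `O(‖z‖)`: small ones trivially, the others by
`‖β‖ ‖w‖ ≤ ‖z‖ + K`. So `‖(Q.coeff 1).eval z‖ = O(‖z‖)` and `‖(Q.coeff 0).eval z‖ = O(‖z‖ ^ 2)`, which bounds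
the degrees. -/
theorem conic_form {Q : Biv} {S : Set ℂ} {α R : ℝ} (h : AtInf Q S α R) (hs : StarSym Q)
    {f : ℂ → ℂ} {β : ℂ} {K R₁ : ℝ} (hβ : β ≠ 0) (hR₁ : R < R₁)
    (hf : ∀ z, R₁ ≤ ‖z‖ → ev Q z (f z) = 0 ∧ ‖f z‖ ≤ α * ‖z‖ ∧
      ∀ w, ev Q z w = 0 → ‖w‖ ≤ α * ‖z‖ → w = f z)
    (hlin : ∀ z, R₁ ≤ ‖z‖ → ‖f z - β * z‖ ≤ K)
    (hder : ∀ z, R₁ ≤ ‖z‖ → DifferentiableAt ℂ f z ∧ ‖deriv f z - β‖ ≤ K / ‖z‖ ^ 2) :
    ∃ (c : ℂ) (q₁ q₀ : Polynomial ℂ), c ≠ 0 ∧ q₁.natDegree ≤ 1 ∧ q₀.natDegree ≤ 2 ∧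
      Q = C (C c) * X ^ 2 + C q₁ * X + C q₀ := by
  have hβ0 : 0 < ‖β‖ := norm_pos_iff.2 hβ
  have hα := h.hα0
  have hα1 := h.hα1
  have hR := h.hR
  have hnR : ∀ r : ℝ, 0 ≤ r → ‖(r : ℂ)‖ = r := fun r hr => by
    rw [Complex.norm_real, Real.norm_of_nonneg hr]
  have hK : 0 ≤ K := by
    have := hlin (R₁ : ℂ) (by rw [hnR _ (by linarith)])
    exact (norm_nonneg _).trans this
  have hKβ : 0 ≤ K / ‖β‖ := by positivity
  -- natDegree ≤ 2
  have hdeg2 : Q.natDegree ≤ 2 := by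
    by_contra hcon
    push Not at hcon
    set z : ℂ := ((R₁ + 3 * (K / ‖β‖) : ℝ) : ℂ) with hz
    have hzn : ‖z‖ = R₁ + 3 * (K / ‖β‖) := hnR _ (by linarith)
    have hzS : z ∉ S := h.notMem (by rw [hzn]; linarith)
    obtain ⟨u, hu, hr⟩ := exists_roots (h.curve.lead z hzS) (h.curve.simple z hzS)
    have hfz := hf z (by rw [hzn]; linarith)
    have sm : ∀ i j, i ≠ j → ‖u i‖ ≤ α * ‖z‖ → ¬ ‖u j‖ ≤ α * ‖z‖ := by
      intro i j hij h1 h2
      exact hij (hu ((hfz.2.2 _ (hr i) h1).trans (hfz.2.2 _ (hr j) h2).symm))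
    have bg : ∀ i j, i ≠ j → ¬ ‖u i‖ ≤ α * ‖z‖ → ‖u j‖ ≤ α * ‖z‖ := by
      intro i j hij h1
      by_contra h2
      exact hij (hu (cf_unique h hs hβ hR₁ hK hf hlin hder hzn.ge (hr i) (hr j) h1 h2))
    have i01 : (⟨0, by omega⟩ : Fin Q.natDegree) ≠ ⟨1, by omega⟩ := by simp
    have i02 : (⟨0, by omega⟩ : Fin Q.natDegree) ≠ ⟨2, by omega⟩ := by simp
    have i12 : (⟨1, by omega⟩ : Fin Q.natDegree) ≠ ⟨2, by omega⟩ := by simp
    by_cases h0 : ‖u ⟨0, by omega⟩‖ ≤ α * ‖z‖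
    · have h1 := sm _ _ i01 h0
      have h2 := sm _ _ i02 h0
      exact h2 (bg _ _ i12 h1)
    · have h1 := bg _ _ i01 h0
      have h2 := bg _ _ i02 h0
      exact sm _ _ i12 h1 h2
  -- natDegree = 2
  have hdeg : Q.natDegree = 2 := by
    apply le_antisymm hdeg2
    set t : ℝ := R₁ + (R₁ + K) / ‖β‖ with ht
    have ht1 : R₁ ≤ t := by
      have : 0 ≤ (R₁ + K) / ‖β‖ := by
        have : 0 ≤ R₁ + K := by linarith
        positivity
      linarith
    have htn : ‖(t : ℂ)‖ = t := hnR _ (by linarith)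
    set y : ℂ := (t : ℂ) with hy
    have hy1 : R₁ ≤ ‖y‖ := by rw [htn]; exact ht1
    obtain ⟨f1, f2, f3⟩ := hf y hy1
    have l1 := hlin y hy1
    have l2 : ‖β‖ * ‖y‖ ≤ ‖f y‖ + K := by
      rw [← norm_mul]
      have : β * y = f y - (f y - β * y) := by ring
      rw [this]
      exact (norm_sub_le _ _).trans (by linarith)
    have l3 : R₁ ≤ ‖f y‖ := by
      have : R₁ + K ≤ ‖β‖ * ‖y‖ := by
        rw [htn, ht, mul_add, mul_div_cancel₀ _ hβ0.ne']
        have : 0 ≤ ‖β‖ * R₁ := by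
          have : 0 ≤ R₁ := by linarith
          positivity
        linarith
      linarith
    have hz1 : R₁ ≤ ‖(starRingEnd ℂ) (f y)‖ := by rw [RCLike.norm_conj]; exact l3
    obtain ⟨g1, g2, g3⟩ := hf _ hz1
    have r1 := hs.zero f1
    have hne : (starRingEnd ℂ) y ≠ f ((starRingEnd ℂ) (f y)) := by
      intro hh
      rw [← hh, RCLike.norm_conj, RCLike.norm_conj] at g2
      have : α * ‖f y‖ ≤ α * (α * ‖y‖) := mul_le_mul_of_nonneg_left f2 hα.le
      have hy0 : 0 < ‖y‖ := by linarith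
      nlinarith
    have hzS : (starRingEnd ℂ) (f y) ∉ S := h.notMem (by linarith)
    have hsp := sp_ne_zero (h.curve.lead _ hzS)
    have hsub : ({(starRingEnd ℂ) y, f ((starRingEnd ℂ) (f y))} : Finset ℂ) ⊆
        (sp Q ((starRingEnd ℂ) (f y))).roots.toFinset := by
      intro x hx
      rw [Finset.mem_insert, Finset.mem_singleton] at hx
      rw [Multiset.mem_toFinset, mem_roots hsp, IsRoot, sp_eval]
      rcases hx with rfl | rfl
      · exact r1
      · exact g1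
    have h2 := Finset.card_le_card hsub
    rw [Finset.card_pair hne] at h2
    exact (h2.trans (Multiset.toFinset_card_le _)).trans
      ((card_roots' _).trans (sp_natDegree_le Q _))
  -- coefficients
  have hev : ∀ z w, ev Q z w = (Q.coeff 0).eval z + (Q.coeff 1).eval z * w +
      (Q.coeff 2).eval z * w ^ 2 := by
    intro z w
    rw [ev_eq_sum, hdeg]
    simp [Finset.sum_range_succ]
  set B : ℂ → ℝ := fun z => R₁ + ‖z‖ / α + (‖z‖ + K) / ‖β‖ with hB
  have hBc : Continuous B := by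
    rw [hB]
    fun_prop
  have hB0 : ∀ z, 0 ≤ B z := by
    intro z
    rw [hB]
    have : 0 ≤ R₁ := by linarith
    positivity
  have hgood : ∀ z, z ∉ S → ‖(Q.coeff 1).eval z‖ ≤ ‖(Q.coeff 2).eval z‖ * (2 * B z) ∧
      ‖(Q.coeff 0).eval z‖ ≤ ‖(Q.coeff 2).eval z‖ * (B z) ^ 2 := by
    intro z hz
    obtain ⟨u, hu, hr⟩ := exists_roots (h.curve.lead z hz) (h.curve.simple z hz)
    set w₁ := u ⟨0, by omega⟩ with hw₁
    set w₂ := u ⟨1, by omega⟩ with hw₂
    have hne : w₁ ≠ w₂ := by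
      intro hh
      have := hu hh
      simp at this
    have e1 := hr ⟨0, by omega⟩
    have e2 := hr ⟨1, by omega⟩
    have b1 : ‖w₁‖ ≤ B z := cf_bound h hs hβ hR₁ hK hf hlin e1
    have b2 : ‖w₂‖ ≤ B z := cf_bound h hs hβ hR₁ hK hf hlin e2
    rw [← hw₁, hev] at e1
    rw [← hw₂, hev] at e2
    have s1 : (Q.coeff 1).eval z = -((Q.coeff 2).eval z * (w₁ + w₂)) := by
      have : (w₁ - w₂) * ((Q.coeff 1).eval z + (Q.coeff 2).eval z * (w₁ + w₂)) = 0 := by
        linear_combination e1 - e2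
      have := (mul_eq_zero.1 this).resolve_left (sub_ne_zero.2 hne)
      linear_combination this
    have s0 : (Q.coeff 0).eval z = (Q.coeff 2).eval z * (w₁ * w₂) := by
      rw [s1] at e1
      linear_combination e1
    constructor
    · rw [s1, norm_neg, norm_mul]
      apply mul_le_mul_of_nonneg_left _ (norm_nonneg _)
      exact (norm_add_le _ _).trans (by linarith)
    · rw [s0, norm_mul, norm_mul, sq]
      apply mul_le_mul_of_nonneg_left _ (norm_nonneg _)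
      exact mul_le_mul b1 b2 (norm_nonneg _) (hB0 z)
  have hall : ∀ z, ‖(Q.coeff 1).eval z‖ ≤ ‖(Q.coeff 2).eval z‖ * (2 * B z) ∧
      ‖(Q.coeff 0).eval z‖ ≤ ‖(Q.coeff 2).eval z‖ * (B z) ^ 2 := by
    have hc : IsClosed {z : ℂ | ‖(Q.coeff 1).eval z‖ ≤ ‖(Q.coeff 2).eval z‖ * (2 * B z) ∧
        ‖(Q.coeff 0).eval z‖ ≤ ‖(Q.coeff 2).eval z‖ * (B z) ^ 2} := by
      apply IsClosed.and
      · exact isClosed_le (Polynomial.continuous _).norm
          ((Polynomial.continuous _).norm.mul (continuous_const.mul hBc))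
      · exact isClosed_le (Polynomial.continuous _).norm
          ((Polynomial.continuous _).norm.mul (hBc.pow 2))
    have hd : Dense (Sᶜ : Set ℂ) := h.curve.fin.countable.dense_compl ℂ
    intro z
    exact hc.closure_subset_iff.2 (fun z hz => hgood z hz) (hd z)
  -- the leading coefficient has no zeros
  have hnz : ∀ z, (Q.coeff 2).eval z ≠ 0 := by
    intro z₁ hz₁
    have h12 := hall z₁
    rw [hz₁, norm_zero, zero_mul, zero_mul, norm_le_zero_iff, norm_le_zero_iff] at h12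
    have hprim := h.curve.irr.isPrimitive h.curve.deg
    have hdvd : C (X - C z₁) ∣ Q := by
      rw [C_dvd_iff_dvd_coeff]
      intro i
      rw [dvd_iff_isRoot, IsRoot]
      rcases Nat.lt_or_ge i 3 with hi | hi
      · interval_cases i
        · exact h12.2
        · exact h12.1
        · exact hz₁
      · rw [coeff_eq_zero_of_natDegree_lt (by omega), eval_zero]
    exact not_isUnit_X_sub_C z₁ (hprim _ hdvd)
  obtain ⟨c, hc⟩ : ∃ c, Q.coeff 2 = C c := by
    by_contra hcon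
    have : (Q.coeff 2).degree ≠ 0 := by
      intro h0
      exact hcon ⟨_, eq_C_of_degree_eq_zero h0⟩
    obtain ⟨x, hx⟩ := IsAlgClosed.exists_root _ this
    exact hnz x hx
  have hc0 : c ≠ 0 := by
    have := hnz 0
    rw [hc, eval_C] at this
    exact this
  obtain ⟨M, hM0, hM⟩ : ∃ M : ℝ, 0 ≤ M ∧ ∀ z : ℂ, 1 ≤ ‖z‖ → B z ≤ M * ‖z‖ := by
    refine ⟨R₁ + 1 / α + (1 + K) / ‖β‖, ?_, ?_⟩
    · have : 0 ≤ R₁ := by linarith
      positivity
    · intro z hz
      have h1 : R₁ ≤ R₁ * ‖z‖ := le_mul_of_one_le_right (by linarith) hz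
      have h2 : K ≤ K * ‖z‖ := le_mul_of_one_le_right hK hz
      have h3 : (‖z‖ + K) / ‖β‖ ≤ (1 + K) / ‖β‖ * ‖z‖ := by
        rw [div_mul_eq_mul_div]
        apply div_le_div_of_nonneg_right _ hβ0.le
        linarith
      have h4 : ‖z‖ / α = 1 / α * ‖z‖ := by ring
      show R₁ + ‖z‖ / α + (‖z‖ + K) / ‖β‖ ≤ _
      rw [h4]
      linarith
  refine ⟨c, Q.coeff 1, Q.coeff 0, hc0, ?_, ?_, ?_⟩
  · apply cf_growth 1 _ (‖c‖ * (2 * M))
    intro z hz
    have h1 := (hall z).1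
    rw [hc, eval_C] at h1
    refine h1.trans ?_
    rw [pow_one, mul_assoc]
    apply mul_le_mul_of_nonneg_left _ (norm_nonneg _)
    have := hM z hz
    linarith
  · apply cf_growth 2 _ (‖c‖ * M ^ 2)
    intro z hz
    have h1 := (hall z).2
    rw [hc, eval_C] at h1
    refine h1.trans ?_
    rw [mul_assoc, ← mul_pow]
    apply mul_le_mul_of_nonneg_left _ (norm_nonneg _)
    exact pow_le_pow_left₀ (hB0 z) (hM z hz) 2
  · conv_lhs => rw [Q.as_sum_range_C_mul_X_pow, hdeg]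
    rw [Finset.sum_range_succ, Finset.sum_range_succ, Finset.sum_range_one, hc]
    ring

end Pool.Agent.Stek
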