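import Pool.Agent.Lib.MP_bd8415_an.Poly

/-!
# Growth: a Gronwall inequality along rays
-/

open Complex Metric Set

namespace Pool.Agent.Stek

/-- Proof sketch: for `‖z‖ = r` large and `t ∈ [a, 1]` let `f t = G (t z)`;
`‖f' t‖ = ‖z‖ ‖deriv G (t z)‖ ≤ (C / t) (‖f t‖ + mx G (a t r)) ≤ (C / a) (‖f t‖ + mx G (a r))`. Gronwall
(`norm_le_gronwallBound_of_norm_deriv_right_le`) gives
`‖G z‖ ≤ C' (‖G (a z)‖ + mx G (a r)) ≤ 2 C' mx G (a r)`. So `mx G r ≤ max (2 C') 1 * mx G (a r)` for
large `r` (the maximum point may have smaller modulus: use `mx_mono`), and `poly_of_scale` (file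
Growth) applies. -/
theorem growth_gron {G : ℂ → ℂ} (hG : Differentiable ℂ G) {a C r₀ : ℝ} (ha0 : 0 < a)
    (ha1 : a < 1) (hC : 0 < C)
    (S : ∀ z, r₀ ≤ ‖z‖ → ‖deriv G z‖ ≤ C / ‖z‖ * (‖G z‖ + mx G (a * ‖z‖))) :
    ∃ (K' : ℝ) (D : ℕ), 0 ≤ K' ∧ ∀ r, 1 ≤ r → mx G r ≤ K' * r ^ D := by
  have hGc : Continuous G := hG.continuous
  set K := C / a with hK
  have hK0 : 0 < K := by positivity
  set E := Real.exp (K * (1 - a)) with hE
  have hE1 : 1 ≤ E := Real.one_le_exp (mul_nonneg hK0.le (by linarith))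
  refine poly_of_scale (f := mx G) (fun r s hr hs => mx_mono hGc hr hs)
    (fun r hr => mx_nonneg hGc hr) (β := a) (C := 2 * E) (r₀ := max 1 (r₀ / a ^ 2)) ha0 ha1 ?_
  intro r hr
  have hr1 : 1 ≤ r := (le_max_left _ _).trans hr
  have hr0 : 0 < r := by linarith
  have hr2 : r₀ ≤ a ^ 2 * r := by
    have := (le_max_right _ _).trans hr
    rw [div_le_iff₀ (by positivity)] at this
    linarith
  have hM0 : 0 ≤ mx G (a * r) := mx_nonneg hGc (by positivity)
  obtain ⟨z, hz, he⟩ := exists_mx hGc (r := r) hr0.le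
  rw [← he]
  by_cases hza : ‖z‖ ≤ a * r
  · calc ‖G z‖ ≤ mx G (a * r) := norm_le_mx hGc hza
      _ = 1 * mx G (a * r) := (one_mul _).symm
      _ ≤ 2 * E * mx G (a * r) := mul_le_mul_of_nonneg_right (by linarith) hM0
  · push Not at hza
    have hρ0 : 0 < ‖z‖ := lt_of_le_of_lt (by positivity) hza
    have hder : ∀ t : ℝ, HasDerivAt (fun t : ℝ => G ((t : ℂ) * z)) (deriv G ((t : ℂ) * z) * z) t := by
      intro t
      have h1 : HasDerivAt (fun t : ℝ => (t : ℂ) * z) ((1 : ℂ) * z) t := by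
        have h2 : HasDerivAt (fun t : ℝ => (t : ℂ)) 1 t := by
          simpa using (hasDerivAt_id t).ofReal_comp
        exact h2.mul_const z
      rw [one_mul] at h1
      exact (hG ((t : ℂ) * z)).hasDerivAt.comp t h1
    have hn : ∀ t : ℝ, 0 ≤ t → ‖(t : ℂ) * z‖ = t * ‖z‖ := by
      intro t ht
      rw [norm_mul, Complex.norm_real, Real.norm_of_nonneg ht]
    have hgr := norm_le_gronwallBound_of_norm_deriv_right_le (f := fun t : ℝ => G ((t : ℂ) * z))
      (f' := fun t : ℝ => deriv G ((t : ℂ) * z) * z) (δ := mx G (a * r)) (K := K)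
      (ε := K * mx G (a * r)) (a := a) (b := 1)
      (fun t _ => (hder t).continuousAt.continuousWithinAt)
      (fun t _ => (hder t).hasDerivWithinAt)
      (by
        apply norm_le_mx hGc
        rw [hn a ha0.le]
        exact mul_le_mul_of_nonneg_left hz ha0.le)
      (by
        intro t ht
        have ht0 : 0 < t := lt_of_lt_of_le ha0 ht.1
        have h1 : a ^ 2 * r ≤ t * ‖z‖ := by
          calc a ^ 2 * r = a * (a * r) := by ring
            _ ≤ t * ‖z‖ := mul_le_mul ht.1 hza.le (by positivity) ht0.le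
        have h2 := S ((t : ℂ) * z) (by rw [hn t ht0.le]; exact hr2.trans h1)
        rw [hn t ht0.le] at h2
        have h3 : mx G (a * (t * ‖z‖)) ≤ mx G (a * r) := by
          apply mx_mono hGc (by positivity)
          apply mul_le_mul_of_nonneg_left _ ha0.le
          calc t * ‖z‖ ≤ 1 * r := mul_le_mul ht.2.le hz (norm_nonneg _) zero_le_one
            _ = r := one_mul _
        calc ‖deriv G ((t : ℂ) * z) * z‖ = ‖deriv G ((t : ℂ) * z)‖ * ‖z‖ := norm_mul _ _
          _ ≤ C / (t * ‖z‖) * (‖G ((t : ℂ) * z)‖ + mx G (a * (t * ‖z‖))) * ‖z‖ :=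
            mul_le_mul_of_nonneg_right h2 (norm_nonneg _)
          _ = C / t * (‖G ((t : ℂ) * z)‖ + mx G (a * (t * ‖z‖))) := by
            field_simp
          _ ≤ K * (‖G ((t : ℂ) * z)‖ + mx G (a * r)) := by
            apply mul_le_mul _ (by linarith) _ hK0.le
            · exact div_le_div_of_nonneg_left hC.le ha0 ht.1
            · exact add_nonneg (norm_nonneg _) (mx_nonneg hGc (by positivity))
          _ = K * ‖G ((t : ℂ) * z)‖ + K * mx G (a * r) := by ring)
      1 ⟨ha1.le, le_rfl⟩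
    rw [gronwallBound_of_K_ne_0 hK0.ne'] at hgr
    simp only [Complex.ofReal_one, one_mul] at hgr
    rw [← hE, mul_div_cancel_left₀ _ hK0.ne'] at hgr
    calc ‖G z‖ ≤ mx G (a * r) * E + mx G (a * r) * (E - 1) := hgr
      _ ≤ 2 * E * mx G (a * r) := by nlinarith

end Pool.Agent.Stek
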