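import Pool.Agent.Lib.MP_bd8415_an.Poly

/-!
# Growth: two scale inequalities with a weight
-/

open Complex Metric Set

namespace Pool.Agent.Stek

/-- Exponents are real (`Real.rpow`). With `η = 1 - κ > 0`, by induction on `j` there are
`a' < 1`, `C'`, `r'` with `mx G r ≤ C' * (r ^ (K - j * η) + 1) * mx G (a' * r)` for `r' ≤ r`
(`j = 0` is S1; the step is S2 with Cauchy's estimate); once `K - j * η ≤ 0`, `poly_of_scale`
applies. -/
theorem growth_iter {G : ℂ → ℂ} (hG : Differentiable ℂ G)
    {a C r₀ K κ : ℝ} (ha0 : 0 < a) (ha1 : a < 1) (hC : 0 < C) (hK : 0 ≤ K) (hκ : κ < 1)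
    (S1 : ∀ z, r₀ ≤ ‖z‖ → ‖G z‖ ≤ C * ‖z‖ ^ K * mx G (a * ‖z‖))
    (S2 : ∀ z, r₀ ≤ ‖z‖ → ‖G z‖ ≤ C * (‖z‖ ^ κ * ‖deriv G z‖ + mx G (a * ‖z‖))) :
    ∃ (K' : ℝ) (D : ℕ), 0 ≤ K' ∧ ∀ r, 1 ≤ r → mx G r ≤ K' * r ^ D := by
  have hGc : Continuous G := hG.continuous
  have key : ∀ j : ℕ, ∃ a' C' r' : ℝ, 0 < a' ∧ a ≤ a' ∧ a' < 1 ∧ 0 < C' ∧ 1 ≤ r' ∧
      ∀ r, r' ≤ r → mx G r ≤ C' * (r ^ (K - j * (1 - κ)) + 1) * mx G (a' * r) := by
    intro j
    induction j with
    | zero =>
      refine ⟨a, C + 1, max 1 (r₀ / a), ha0, le_rfl, ha1, by positivity, le_max_left _ _, ?_⟩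
      intro r hr
      have hr1 : 1 ≤ r := (le_max_left _ _).trans hr
      have hr0 : 0 < r := by linarith
      have hra : r₀ ≤ a * r := by
        have := (le_max_right _ _).trans hr
        rw [div_le_iff₀ ha0] at this
        linarith
      have hm0 : 0 ≤ mx G (a * r) := mx_nonneg hGc (by positivity)
      have hrK : 0 ≤ r ^ K := Real.rpow_nonneg hr0.le _
      have hexp : K - ((0 : ℕ) : ℝ) * (1 - κ) = K := by simp
      rw [hexp]
      obtain ⟨z, hz, he⟩ := exists_mx hGc hr0.le
      rw [← he]
      by_cases hza : ‖z‖ ≤ a * r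
      · calc ‖G z‖ ≤ mx G (a * r) := norm_le_mx hGc hza
          _ = 1 * mx G (a * r) := (one_mul _).symm
          _ ≤ (C + 1) * (r ^ K + 1) * mx G (a * r) := by
            apply mul_le_mul_of_nonneg_right _ hm0
            nlinarith [mul_nonneg hC.le hrK]
      · push Not at hza
        have h1 := S1 z (hra.trans hza.le)
        have h2 : ‖z‖ ^ K ≤ r ^ K := Real.rpow_le_rpow (norm_nonneg _) hz hK
        have h3 : mx G (a * ‖z‖) ≤ mx G (a * r) :=
          mx_mono hGc (by positivity) (mul_le_mul_of_nonneg_left hz ha0.le)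
        calc ‖G z‖ ≤ C * ‖z‖ ^ K * mx G (a * ‖z‖) := h1
          _ ≤ C * r ^ K * mx G (a * r) := by
            apply mul_le_mul (mul_le_mul_of_nonneg_left h2 hC.le) h3
              (mx_nonneg hGc (by positivity)) (by positivity)
          _ ≤ (C + 1) * (r ^ K + 1) * mx G (a * r) := by
            apply mul_le_mul_of_nonneg_right _ hm0
            nlinarith [mul_nonneg hC.le hrK]
    | succ j ih =>
      obtain ⟨a', C', r', ha'0, haa', ha'1, hC', hr', hI⟩ := ih
      set E : ℝ := K - j * (1 - κ) with hE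
      have hE' : K - ((j + 1 : ℕ) : ℝ) * (1 - κ) = E + κ - 1 := by rw [hE]; push_cast; ring
      rw [hE']
      set b := (1 + a') / 2 with hb
      have hb0 : 0 < b := by positivity
      have hb1 : b < 1 := by rw [hb]; linarith
      have hab : a' < b := by rw [hb]; linarith
      set q := b / a' with hq
      have hq1 : 1 < q := by rw [hq, lt_div_iff₀ ha'0]; linarith
      have haq : a' * q = b := by rw [hq]; field_simp
      set δ := q - 1 with hδ
      have hδ0 : 0 < δ := by linarith
      have hqE : 0 < q ^ E := Real.rpow_pos_of_pos (by linarith) _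
      refine ⟨b, C * C' / δ * (q ^ E + 1) + C + 1, max (r' / b) (max (1 / b) (r₀ / b)), hb0,
        haa'.trans hab.le, hb1, by positivity, ?_, ?_⟩
      · apply le_trans _ ((le_max_left (1 / b) (r₀ / b)).trans (le_max_right _ _))
        rw [le_div_iff₀ hb0]; linarith
      intro r hr
      have h1b : 1 ≤ b * r := by
        have := (le_max_left (1 / b) (r₀ / b)).trans ((le_max_right (r' / b) _).trans hr)
        rw [div_le_iff₀ hb0] at this
        linarith
      have h0b : r₀ ≤ b * r := by
        have := (le_max_right (1 / b) (r₀ / b)).trans ((le_max_right (r' / b) _).trans hr)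
        rw [div_le_iff₀ hb0] at this
        linarith
      have h2b : r' ≤ b * r := by
        have := (le_max_left (r' / b) _).trans hr
        rw [div_le_iff₀ hb0] at this
        linarith
      have hr0 : 0 < r := by
        by_contra h
        push Not at h
        nlinarith
      have hm0 : 0 ≤ mx G (b * r) := mx_nonneg hGc (by positivity)
      have hrE : 0 ≤ r ^ (E + κ - 1) := Real.rpow_nonneg hr0.le _
      have hAA : 0 ≤ C * C' / δ * (q ^ E + 1) := by positivity
      obtain ⟨z, hz, he⟩ := exists_mx hGc hr0.le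
      rw [← he]
      by_cases hzb : ‖z‖ ≤ b * r
      · calc ‖G z‖ ≤ mx G (b * r) := norm_le_mx hGc hzb
          _ = 1 * mx G (b * r) := (one_mul _).symm
          _ ≤ (C * C' / δ * (q ^ E + 1) + C + 1) * (r ^ (E + κ - 1) + 1) * mx G (b * r) := by
            apply mul_le_mul_of_nonneg_right _ hm0
            nlinarith [mul_nonneg hAA hrE, mul_nonneg hC.le hrE]
      · push Not at hzb
        set t := ‖z‖ with ht
        have ht1 : 1 ≤ t := h1b.trans hzb.le
        have ht0 : 0 < t := by linarith
        have hS := S2 z (h0b.trans hzb.le)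
        rw [← ht] at hS
        -- Cauchy
        have hD : ‖deriv G z‖ ≤ mx G (q * t) / (δ * t) :=
          norm_deriv_le_mx hG (by positivity) (by rw [← ht, hδ]; linarith)
        have hqt : r' ≤ q * t := by nlinarith
        have hJ := hI (q * t) hqt
        have hab2 : a' * (q * t) = b * t := by rw [← mul_assoc, haq]
        rw [hab2] at hJ
        have hmb : mx G (b * t) ≤ mx G (b * r) :=
          mx_mono hGc (by positivity) (mul_le_mul_of_nonneg_left hz hb0.le)
        have hma : mx G (a * t) ≤ mx G (b * r) :=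
          mx_mono hGc (by positivity) (mul_le_mul (haa'.trans hab.le) hz ht0.le hb0.le)
        have hqtE : (q * t) ^ E = q ^ E * t ^ E := Real.mul_rpow (by linarith) ht0.le
        have htE : 0 ≤ t ^ E := Real.rpow_nonneg ht0.le _
        have hJ2 : mx G (q * t) ≤ C' * (q ^ E * t ^ E + 1) * mx G (b * r) := by
          refine hJ.trans ?_
          rw [hqtE]
          exact mul_le_mul_of_nonneg_left hmb (by positivity)
        have hκ1 : t ^ κ / t = t ^ (κ - 1) := by
          rw [Real.rpow_sub_one ht0.ne']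
        have hκ2 : t ^ (κ - 1) ≤ 1 :=
          Real.rpow_le_one_of_one_le_of_nonpos ht1 (by linarith)
        have hκ3 : t ^ (κ - 1) * t ^ E = t ^ (E + κ - 1) := by
          rw [← Real.rpow_add ht0]; ring_nf
        have hκ4 : t ^ (E + κ - 1) ≤ r ^ (E + κ - 1) + 1 := by
          rcases le_total 0 (E + κ - 1) with h | h
          · have := Real.rpow_le_rpow ht0.le hz h
            linarith
          · have := Real.rpow_le_one_of_one_le_of_nonpos ht1 h
            linarith
        have hκ0 : 0 ≤ t ^ (κ - 1) := Real.rpow_nonneg ht0.le _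
        have hfin : t ^ κ * ‖deriv G z‖
            ≤ C' / δ * (q ^ E * (r ^ (E + κ - 1) + 1) + 1) * mx G (b * r) := by
          calc t ^ κ * ‖deriv G z‖ ≤ t ^ κ * (mx G (q * t) / (δ * t)) :=
                mul_le_mul_of_nonneg_left hD (Real.rpow_nonneg ht0.le _)
            _ = (t ^ κ / t) * (mx G (q * t) / δ) := by field_simp
            _ = t ^ (κ - 1) * (mx G (q * t) / δ) := by rw [hκ1]
            _ ≤ t ^ (κ - 1) * ((C' * (q ^ E * t ^ E + 1) * mx G (b * r)) / δ) :=
                mul_le_mul_of_nonneg_left (div_le_div_of_nonneg_right hJ2 hδ0.le) hκ0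
            _ = C' / δ * (q ^ E * (t ^ (κ - 1) * t ^ E) + t ^ (κ - 1)) * mx G (b * r) := by
                field_simp
            _ = C' / δ * (q ^ E * t ^ (E + κ - 1) + t ^ (κ - 1)) * mx G (b * r) := by rw [hκ3]
            _ ≤ C' / δ * (q ^ E * (r ^ (E + κ - 1) + 1) + 1) * mx G (b * r) := by
                apply mul_le_mul_of_nonneg_right _ hm0
                apply mul_le_mul_of_nonneg_left _ (by positivity)
                have := mul_le_mul_of_nonneg_left hκ4 hqE.le
                linarith
        calc ‖G z‖ ≤ C * (t ^ κ * ‖deriv G z‖ + mx G (a * t)) := hS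
          _ ≤ C * (C' / δ * (q ^ E * (r ^ (E + κ - 1) + 1) + 1) * mx G (b * r)
                + mx G (b * r)) := by
              apply mul_le_mul_of_nonneg_left _ hC.le
              linarith
          _ = (C * C' / δ * (q ^ E * (r ^ (E + κ - 1) + 1) + 1) + C) * mx G (b * r) := by
              field_simp
          _ ≤ (C * C' / δ * (q ^ E + 1) + C + 1) * (r ^ (E + κ - 1) + 1) * mx G (b * r) := by
              apply mul_le_mul_of_nonneg_right _ hm0
              have hX : 0 ≤ C * C' / δ := by positivity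
              nlinarith [mul_nonneg hX hrE, mul_nonneg hC.le hrE]
  obtain ⟨j, hj⟩ := exists_nat_gt (K / (1 - κ))
  obtain ⟨a', C', r', ha'0, -, ha'1, hC', hr', hI⟩ := key j
  rw [div_lt_iff₀ (by linarith)] at hj
  refine poly_of_scale (f := mx G) (fun r s hr hrs => mx_mono hGc hr hrs)
    (fun r hr => mx_nonneg hGc hr) (β := a') (C := 2 * C') (r₀ := r') ha'0 ha'1 ?_
  intro r hr
  refine (hI r hr).trans ?_
  have hr1 : 1 ≤ r := hr'.trans hr
  have h1 : r ^ (K - j * (1 - κ)) ≤ 1 :=
    Real.rpow_le_one_of_one_le_of_nonpos hr1 (by linarith)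
  apply mul_le_mul_of_nonneg_right _ (mx_nonneg hGc (by positivity))
  nlinarith

end Pool.Agent.Stek
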