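import Pool.Agent.Lib.MP_bd8415_an.Alg.SlopeSep
import Pool.Agent.Lib.MP_bd8415_an.Alg.ConicForm
import Pool.Agent.Lib.MP_bd8415_an.Alg.ConicFocus
import Pool.Agent.Lib.MP_bd8415_an.Alg.GrowIter
import Pool.Agent.Lib.MP_bd8415_an.Alg.GrowGron
import Pool.Agent.Lib.MP_bd8415_an.Scale

/-!
# Entire data on a curve without real points at infinity are polynomial
-/

open Polynomial Filter Topology Metric Set Complex

namespace Pool.Agent.Stek

/-- The continued relation in terms of the slope. -/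
theorem rel_lam {Q : Biv} {S : Set ℂ} (h : Curve Q S) {G : ℂ → ℂ} {σ : ℝ}
    (hF : ∀ z ∉ S, ∀ w, ev Q z w = 0 → FF Q G σ z w = 0) {z w : ℂ} (hz : z ∉ S)
    (hw : ev Q z w = 0) :
    (deriv G z - lam Q z w * deriv (sh G) w) ^ 2 =
      -((σ : ℂ) ^ 2 * lam Q z w * (G z + sh G w) ^ 2) := by
  have h1 := hF z hz w hw
  have h2 := h.simple z hz w hw
  unfold FF at h1
  unfold lam
  set A := ev (dz Q) z w with hA
  set B := ev (dw Q) z w with hB
  field_simp
  linear_combination h1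

theorem lam_ne_zero {Q : Biv} {S : Set ℂ} (h : Curve Q S) {z w : ℂ} (hz : z ∉ S)
    (hw : ev Q z w = 0) : lam Q z w ≠ 0 :=
  div_ne_zero (neg_ne_zero.2 (h.slope z hz w hw)) (h.simple z hz w hw)

theorem sh_norm_le {G : ℂ → ℂ} (hG : Continuous G) {w : ℂ} {r : ℝ} (h : ‖w‖ ≤ r) :
    ‖sh G w‖ ≤ mx G r := by
  rw [sh, Complex.norm_conj]
  exact norm_le_mx hG (by rwa [Complex.norm_conj])

theorem deriv_sh_norm_le {G : ℂ → ℂ} (hG : Differentiable ℂ G) {w : ℂ} {r : ℝ}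
    (h : ‖w‖ + 1 ≤ r) : ‖deriv (sh G) w‖ ≤ mx G r := by
  rw [deriv_sh hG, Complex.norm_conj]
  have := norm_deriv_le_mx hG (z := (starRingEnd ℂ) w) (ρ := 1) (r := r) one_pos
    (by rwa [Complex.norm_conj])
  simpa using this

theorem root_le {x y c ρ : ℝ} {E : ℤ} {q : ℕ} (hq : q ≠ 0) (hx : 0 ≤ x) (hy : 0 ≤ y)
    (hc : 0 ≤ c) (hρ : 0 < ρ) (h : x ^ q ≤ c * ρ ^ E * y ^ q) :
    x ≤ c ^ ((q : ℝ)⁻¹) * ρ ^ ((E : ℝ) / q) * y := by
  have h1 := Real.rpow_le_rpow (by positivity) h (z := (q : ℝ)⁻¹) (by positivity)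
  rw [Real.pow_rpow_inv_natCast hx hq, Real.mul_rpow (by positivity) (by positivity),
    Real.pow_rpow_inv_natCast hy hq, Real.mul_rpow hc (by positivity), ← Real.rpow_intCast,
    ← Real.rpow_mul hρ.le, ← div_eq_mul_inv] at h1
  exact h1

theorem root_ge {x y c ρ : ℝ} {E : ℤ} {q : ℕ} (hq : q ≠ 0) (hx : 0 ≤ x) (hy : 0 ≤ y)
    (hc : 0 ≤ c) (hρ : 0 < ρ) (h : c * ρ ^ E * y ^ q ≤ x ^ q) :
    c ^ ((q : ℝ)⁻¹) * ρ ^ ((E : ℝ) / q) * y ≤ x := by
  have h1 := Real.rpow_le_rpow (by positivity) h (z := (q : ℝ)⁻¹) (by positivity)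
  rw [Real.pow_rpow_inv_natCast hx hq, Real.mul_rpow (by positivity) (by positivity),
    Real.pow_rpow_inv_natCast hy hq, Real.mul_rpow hc (by positivity), ← Real.rpow_intCast,
    ← Real.rpow_mul hρ.le, ← div_eq_mul_inv] at h1
  exact h1

theorem prod_upper {T : Finset ℂ} {f : ℂ → ℝ} {A Y : ℝ} (hA : 0 ≤ A)
    (h : ∀ w ∈ T, A ≤ f w * Y) : A ^ T.card ≤ (∏ w ∈ T, f w) * Y ^ T.card := by
  have h1 := Finset.prod_le_prod (s := T) (f := fun _ => A) (g := fun w => f w * Y)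
    (fun _ _ => hA) h
  rw [Finset.prod_const, Finset.prod_mul_distrib, Finset.prod_const] at h1
  exact h1

theorem prod_lower {T : Finset ℂ} {f : ℂ → ℝ} {A Y : ℝ} (hY : 0 ≤ Y) (hf : ∀ w, 0 ≤ f w)
    (h : ∀ w ∈ T, f w * Y ≤ A) : (∏ w ∈ T, f w) * Y ^ T.card ≤ A ^ T.card := by
  have h1 := Finset.prod_le_prod (s := T) (f := fun w => f w * Y) (g := fun _ => A)
    (fun w _ => mul_nonneg (hf w) hY) h
  rw [Finset.prod_const, Finset.prod_mul_distrib, Finset.prod_const] at h1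
  exact h1

/-- The pointwise inequalities on one small branch. -/
theorem one_branch {m A A' B B' : ℂ} {σ b X : ℝ}
    (h : (A' - m * B') ^ 2 = -((σ : ℂ) ^ 2 * m * (A + B) ^ 2))
    (hB : ‖B‖ ≤ b) (hB' : ‖B'‖ ≤ b) (hX : 0 ≤ X) (hm : ‖m‖ ≤ X ^ 2) :
    ‖A'‖ ^ 2 ≤ ‖m‖ * ((|σ| + X) * (‖A‖ + b)) ^ 2 ∧
    (2 * (X + |σ|) * b ≤ |σ| * ‖A‖ → ‖m‖ * (|σ| / 2 * ‖A‖) ^ 2 ≤ ‖A'‖ ^ 2) := by
  obtain ⟨τ, ht, hr⟩ := exists_tau h
  have hb : 0 ≤ b := (norm_nonneg _).trans hB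
  have n1 : ‖τ‖ ^ 2 = ‖m‖ := by rw [← norm_pow, ht, norm_neg]
  have hτX : ‖τ‖ ≤ X := by
    apply le_of_sq_le_sq _ hX
    rw [n1]; exact hm
  have hσ : 0 ≤ |σ| := abs_nonneg _
  have hτ0 : 0 ≤ ‖τ‖ := norm_nonneg _
  have e1 : A' = σ * τ * (A + B) - τ ^ 2 * B' := by linear_combination hr
  have u1 : ‖A'‖ ≤ ‖τ‖ * ((|σ| + X) * (‖A‖ + b)) := by
    calc ‖A'‖ ≤ ‖(σ : ℂ) * τ * (A + B)‖ + ‖τ ^ 2 * B'‖ := by rw [e1]; exact norm_sub_le _ _
      _ = |σ| * ‖τ‖ * ‖A + B‖ + ‖τ‖ ^ 2 * ‖B'‖ := by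
        rw [norm_mul, norm_mul, norm_mul, norm_pow, Complex.norm_real, Real.norm_eq_abs]
      _ ≤ |σ| * ‖τ‖ * (‖A‖ + b) + ‖τ‖ * X * (‖A‖ + b) := by
        have h1 : ‖A + B‖ ≤ ‖A‖ + b := (norm_add_le _ _).trans (by linarith)
        have h2 : ‖τ‖ ^ 2 * ‖B'‖ ≤ ‖τ‖ * X * (‖A‖ + b) := by
          rw [sq]
          apply mul_le_mul _ (by linarith [norm_nonneg A]) (norm_nonneg _) (by positivity)
          exact mul_le_mul_of_nonneg_left hτX hτ0
        gcongr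
      _ = _ := by ring
  refine ⟨?_, ?_⟩
  · calc ‖A'‖ ^ 2 ≤ (‖τ‖ * ((|σ| + X) * (‖A‖ + b))) ^ 2 := pow_le_pow_left₀ (norm_nonneg _) u1 2
      _ = ‖m‖ * ((|σ| + X) * (‖A‖ + b)) ^ 2 := by rw [mul_pow ‖τ‖, n1]
  · intro hbig
    have e2 : (σ : ℂ) * τ * A = A' + (τ ^ 2 * B' - σ * τ * B) := by linear_combination -hr
    have u2 : |σ| * ‖τ‖ * ‖A‖ ≤ ‖A'‖ + (‖τ‖ ^ 2 + |σ| * ‖τ‖) * b := by
      calc |σ| * ‖τ‖ * ‖A‖ = ‖(σ : ℂ) * τ * A‖ := by
            rw [norm_mul, norm_mul, Complex.norm_real, Real.norm_eq_abs]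
        _ ≤ ‖A'‖ + ‖τ ^ 2 * B' - σ * τ * B‖ := by rw [e2]; exact norm_add_le _ _
        _ ≤ _ := add_le_add le_rfl (norm_single_le hB hB')
    have u3 : ‖τ‖ * (|σ| / 2 * ‖A‖) ≤ ‖A'‖ := by
      have h1 : (‖τ‖ ^ 2 + |σ| * ‖τ‖) * b ≤ ‖τ‖ * ((X + |σ|) * b) := by
        have : ‖τ‖ ^ 2 + |σ| * ‖τ‖ ≤ ‖τ‖ * (X + |σ|) := by nlinarith
        calc (‖τ‖ ^ 2 + |σ| * ‖τ‖) * b ≤ (‖τ‖ * (X + |σ|)) * b :=
              mul_le_mul_of_nonneg_right this hb
          _ = _ := by ring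
      have h2 : ‖τ‖ * ((X + |σ|) * b) ≤ ‖τ‖ * (|σ| / 2 * ‖A‖) := by
        apply mul_le_mul_of_nonneg_left _ hτ0
        linarith
      nlinarith
    calc ‖m‖ * (|σ| / 2 * ‖A‖) ^ 2 = (‖τ‖ * (|σ| / 2 * ‖A‖)) ^ 2 := by rw [mul_pow ‖τ‖, n1]
      _ ≤ ‖A'‖ ^ 2 := pow_le_pow_left₀ (by positivity) u3 2

/-- Entire data are polynomial. -/
theorem entire_is_poly {Q : Biv} {S : Set ℂ} {α R : ℝ} (h : AtInf Q S α R) (hs : StarSym Q)
    {G : ℂ → ℂ} (hG : Differentiable ℂ G) {σ : ℝ} (hσ : σ ≠ 0)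
    (hF : ∀ z ∉ S, ∀ w, ev Q z w = 0 → FF Q G σ z w = 0) (hne : ¬ ∀ z, (G z).re = 0) :
    ∃ P : Polynomial ℂ, ∀ z, G z = P.eval z := by
  have hα0 := h.hα0
  have hα1 := h.hα1
  have hR := h.hR
  have hGc : Continuous G := hG.continuous
  have hσ0 : 0 < |σ| := abs_pos.2 hσ
  obtain ⟨⟨m, hm⟩, hΛd, hfd, hfder⟩ := small_product h
  -- there are small roots
  have hm0 : m ≠ 0 := by
    rintro rfl
    have hz1 : ‖((R + 1 : ℝ) : ℂ)‖ = R + 1 := by
      rw [Complex.norm_real, Real.norm_eq_abs, abs_of_pos (by linarith)]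
    set z : ℂ := ((R + 1 : ℝ) : ℂ) with hz
    have hzS : z ∉ S := h.notMem (by rw [hz1]; linarith)
    obtain ⟨u, -, hu⟩ := exists_roots (h.curve.lead z hzS) (h.curve.simple z hzS)
    have hw := hu ⟨0, Nat.pos_of_ne_zero h.curve.deg⟩
    set w := u ⟨0, Nat.pos_of_ne_zero h.curve.deg⟩ with hwdef
    have hcard := hm z (by rw [hz1]; linarith)
    rw [Finset.card_eq_zero] at hcard
    have hns : ¬ ‖w‖ ≤ α * ‖z‖ := by
      intro hsm
      have := (mem_smallRoots h.curve hzS (α := α) (w := w)).2 ⟨hw, hsm⟩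
      rw [hcard] at this
      simp at this
    have hlarge := (h.sep z w hw (Or.inl (by rw [hz1]; linarith))).resolve_left hns
    have hwR : R < ‖w‖ := by
      rw [hz1] at hlarge
      have : 0 ≤ ‖w‖ := norm_nonneg w
      nlinarith
    have h1 := hs.zero hw
    have hwR' : R < ‖(starRingEnd ℂ) w‖ := by rwa [Complex.norm_conj]
    have hcard2 := hm ((starRingEnd ℂ) w) hwR'
    rw [Finset.card_eq_zero] at hcard2
    have := (mem_smallRoots h.curve (h.notMem hwR'.le) (α := α) (w := (starRingEnd ℂ) z)).2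
      ⟨h1, by rwa [Complex.norm_conj, Complex.norm_conj]⟩
    rw [hcard2] at this
    simp at this
  -- the product of the slopes
  set Λ : ℂ → ℂ := fun z => ∏ w ∈ smallRoots Q α z, lam Q z w with hΛ
  have hΛne : ∀ z, R < ‖z‖ → Λ z ≠ 0 := by
    intro z hz
    rw [hΛ]
    apply Finset.prod_ne_zero_iff.2
    intro w hw
    exact lam_ne_zero h.curve (h.notMem hz.le)
      ((mem_smallRoots h.curve (h.notMem hz.le)).1 hw).1
  have hlam5 := lam_bound_small h
  have hΛb : ∀ z : ℂ, 2 * R < ‖z‖ → ‖Λ z‖ ≤ 5 ^ m * ‖z‖ ^ 0 := by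
    intro z hz
    rw [pow_zero, mul_one, hΛ, norm_prod, ← hm z (by linarith), ← Finset.prod_const]
    apply Finset.prod_le_prod (fun _ _ => norm_nonneg _)
    intro w hw
    have h1 := (mem_smallRoots h.curve (h.notMem (by linarith : R ≤ ‖z‖))).1 hw
    exact hlam5 z w hz.le h1.1 h1.2
  have hΛd' : DifferentiableOn ℂ Λ {z : ℂ | 2 * R < ‖z‖} := by
    apply hΛd.mono
    intro z (hz : 2 * R < ‖z‖)
    show R < ‖z‖
    linarith
  rcases laurent_infinity (by linarith : 0 < 2 * R) hΛd' hΛb with hz0 | ⟨E, c, C', R', hc, hC', hR', hΛE⟩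
  · exfalso
    have hz1 : ‖((3 * R : ℝ) : ℂ)‖ = 3 * R := by
      rw [Complex.norm_real, Real.norm_eq_abs, abs_of_pos (by linarith)]
    exact hΛne _ (by rw [hz1]; linarith) (hz0 _ (by rw [hz1]; linarith))
  -- scales
  set a := (1 + α) / 2 with ha
  have ha0 : 0 < a := by rw [ha]; linarith
  have ha1 : a < 1 := by rw [ha]; linarith
  set R₂ := max R' (2 / (1 - α)) with hR₂
  have hR₂' : R' ≤ R₂ := le_max_left _ _
  have hscale : ∀ z w : ℂ, R₂ ≤ ‖z‖ → ‖w‖ ≤ α * ‖z‖ → ‖w‖ + 1 ≤ a * ‖z‖ := by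
    intro z w hz hw
    have h1 : 2 / (1 - α) ≤ ‖z‖ := (le_max_right _ _).trans hz
    rw [div_le_iff₀ (by linarith)] at h1
    rw [ha]
    nlinarith
  have hbr : ∀ z : ℂ, R₂ ≤ ‖z‖ → ∀ w ∈ smallRoots Q α z,
      ‖deriv G z‖ ^ 2 ≤ ‖lam Q z w‖ * ((|σ| + 3) * (‖G z‖ + mx G (a * ‖z‖))) ^ 2 ∧
      (2 * (3 + |σ|) * mx G (a * ‖z‖) ≤ |σ| * ‖G z‖ →
        ‖lam Q z w‖ * (|σ| / 2 * ‖G z‖) ^ 2 ≤ ‖deriv G z‖ ^ 2) := by
    intro z hz w hw
    have hzS : z ∉ S := h.notMem (by linarith)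
    have h1 := (mem_smallRoots h.curve hzS).1 hw
    have h2 := hscale z w hz h1.2
    apply one_branch (rel_lam h.curve hF hzS h1.1) _ _ (by norm_num) _
    · exact sh_norm_le hGc (by linarith)
    · exact deriv_sh_norm_le hG h2
    · exact (hlam5 z w (by linarith) h1.1 h1.2).trans (by norm_num)
  have hmxn : ∀ z : ℂ, 0 ≤ mx G (a * ‖z‖) := fun z => mx_nonneg hGc (by positivity)
  set q := 2 * m with hq
  have hq0 : q ≠ 0 := by omega
  -- upper inequality for the derivative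
  have hup : ∀ z : ℂ, R₂ ≤ ‖z‖ → ‖deriv G z‖ ≤ C' ^ ((q : ℝ)⁻¹) * ‖z‖ ^ ((E : ℝ) / q) *
      ((|σ| + 3) * (‖G z‖ + mx G (a * ‖z‖))) := by
    intro z hz
    have hz0 : 0 < ‖z‖ := by linarith
    have hmxz := hmxn z
    apply root_le hq0 (norm_nonneg _) _ hC'.le hz0
    · have h1 := prod_upper (T := smallRoots Q α z) (f := fun w => ‖lam Q z w‖)
        (A := ‖deriv G z‖ ^ 2) (Y := ((|σ| + 3) * (‖G z‖ + mx G (a * ‖z‖))) ^ 2)
        (by positivity) (fun w hw => (hbr z hz w hw).1)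
      rw [hm z (by linarith), ← norm_prod, ← pow_mul, ← pow_mul] at h1
      refine h1.trans ?_
      apply mul_le_mul_of_nonneg_right _ (by positivity)
      exact (hΛE z (by linarith)).2
    · positivity
  have hlow : ∀ z : ℂ, R₂ ≤ ‖z‖ → 2 * (3 + |σ|) * mx G (a * ‖z‖) ≤ |σ| * ‖G z‖ →
      c ^ ((q : ℝ)⁻¹) * ‖z‖ ^ ((E : ℝ) / q) * (|σ| / 2 * ‖G z‖) ≤ ‖deriv G z‖ := by
    intro z hz hbig
    have hz0 : 0 < ‖z‖ := by linarith
    apply root_ge hq0 (norm_nonneg _) (by positivity) hc.le hz0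
    have h1 := prod_lower (T := smallRoots Q α z) (f := fun w => ‖lam Q z w‖)
      (A := ‖deriv G z‖ ^ 2) (Y := (|σ| / 2 * ‖G z‖) ^ 2)
      (by positivity) (fun w => norm_nonneg _) (fun w hw => (hbr z hz w hw).2 hbig)
    rw [hm z (by linarith), ← norm_prod, ← pow_mul, ← pow_mul] at h1
    refine le_trans ?_ h1
    apply mul_le_mul_of_nonneg_right _ (by positivity)
    exact (hΛE z (by linarith)).1
  set κ : ℝ := -((E : ℝ) / q) with hκ
  suffices hpoly : ∃ (K' : ℝ) (D : ℕ), 0 ≤ K' ∧ ∀ r, 1 ≤ r → mx G r ≤ K' * r ^ D by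
    obtain ⟨K', D, hK', hD⟩ := hpoly
    exact exists_polynomial hG hK' hD
  have hCq : 0 < C' ^ ((q : ℝ)⁻¹) := Real.rpow_pos_of_pos hC' _
  have hcq : 0 < c ^ ((q : ℝ)⁻¹) := Real.rpow_pos_of_pos hc _
  rcases le_or_gt 1 κ with hκ1 | hκ1
  · -- Gronwall
    apply growth_gron hG ha0 ha1 (C := C' ^ ((q : ℝ)⁻¹) * (|σ| + 3)) (r₀ := R₂) (by positivity)
    intro z hz
    have hz1 : 1 ≤ ‖z‖ := by linarith
    have h1 : ‖z‖ ^ ((E : ℝ) / q) ≤ ‖z‖⁻¹ := by
      rw [← Real.rpow_neg_one]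
      apply Real.rpow_le_rpow_of_exponent_le hz1
      linarith
    have h2 := hmxn z
    calc ‖deriv G z‖ ≤ C' ^ ((q : ℝ)⁻¹) * ‖z‖ ^ ((E : ℝ) / q) *
          ((|σ| + 3) * (‖G z‖ + mx G (a * ‖z‖))) := hup z hz
      _ ≤ C' ^ ((q : ℝ)⁻¹) * ‖z‖⁻¹ * ((|σ| + 3) * (‖G z‖ + mx G (a * ‖z‖))) := by
        gcongr
      _ = _ := by rw [div_eq_mul_inv]; ring
  · -- the second scale inequality
    have hS2 : ∀ z : ℂ, R₂ ≤ ‖z‖ → ‖G z‖ ≤
        (2 / (|σ| * c ^ ((q : ℝ)⁻¹)) + 2 * (3 + |σ|) / |σ|) *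
          (‖z‖ ^ κ * ‖deriv G z‖ + mx G (a * ‖z‖)) := by
      intro z hz
      have hz0 : 0 < ‖z‖ := by linarith
      have h2 := hmxn z
      have h3 : 0 ≤ ‖z‖ ^ κ * ‖deriv G z‖ := by positivity
      by_cases hbig : 2 * (3 + |σ|) * mx G (a * ‖z‖) ≤ |σ| * ‖G z‖
      · have h1 := hlow z hz hbig
        have h4 : ‖z‖ ^ κ * ‖z‖ ^ ((E : ℝ) / q) = 1 := by
          rw [← Real.rpow_add hz0, hκ, neg_add_cancel, Real.rpow_zero]
        have h5 : c ^ ((q : ℝ)⁻¹) * (|σ| / 2 * ‖G z‖) ≤ ‖z‖ ^ κ * ‖deriv G z‖ := by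
          calc c ^ ((q : ℝ)⁻¹) * (|σ| / 2 * ‖G z‖)
              = (‖z‖ ^ κ * ‖z‖ ^ ((E : ℝ) / q)) * (c ^ ((q : ℝ)⁻¹) * (|σ| / 2 * ‖G z‖)) := by
                rw [h4, one_mul]
            _ = ‖z‖ ^ κ * (c ^ ((q : ℝ)⁻¹) * ‖z‖ ^ ((E : ℝ) / q) * (|σ| / 2 * ‖G z‖)) := by ring
            _ ≤ _ := mul_le_mul_of_nonneg_left h1 (by positivity)
        calc ‖G z‖ = 2 / (|σ| * c ^ ((q : ℝ)⁻¹)) * (c ^ ((q : ℝ)⁻¹) * (|σ| / 2 * ‖G z‖)) := by
              field_simp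
          _ ≤ 2 / (|σ| * c ^ ((q : ℝ)⁻¹)) * (‖z‖ ^ κ * ‖deriv G z‖ + mx G (a * ‖z‖)) := by
              apply mul_le_mul_of_nonneg_left _ (by positivity)
              linarith
          _ ≤ _ := by
              apply mul_le_mul_of_nonneg_right _ (by linarith)
              have : 0 ≤ 2 * (3 + |σ|) / |σ| := by positivity
              linarith
      · push Not at hbig
        calc ‖G z‖ = (|σ| * ‖G z‖) / |σ| := by field_simp
          _ ≤ (2 * (3 + |σ|) * mx G (a * ‖z‖)) / |σ| :=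
              div_le_div_of_nonneg_right hbig.le hσ0.le
          _ = 2 * (3 + |σ|) / |σ| * mx G (a * ‖z‖) := by ring
          _ ≤ 2 * (3 + |σ|) / |σ| * (‖z‖ ^ κ * ‖deriv G z‖ + mx G (a * ‖z‖)) := by
              apply mul_le_mul_of_nonneg_left _ (by positivity)
              linarith
          _ ≤ _ := by
              apply mul_le_mul_of_nonneg_right _ (by linarith)
              have : 0 ≤ 2 / (|σ| * c ^ ((q : ℝ)⁻¹)) := by positivity
              linarith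
    rcases Nat.lt_or_ge 1 m with hm2 | hm1
    · -- two small roots
      obtain ⟨c₁, K, R₁, hc₁, hR₁, hsep⟩ := slope_sep h
      have hS1 : ∀ z : ℂ, max R₁ R₂ ≤ ‖z‖ → ‖G z‖ ≤
          (20 * (21 + |σ|) / (|σ| * c₁)) * ‖z‖ ^ (K : ℝ) * mx G (a * ‖z‖) := by
        intro z hz
        have hzR₁ : R₁ ≤ ‖z‖ := (le_max_left _ _).trans hz
        have hzR₂ : R₂ ≤ ‖z‖ := (le_max_right _ _).trans hz
        have hz0 : 0 < ‖z‖ := by linarith
        have hzS : z ∉ S := h.notMem (by linarith)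
        have hcard := hm z (by linarith)
        obtain ⟨w, hw, w', hw', hww⟩ := Finset.one_lt_card.1 (by rw [hcard]; exact hm2)
        have h1 := (mem_smallRoots h.curve hzS).1 hw
        have h2 := (mem_smallRoots h.curve hzS).1 hw'
        have s1 := hscale z w hzR₂ h1.2
        have s2 := hscale z w' hzR₂ h2.2
        have l1 := hlam5 z w (by linarith) h1.1 h1.2
        have l2 := hlam5 z w' (by linarith) h2.1 h2.2
        have h3 := two_branch (b := mx G (a * ‖z‖)) (K₀ := 5)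
          (rel_lam h.curve hF hzS h1.1) (rel_lam h.curve hF hzS h2.1)
          (sh_norm_le hGc (by linarith)) (deriv_sh_norm_le hG s1)
          (sh_norm_le hGc (by linarith)) (deriv_sh_norm_le hG s2) l1 l2
        have h4 := hsep z w w' hzR₁ h1.1 h2.1 hww
        have hb := hmxn z
        have hzK : 0 < ‖z‖ ^ K := by positivity
        rw [Real.rpow_natCast]
        have h5 : |σ| * ‖lam Q z w - lam Q z w'‖ * ‖G z‖ ≤ 20 * (21 + |σ|) * mx G (a * ‖z‖) := by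
          refine h3.trans ?_
          have : 2 * (1 + 4 * 5 + |σ|) * (‖lam Q z w‖ + ‖lam Q z w'‖) ≤ 20 * (21 + |σ|) := by
            nlinarith [norm_nonneg (lam Q z w), norm_nonneg (lam Q z w')]
          exact mul_le_mul_of_nonneg_right this hb
        have h6 : |σ| * c₁ * ‖G z‖ ≤ 20 * (21 + |σ|) * mx G (a * ‖z‖) * ‖z‖ ^ K := by
          calc |σ| * c₁ * ‖G z‖ ≤ |σ| * (‖lam Q z w - lam Q z w'‖ * ‖z‖ ^ K) * ‖G z‖ := by gcongr
            _ = (|σ| * ‖lam Q z w - lam Q z w'‖ * ‖G z‖) * ‖z‖ ^ K := by ring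
            _ ≤ _ := mul_le_mul_of_nonneg_right h5 hzK.le
        rw [div_mul_eq_mul_div, div_mul_eq_mul_div, le_div_iff₀ (by positivity)]
        linarith
      set C₁ := 20 * (21 + |σ|) / (|σ| * c₁) with hC₁
      set C₂ := 2 / (|σ| * c ^ ((q : ℝ)⁻¹)) + 2 * (3 + |σ|) / |σ| with hC₂
      have hC₁0 : 0 < C₁ := by positivity
      have hC₂0 : 0 < C₂ := by positivity
      apply growth_iter hG (a := a) (C := C₁ + C₂) (r₀ := max R₁ R₂) (K := K) (κ := κ) ha0 ha1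
        (by positivity) (Nat.cast_nonneg K) hκ1
      · intro z hz
        have hb := hmxn z
        have hz0 : 0 < ‖z‖ := by
          have := (le_max_left _ _).trans hz
          linarith
        refine (hS1 z hz).trans ?_
        have : C₁ ≤ C₁ + C₂ := by linarith
        gcongr
      · intro z hz
        have hb := hmxn z
        have hz0 : 0 < ‖z‖ := by
          have := (le_max_left _ _).trans hz
          linarith
        refine (hS2 z ((le_max_right _ _).trans hz)).trans ?_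
        apply mul_le_mul_of_nonneg_right _ (by positivity)
        linarith
    · -- one small root
      exfalso
      have hm1' : m = 1 := by omega
      subst hm1'
      set f : ℂ → ℂ := fun z => ∑ w ∈ smallRoots Q α z, w with hf
      have hsing : ∀ z : ℂ, R < ‖z‖ → smallRoots Q α z = {f z} := by
        intro z hz
        obtain ⟨w, hw⟩ := Finset.card_eq_one.1 (hm z hz)
        rw [hf]
        simp only [hw, Finset.sum_singleton]
      have hfmem : ∀ z : ℂ, R < ‖z‖ → ev Q z (f z) = 0 ∧ ‖f z‖ ≤ α * ‖z‖ := by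
        intro z hz
        rw [← mem_smallRoots h.curve (h.notMem hz.le), hsing z hz]
        exact Finset.mem_singleton_self _
      have hΛf : ∀ z : ℂ, R < ‖z‖ → Λ z = deriv f z := by
        intro z hz
        rw [hfder z hz, hΛ]
        simp only [hsing z hz, Finset.prod_singleton, Finset.sum_singleton]
      by_cases hbd : ∃ C : ℝ, ∀ z : ℂ, R < ‖z‖ → ‖f z‖ ≤ C
      · obtain ⟨C, hC⟩ := hbd
        obtain ⟨C₃, hC₃⟩ := deriv_bound_infinity (by linarith) hfd hC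
        -- `c r ^ E ≤ C₃ / r ^ 2`
        have hE : ∀ r : ℝ, R' ≤ r → c * r ^ E ≤ C₃ / r ^ 2 := by
          intro r hr
          have hz1 : ‖((r : ℝ) : ℂ)‖ = r := by
            rw [Complex.norm_real, Real.norm_eq_abs, abs_of_pos (by linarith)]
          have h1 := (hΛE (r : ℂ) (by rw [hz1]; exact hr)).1
          have h2 := hC₃ (r : ℂ) (by rw [hz1]; linarith)
          rw [hz1] at h1 h2
          rw [hΛf (r : ℂ) (by rw [hz1]; linarith)] at h1
          exact h1.trans h2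
        have hE2 : E ≤ -2 := by
          by_contra hcon
          push Not at hcon
          have hE1 : -1 ≤ E := by omega
          set r := max R' (|C₃| / c + 1) with hr
          have hr1 : R' ≤ r := le_max_left _ _
          have hr2 : |C₃| / c + 1 ≤ r := le_max_right _ _
          have hr0 : 1 ≤ r := by linarith
          have h1 := hE r hr1
          have h2 : r ^ (-1 : ℤ) ≤ r ^ E := zpow_le_zpow_right₀ hr0 hE1
          rw [zpow_neg_one] at h2
          have h3 : c * r⁻¹ ≤ C₃ / r ^ 2 := (mul_le_mul_of_nonneg_left h2 hc.le).trans h1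
          rw [le_div_iff₀ (by positivity)] at h3
          have h4 : c * r⁻¹ * r ^ 2 = c * r := by field_simp
          rw [h4] at h3
          have h5 : |C₃| / c < r := by linarith
          rw [div_lt_iff₀ hc] at h5
          have := le_abs_self C₃
          nlinarith
        have : (1 : ℝ) ≤ κ := by
          rw [hκ, hq]
          have : (E : ℝ) ≤ -2 := by exact_mod_cast hE2
          push_cast
          rw [← neg_div, le_div_iff₀ (by norm_num)]
          linarith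
        linarith
      · push Not at hbd
        obtain ⟨β, K, R₁, hβ, hR₁, hlin⟩ := linear_at_infinity (by linarith) hfd
          (fun z hz => (hfmem z hz).2) hbd
        obtain ⟨c₂, q₁, q₀, hc₂, hq₁, hq₀, hQf⟩ := conic_form h hs (f := f) (β := β) (K := K)
          (R₁ := R₁) hβ hR₁
          (fun z hz => ⟨(hfmem z (by linarith)).1, (hfmem z (by linarith)).2, fun w hw hws => by
            have h1 := (mem_smallRoots h.curve (h.notMem (by linarith : R ≤ ‖z‖))).2 ⟨hw, hws⟩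
            rw [hsing z (by linarith)] at h1
            exact Finset.mem_singleton.1 h1⟩)
          (fun z hz => (hlin z hz).1)
          (fun z hz => ⟨by
            have hopen : IsOpen {z : ℂ | R < ‖z‖} := isOpen_lt continuous_const continuous_norm
            exact (hfd z (by show R < ‖z‖; linarith)).differentiableAt
              (hopen.mem_nhds (by show R < ‖z‖; linarith)), (hlin z hz).2⟩)
        obtain ⟨x, y, hx, hy, hxy, hord⟩ := conic_focus h.curve.irr hc₂ hq₁ hq₀ hQf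
        exact hne (focus_kill h.curve.fin h.curve.simple hG hσ hF hx hy hxy hord)

end Pool.Agent.Stek
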