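import Pool.Agent.Lib.MP_bd8415_an.Alg.Defs2
import Pool.Agent.Lib.MP_bd8415_an.CsTop

/-!
# Liouville's theorem on an irreducible algebraic curve
-/

open Polynomial Filter Topology Metric Set Complex

namespace Pool.Agent.Stek

theorem liou_prod {Q : Biv} {S : Set ℂ} (h : Curve Q S) {n : ℕ} {z₁ : ℂ} {r : ℝ}
    {φ : Fin n → ℂ → ℂ} (hφ : IsBranches Q n z₁ r φ) {y : ℂ} (hy : y ∈ ball z₁ r) (hyS : y ∉ S)
    {M : Type*} [CommMonoid M] (f : ℂ → M) :
    ∏ w ∈ allRoots Q y, f w = ∏ j, f (φ j y) := by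
  classical
  have h1 : allRoots Q y = Finset.univ.image (fun j => φ j y) := by
    ext w
    rw [mem_allRoots h hyS, Finset.mem_image]
    constructor
    · intro hw
      obtain ⟨j, hj⟩ := hφ.all y hy w hw
      exact ⟨j, Finset.mem_univ _, hj.symm⟩
    · rintro ⟨j, -, rfl⟩
      exact hφ.root j y hy
  rw [h1, Finset.prod_image]
  intro i _ j _ hij
  exact hφ.inj y hy hij

theorem liou_branch_analytic {F : ℂ → ℂ → ℂ} (hF : Differentiable ℂ fun p : ℂ × ℂ => F p.1 p.2)
    {f : ℂ → ℂ} {z : ℂ} (hf : AnalyticAt ℂ f z) : AnalyticAt ℂ (fun y => F y (f y)) z := by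
  rw [Complex.analyticAt_iff_eventually_differentiableAt]
  filter_upwards [hf.eventually_analyticAt] with y hy
  have h1 : DifferentiableAt ℂ (fun y => ((y, f y) : ℂ × ℂ)) y :=
    differentiableAt_id.prodMk hy.differentiableAt
  exact (hF (y, f y)).comp y h1

/-- A bounded function which is analytic outside a countable closed set is constant there. -/
theorem liou_const {F : Set ℂ} (hF : F.Countable) (hFc : IsClosed F) {f : ℂ → ℂ}
    (hf : ∀ z ∉ F, DifferentiableAt ℂ f z) {M : ℝ} (hM : ∀ z ∉ F, ‖f z‖ ≤ M) :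
    ∃ c : ℂ, ∀ z ∉ F, f z = c := by
  have key := ext_analyticAt hF hFc (D := univ) isOpen_univ (f := f)
    (fun z hz => (hf z hz.2).differentiableWithinAt) (M := M) (fun z hz => hM z hz.2)
  have heq : ∀ z ∉ F, ext F f z = f z := fun z hz => (key z (mem_univ z)).2.self_of_nhds hz
  have hdiff : Differentiable ℂ (ext F f) := fun z => (key z (mem_univ z)).1.differentiableAt
  have hbd : ∀ z, ‖ext F f z‖ ≤ M := by
    intro z
    have := neBot_compl hF z
    have h2 : Tendsto (fun y => ‖ext F f y‖) (𝓝[Fᶜ] z) (𝓝 ‖ext F f z‖) :=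
      ((hdiff z).continuousAt.tendsto.mono_left nhdsWithin_le_nhds).norm
    apply le_of_tendsto h2
    filter_upwards [self_mem_nhdsWithin] with y hy
    rw [heq y hy]
    exact hM y hy
  have hb : Bornology.IsBounded (range (ext F f)) := by
    rw [isBounded_iff_forall_norm_le]
    exact ⟨M, by rintro _ ⟨z, rfl⟩; exact hbd z⟩
  refine ⟨ext F f 0, fun z hz => ?_⟩
  rw [← heq z hz]
  exact hdiff.apply_eq_apply_of_bounded hb z 0

/-- Proof sketch. `D` does not vanish identically near any point of the curve outside `S`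
(`Curve.identity` in contraposition, with `hD0`), so `Z = {z ∉ S | ∃ w, ev Q z w = 0 ∧ D z w = 0}` has no
accumulation point outside `S` (on a small ball with branches `φ` of `exists_branches` each
`D y (φ j y)` is analytic and not identically zero); `F = S ∪ Z` is closed and countable. For
`z ∉ F` let `p z = ∏ w ∈ allRoots Q z, (X - C (N z w / D z w))`; on a small ball its coefficients are
analytic (`coeff_prod_analyticAt`, file Ident) and they are bounded by a constant independent of `z`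
(`coeff_prod_bound`, file Ident, with `H = max B 1`). A function which is bounded and analytic outside
a countable closed set is constant (extend it: near a point of `Z` the quotient
`N y (φ j y) / D y (φ j y)` is bounded, so it extends analytically; then only the finite set `S` is
left: removable singularities and Liouville, or `poly_ext`, file Ident, with exponent `0`). So `p z`
is a fixed polynomial outside `F`. Take a good point `z₁ ∉ F` and a root `w₁` over it; along the branch
through `(z₁,w₁)` the quotient is continuous with values in the finite root set of the fixed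
polynomial, so it is a constant `e` there: `N - e D` vanishes on the curve near `(z₁,w₁)`, and
`Curve.identity` (or `Curve.identity_branch`) gives the claim. -/
theorem liouville_curve {Q : Biv} {S : Set ℂ} (h : Curve Q S) {N D : ℂ → ℂ → ℂ}
    (hN : Differentiable ℂ fun p : ℂ × ℂ => N p.1 p.2)
    (hD : Differentiable ℂ fun p : ℂ × ℂ => D p.1 p.2) {B : ℝ}
    (hb : ∀ z ∉ S, ∀ w, ev Q z w = 0 → ‖N z w‖ ≤ B * ‖D z w‖)
    (hD0 : ∃ z ∉ S, ∃ w, ev Q z w = 0 ∧ D z w ≠ 0) :
    ∃ e : ℂ, ∀ z ∉ S, ∀ w, ev Q z w = 0 → N z w = e * D z w := by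
  classical
  have hSo : IsOpen Sᶜ := h.fin.isClosed.isOpen_compl
  have loc : ∀ z ∉ S, ∀ U ∈ 𝓝 z, ∃ (r : ℝ) (φ : Fin Q.natDegree → ℂ → ℂ),
      IsBranches Q Q.natDegree z r φ ∧ ball z r ⊆ U ∩ Sᶜ := fun z hz U hU =>
    exists_branches (h.lead z hz) (h.simple z hz) (inter_mem hU (hSo.mem_nhds hz))
  -- the exceptional set
  set f : ℂ → ℂ := fun z => ∏ w ∈ allRoots Q z, D z w with hf
  have hfne : ∀ z ∈ Sᶜ, ∀ᶠ y in 𝓝[≠] z, f y ≠ 0 := by
    intro z hz
    obtain ⟨r, φ, hφ, hsub⟩ := loc z hz univ univ_mem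
    have hzz := mem_ball_self (x := z) hφ.pos
    have h1 : ∀ j, ∀ᶠ y in 𝓝[≠] z, D y (φ j y) ≠ 0 := by
      intro j
      by_contra hcon
      rw [Filter.not_eventually] at hcon
      have hall := h.identity_branch hD (f := φ j) hz (hφ.an j z hzz).continuousAt
        (hφ.root j z hzz) (by
          have h2 : ∀ᶠ y in 𝓝[≠] z, y ∈ ball z r :=
            nhdsWithin_le_nhds (ball_mem_nhds z hφ.pos)
          refine (hcon.and_eventually h2).mono ?_
          rintro y ⟨hy1, hy2⟩
          exact ⟨hφ.root j y hy2, not_not.1 hy1⟩)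
      obtain ⟨z₀, hz₀, w₀, hw₀, hne⟩ := hD0
      exact hne (hall z₀ hz₀ w₀ hw₀)
    have h2 : ∀ᶠ y in 𝓝[≠] z, y ∈ ball z r := nhdsWithin_le_nhds (ball_mem_nhds z hφ.pos)
    filter_upwards [eventually_all.2 h1, h2] with y hy1 hy2
    rw [hf]
    simp only
    rw [liou_prod h hφ hy2 (hsub hy2).2]
    exact Finset.prod_ne_zero_iff.2 fun j _ => hy1 j
  set F : Set ℂ := S ∪ {x | x ∈ Sᶜ ∧ f x = 0} with hFdef
  have hFcount : F.Countable := h.fin.countable.union (countable_zeros hfne)
  have hFnot : ∀ z, z ∉ F ↔ z ∉ S ∧ ∀ w, ev Q z w = 0 → D z w ≠ 0 := by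
    intro z
    constructor
    · intro hz
      have hzS : z ∉ S := fun hh => hz (Or.inl hh)
      refine ⟨hzS, fun w hw h0 => hz (Or.inr ⟨hzS, ?_⟩)⟩
      exact Finset.prod_eq_zero ((mem_allRoots h hzS).2 hw) h0
    · rintro ⟨hzS, hall⟩ (hz | ⟨-, hz⟩)
      · exact hzS hz
      · obtain ⟨w, hw, h0⟩ := Finset.prod_eq_zero_iff.1 hz
        exact hall w ((mem_allRoots h hzS).1 hw) h0
  have hFclosed : IsClosed F := by
    rw [← isOpen_compl_iff, isOpen_iff_mem_nhds]
    intro z hz
    have hz' := (hFnot z).1 hz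
    obtain ⟨r, φ, hφ, hsub⟩ := loc z hz'.1 univ univ_mem
    have hzz := mem_ball_self (x := z) hφ.pos
    have h1 : ∀ j, ∀ᶠ y in 𝓝 z, D y (φ j y) ≠ 0 := fun j =>
      (liou_branch_analytic hD (hφ.an j z hzz)).continuousAt.eventually_ne
        (hz'.2 _ (hφ.root j z hzz))
    filter_upwards [eventually_all.2 h1, ball_mem_nhds z hφ.pos] with y hy1 hy2
    refine (hFnot y).2 ⟨(hsub hy2).2, fun w hw => ?_⟩
    obtain ⟨j, rfl⟩ := hφ.all y hy2 w hw
    exact hy1 j
  -- the polynomial of the quotients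
  set p : ℂ → Polynomial ℂ := fun z => ∏ w ∈ allRoots Q z, (X - C (N z w / D z w)) with hp
  have hcoef : ∀ k, ∃ c : ℂ, ∀ z ∉ F, (p z).coeff k = c := by
    intro k
    apply liou_const hFcount hFclosed (M := (2 * max B 1) ^ Q.natDegree)
    · intro z hz
      have hz' := (hFnot z).1 hz
      obtain ⟨r, φ, hφ, hsub⟩ := loc z hz'.1 univ univ_mem
      have hzz := mem_ball_self (x := z) hφ.pos
      have h1 := coeff_prod_analyticAt Finset.univ
        (fun (j : Fin Q.natDegree) y => N y (φ j y) / D y (φ j y)) (z₁ := z)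
        (fun j _ => (liou_branch_analytic hN (hφ.an j z hzz)).div
          (liou_branch_analytic hD (hφ.an j z hzz)) (hz'.2 _ (hφ.root j z hzz))) k
      refine h1.differentiableAt.congr_of_eventuallyEq ?_
      filter_upwards [ball_mem_nhds z hφ.pos] with y hy
      rw [hp]
      simp only
      rw [liou_prod h hφ hy (hsub hy).2 (fun w => X - C (N y w / D y w))]
    · intro z hz
      have hz' := (hFnot z).1 hz
      obtain ⟨r, φ, hφ, hsub⟩ := loc z hz'.1 univ univ_mem
      have hzz := mem_ball_self (x := z) hφ.pos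
      have h2 := coeff_prod_bound (Finset.univ : Finset (Fin Q.natDegree))
        (fun j => N z (φ j z) / D z (φ j z)) (H := max B 1) (le_max_right _ _)
        (fun j _ => by
          have hne := hz'.2 _ (hφ.root j z hzz)
          rw [norm_div, div_le_iff₀ (norm_pos_iff.2 hne)]
          refine (hb z hz'.1 _ (hφ.root j z hzz)).trans ?_
          gcongr
          exact le_max_left _ _) k
      rw [Finset.card_univ, Fintype.card_fin] at h2
      rw [hp]
      simp only
      rw [liou_prod h hφ hzz (hsub hzz).2 (fun w => X - C (N z w / D z w))]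
      exact h2
  -- a good point
  obtain ⟨z₁, hz₁⟩ : ∃ z₁, z₁ ∉ F := (hFcount.dense_compl ℝ).nonempty
  have hz₁' := (hFnot z₁).1 hz₁
  obtain ⟨r, φ, hφ, hsub⟩ := loc z₁ hz₁'.1 Fᶜ (hFclosed.isOpen_compl.mem_nhds hz₁)
  have hzz := mem_ball_self (x := z₁) hφ.pos
  have hpconst : ∀ z ∉ F, p z = p z₁ := by
    intro z hz
    ext k
    obtain ⟨c, hc⟩ := hcoef k
    rw [hc z hz, hc z₁ hz₁]
  have hpne : p z₁ ≠ 0 := by
    rw [hp]
    exact Finset.prod_ne_zero_iff.2 fun w _ => X_sub_C_ne_zero _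
  let j₀ : Fin Q.natDegree := ⟨0, Nat.pos_of_ne_zero h.deg⟩
  have hq : ∀ y ∈ ball z₁ r, N y (φ j₀ y) / D y (φ j₀ y) ∈ (p z₁).rootSet ℂ := by
    intro y hy
    have hyF : y ∉ F := (hsub hy).1
    rw [mem_rootSet]
    refine ⟨hpne, ?_⟩
    rw [← hpconst y hyF, hp]
    simp only
    rw [liou_prod h hφ hy (hsub hy).2 (fun w => X - C (N y w / D y w)), coe_aeval_eq_eval,
      eval_prod]
    exact Finset.prod_eq_zero (Finset.mem_univ j₀) (by simp)
  have hcontq : ContinuousOn (fun y => N y (φ j₀ y) / D y (φ j₀ y)) (ball z₁ r) := by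
    intro y hy
    have hy' := (hFnot y).1 (hsub hy).1
    exact ((liou_branch_analytic hN (hφ.an j₀ y hy)).div
      (liou_branch_analytic hD (hφ.an j₀ y hy))
      (hy'.2 _ (hφ.root j₀ y hy))).continuousAt.continuousWithinAt
  have hfin : Finite ((p z₁).rootSet ℂ) := ((p z₁).rootSet_finite ℂ).to_subtype
  have hconst : ∀ y ∈ ball z₁ r, N y (φ j₀ y) / D y (φ j₀ y) =
      N z₁ (φ j₀ z₁) / D z₁ (φ j₀ z₁) := by
    intro y hy
    have hdisc : DiscreteTopology ((p z₁).rootSet ℂ) := inferInstance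
    exact (convex_ball z₁ r).isPreconnected.constant_of_mapsTo ⟨hdisc⟩ hcontq hq hy hzz
  set e : ℂ := N z₁ (φ j₀ z₁) / D z₁ (φ j₀ z₁) with he
  refine ⟨e, ?_⟩
  have hG : Differentiable ℂ fun q : ℂ × ℂ => (fun z w => N z w - e * D z w) q.1 q.2 :=
    hN.sub (hD.const_mul e)
  have hgood : Good Q (fun z w => N z w - e * D z w) z₁ (φ j₀ z₁) := by
    rw [good_iff hG hφ j₀ hzz]
    intro y hy
    have hy' := (hFnot y).1 (hsub hy).1
    have h3 := hconst y hy
    rw [div_eq_iff (hy'.2 _ (hφ.root j₀ y hy))] at h3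
    rw [h3, sub_self]
  intro z hz w hw
  exact sub_eq_zero.1 (h.identity hG hz₁'.1 (hφ.root j₀ z₁ hzz) hgood z hz w hw)

end Pool.Agent.Stek
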