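import Pool.Agent.Lib.MP_bd8415_an.Alg.Defs2

/-!
# Slopes of small branches for polynomial data
-/

open Polynomial Filter Topology Metric Set Complex

namespace Pool.Agent.Stek

/-- Bound for a polynomial. -/
private theorem PL_bound (p : Polynomial ℂ) {n : ℕ} (hp : p.natDegree ≤ n) :
    ∃ C : ℝ, 0 ≤ C ∧ ∀ (t : ℝ) (w : ℂ), 1 ≤ t → ‖w‖ ≤ t → ‖p.eval w‖ ≤ C * t ^ n := by
  refine ⟨∑ i ∈ Finset.range (p.natDegree + 1), ‖p.coeff i‖,
    Finset.sum_nonneg fun _ _ => norm_nonneg _, fun t w ht hw => ?_⟩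
  rw [eval_eq_sum_range, Finset.sum_mul]
  refine (norm_sum_le _ _).trans (Finset.sum_le_sum fun i hi => ?_)
  rw [norm_mul, norm_pow]
  have hi' : i ≤ n := by
    have := Finset.mem_range.1 hi
    omega
  exact mul_le_mul_of_nonneg_left ((pow_le_pow_left₀ (norm_nonneg _) hw i).trans
    (pow_le_pow_right₀ ht hi')) (norm_nonneg _)

/-- `sh G w = conj (G (conj w))`. Proof sketch: let `m = P.natDegree ≥ 1`. For large `‖z‖` and
`‖w‖ ≤ α ‖z‖`: `‖G z‖ ≥ c ‖z‖ ^ m` and `‖sh G w‖ = ‖P (conj w)‖ ≤ θ ‖G z‖` with `θ < 1` (leading terms), so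
`‖G z + sh G w‖ ≥ c' ‖z‖ ^ m`; `‖deriv G z‖`, `‖deriv (sh G) w‖ ≤ C ‖z‖ ^ (m - 1)` (`deriv_sh`, file
CsConst). Taking norms in the relation, `|σ|² ‖l‖ ‖G z + sh G w‖ ^ 2 = ‖deriv G z - l * deriv (sh G) w‖ ^ 2
≤ (C ‖z‖ ^ (m - 1) (1 + X)) ^ 2`. -/
theorem lam_small_of_poly {P : Polynomial ℂ} (hP : 1 ≤ P.natDegree) {G : ℂ → ℂ}
    (hG : ∀ z, G z = P.eval z) {σ α X : ℝ} (hσ : σ ≠ 0) (hα0 : 0 < α) (hα1 : α < 1) :
    ∃ K R₁ : ℝ, 0 < R₁ ∧ ∀ z w l : ℂ, R₁ ≤ ‖z‖ → ‖w‖ ≤ α * ‖z‖ → ‖l‖ ≤ X →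
      (deriv G z - l * deriv (sh G) w) ^ 2 = -((σ : ℂ) ^ 2 * l * (G z + sh G w) ^ 2) →
      ‖l‖ ≤ K / ‖z‖ ^ 2 := by
  obtain ⟨k, hk⟩ : ∃ k, P.natDegree = k + 1 := ⟨P.natDegree - 1, by omega⟩
  have hGe : G = fun z => P.eval z := funext hG
  have hGd : Differentiable ℂ G := by rw [hGe]; exact P.differentiable
  have hGd' : ∀ z, deriv G z = P.derivative.eval z := fun z => by rw [hGe]; exact P.deriv
  obtain ⟨C₁, hC₁, hb₁⟩ := PL_bound P.eraseLead (n := k) (by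
    have := P.eraseLead_natDegree_le
    omega)
  obtain ⟨C₂, hC₂, hb₂⟩ := PL_bound P.derivative (n := k) (by
    have := P.natDegree_derivative_le
    omega)
  set a : ℝ := ‖P.leadingCoeff‖ with ha
  have ha0 : 0 < a := by
    rw [ha, norm_pos_iff, Ne, leadingCoeff_eq_zero]
    rintro rfl
    simp at hk
  have hPe : ∀ z, P.eval z = P.eraseLead.eval z + P.leadingCoeff * z ^ (k + 1) := by
    intro z
    conv_lhs => rw [← P.eraseLead_add_C_mul_X_pow]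
    rw [eval_add, eval_mul, eval_C, eval_pow, eval_X, hk]
  set c : ℝ := a * (1 - α) / 2 with hc
  have hc0 : 0 < c := by
    rw [hc]
    have : 0 < 1 - α := by linarith
    positivity
  refine ⟨(C₂ * (1 + |X|)) ^ 2 / (σ ^ 2 * c ^ 2), 1 + 2 * C₁ / c, by positivity, ?_⟩
  intro z w l hz hw hl hrel
  set t : ℝ := ‖z‖ with ht
  have ht1 : 1 ≤ t := by
    have : 0 ≤ 2 * C₁ / c := by positivity
    linarith
  have ht0 : 0 < t := by linarith
  have hct : 2 * C₁ ≤ c * t := by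
    have h1 : 2 * C₁ / c ≤ t := by linarith
    have := (div_le_iff₀ hc0).1 h1
    linarith
  have hwt : ‖w‖ ≤ t := by nlinarith
  have hcw : ‖(starRingEnd ℂ) w‖ = ‖w‖ := Complex.norm_conj w
  -- lower bound
  have hlow : c * t ^ (k + 1) ≤ ‖G z + sh G w‖ := by
    have e1 : ‖G z‖ ≥ a * t ^ (k + 1) - C₁ * t ^ k := by
      rw [hG, hPe]
      have h1 := hb₁ t z ht1 le_rfl
      have h2 : ‖P.leadingCoeff * z ^ (k + 1)‖ = a * t ^ (k + 1) := by
        rw [norm_mul, norm_pow]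
      have h3 := norm_sub_le (P.eraseLead.eval z + P.leadingCoeff * z ^ (k + 1)) (P.eraseLead.eval z)
      rw [add_sub_cancel_left, h2] at h3
      linarith
    have e2 : ‖sh G w‖ ≤ a * (α * t ^ (k + 1)) + C₁ * t ^ k := by
      rw [sh, Complex.norm_conj, hG, hPe]
      have h1 := hb₁ t ((starRingEnd ℂ) w) ht1 (by rw [hcw]; exact hwt)
      have h2 : ‖P.leadingCoeff * (starRingEnd ℂ) w ^ (k + 1)‖ ≤ a * (α * t ^ (k + 1)) := by
        rw [norm_mul, norm_pow, hcw]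
        refine mul_le_mul_of_nonneg_left ?_ ha0.le
        have h3 : ‖w‖ ^ (k + 1) ≤ (α * t) ^ (k + 1) := pow_le_pow_left₀ (norm_nonneg _) hw _
        refine h3.trans ?_
        rw [mul_pow]
        refine mul_le_mul_of_nonneg_right ?_ (by positivity)
        rw [pow_succ]
        have h4 : α ^ k ≤ 1 := pow_le_one₀ hα0.le hα1.le
        nlinarith
      exact (norm_add_le _ _).trans (by linarith)
    have e3 : ‖G z‖ ≤ ‖G z + sh G w‖ + ‖sh G w‖ := by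
      have := norm_sub_le (G z + sh G w) (sh G w)
      rwa [add_sub_cancel_right] at this
    have e4 : 2 * (C₁ * t ^ k) ≤ c * t ^ (k + 1) := by
      have h1 : 2 * C₁ * t ^ k ≤ c * t * t ^ k := mul_le_mul_of_nonneg_right hct (by positivity)
      calc 2 * (C₁ * t ^ k) = 2 * C₁ * t ^ k := by ring
        _ ≤ c * t * t ^ k := h1
        _ = c * t ^ (k + 1) := by ring
    have e5 : a * t ^ (k + 1) - a * (α * t ^ (k + 1)) = 2 * (c * t ^ (k + 1)) := by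
      rw [hc]; ring
    linarith
  -- upper bound
  have hup : ‖deriv G z - l * deriv (sh G) w‖ ≤ C₂ * (1 + |X|) * t ^ k := by
    have e1 : ‖deriv G z‖ ≤ C₂ * t ^ k := by
      rw [hGd']
      exact hb₂ t z ht1 le_rfl
    have e2 : ‖deriv (sh G) w‖ ≤ C₂ * t ^ k := by
      rw [deriv_sh hGd, Complex.norm_conj, hGd']
      exact hb₂ t _ ht1 (by rw [hcw]; exact hwt)
    have e3 : ‖l * deriv (sh G) w‖ ≤ |X| * (C₂ * t ^ k) := by
      rw [norm_mul]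
      exact mul_le_mul (hl.trans (le_abs_self X)) e2 (norm_nonneg _) (abs_nonneg X)
    calc ‖deriv G z - l * deriv (sh G) w‖ ≤ ‖deriv G z‖ + ‖l * deriv (sh G) w‖ := norm_sub_le _ _
      _ ≤ C₂ * t ^ k + |X| * (C₂ * t ^ k) := add_le_add e1 e3
      _ = C₂ * (1 + |X|) * t ^ k := by ring
  -- norms in the relation
  have hn := congrArg norm hrel
  rw [norm_pow, norm_neg, norm_mul, norm_mul, norm_pow, norm_pow, Complex.norm_real,
    Real.norm_eq_abs, sq_abs] at hn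
  have h1 : σ ^ 2 * ‖l‖ * (c * t ^ (k + 1)) ^ 2 ≤ (C₂ * (1 + |X|) * t ^ k) ^ 2 := by
    calc σ ^ 2 * ‖l‖ * (c * t ^ (k + 1)) ^ 2 ≤ σ ^ 2 * ‖l‖ * ‖G z + sh G w‖ ^ 2 := by
          refine mul_le_mul_of_nonneg_left (pow_le_pow_left₀ (by positivity) hlow 2) (by positivity)
      _ = ‖deriv G z - l * deriv (sh G) w‖ ^ 2 := hn.symm
      _ ≤ _ := pow_le_pow_left₀ (norm_nonneg _) hup 2
  have hσ2 : 0 < σ ^ 2 := by positivity
  have h2 : ‖l‖ * t ^ 2 * (σ ^ 2 * c ^ 2) * (t ^ k) ^ 2 ≤ (C₂ * (1 + |X|)) ^ 2 * (t ^ k) ^ 2 := by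
    calc ‖l‖ * t ^ 2 * (σ ^ 2 * c ^ 2) * (t ^ k) ^ 2 = σ ^ 2 * ‖l‖ * (c * t ^ (k + 1)) ^ 2 := by ring
      _ ≤ _ := h1
      _ = _ := by ring
  have h3 : ‖l‖ * t ^ 2 * (σ ^ 2 * c ^ 2) ≤ (C₂ * (1 + |X|)) ^ 2 :=
    le_of_mul_le_mul_right h2 (by positivity)
  rw [le_div_iff₀ (by positivity), le_div_iff₀ (by positivity)]
  exact h3

end Pool.Agent.Stek
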