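import Pool.Agent.Lib.MP_bd8415_an.Alg.Defs2

/-!
# Polynomials all of whose critical points are zeros
-/

open Polynomial Filter Topology Metric Set Complex

namespace Pool.Agent.Stek

/-- Proof sketch: over `ℂ`, `A.roots` has `m = A.natDegree` elements with multiplicity and
`A.derivative.roots` has `m - 1`; a root of `A` of multiplicity `k` is a root of `A'` of multiplicity
`k - 1` (`Polynomial.derivative_rootMultiplicity_of_root`), and by hypothesis `A'` has no other roots.
So `m - 1 = ∑ (k_i - 1) = m - #(distinct roots)`, there is one root only. -/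
theorem power_of_deriv_roots {A : Polynomial ℂ} (hm : 1 ≤ A.natDegree)
    (h : ∀ z, A.derivative.eval z = 0 → A.eval z = 0) :
    ∃ z₀ a : ℂ, a ≠ 0 ∧ A = C a * (X - C z₀) ^ A.natDegree := by
  classical
  have hA : A ≠ 0 := by
    intro h0
    rw [h0, natDegree_zero] at hm
    omega
  have hd : A.derivative.natDegree = A.natDegree - 1 := by
    have h1 := degree_derivative_eq A (by omega : 0 < A.natDegree)
    exact natDegree_eq_of_degree_eq_some h1
  have hA' : A.derivative ≠ 0 := by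
    intro h0
    have := natDegree_eq_zero_of_derivative_eq_zero h0
    omega
  have c1 : A.roots.card = A.natDegree := IsAlgClosed.card_roots_eq_natDegree
  have c2 : A.derivative.roots.card = A.natDegree - 1 := by
    rw [← hd]
    exact IsAlgClosed.card_roots_eq_natDegree
  set r := A.roots.toFinset with hr
  have hmem : ∀ a ∈ A.derivative.roots, a ∈ r := by
    intro a ha
    rw [hr, Multiset.mem_toFinset, mem_roots hA]
    rw [mem_roots hA'] at ha
    exact h a ha
  have s1 : ∑ a ∈ r, A.roots.count a = A.roots.card :=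
    Multiset.sum_count_eq_card (by intro a ha; rw [hr, Multiset.mem_toFinset]; exact ha)
  have s2 : ∑ a ∈ r, A.derivative.roots.count a = A.derivative.roots.card :=
    Multiset.sum_count_eq_card hmem
  have s3 : ∀ a ∈ r, A.derivative.roots.count a + 1 = A.roots.count a := by
    intro a ha
    rw [hr, Multiset.mem_toFinset, mem_roots hA] at ha
    rw [count_roots, count_roots, derivative_rootMultiplicity_of_root ha]
    have := (rootMultiplicity_pos hA).2 ha
    omega
  have s4 : ∑ a ∈ r, A.derivative.roots.count a + r.card = ∑ a ∈ r, A.roots.count a := by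
    rw [Finset.card_eq_sum_ones, ← Finset.sum_add_distrib]
    exact Finset.sum_congr rfl s3
  have hr1 : r.card = 1 := by omega
  obtain ⟨z₀, hz₀⟩ := Finset.card_eq_one.1 hr1
  have hrep : A.roots = Multiset.replicate A.natDegree z₀ := by
    rw [Multiset.eq_replicate]
    refine ⟨c1, fun b hb => ?_⟩
    have : b ∈ r := by rw [hr, Multiset.mem_toFinset]; exact hb
    rw [hz₀, Finset.mem_singleton] at this
    exact this
  refine ⟨z₀, A.leadingCoeff, leadingCoeff_ne_zero.2 hA, ?_⟩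
  have e := C_leadingCoeff_mul_prod_multiset_X_sub_C c1
  rw [hrep, Multiset.map_replicate, Multiset.prod_replicate] at e
  exact e.symm

/-- Proof sketch: suppose `A'(z₁) = 0` and `A(z₁) ≠ 0`. For `z → z₁`, `z ∉ S`, choose a root `w` of `Q(z,·)`
(`exists_roots`, file Branches; the degree is positive). `‖B(w)‖ = ‖c₀‖ / ‖A(z)‖` stays bounded, so `w`
stays bounded (`B` is a nonconstant polynomial: `Polynomial.tendsto_norm_atTop`), so `B'(w)` is
bounded and `c₁ = A'(z) B'(w) → 0`: contradiction. -/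
theorem deriv_root_is_root {Q : Biv} {S : Set ℂ} (h : Curve Q S) {A B : Polynomial ℂ}
    (hB : 1 ≤ B.natDegree) {c₀ c₁ : ℂ} (hc₁ : c₁ ≠ 0)
    (h1 : ∀ z ∉ S, ∀ w, ev Q z w = 0 → A.eval z * B.eval w = c₀)
    (h2 : ∀ z ∉ S, ∀ w, ev Q z w = 0 → A.derivative.eval z * B.derivative.eval w = c₁) :
    ∀ z, A.derivative.eval z = 0 → A.eval z = 0 := by
  intro z₁ hz₁
  by_contra hA
  -- a root over every regular point
  have hroot : ∀ z ∉ S, ∃ w, ev Q z w = 0 := by
    intro z hz
    obtain ⟨u, -, hu⟩ := exists_roots (h.lead z hz) (h.simple z hz)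
    exact ⟨u ⟨0, Nat.pos_of_ne_zero h.deg⟩, hu _⟩
  -- bound for `B (w)`
  have hδ : 0 < ‖A.eval z₁‖ := norm_pos_iff.2 hA
  set M : ℝ := ‖c₀‖ / (‖A.eval z₁‖ / 2) with hM
  have hBtop : Tendsto (fun w : ℂ => ‖B.eval w‖) (comap (fun w : ℂ => ‖w‖) atTop) atTop := by
    apply Polynomial.tendsto_norm_atTop
    · exact natDegree_pos_iff_degree_pos.1 hB
    · exact tendsto_comap
  obtain ⟨R, hR⟩ : ∃ R : ℝ, ∀ w : ℂ, R ≤ ‖w‖ → M < ‖B.eval w‖ := by
    have := hBtop.eventually (eventually_gt_atTop M)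
    rw [eventually_comap] at this
    obtain ⟨R, hR⟩ := eventually_atTop.1 this
    exact ⟨R, fun w hw => hR _ hw w rfl⟩
  obtain ⟨K, hK⟩ : ∃ K : ℝ, ∀ w ∈ closedBall (0 : ℂ) R, ‖B.derivative.eval w‖ ≤ K :=
    (isCompact_closedBall (0 : ℂ) R).exists_bound_of_continuousOn
      B.derivative.continuous.continuousOn
  -- limit
  have t1 : ∀ᶠ z in 𝓝[≠] z₁, ‖A.eval z₁‖ / 2 < ‖A.eval z‖ := by
    have h3 : Tendsto (fun z => ‖A.eval z‖) (𝓝 z₁) (𝓝 ‖A.eval z₁‖) :=
      (A.continuous.norm).tendsto z₁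
    exact (h3.mono_left nhdsWithin_le_nhds).eventually (lt_mem_nhds (by linarith))
  have t2 : ∀ᶠ z in 𝓝[≠] z₁, z ∉ S := by
    have h3 : (S \ {z₁})ᶜ ∈ 𝓝 z₁ :=
      ((h.fin.subset diff_subset).isClosed.isOpen_compl).mem_nhds (by simp)
    have h4 : (S \ {z₁})ᶜ ∈ 𝓝[≠] z₁ := mem_nhdsWithin_of_mem_nhds h3
    filter_upwards [h4, self_mem_nhdsWithin] with z hz hz' hzS
    exact hz ⟨hzS, hz'⟩
  have t3 : ∀ᶠ z in 𝓝[≠] z₁, ‖c₁‖ ≤ ‖A.derivative.eval z‖ * K := by
    filter_upwards [t1, t2] with z hz hzS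
    obtain ⟨w, hw⟩ := hroot z hzS
    have e1 := h1 z hzS w hw
    have e2 := h2 z hzS w hw
    have hwR : ‖w‖ < R := by
      by_contra hcon
      have h5 := hR w (not_lt.1 hcon)
      have h6 : ‖A.eval z‖ * ‖B.eval w‖ = ‖c₀‖ := by rw [← norm_mul, e1]
      rw [hM, div_lt_iff₀ (by linarith)] at h5
      have h7 : ‖B.eval w‖ * (‖A.eval z₁‖ / 2) ≤ ‖B.eval w‖ * ‖A.eval z‖ :=
        mul_le_mul_of_nonneg_left hz.le (norm_nonneg _)
      linarith [mul_comm ‖A.eval z‖ ‖B.eval w‖]
    have h8 := hK w (by rw [mem_closedBall, dist_zero_right]; exact hwR.le)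
    rw [← e2, norm_mul]
    exact mul_le_mul_of_nonneg_left h8 (norm_nonneg _)
  have t4 : Tendsto (fun z => ‖A.derivative.eval z‖ * K) (𝓝[≠] z₁) (𝓝 0) := by
    have h3 : Tendsto (fun z => ‖A.derivative.eval z‖ * K) (𝓝 z₁)
        (𝓝 (‖A.derivative.eval z₁‖ * K)) :=
      ((A.derivative.continuous.norm).mul continuous_const).tendsto z₁
    rw [hz₁, norm_zero, zero_mul] at h3
    exact h3.mono_left nhdsWithin_le_nhds
  have t5 := ge_of_tendsto t4 t3
  exact hc₁ (norm_le_zero_iff.1 t5)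

end Pool.Agent.Stek
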