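import Pool.Agent.Lib.MP_bd8415_an.Alg.SmallProd

/-!
# Small branches with integrable slope are bounded
-/

open Polynomial Filter Topology Metric Set Complex

namespace Pool.Agent.Stek

/-- Proof sketch: let `R₁ ≤ ‖z‖`, `u = z / ‖z‖`, `A = {y | R < (conj u * y).re}`: an open half plane in
`{R < ‖y‖}` which contains the segment from `R₁ u` to `z`. Take branches on `A` (`exists_br`) and `j` with
`φ j z = w`. By `small_all` it is small on `A`. For `t ∈ [R₁, ‖z‖]`,
`‖d/dt φ j (t u)‖ = ‖lam Q (t u) (φ j (t u))‖ ≤ K / t ^ 2`, so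
`‖w‖ ≤ ‖φ j (R₁ u)‖ + ∫ K / t ^ 2 ≤ α R₁ + |K| / R₁`. -/
theorem small_bounded {Q : Biv} {S : Set ℂ} {α R : ℝ} (h : AtInf Q S α R) {K R₁ : ℝ}
    (hR₁ : R < R₁)
    (hlam : ∀ z w, R₁ ≤ ‖z‖ → ev Q z w = 0 → ‖w‖ ≤ α * ‖z‖ → ‖lam Q z w‖ ≤ K / ‖z‖ ^ 2) :
    ∃ K' : ℝ, ∀ z w, R₁ ≤ ‖z‖ → ev Q z w = 0 → ‖w‖ ≤ α * ‖z‖ → ‖w‖ ≤ K' := by
  refine ⟨α * R₁ + K / R₁, ?_⟩
  intro z w hz hw hs
  have hR1pos : 0 < R₁ := lt_trans (lt_of_lt_of_le one_pos h.hR) hR₁
  have hzpos : 0 < ‖z‖ := lt_of_lt_of_le hR1pos hz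
  have hK : 0 ≤ K := by
    have h1 := (norm_nonneg _).trans (hlam z w hz hw hs)
    have h2 : 0 < ‖z‖ ^ 2 := by positivity
    by_contra hneg
    push Not at hneg
    have := div_neg_of_neg_of_pos hneg h2
    linarith
  set u : ℂ := z / (‖z‖ : ℂ) with hu
  have hzc : (‖z‖ : ℂ) ≠ 0 := by exact_mod_cast hzpos.ne'
  have hun : ‖u‖ = 1 := by
    rw [hu, norm_div, Complex.norm_real, norm_norm, div_self hzpos.ne']
  have huu : (starRingEnd ℂ) u * u = 1 := by
    rw [Complex.conj_mul', hun]; simp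
  have hzu : z = (‖z‖ : ℂ) * u := by
    rw [hu]; field_simp
  set A : Set ℂ := {y | R < ((starRingEnd ℂ) u * y).re} with hA
  have hlin : ∀ y ∈ A, R < ‖y‖ := by
    intro y hy
    have h1 : ((starRingEnd ℂ) u * y).re ≤ ‖(starRingEnd ℂ) u * y‖ := Complex.re_le_norm _
    rw [norm_mul, RCLike.norm_conj, hun, one_mul] at h1
    exact lt_of_lt_of_le hy h1
  have hAo : IsOpen A := by
    apply isOpen_lt continuous_const
    fun_prop
  have hAc : Convex ℝ A := by
    intro x hx y hy a b ha hb hab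
    simp only [hA, Set.mem_ofPred_eq] at hx hy ⊢
    have e : ((starRingEnd ℂ) u * (a • x + b • y)).re =
        a * ((starRingEnd ℂ) u * x).re + b * ((starRingEnd ℂ) u * y).re := by
      rw [mul_add, mul_smul_comm, mul_smul_comm, Complex.add_re, Complex.real_smul,
        Complex.real_smul, Complex.re_ofReal_mul, Complex.re_ofReal_mul]
    rw [e]
    rcases eq_or_lt_of_le ha with h0 | h0
    · have hb1 : b = 1 := by linarith
      rw [← h0, hb1]; linarith
    · nlinarith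
  have hmem : ∀ t : ℝ, R < t → (t : ℂ) * u ∈ A := by
    intro t ht
    show R < ((starRingEnd ℂ) u * ((t : ℂ) * u)).re
    have e : (starRingEnd ℂ) u * ((t : ℂ) * u) = (t : ℂ) := by
      rw [mul_left_comm, huu, mul_one]
    rw [e, Complex.ofReal_re]
    exact ht
  have hAne : A.Nonempty := ⟨_, hmem R₁ hR₁⟩
  have hAS : ∀ y ∈ A, y ∉ S := fun y hy => h.notMem (hlin y hy).le
  obtain ⟨φ, hφ⟩ := exists_br h.curve hAo hAc hAne hAS
  have hzA : z ∈ A := by
    rw [hzu]; exact hmem _ (lt_of_lt_of_le hR₁ hz)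
  obtain ⟨j, hj⟩ := hφ.all z hzA w hw
  have hcont : ContinuousOn (φ j) A := fun y hy => (hφ.an j y hy).continuousAt.continuousWithinAt
  have hsm := small_all h hAc.isPreconnected (fun y hy => (hlin y hy).le) hcont (hφ.root j) hzA
    (by rw [← hj]; exact hs)
  have hnt : ∀ t : ℝ, 0 < t → ‖(t : ℂ) * u‖ = t := by
    intro t ht
    rw [norm_mul, hun, mul_one, Complex.norm_real, Real.norm_of_nonneg ht.le]
  have hder : ∀ t : ℝ, R < t → HasDerivAt (fun t : ℝ => φ j ((t : ℂ) * u))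
      (lam Q ((t : ℂ) * u) (φ j ((t : ℂ) * u)) * u) t := by
    intro t ht
    have hm := hmem t ht
    have h1 : HasDerivAt (φ j) (lam Q ((t : ℂ) * u) (φ j ((t : ℂ) * u))) ((t : ℂ) * u) := by
      rw [← hφ.deriv_eq hAo j hm (h.curve.simple _ (hAS _ hm) _ (hφ.root j _ hm))]
      exact (hφ.an j _ hm).differentiableAt.hasDerivAt
    have h2 : HasDerivAt (fun t : ℝ => (t : ℂ) * u) (1 * u) t :=
      (Complex.ofRealCLM.hasDerivAt (x := t)).mul_const u
    rw [one_mul] at h2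
    exact h1.comp_of_eq t h2 rfl
  have key := image_norm_le_of_norm_deriv_right_le_deriv_boundary' (a := R₁) (b := ‖z‖)
    (f := fun t : ℝ => φ j ((t : ℂ) * u))
    (f' := fun t : ℝ => lam Q ((t : ℂ) * u) (φ j ((t : ℂ) * u)) * u)
    (B := fun t : ℝ => α * R₁ + K / R₁ - K / t) (B' := fun t : ℝ => K / t ^ 2)
    (fun t ht => (hder t (lt_of_lt_of_le hR₁ ht.1)).continuousAt.continuousWithinAt)
    (fun t ht => (hder t (lt_of_lt_of_le hR₁ ht.1)).hasDerivWithinAt)
    (by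
      have h1 := hsm _ (hmem R₁ hR₁)
      rw [hnt R₁ hR1pos] at h1
      simpa using h1)
    (fun t ht => by
      have ht0 : t ≠ 0 := (lt_of_lt_of_le hR1pos ht.1).ne'
      exact (continuousAt_const.sub (continuousAt_const.div continuousAt_id ht0)).continuousWithinAt)
    (fun t ht => by
      have ht0 : t ≠ 0 := (lt_of_lt_of_le hR1pos ht.1).ne'
      have h1 : HasDerivAt (fun t : ℝ => α * R₁ + K / R₁ - K / t) (K / t ^ 2) t := by
        have h2 := ((hasDerivAt_inv ht0).const_mul K).const_sub (α * R₁ + K / R₁)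
        have h3 : HasDerivAt (fun t : ℝ => α * R₁ + K / R₁ - K * t⁻¹) (K / t ^ 2) t :=
          h2.congr_deriv (by ring)
        simpa only [div_eq_mul_inv] using h3
      exact h1.hasDerivWithinAt)
    (fun t ht => by
      have ht1 : R < t := lt_of_lt_of_le hR₁ ht.1
      have ht0 : 0 < t := lt_of_lt_of_le hR1pos ht.1
      have hm := hmem t ht1
      have h1 := hlam ((t : ℂ) * u) (φ j ((t : ℂ) * u)) (by rw [hnt t ht0]; exact ht.1)
        (hφ.root j _ hm) (hsm _ hm)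
      rw [hnt t ht0] at h1
      rw [norm_mul, hun, mul_one]
      exact h1)
  have hfin := key (right_mem_Icc.2 hz)
  rw [← hzu, ← hj] at hfin
  have : 0 ≤ K / ‖z‖ := by positivity
  linarith

end Pool.Agent.Stek
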