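import Pool.Agent.Lib.MP_bd8415_an.Alg.ConstTools
import Pool.Agent.Lib.MP_bd8415_an.Alg.GrowMain
import Pool.Agent.Lib.MP_bd8415_an.Alg.SmallBdd
import Pool.Agent.Lib.MP_bd8415_an.Alg.PolyLam
import Pool.Agent.Lib.MP_bd8415_an.Alg.Liou
import Pool.Agent.Lib.MP_bd8415_an.Alg.PowerForm

/-!
# Polynomial data on a curve without real points at infinity
-/

open Polynomial Filter Topology Metric Set Complex

namespace Pool.Agent.Stek

section

variable {Q : Biv} {S : Set ℂ} {α R : ℝ} {P : Polynomial ℂ} {G : ℂ → ℂ} {σ : ℝ}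

/-- The small branches are bounded. -/
theorem small_bdd_of_poly (h : AtInf Q S α R) (hP : 1 ≤ P.natDegree)
    (hG : ∀ z, G z = P.eval z) (hσ : σ ≠ 0)
    (hF : ∀ z ∉ S, ∀ w, ev Q z w = 0 → FF Q G σ z w = 0) :
    ∃ K' R₁ : ℝ, 2 * R ≤ R₁ ∧
      ∀ z w, R₁ ≤ ‖z‖ → ev Q z w = 0 → ‖w‖ ≤ α * ‖z‖ → ‖w‖ ≤ K' := by
  have hR := h.hR
  have hlam5 := lam_bound_small h
  obtain ⟨K, R₀, hR₀, hK⟩ := lam_small_of_poly hP hG (α := α) (X := 5) hσ h.hα0 h.hα1
  set R₁ := max R₀ (2 * R) with hR₁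
  have h1 : R₀ ≤ R₁ := le_max_left _ _
  have h2 : 2 * R ≤ R₁ := le_max_right _ _
  obtain ⟨K', hK'⟩ := small_bounded h (K := K) (R₁ := R₁) (by linarith) (by
    intro z w hz hw hws
    have hzS : z ∉ S := h.notMem (by linarith)
    exact hK z w (lam Q z w) (h1.trans hz) hws (hlam5 z w (h2.trans hz) hw hws)
      (rel_lam h.curve hF hzS hw))
  exact ⟨K', R₁, h2, hK'⟩

/-- `U` does not vanish identically on the curve. -/
theorem sum_ne_zero (h : AtInf Q S α R) (hs : StarSym Q) (hP : 1 ≤ P.natDegree)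
    (hG : ∀ z, G z = P.eval z) (hσ : σ ≠ 0)
    (hF : ∀ z ∉ S, ∀ w, ev Q z w = 0 → FF Q G σ z w = 0) :
    ∃ z ∉ S, ∃ w, ev Q z w = 0 ∧ G z + sh G w ≠ 0 := by
  have hR := h.hR
  obtain ⟨K', R₁, hR₁, hK'⟩ := small_bdd_of_poly h hP hG hσ hF
  by_contra hcon
  push Not at hcon
  have hGc : Continuous G := by
    have : G = fun z => P.eval z := funext hG
    rw [this]
    exact P.continuous
  have hdeg : 0 < P.degree := natDegree_pos_iff_degree_pos.1 (by omega)
  have h1 : Tendsto (fun z : ℂ => ‖P.eval z‖) (Bornology.cobounded ℂ) atTop :=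
    P.tendsto_norm_atTop hdeg tendsto_norm_cobounded_atTop
  obtain ⟨N, -, hN⟩ := hasBasis_cobounded_norm.eventually_iff.1
    (h1.eventually (eventually_gt_atTop (mx G K')))
  obtain ⟨z, w, hz, hzR, hw, hws⟩ := h.exists_small hs (max N R₁)
  have h2 := hN ((le_max_left _ _).trans hz)
  have hzS : z ∉ S := h.notMem hzR
  have h3 := hcon z hzS w hw
  have h4 := hK' z w ((le_max_right _ _).trans hz) hw hws
  have h5 := sh_norm_le hGc h4
  have h6 : ‖G z‖ = ‖sh G w‖ := by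
    rw [eq_neg_of_add_eq_zero_left h3, norm_neg]
  rw [← hG, h6] at h2
  exact absurd h5 (not_le.2 h2)

/-- Liouville's theorem gives the constant `e`. -/
theorem exists_e (h : AtInf Q S α R) (hs : StarSym Q) (hP : 1 ≤ P.natDegree)
    (hG : ∀ z, G z = P.eval z) (hσ : σ ≠ 0)
    (hF : ∀ z ∉ S, ∀ w, ev Q z w = 0 → FF Q G σ z w = 0) :
    ∃ e : ℂ, ∀ z ∉ S, ∀ w, ev Q z w = 0 →
      I * σ * (sh G w * deriv G z + lam Q z w * G z * deriv (sh G) w) =
        e * (deriv G z - lam Q z w * deriv (sh G) w) := by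
  have hR := h.hR
  have hGe : G = fun z => P.eval z := funext hG
  have hGd : Differentiable ℂ G := by rw [hGe]; exact P.differentiable
  have hGc : Continuous G := hGd.continuous
  have hGd' := deriv_differentiable hGd
  have hsG := sh_differentiable hGd
  have hsGd := deriv_differentiable hsG
  obtain ⟨K', R₁, hR₁, hK'⟩ := small_bdd_of_poly h hP hG hσ hF
  have hlam5 := lam_bound_small h
  set ρ := max K' R₁ with hρ
  have hρ1 : K' ≤ ρ := le_max_left _ _
  have hρ2 : R₁ ≤ ρ := le_max_right _ _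
  set b := mx G (ρ + 1) with hb
  have hnG : ∀ z : ℂ, ‖z‖ ≤ ρ → ‖G z‖ ≤ b ∧ ‖deriv G z‖ ≤ b := by
    intro z hz
    refine ⟨norm_le_mx hGc (by linarith), ?_⟩
    have := norm_deriv_le_mx hGd (z := z) (ρ := 1) (r := ρ + 1) one_pos (by linarith)
    simpa using this
  have hnK : ∀ w : ℂ, ‖w‖ ≤ ρ → ‖sh G w‖ ≤ b ∧ ‖deriv (sh G) w‖ ≤ b := fun w hw =>
    ⟨sh_norm_le hGc (by linarith), deriv_sh_norm_le hGd (by linarith)⟩
  have hpt : ∀ z ∉ S, ∀ w, ev Q z w = 0 →
      ‖I * σ * (sh G w * deriv G z + lam Q z w * G z * deriv (sh G) w)‖ ≤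
        (|σ| + 3) * b * ‖deriv G z - lam Q z w * deriv (sh G) w‖ := by
    intro z hz w hw
    have hl0 := lam_ne_zero h.curve hz hw
    apply quot_bound hl0 (rel_lam h.curve hF hz hw)
    have hsmall : R₁ ≤ ‖z‖ → ‖w‖ ≤ α * ‖z‖ →
        (‖sh G w‖ ≤ b ∧ ‖deriv (sh G) w‖ ≤ b ∧ ‖lam Q z w‖ ≤ 9) := by
      intro h1 h2
      have h3 := hnK w ((hK' z w h1 hw h2).trans hρ1)
      exact ⟨h3.1, h3.2, (hlam5 z w (hR₁.trans h1) hw h2).trans (by norm_num)⟩
    have hlarge : R₁ ≤ ‖w‖ → ‖z‖ ≤ α * ‖w‖ →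
        (‖G z‖ ≤ b ∧ ‖deriv G z‖ ≤ b ∧ ‖(lam Q z w)⁻¹‖ ≤ 9) := by
      intro h1 h2
      have e1 := hs.zero hw
      have e2 : R₁ ≤ ‖(starRingEnd ℂ) w‖ := by rwa [Complex.norm_conj]
      have e3 : ‖(starRingEnd ℂ) z‖ ≤ α * ‖(starRingEnd ℂ) w‖ := by
        rwa [Complex.norm_conj, Complex.norm_conj]
      have h3 := hK' _ _ e2 e1 e3
      rw [Complex.norm_conj] at h3
      have h4 := hnG z (h3.trans hρ1)
      have h5 := hlam5 _ _ (hR₁.trans e2) e1 e3
      rw [hs.lam_eq, Complex.norm_conj] at h5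
      exact ⟨h4.1, h4.2, h5.trans (by norm_num)⟩
    by_cases hfar : R₁ ≤ ‖z‖ ∨ R₁ ≤ ‖w‖
    · rcases h.sep z w hw (hfar.imp (fun h => by linarith) (fun h => by linarith)) with h1 | h1
      · left
        apply hsmall _ h1
        rcases hfar with h2 | h2
        · exact h2
        · have := norm_nonneg z
          nlinarith [h.hα1]
      · right
        apply hlarge _ h1
        rcases hfar with h2 | h2
        · have := norm_nonneg w
          nlinarith [h.hα1]
        · exact h2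
    · push Not at hfar
      have h1 := hnG z (by linarith)
      have h2 := hnK w (by linarith)
      rcases le_total ‖lam Q z w‖ 1 with h3 | h3
      · exact Or.inl ⟨h2.1, h2.2, h3.trans (by norm_num)⟩
      · refine Or.inr ⟨h1.1, h1.2, ?_⟩
        rw [norm_inv]
        exact (inv_le_one_of_one_le₀ h3).trans (by norm_num)
  -- the two entire functions
  set N : ℂ → ℂ → ℂ := fun z w => I * σ * (sh G w * deriv G z * ev (dw Q) z w -
    G z * deriv (sh G) w * ev (dz Q) z w) with hN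
  set D : ℂ → ℂ → ℂ := fun z w => deriv G z * ev (dw Q) z w + deriv (sh G) w * ev (dz Q) z w
    with hD
  have eN : ∀ z ∉ S, ∀ w, ev Q z w = 0 → N z w =
      ev (dw Q) z w * (I * σ * (sh G w * deriv G z + lam Q z w * G z * deriv (sh G) w)) := by
    intro z hz w hw
    have h1 := h.curve.simple z hz w hw
    rw [hN]
    simp only [lam]
    field_simp
    ring
  have eD : ∀ z ∉ S, ∀ w, ev Q z w = 0 → D z w =
      ev (dw Q) z w * (deriv G z - lam Q z w * deriv (sh G) w) := by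
    intro z hz w hw
    have h1 := h.curve.simple z hz w hw
    rw [hD]
    simp only [lam]
    field_simp
    ring
  have a1 := ev_differentiable (dw Q)
  have a2 := ev_differentiable (dz Q)
  have a3 : Differentiable ℂ (fun p : ℂ × ℂ => deriv G p.1) := hGd'.comp differentiable_fst
  have a4 : Differentiable ℂ (fun p : ℂ × ℂ => deriv (sh G) p.2) := hsGd.comp differentiable_snd
  have a5 : Differentiable ℂ (fun p : ℂ × ℂ => G p.1) := hGd.comp differentiable_fst
  have a6 : Differentiable ℂ (fun p : ℂ × ℂ => sh G p.2) := hsG.comp differentiable_snd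
  have dN : Differentiable ℂ (fun p : ℂ × ℂ => N p.1 p.2) :=
    (((a6.mul a3).mul a1).sub ((a5.mul a4).mul a2)).const_mul _
  have dD : Differentiable ℂ (fun p : ℂ × ℂ => D p.1 p.2) :=
    (a3.mul a1).add (a4.mul a2)
  obtain ⟨e, he⟩ := liouville_curve h.curve dN dD (B := (|σ| + 3) * b) (by
    intro z hz w hw
    rw [eN z hz w hw, eD z hz w hw, norm_mul (ev (dw Q) z w), norm_mul (ev (dw Q) z w)]
    calc ‖ev (dw Q) z w‖ * ‖I * σ * (sh G w * deriv G z + lam Q z w * G z * deriv (sh G) w)‖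
        ≤ ‖ev (dw Q) z w‖ * ((|σ| + 3) * b * ‖deriv G z - lam Q z w * deriv (sh G) w‖) :=
          mul_le_mul_of_nonneg_left (hpt z hz w hw) (norm_nonneg _)
      _ = _ := by ring) (by
    obtain ⟨z, hz, w, hw, hne⟩ := sum_ne_zero h hs hP hG hσ hF
    refine ⟨z, hz, w, hw, ?_⟩
    rw [eD z hz w hw]
    refine mul_ne_zero (h.curve.simple z hz w hw) fun h0 => ?_
    have h1 := rel_lam h.curve hF hz hw
    rw [h0, zero_pow two_ne_zero] at h1
    have h2 : (σ : ℂ) ^ 2 * lam Q z w * (G z + sh G w) ^ 2 ≠ 0 :=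
      mul_ne_zero (mul_ne_zero (pow_ne_zero _ (by exact_mod_cast hσ))
        (lam_ne_zero h.curve hz hw)) (pow_ne_zero _ hne)
    exact h2 (neg_eq_zero.1 h1.symm))
  refine ⟨e, fun z hz w hw => ?_⟩
  have h1 := he z hz w hw
  rw [eN z hz w hw, eD z hz w hw] at h1
  apply mul_left_cancel₀ (h.curve.simple z hz w hw)
  rw [h1]
  ring

/-- The constant is real. -/
theorem e_real (h : Curve Q S) (hs : StarSym Q) (hGd : Differentiable ℂ G) (hσ : σ ≠ 0)
    (hF : ∀ z ∉ S, ∀ w, ev Q z w = 0 → FF Q G σ z w = 0)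
    (hsum : ∃ z ∉ S, ∃ w, ev Q z w = 0 ∧ G z + sh G w ≠ 0) {e : ℂ}
    (he : ∀ z ∉ S, ∀ w, ev Q z w = 0 →
      I * σ * (sh G w * deriv G z + lam Q z w * G z * deriv (sh G) w) =
        e * (deriv G z - lam Q z w * deriv (sh G) w))
    {z₁ : ℂ} (hz₁ : z₁ ∉ S) (hacc : ∃ᶠ z in 𝓝[≠] z₁, ev Q z ((starRingEnd ℂ) z) = 0) :
    (starRingEnd ℂ) e = e := by
  by_contra hne
  have hne' : e - (starRingEnd ℂ) e ≠ 0 := fun h0 => hne (sub_eq_zero.1 h0).symm
  have hGd' := deriv_differentiable hGd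
  have hsG := sh_differentiable hGd
  have hsGd := deriv_differentiable hsG
  set D : ℂ → ℂ → ℂ := fun z w => deriv G z * ev (dw Q) z w + deriv (sh G) w * ev (dz Q) z w
    with hD
  have eD : ∀ z ∉ S, ∀ w, ev Q z w = 0 → D z w =
      ev (dw Q) z w * (deriv G z - lam Q z w * deriv (sh G) w) := by
    intro z hz w hw
    have h1 := h.simple z hz w hw
    rw [hD]
    simp only [lam]
    field_simp
    ring
  have hreal : ∀ z ∉ S, ev Q z ((starRingEnd ℂ) z) = 0 → D z ((starRingEnd ℂ) z) = 0 := by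
    intro z hz h0
    have h1 := he z hz _ h0
    have e1 : sh G ((starRingEnd ℂ) z) = (starRingEnd ℂ) (G z) := by
      rw [sh, Complex.conj_conj]
    have e2 : deriv (sh G) ((starRingEnd ℂ) z) = (starRingEnd ℂ) (deriv G z) := by
      rw [deriv_sh hGd, Complex.conj_conj]
    have hl := hs.lam_eq z ((starRingEnd ℂ) z)
    rw [Complex.conj_conj] at hl
    have hl0 := lam_ne_zero h hz h0
    have hl1 : lam Q z ((starRingEnd ℂ) z) * (starRingEnd ℂ) (lam Q z ((starRingEnd ℂ) z)) = 1 := by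
      have h2 := congrArg (starRingEnd ℂ) hl
      rw [Complex.conj_conj] at h2
      rw [h2, mul_inv_cancel₀ hl0]
    rw [e1, e2] at h1
    have h3 := (mul_eq_zero.1 (real_point hl1 h1)).resolve_left hne'
    rw [eD z hz _ h0, e2, h3, mul_zero]
  have a1 := ev_differentiable (dw Q)
  have a2 := ev_differentiable (dz Q)
  have a3 : Differentiable ℂ (fun p : ℂ × ℂ => deriv G p.1) := hGd'.comp differentiable_fst
  have a4 : Differentiable ℂ (fun p : ℂ × ℂ => deriv (sh G) p.2) := hsGd.comp differentiable_snd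
  have dD : Differentiable ℂ (fun p : ℂ × ℂ => D p.1 p.2) :=
    (a3.mul a1).add (a4.mul a2)
  have hclosed : IsClosed {z : ℂ | ev Q z ((starRingEnd ℂ) z) = 0} :=
    isClosed_eq ((continuous_ev Q).comp (continuous_id.prodMk Complex.continuous_conj))
      continuous_const
  have h0 : ev Q z₁ ((starRingEnd ℂ) z₁) = 0 := by
    have : z₁ ∈ closure {z : ℂ | ev Q z ((starRingEnd ℂ) z) = 0} :=
      mem_closure_iff_frequently.2 (hacc.filter_mono nhdsWithin_le_nhds)
    rw [hclosed.closure_eq] at this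
    exact this
  have hall := h.identity_branch dD (f := starRingEnd ℂ) hz₁ Complex.continuous_conj.continuousAt h0
    ((hacc.and_eventually (finite_nhdsNE h.fin z₁)).mono fun z hz => ⟨hz.1, hreal z hz.2 hz.1⟩)
  obtain ⟨z, hz, w, hw, hsum0⟩ := hsum
  have h1 := hall z hz w hw
  rw [eD z hz w hw] at h1
  have h2 := (mul_eq_zero.1 h1).resolve_left (h.simple z hz w hw)
  have h3 := rel_lam h hF hz hw
  rw [h2, zero_pow two_ne_zero] at h3
  have h4 : (σ : ℂ) ^ 2 * lam Q z w * (G z + sh G w) ^ 2 ≠ 0 :=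
    mul_ne_zero (mul_ne_zero (pow_ne_zero _ (by exact_mod_cast hσ))
      (lam_ne_zero h hz hw)) (pow_ne_zero _ hsum0)
  exact h4 (neg_eq_zero.1 h3.symm)

end

end Pool.Agent.Stek
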