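import Pool.Agent.Lib.MP_bd8415_an.Alg.ConstMain

/-!
# Polynomial data are powers, the curve is a circle
-/

open Polynomial Filter Topology Metric Set Complex

namespace Pool.Agent.Stek

section

variable {Q : Biv} {S : Set ℂ} {α R : ℝ} {P : Polynomial ℂ} {G : ℂ → ℂ} {σ : ℝ}

theorem sh_poly (hG : ∀ z, G z = P.eval z) (w : ℂ) :
    sh G w = (P.map (starRingEnd ℂ)).eval w := by
  rw [sh, hG]
  have h1 := Polynomial.eval_map (starRingEnd ℂ) ((starRingEnd ℂ) ((starRingEnd ℂ) w)) (p := P)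
  rw [Polynomial.eval₂_at_apply, Complex.conj_conj] at h1
  exact h1.symm

/-- The identity `A A' ^ 2 ...`: algebra at one point. -/
theorem alg_third {A A' B B' m σ : ℂ} (h1 : A' * B + m * (A * B') = 0)
    (h2 : (A' - m * B') ^ 2 = -(σ ^ 2 * m * (A + B) ^ 2)) (hne : A + B ≠ 0) :
    A' ^ 2 + σ ^ 2 * m * A ^ 2 = 0 := by
  have h3 : (A + B) ^ 2 * (A' ^ 2 + σ ^ 2 * m * A ^ 2) = 0 := by
    linear_combination A ^ 2 * h2 + (2 * A * A' + A' * B - m * A * B') * h1
  exact (mul_eq_zero.1 h3).resolve_left (pow_ne_zero _ hne)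

theorem poly_part (h : Curve Q S) (hP : 1 ≤ P.natDegree)
    (hG : ∀ z, G z = P.eval z) (hσ : σ ≠ 0)
    (hF : ∀ z ∉ S, ∀ w, ev Q z w = 0 → FF Q G σ z w = 0)
    (hsum : ∃ z ∉ S, ∃ w, ev Q z w = 0 ∧ G z + sh G w ≠ 0) {e : ℂ}
    (hreal : (starRingEnd ℂ) e = e)
    (he : ∀ z ∉ S, ∀ w, ev Q z w = 0 →
      I * σ * (sh G w * deriv G z + lam Q z w * G z * deriv (sh G) w) =
        e * (deriv G z - lam Q z w * deriv (sh G) w)) :
    ∃ z₀ a : ℂ, a ≠ 0 ∧ (∀ z, G z = a * (z - z₀) ^ P.natDegree + I * e / σ) ∧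
      ∀ z ∉ S, ∀ w, ev Q z w = 0 →
        (σ : ℂ) ^ 2 * ((z - z₀) * (w - (starRingEnd ℂ) z₀)) = (P.natDegree : ℂ) ^ 2 := by
  have hσ' : (σ : ℂ) ≠ 0 := by exact_mod_cast hσ
  have hGe : G = fun z => P.eval z := funext hG
  have hGd : Differentiable ℂ G := by rw [hGe]; exact P.differentiable
  have hGd' := deriv_differentiable hGd
  have hsG := sh_differentiable hGd
  have hsGd := deriv_differentiable hsG
  set k : ℂ := I * e / σ with hk
  have hkc : (starRingEnd ℂ) k = -k := by
    rw [hk, map_div₀, map_mul, Complex.conj_I, hreal, Complex.conj_ofReal]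
    ring
  set A : Polynomial ℂ := P - C k with hA
  set B : Polynomial ℂ := P.map (starRingEnd ℂ) + C k with hB
  have hAdeg : A.natDegree = P.natDegree := natDegree_sub_C
  have hBdeg : B.natDegree = P.natDegree := by
    rw [hB, natDegree_add_C, natDegree_map_eq_of_injective (starRingEnd ℂ).injective]
  have hA0 : A ≠ 0 := by
    intro h0
    rw [h0, natDegree_zero] at hAdeg
    omega
  have hB0 : B ≠ 0 := by
    intro h0
    rw [h0, natDegree_zero] at hBdeg
    omega
  have eA : ∀ z, A.eval z = G z - k := fun z => by rw [hA, eval_sub, eval_C, hG]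
  have eB : ∀ w, B.eval w = sh G w + k := fun w => by rw [hB, eval_add, eval_C, sh_poly hG]
  have dA : ∀ z, A.derivative.eval z = deriv G z := fun z => by
    rw [← A.deriv]
    have : (fun z => A.eval z) = fun z => G z - k := funext eA
    rw [this, deriv_sub_const]
  have dB : ∀ w, B.derivative.eval w = deriv (sh G) w := fun w => by
    rw [← B.deriv]
    have : (fun w => B.eval w) = fun w => sh G w + k := funext eB
    rw [this, deriv_add_const]
  have hA'0 : A.derivative ≠ 0 := by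
    intro h0
    have := derivative_eq_zero.1 h0
    omega
  -- the first identity
  have hi : ∀ z ∉ S, ∀ w, ev Q z w = 0 → A.derivative.eval z * B.eval w +
      lam Q z w * (A.eval z * B.derivative.eval w) = 0 := by
    intro z hz w hw
    have h1 := he z hz w hw
    rw [dA, eB, eA, dB]
    have h2 : I * σ * ((deriv G z) * (sh G w + k) + lam Q z w * ((G z - k) * deriv (sh G) w)) = 0 := by
      have e1 : (σ : ℂ) * k = I * e := by rw [hk]; field_simp
      linear_combination h1 + (I * (deriv G z - lam Q z w * deriv (sh G) w)) * e1 +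
        (e * (deriv G z - lam Q z w * deriv (sh G) w)) * Complex.I_sq
    exact (mul_eq_zero.1 h2).resolve_left (mul_ne_zero Complex.I_ne_zero hσ')
  obtain ⟨c₀, hc₀⟩ := h.const_of_tangent (A := fun z => A.eval z) (B := fun w => B.eval w)
    A.differentiable B.differentiable (by
      intro z hz w hw
      have := hi z hz w hw
      rw [← A.deriv, ← B.deriv] at this
      exact this)
  -- the third identity
  have hiii : ∀ z ∉ S, ∀ w, ev Q z w = 0 →
      A.derivative.eval z ^ 2 + (σ : ℂ) ^ 2 * lam Q z w * A.eval z ^ 2 = 0 := by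
    set F : ℂ → ℂ → ℂ := fun z w => ev (dw Q) z w * A.derivative.eval z ^ 2 -
      (σ : ℂ) ^ 2 * ev (dz Q) z w * A.eval z ^ 2 with hFdef
    have eF : ∀ z ∉ S, ∀ w, ev Q z w = 0 → F z w = ev (dw Q) z w *
        (A.derivative.eval z ^ 2 + (σ : ℂ) ^ 2 * lam Q z w * A.eval z ^ 2) := by
      intro z hz w hw
      have h1 := h.simple z hz w hw
      rw [hFdef]
      simp only [lam]
      field_simp
      ring
    have a1 := ev_differentiable (dw Q)
    have a2 := ev_differentiable (dz Q)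
    have a3 : Differentiable ℂ (fun p : ℂ × ℂ => A.derivative.eval p.1) :=
      A.derivative.differentiable.comp differentiable_fst
    have a4 : Differentiable ℂ (fun p : ℂ × ℂ => A.eval p.1) :=
      A.differentiable.comp differentiable_fst
    have dF : Differentiable ℂ (fun p : ℂ × ℂ => F p.1 p.2) :=
      (a1.mul (a3.pow 2)).sub ((a2.const_mul _).mul (a4.pow 2))
    obtain ⟨z₂, hz₂, w₂, hw₂, hne⟩ := hsum
    have hcont : Continuous fun p : ℂ × ℂ => G p.1 + sh G p.2 :=
      (hGd.continuous.comp continuous_fst).add (hsG.continuous.comp continuous_snd)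
    have e1 : ∀ᶠ p : ℂ × ℂ in 𝓝 (z₂, w₂), G p.1 + sh G p.2 ≠ 0 :=
      hcont.continuousAt.eventually_ne hne
    have e2 : ∀ᶠ p : ℂ × ℂ in 𝓝 (z₂, w₂), p.1 ∉ S :=
      (continuous_fst.tendsto (z₂, w₂)).eventually (h.fin.isClosed.isOpen_compl.mem_nhds hz₂)
    have hall := h.identity dF hz₂ hw₂ (by
      show ∀ᶠ p : ℂ × ℂ in 𝓝 (z₂, w₂), ev Q p.1 p.2 = 0 → F p.1 p.2 = 0
      filter_upwards [e1, e2] with p h1 h2 h3
      rw [eF _ h2 _ h3]
      have h4 := alg_third (A := A.eval p.1) (A' := A.derivative.eval p.1) (B := B.eval p.2)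
        (B' := B.derivative.eval p.2) (m := lam Q p.1 p.2) (σ := σ) (hi _ h2 _ h3) (by
          have h5 := rel_lam h hF h2 h3
          rw [dA, dB, eA, eB]
          rw [h5]
          ring) (by
          rw [eA, eB]
          intro h6
          apply h1
          linear_combination h6)
      rw [h4, mul_zero])
    intro z hz w hw
    have h1 := hall z hz w hw
    rw [eF z hz w hw] at h1
    exact (mul_eq_zero.1 h1).resolve_left (h.simple z hz w hw)
  -- the second identity
  have hii : ∀ z ∉ S, ∀ w, ev Q z w = 0 →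
      A.derivative.eval z * B.derivative.eval w = (σ : ℂ) ^ 2 * c₀ := by
    set F : ℂ → ℂ → ℂ := fun z w => A.derivative.eval z * B.derivative.eval w -
      (σ : ℂ) ^ 2 * c₀ with hFdef
    have dF : Differentiable ℂ (fun p : ℂ × ℂ => F p.1 p.2) :=
      ((A.derivative.differentiable.comp differentiable_fst).mul
        (B.derivative.differentiable.comp differentiable_snd)).sub_const _
    obtain ⟨z₃, hz₃, hz₃', w₃, hw₃⟩ := h.exists_point (A.derivative.rootSet_finite ℂ)
    have hne : A.derivative.eval z₃ ≠ 0 := by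
      intro h0
      apply hz₃'
      rw [Polynomial.mem_rootSet]
      exact ⟨hA'0, by simpa using h0⟩
    have e1 : ∀ᶠ p : ℂ × ℂ in 𝓝 (z₃, w₃), A.derivative.eval p.1 ≠ 0 :=
      (A.derivative.continuous.comp continuous_fst).continuousAt.eventually_ne hne
    have e2 : ∀ᶠ p : ℂ × ℂ in 𝓝 (z₃, w₃), p.1 ∉ S :=
      (continuous_fst.tendsto (z₃, w₃)).eventually (h.fin.isClosed.isOpen_compl.mem_nhds hz₃)
    have hall := h.identity dF hz₃ hw₃ (by
      show ∀ᶠ p : ℂ × ℂ in 𝓝 (z₃, w₃), ev Q p.1 p.2 = 0 → F p.1 p.2 = 0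
      filter_upwards [e1, e2] with p h1 h2 h3
      have h4 := hi _ h2 _ h3
      have h5 := hiii _ h2 _ h3
      have h6 : A.eval p.1 * B.eval p.2 = c₀ := hc₀ _ h2 _ h3
      have h7 : A.derivative.eval p.1 *
          (A.derivative.eval p.1 * B.derivative.eval p.2 - (σ : ℂ) ^ 2 * c₀) = 0 := by
        rw [← h6]
        linear_combination B.derivative.eval p.2 * h5 - (σ : ℂ) ^ 2 * A.eval p.1 * h4
      exact (mul_eq_zero.1 h7).resolve_left h1)
    intro z hz w hw
    exact sub_eq_zero.1 (hall z hz w hw)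
  -- the constant does not vanish
  have hc₀ne : c₀ ≠ 0 := by
    rintro rfl
    obtain ⟨z₄, hz₄, hz₄', w₄, hw₄⟩ := h.exists_point (A.rootSet_finite ℂ)
    have hne : A.eval z₄ ≠ 0 := by
      intro h0
      apply hz₄'
      rw [Polynomial.mem_rootSet]
      exact ⟨hA0, by simpa using h0⟩
    have e1 : ∀ᶠ p : ℂ × ℂ in 𝓝 (z₄, w₄), A.eval p.1 ≠ 0 :=
      (A.continuous.comp continuous_fst).continuousAt.eventually_ne hne
    have e2 : ∀ᶠ p : ℂ × ℂ in 𝓝 (z₄, w₄), p.1 ∉ S :=
      (continuous_fst.tendsto (z₄, w₄)).eventually (h.fin.isClosed.isOpen_compl.mem_nhds hz₄)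
    refine h.not_root hB0 hz₄ hw₄ ?_
    filter_upwards [e1, e2] with p h1 h2 h3
    have h4 : A.eval p.1 * B.eval p.2 = 0 := hc₀ _ h2 _ h3
    exact (mul_eq_zero.1 h4).resolve_left h1
  have hroots := deriv_root_is_root h (A := A) (B := B) (by omega)
    (c₀ := c₀) (c₁ := (σ : ℂ) ^ 2 * c₀) (mul_ne_zero (pow_ne_zero _ hσ') hc₀ne) hc₀ hii
  obtain ⟨z₀, a, ha, hAeq⟩ := power_of_deriv_roots (by omega) hroots
  rw [hAdeg] at hAeq
  obtain ⟨m, hm⟩ : ∃ m, P.natDegree = m + 1 := ⟨P.natDegree - 1, by omega⟩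
  have vA : ∀ z, A.eval z = a * (z - z₀) ^ (m + 1) := fun z => by
    rw [hAeq, hm]; simp
  have vA' : ∀ z, A.derivative.eval z = a * ((m + 1) * (z - z₀) ^ m) := fun z => by
    rw [hAeq, hm]
    simp only [derivative_mul, derivative_C, zero_mul, zero_add, eval_mul, eval_C,
      derivative_X_sub_C_pow, eval_pow, eval_sub, eval_X, Nat.add_sub_cancel]
    push_cast
    ring
  refine ⟨z₀, a, ha, fun z => ?_, fun z hz w hw => ?_⟩
  · have h1 := eA z
    rw [vA] at h1
    rw [hm]
    linear_combination -h1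
  · have vB : B.eval w = (starRingEnd ℂ) a * (w - (starRingEnd ℂ) z₀) ^ (m + 1) := by
      have h1 := congrArg (starRingEnd ℂ) (vA ((starRingEnd ℂ) w))
      rw [eA, map_sub, hkc] at h1
      rw [eB]
      simp only [map_mul, map_pow, map_sub, Complex.conj_conj] at h1
      rw [← h1, sh]
      ring
    have vB' : B.derivative.eval w = (starRingEnd ℂ) a *
        ((m + 1) * (w - (starRingEnd ℂ) z₀) ^ m) := by
      have h1 := congrArg (starRingEnd ℂ) (vA' ((starRingEnd ℂ) w))
      rw [dA] at h1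
      rw [dB, deriv_sh hGd, h1]
      simp only [map_mul, map_pow, map_sub, map_add, map_one, Complex.conj_conj, map_natCast]
    have h1 : A.eval z * B.eval w = c₀ := hc₀ z hz w hw
    have h2 := hii z hz w hw
    rw [vA, vB] at h1
    rw [vA', vB'] at h2
    set t := (z - z₀) * (w - (starRingEnd ℂ) z₀) with ht
    have haa : a * (starRingEnd ℂ) a ≠ 0 :=
      mul_ne_zero ha ((_root_.map_ne_zero _).2 ha)
    have h1' : a * (starRingEnd ℂ) a * t ^ (m + 1) = c₀ := by
      rw [← h1, ht, mul_pow]; ring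
    have ht0 : t ≠ 0 := by
      intro h0
      rw [h0, zero_pow (by omega), mul_zero] at h1'
      exact hc₀ne h1'.symm
    have h2' : a * (starRingEnd ℂ) a * ((m + 1) ^ 2 * t ^ m) = (σ : ℂ) ^ 2 * c₀ := by
      rw [← h2, ht, mul_pow]; ring
    rw [← h1'] at h2'
    have h3 : (a * (starRingEnd ℂ) a * t ^ m) * ((σ : ℂ) ^ 2 * t - (m + 1) ^ 2) = 0 := by
      linear_combination -h2'
    have h4 := (mul_eq_zero.1 h3).resolve_left (mul_ne_zero haa (pow_ne_zero _ ht0))
    rw [hm]
    push_cast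
    linear_combination h4

/-- Polynomial data on a curve without real points at infinity: the curve is a circle. -/
theorem const_main (h : AtInf Q S α R) (hs : StarSym Q) (hP : 1 ≤ P.natDegree)
    (hG : ∀ z, G z = P.eval z) (hσ : σ ≠ 0)
    (hF : ∀ z ∉ S, ∀ w, ev Q z w = 0 → FF Q G σ z w = 0)
    {z₁ : ℂ} (hz₁ : z₁ ∉ S) (hacc : ∃ᶠ z in 𝓝[≠] z₁, ev Q z ((starRingEnd ℂ) z) = 0) :
    ∃ z₀ a b : ℂ, a ≠ 0 ∧ b.re = 0 ∧ (∀ z, G z = a * (z - z₀) ^ P.natDegree + b) ∧
      ∀ z ∉ S, ev Q z ((starRingEnd ℂ) z) = 0 → ‖z - z₀‖ = P.natDegree / |σ| := by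
  have hGe : G = fun z => P.eval z := funext hG
  have hGd : Differentiable ℂ G := by rw [hGe]; exact P.differentiable
  have hsum := sum_ne_zero h hs hP hG hσ hF
  obtain ⟨e, he⟩ := exists_e h hs hP hG hσ hF
  have hreal := e_real h.curve hs hGd hσ hF hsum he hz₁ hacc
  obtain ⟨z₀, a, ha, h1, h2⟩ := poly_part h.curve hP hG hσ hF hsum hreal he
  refine ⟨z₀, a, I * e / σ, ha, ?_, h1, fun z hz h0 => ?_⟩
  · have h3 : (starRingEnd ℂ) (I * e / σ) = -(I * e / σ) := by
      rw [map_div₀, map_mul, Complex.conj_I, hreal, Complex.conj_ofReal]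
      ring
    have h4 := congrArg Complex.re h3
    rw [Complex.conj_re, Complex.neg_re] at h4
    linarith
  · have h3 := h2 z hz _ h0
    rw [← map_sub, Complex.mul_conj] at h3
    have h4 : σ ^ 2 * Complex.normSq (z - z₀) = (P.natDegree : ℝ) ^ 2 := by exact_mod_cast h3
    rw [Complex.normSq_eq_norm_sq, ← sq_abs σ] at h4
    have hσ0 : 0 < |σ| := abs_pos.2 hσ
    have h5 : (|σ| * ‖z - z₀‖) ^ 2 = (P.natDegree : ℝ) ^ 2 := by rw [← h4]; ring
    have h6 := (pow_left_inj₀ (by positivity) (by positivity) two_ne_zero).1 h5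
    rw [eq_div_iff hσ0.ne', mul_comm]
    exact h6

end

end Pool.Agent.Stek
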