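import Pool.Agent.Lib.MP_bd8415_an.Alg.Defs2
import Pool.Agent.Lib.MP_bd8415_an.Scale

/-!
# Tools for polynomial data on an algebraic curve
-/

open Polynomial Filter Topology Metric Set Complex

namespace Pool.Agent.Stek

/-- The pointwise bound for the quotient. -/
theorem quot_bound {m A A' B B' : ℂ} {σ b : ℝ} (hm0 : m ≠ 0)
    (h : (A' - m * B') ^ 2 = -((σ : ℂ) ^ 2 * m * (A + B) ^ 2))
    (hcase : (‖B‖ ≤ b ∧ ‖B'‖ ≤ b ∧ ‖m‖ ≤ 9) ∨ (‖A‖ ≤ b ∧ ‖A'‖ ≤ b ∧ ‖m⁻¹‖ ≤ 9)) :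
    ‖I * σ * (B * A' + m * A * B')‖ ≤ (|σ| + 3) * b * ‖A' - m * B'‖ := by
  obtain ⟨τ, ht, hr⟩ := exists_tau h
  have hτ0 : τ ≠ 0 := by
    rintro rfl
    apply hm0
    rw [zero_pow two_ne_zero] at ht
    exact neg_eq_zero.1 ht.symm
  have hm : m = -τ ^ 2 := by rw [ht, neg_neg]
  have e1 : A' - m * B' = σ * τ * (A + B) := by rw [← hr, ht]; ring
  have key : ∀ x y t : ℂ, ‖x‖ ≤ b → ‖y‖ ≤ b → ‖t‖ ^ 2 ≤ 9 →
      ‖I * (σ * x - t * y)‖ ≤ (|σ| + 3) * b := by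
    intro x y t hx hy ht9
    have hb : 0 ≤ b := (norm_nonneg _).trans hx
    have ht3 : ‖t‖ ≤ 3 := by nlinarith [norm_nonneg t]
    rw [norm_mul, Complex.norm_I, one_mul]
    calc ‖(σ : ℂ) * x - t * y‖ ≤ ‖(σ : ℂ) * x‖ + ‖t * y‖ := norm_sub_le _ _
      _ = |σ| * ‖x‖ + ‖t‖ * ‖y‖ := by
        rw [norm_mul, norm_mul, Complex.norm_real, Real.norm_eq_abs]
      _ ≤ |σ| * b + 3 * b := by gcongr
      _ = _ := by ring
  rcases hcase with ⟨h1, h2, h3⟩ | ⟨h1, h2, h3⟩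
  · have e2 : I * σ * (B * A' + m * A * B') = I * (σ * B - τ * B') * (A' - m * B') := by
      rw [e1, hm]
      linear_combination (I * σ * B) * hr
    rw [e2, norm_mul]
    apply mul_le_mul_of_nonneg_right _ (norm_nonneg _)
    apply key _ _ _ h1 h2
    rw [← norm_pow, ht, norm_neg]
    exact h3
  · have e2 : I * σ * (B * A' + m * A * B') = -(I * (σ * A - τ⁻¹ * A')) * (A' - m * B') := by
      have e3 : τ ^ 2 * B' = σ * τ * (A + B) - A' := by linear_combination hr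
      have e4 : -(I * (σ * A - τ⁻¹ * A')) * (A' - m * B') =
          I * σ * (A + B) * (A' * (τ⁻¹ * τ) - τ * σ * A) := by
        rw [e1]; ring
      rw [e4, inv_mul_cancel₀ hτ0, hm]
      linear_combination (-(I * σ * A)) * e3
    rw [e2, norm_mul, norm_neg]
    apply mul_le_mul_of_nonneg_right _ (norm_nonneg _)
    apply key _ _ _ h1 h2
    rw [← norm_pow, inv_pow, ht, inv_neg, norm_neg]
    exact h3

/-- Reality of the constant, pointwise. -/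
theorem real_point {l g g' e : ℂ} {σ : ℝ} (hl : l * (starRingEnd ℂ) l = 1)
    (h : I * σ * ((starRingEnd ℂ) g * g' + l * g * (starRingEnd ℂ) g') =
      e * (g' - l * (starRingEnd ℂ) g')) :
    (e - (starRingEnd ℂ) e) * (g' - l * (starRingEnd ℂ) g') = 0 := by
  have h1 := congrArg (starRingEnd ℂ) h
  simp only [map_mul, map_add, map_sub, Complex.conj_conj, Complex.conj_I, Complex.conj_ofReal] at h1
  linear_combination -h - l * h1 + (-(I * σ * (starRingEnd ℂ) g * g')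
    + (starRingEnd ℂ) e * g') * hl

/-- A regular point of the curve off a given finite set. -/
theorem Curve.exists_point {Q : Biv} {S : Set ℂ} (h : Curve Q S) {T : Set ℂ} (hT : T.Finite) :
    ∃ z, z ∉ S ∧ z ∉ T ∧ ∃ w, ev Q z w = 0 := by
  obtain ⟨z, hz⟩ := ((h.fin.union hT).infinite_compl).nonempty
  rw [mem_compl_iff, mem_union, not_or] at hz
  obtain ⟨u, -, hu⟩ := exists_roots (h.lead z hz.1) (h.simple z hz.1)
  exact ⟨z, hz.1, hz.2, _, hu ⟨0, Nat.pos_of_ne_zero h.deg⟩⟩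

/-- A local branch with its derivative. -/
theorem Curve.branch {Q : Biv} {S : Set ℂ} (h : Curve Q S) {z₁ u : ℂ} (hz₁ : z₁ ∉ S)
    (h0 : ev Q z₁ u = 0) : ∃ φ : ℂ → ℂ, φ z₁ = u ∧
      (∀ᶠ z in 𝓝 z₁, z ∉ S ∧ ev Q z (φ z) = 0 ∧ HasDerivAt φ (lam Q z (φ z)) z) ∧
      ∀ᶠ p : ℂ × ℂ in 𝓝 (z₁, u), ev Q p.1 p.2 = 0 ↔ p.2 = φ p.1 := by
  obtain ⟨φ, hφ, hφ1, hφ2⟩ := local_branch Q h0 (h.simple z₁ hz₁ _ h0)
  refine ⟨φ, hφ1, ?_, hφ2⟩
  have hc : Tendsto (fun z => (z, φ z)) (𝓝 z₁) (𝓝 (z₁, u)) := by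
    have := (continuousAt_id (x := z₁)).prodMk hφ.continuousAt
    have e : ((id z₁, φ z₁) : ℂ × ℂ) = (z₁, u) := by rw [hφ1]; rfl
    simpa [ContinuousAt, e, hφ1] using this
  have e1 : ∀ᶠ z in 𝓝 z₁, ev Q z (φ z) = 0 := by
    filter_upwards [hc.eventually hφ2] with z hz using hz.2 rfl
  have e2 : ∀ᶠ z in 𝓝 z₁, z ∉ S := h.fin.isClosed.isOpen_compl.mem_nhds hz₁
  filter_upwards [e1.eventually_nhds, e2, hφ.eventually_analyticAt] with z h1 h2 h3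
  refine ⟨h2, h1.self_of_nhds, ?_⟩
  have hs := h.simple z h2 _ h1.self_of_nhds
  have d1 : HasDerivAt (fun z => ((z, φ z) : ℂ × ℂ)) (1, deriv φ z) z :=
    (hasDerivAt_id z).prodMk h3.differentiableAt.hasDerivAt
  have d2 : HasFDerivAt (fun p : ℂ × ℂ => ev Q p.1 p.2)
      (fderiv ℂ (fun p : ℂ × ℂ => ev Q p.1 p.2) (z, φ z)) (z, φ z) :=
    (ev_differentiable Q (z, φ z)).hasFDerivAt
  have d3 := d2.comp_hasDerivAt z d1
  have d4 : HasDerivAt ((fun p : ℂ × ℂ => ev Q p.1 p.2) ∘ fun z => ((z, φ z) : ℂ × ℂ)) 0 z :=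
    (hasDerivAt_const z (0 : ℂ)).congr_of_eventuallyEq h1
  have d5 := d3.unique d4
  rw [fderiv_ev] at d5
  simp only [mul_one] at d5
  have d6 : deriv φ z = lam Q z (φ z) := by
    unfold lam
    rw [eq_div_iff hs]
    linear_combination d5
  rw [← d6]
  exact h3.differentiableAt.hasDerivAt

/-- A product with vanishing tangential derivative is constant on the curve. -/
theorem Curve.const_of_tangent {Q : Biv} {S : Set ℂ} (h : Curve Q S) {A B : ℂ → ℂ}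
    (hA : Differentiable ℂ A) (hB : Differentiable ℂ B)
    (hAB : ∀ z ∉ S, ∀ w, ev Q z w = 0 →
      deriv A z * B w + lam Q z w * (A z * deriv B w) = 0) :
    ∃ c : ℂ, ∀ z ∉ S, ∀ w, ev Q z w = 0 → A z * B w = c := by
  obtain ⟨z₁, hz₁, -, w₁, hw₁⟩ := h.exists_point finite_empty
  obtain ⟨φ, hφ1, hφ, hφ2⟩ := h.branch hz₁ hw₁
  refine ⟨A z₁ * B w₁, fun z hz w hw => ?_⟩
  have hF : Differentiable ℂ (fun p : ℂ × ℂ => A p.1 * B p.2 - A z₁ * B w₁) :=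
    ((hA.comp differentiable_fst).mul (hB.comp differentiable_snd)).sub_const _
  refine sub_eq_zero.1 (h.identity (F := fun z w => A z * B w - A z₁ * B w₁) hF hz₁ hw₁ ?_ z hz w hw)
  obtain ⟨r, hr, hball⟩ := Metric.eventually_nhds_iff_ball.1 hφ
  have hd : ∀ y ∈ ball z₁ r, HasDerivAt (fun y => A y * B (φ y)) 0 y := by
    intro y hy
    obtain ⟨h1, h2, h3⟩ := hball y hy
    have h4 := (hA y).hasDerivAt.mul ((hB (φ y)).hasDerivAt.comp y h3)
    refine h4.congr_deriv ?_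
    rw [← hAB y h1 (φ y) h2]
    simp only [Function.comp_apply]
    ring
  have hconst : ∀ y ∈ ball z₁ r, A y * B (φ y) = A z₁ * B w₁ := by
    intro y hy
    have := isOpen_ball.is_const_of_deriv_eq_zero (convex_ball z₁ r).isPreconnected
      (f := fun y => A y * B (φ y)) (fun y hy => (hd y hy).differentiableAt.differentiableWithinAt)
      (fun y hy => (hd y hy).deriv) hy (mem_ball_self hr)
    rw [hφ1] at this
    exact this
  have h1 : ∀ᶠ p : ℂ × ℂ in 𝓝 (z₁, w₁), A p.1 * B (φ p.1) = A z₁ * B w₁ :=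
    (continuous_fst.tendsto (z₁, w₁)).eventually
      (Metric.eventually_nhds_iff_ball.2 ⟨r, hr, hconst⟩)
  show ∀ᶠ p : ℂ × ℂ in 𝓝 (z₁, w₁), ev Q p.1 p.2 = 0 → A p.1 * B p.2 - A z₁ * B w₁ = 0
  filter_upwards [h1, hφ2] with p h2 h3 h4
  rw [h3.1 h4, h2, sub_self]

/-- The second coordinate is not locally a root of a nonzero polynomial. -/
theorem Curve.not_root {Q : Biv} {S : Set ℂ} (h : Curve Q S) {B : Polynomial ℂ} (hB : B ≠ 0)
    {z₁ w₁ : ℂ} (hz₁ : z₁ ∉ S) (hw₁ : ev Q z₁ w₁ = 0)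
    (hroot : ∀ᶠ p : ℂ × ℂ in 𝓝 (z₁, w₁), ev Q p.1 p.2 = 0 → B.eval p.2 = 0) : False := by
  obtain ⟨φ, hφ1, hφ, -⟩ := h.branch hz₁ hw₁
  have hd := hφ.self_of_nhds.2.2
  rw [hφ1] at hd
  have hl : lam Q z₁ w₁ ≠ 0 :=
    div_ne_zero (neg_ne_zero.2 (h.slope z₁ hz₁ w₁ hw₁)) (h.simple z₁ hz₁ w₁ hw₁)
  have ht := hd.tendsto_nhdsNE hl
  rw [hφ1] at ht
  have e1 : ∀ᶠ z in 𝓝[≠] z₁, φ z ∉ B.rootSet ℂ :=
    ht.eventually (finite_nhdsNE (B.rootSet_finite ℂ) w₁)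
  have hc : Tendsto (fun z => (z, φ z)) (𝓝 z₁) (𝓝 (z₁, w₁)) := by
    have := (continuousAt_id (x := z₁)).prodMk hd.continuousAt
    have e : ((id z₁, φ z₁) : ℂ × ℂ) = (z₁, w₁) := by rw [hφ1]; rfl
    simpa [ContinuousAt, e, hφ1] using this
  have e2 : ∀ᶠ z in 𝓝[≠] z₁, B.eval (φ z) = 0 := by
    filter_upwards [(hc.eventually hroot).filter_mono nhdsWithin_le_nhds,
      hφ.filter_mono nhdsWithin_le_nhds] with z h1 h2
    exact h1 h2.2.1
  obtain ⟨z, h1, h2⟩ := (e1.and e2).exists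
  apply h1
  rw [Polynomial.mem_rootSet]
  exact ⟨hB, by simpa using h2⟩

/-- Curves with star symmetry: small points exist arbitrarily far out. -/
theorem AtInf.exists_small {Q : Biv} {S : Set ℂ} {α R : ℝ} (h : AtInf Q S α R) (hs : StarSym Q)
    (N : ℝ) : ∃ z w, N ≤ ‖z‖ ∧ R ≤ ‖z‖ ∧ ev Q z w = 0 ∧ ‖w‖ ≤ α * ‖z‖ := by
  have hR := h.hR
  set r := max N R with hr
  have hrR : R ≤ r := le_max_right _ _
  have hrN : N ≤ r := le_max_left _ _
  have hz1 : ‖((r : ℝ) : ℂ)‖ = r := by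
    rw [Complex.norm_real, Real.norm_eq_abs, abs_of_pos (by linarith)]
  have hzS : ((r : ℝ) : ℂ) ∉ S := h.notMem (by rw [hz1]; exact hrR)
  obtain ⟨u, -, hu⟩ := exists_roots (h.curve.lead _ hzS) (h.curve.simple _ hzS)
  have hw := hu ⟨0, Nat.pos_of_ne_zero h.curve.deg⟩
  set w := u ⟨0, Nat.pos_of_ne_zero h.curve.deg⟩ with hwdef
  rcases h.sep _ w hw (Or.inl (by rw [hz1]; exact hrR)) with h1 | h1
  · exact ⟨_, w, by rw [hz1]; exact hrN, by rw [hz1]; exact hrR, hw, h1⟩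
  · have hw2 : r ≤ ‖w‖ := by
      rw [hz1] at h1
      have := norm_nonneg w
      nlinarith [h.hα1]
    refine ⟨(starRingEnd ℂ) w, (starRingEnd ℂ) ((r : ℝ) : ℂ), ?_, ?_, hs.zero hw, ?_⟩
    · rw [Complex.norm_conj]; linarith
    · rw [Complex.norm_conj]; linarith
    · rw [Complex.norm_conj, Complex.norm_conj]; exact h1

end Pool.Agent.Stek
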