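import Pool.Agent.Lib.MP_bd8415_an.Alg.FinalAlg

/-!
# Continuation of a circular boundary arc
-/

open Filter Topology Metric Set Complex

namespace Pool.Agent.Stek

/-- One-sided uniqueness at a singular point. -/
theorem sing_unique_right {x : ℝ → ℝ} {δ C : ℝ}
    (hx : ∀ t ∈ Ioo (0 : ℝ) δ, DifferentiableAt ℝ x t)
    (h2 : ∀ t ∈ Ioo (0 : ℝ) δ, |x t| ≤ C * t ^ 2)
    (h : ∀ t ∈ Ioo (0 : ℝ) δ, t * |deriv x t| ≤ 3 / 2 * |x t|) :
    ∀ t ∈ Ioo (0 : ℝ) δ, x t = 0 := by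
  set g : ℝ → ℝ := fun t => x t ^ 2 / t ^ 3 with hg
  have hd : ∀ t ∈ Ioo (0 : ℝ) δ, HasDerivAt g
      ((2 * x t * deriv x t * t ^ 3 - x t ^ 2 * (3 * t ^ 2)) / (t ^ 3) ^ 2) t := by
    intro t ht
    have h1 := ((hx t ht).hasDerivAt.pow 2).div (hasDerivAt_pow 3 t) (pow_ne_zero 3 ht.1.ne')
    refine h1.congr_deriv ?_
    simp
  have hanti : AntitoneOn g (Ioo 0 δ) := by
    apply antitoneOn_of_deriv_nonpos (convex_Ioo 0 δ)
    · exact fun t ht => (hd t ht).continuousAt.continuousWithinAt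
    · rw [interior_Ioo]
      exact fun t ht => (hd t ht).differentiableAt.differentiableWithinAt
    · rw [interior_Ioo]
      intro t ht
      rw [(hd t ht).deriv]
      apply div_nonpos_of_nonpos_of_nonneg _ (by positivity)
      have h1 := h t ht
      have ht0 : 0 < t := ht.1
      have h3 : x t * deriv x t ≤ |x t| * |deriv x t| := by
        rw [← abs_mul]; exact le_abs_self _
      have h4 : t * (x t * deriv x t) ≤ 3 / 2 * x t ^ 2 := by
        calc t * (x t * deriv x t) ≤ t * (|x t| * |deriv x t|) :=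
              mul_le_mul_of_nonneg_left h3 ht0.le
          _ = |x t| * (t * |deriv x t|) := by ring
          _ ≤ |x t| * (3 / 2 * |x t|) := mul_le_mul_of_nonneg_left h1 (abs_nonneg _)
          _ = 3 / 2 * |x t| ^ 2 := by ring
          _ = 3 / 2 * x t ^ 2 := by rw [sq_abs]
      have h5 : 2 * x t * deriv x t * t ^ 3 - x t ^ 2 * (3 * t ^ 2) =
          2 * t ^ 2 * (t * (x t * deriv x t) - 3 / 2 * x t ^ 2) := by ring
      rw [h5]
      exact mul_nonpos_of_nonneg_of_nonpos (by positivity) (by linarith)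
  intro t ht
  have ht0 : 0 < t := ht.1
  -- `g t ≤ C ^ 2 * s` for all small `s`
  have hgt : ∀ s ∈ Ioo (0 : ℝ) t, g t ≤ C ^ 2 * s := by
    intro s hs
    have hs' : s ∈ Ioo (0 : ℝ) δ := ⟨hs.1, hs.2.trans ht.2⟩
    have h1 := hanti hs' ht hs.2.le
    refine h1.trans ?_
    have hs0 : 0 < s := hs.1
    have h3 := h2 s hs'
    have h4 : x s ^ 2 ≤ (C * s ^ 2) ^ 2 := by
      rw [← sq_abs (x s)]
      exact pow_le_pow_left₀ (abs_nonneg _) h3 2
    rw [hg]
    simp only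
    rw [div_le_iff₀ (by positivity)]
    calc x s ^ 2 ≤ (C * s ^ 2) ^ 2 := h4
      _ = C ^ 2 * s * s ^ 3 := by ring
  have hg0 : g t ≤ 0 := by
    have hlim : Tendsto (fun s : ℝ => C ^ 2 * s) (𝓝[>] 0) (𝓝 (C ^ 2 * 0)) :=
      ((continuous_const.mul continuous_id).tendsto 0).mono_left nhdsWithin_le_nhds
    rw [mul_zero] at hlim
    apply ge_of_tendsto hlim
    filter_upwards [Ioo_mem_nhdsGT ht0] with s hs using hgt s hs
  have h5 : x t ^ 2 / t ^ 3 ≤ 0 := hg0
  have h6 : x t ^ 2 ≤ 0 := by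
    rw [div_le_iff₀ (by positivity), zero_mul] at h5
    exact h5
  exact pow_eq_zero_iff two_ne_zero |>.1 (le_antisymm h6 (sq_nonneg _))

/-- Uniqueness at a singular point. -/
theorem sing_unique {x : ℝ → ℝ} {C : ℝ} (hx : ∀ᶠ t in 𝓝 (0 : ℝ), DifferentiableAt ℝ x t)
    (h0 : x 0 = 0) (h2 : ∀ᶠ t in 𝓝 (0 : ℝ), |x t| ≤ C * t ^ 2)
    (h : ∀ᶠ t in 𝓝 (0 : ℝ), |t| * |deriv x t| ≤ 3 / 2 * |x t|) :
    ∀ᶠ t in 𝓝 (0 : ℝ), x t = 0 := by
  obtain ⟨δ, hδ, hb⟩ := Metric.eventually_nhds_iff_ball.1 (hx.and (h2.and h))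
  have hb' : ∀ t : ℝ, |t| < δ → DifferentiableAt ℝ x t ∧ |x t| ≤ C * t ^ 2 ∧
      |t| * |deriv x t| ≤ 3 / 2 * |x t| := fun t ht => hb t (by simpa [Real.dist_eq] using ht)
  refine Metric.eventually_nhds_iff_ball.2 ⟨δ, hδ, fun t ht => ?_⟩
  have ht' : |t| < δ := by simpa [Real.dist_eq] using ht
  rcases lt_trichotomy t 0 with hlt | rfl | hgt
  · have key := sing_unique_right (x := fun s => x (-s)) (δ := δ) (C := C)
      (fun s hs => by
        have h1 := (hb' (-s) (by rw [abs_neg, abs_of_pos hs.1]; exact hs.2)).1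
        exact h1.comp s (hasDerivAt_neg s).differentiableAt)
      (fun s hs => by
        have h1 := (hb' (-s) (by rw [abs_neg, abs_of_pos hs.1]; exact hs.2)).2.1
        rwa [neg_sq] at h1)
      (fun s hs => by
        have h1 := (hb' (-s) (by rw [abs_neg, abs_of_pos hs.1]; exact hs.2)).2.2
        rw [deriv_comp_neg, abs_neg]
        rwa [abs_neg, abs_of_pos hs.1] at h1)
      (-t) ⟨by linarith, by rw [abs_of_neg hlt] at ht'; exact ht'⟩
    simpa using key
  · exact h0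
  · exact sing_unique_right (x := x) (δ := δ) (C := C)
      (fun s hs => (hb' s (by rw [abs_of_pos hs.1]; exact hs.2)).1)
      (fun s hs => (hb' s (by rw [abs_of_pos hs.1]; exact hs.2)).2.1)
      (fun s hs => by
        have h1 := (hb' s (by rw [abs_of_pos hs.1]; exact hs.2)).2.2
        rwa [abs_of_pos hs.1] at h1)
      t ⟨hgt, by rw [abs_of_pos hgt] at ht'; exact ht'⟩

/-- The estimate of the slope from the differential equation. -/
theorem slope_est {X p t c s κ : ℝ} (hκ : 0 < κ) (ht : |t| ≤ 1) (hX : |X| ≤ 1 / 20)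
    (hp : |p| ≤ 1 / 20 * |t|) (hc : |c| ≤ κ) (hs : 9 / 10 * κ * |t| ≤ |s|)
    (h : c * (Real.exp X * Real.sqrt (1 + p ^ 2) - 1) = p * s) :
    |t| * |p| ≤ 3 / 2 * |X| := by
  set R := Real.sqrt (1 + p ^ 2) with hR
  have hR1 : 1 ≤ R := by
    rw [hR]
    apply Real.one_le_sqrt.2
    nlinarith [sq_nonneg p]
  have hR2 : R ≤ 1 + p ^ 2 / 2 := by
    rw [hR]
    apply Real.sqrt_le_iff.2
    constructor
    · positivity
    · nlinarith [sq_nonneg (p ^ 2)]
  have hp2 : p ^ 2 ≤ 1 / 20 * (|t| * |p|) := by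
    rw [← sq_abs, sq]
    calc |p| * |p| ≤ (1 / 20 * |t|) * |p| := mul_le_mul_of_nonneg_right hp (abs_nonneg _)
      _ = _ := by ring
  have hp1 : |p| ≤ 1 / 20 := by nlinarith [abs_nonneg t]
  have hp3 : p ^ 2 ≤ 1 / 400 := by
    rw [← sq_abs]; nlinarith [abs_nonneg p]
  have he : |Real.exp X - 1| ≤ 21 / 20 * |X| := by
    have h1 := Real.abs_exp_sub_one_sub_id_le (x := X) (by linarith)
    have h2 : |Real.exp X - 1| ≤ |Real.exp X - 1 - X| + |X| := by
      calc |Real.exp X - 1| = |(Real.exp X - 1 - X) + X| := by ring_nf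
        _ ≤ _ := abs_add_le _ _
    have h3 : X ^ 2 ≤ 1 / 20 * |X| := by
      rw [← sq_abs, sq]
      exact mul_le_mul_of_nonneg_right hX (abs_nonneg _)
    linarith
  have hq : |Real.exp X * R - 1| ≤ 11 / 10 * |X| + 1 / 40 * (|t| * |p|) := by
    have e : Real.exp X * R - 1 = (Real.exp X - 1) * R + (R - 1) := by ring
    rw [e]
    calc |(Real.exp X - 1) * R + (R - 1)| ≤ |(Real.exp X - 1) * R| + |R - 1| := abs_add_le _ _
      _ = |Real.exp X - 1| * R + (R - 1) := by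
        rw [abs_mul, abs_of_pos (by linarith : 0 < R), abs_of_nonneg (by linarith : 0 ≤ R - 1)]
      _ ≤ (21 / 20 * |X|) * (1 + p ^ 2 / 2) + p ^ 2 / 2 := by
        apply add_le_add _ (by linarith)
        exact mul_le_mul he hR2 (by linarith) (by positivity)
      _ ≤ (21 / 20 * |X|) * (1 + 1 / 800) + 1 / 40 * (|t| * |p|) := by
        apply add_le_add _ (by linarith)
        apply mul_le_mul_of_nonneg_left (by linarith) (by positivity)
      _ ≤ _ := by nlinarith [abs_nonneg X]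
  have h1 : |p| * |s| ≤ κ * |Real.exp X * R - 1| := by
    rw [← abs_mul, ← h, abs_mul]
    exact mul_le_mul_of_nonneg_right hc (abs_nonneg _)
  have h2 : κ * (9 / 10 * (|t| * |p|)) ≤ κ * (11 / 10 * |X| + 1 / 40 * (|t| * |p|)) := by
    calc κ * (9 / 10 * (|t| * |p|)) = |p| * (9 / 10 * κ * |t|) := by ring
      _ ≤ |p| * |s| := mul_le_mul_of_nonneg_left hs (abs_nonneg _)
      _ ≤ _ := h1.trans (mul_le_mul_of_nonneg_left hq hκ.le)
  have h3 := le_of_mul_le_mul_left h2 hκ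
  nlinarith [abs_nonneg X, abs_nonneg t, abs_nonneg p, mul_nonneg (abs_nonneg t) (abs_nonneg p)]

/-- Lower bound for `Im (W exp (i m t))`. -/
theorem im_lower {W : ℂ} {m : ℕ} (hm : 1 ≤ m) (hW : W ≠ 0) :
    ∀ᶠ t : ℝ in 𝓝 0, 9 / 10 * ‖W‖ * |t| ≤ |(W * Complex.exp (m * t * I)).im| := by
  set f : ℝ → ℝ := fun t => (W * Complex.exp (m * t * I)).im with hf
  have hκ : 0 < ‖W‖ := norm_pos_iff.2 hW
  have hd : HasDerivAt f (W * (m * I)).im 0 := by
    have h1 : HasDerivAt (fun t : ℝ => ((m : ℂ) * (t : ℂ) * I)) (m * I) 0 := by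
      have := ((Complex.ofRealCLM.hasDerivAt (x := (0 : ℝ))).const_mul (m : ℂ)).mul_const I
      simpa using this
    have h2 := (h1.cexp.const_mul W)
    have h3 : HasDerivAt (fun t : ℝ => W * Complex.exp (m * t * I)) (W * (m * I)) 0 := by
      refine h2.congr_deriv ?_
      simp
    exact (Complex.imCLM.hasFDerivAt.comp_hasDerivAt (0 : ℝ) h3)
  by_cases h0 : W.im = 0
  · have hf0 : f 0 = 0 := by simp [hf, h0]
    have hd' : (W * (m * I)).im = m * W.re := by
      simp [Complex.mul_im]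
      ring
    rw [hd'] at hd
    have hre : |W.re| = ‖W‖ := by
      rw [Complex.abs_re_eq_norm]
      exact h0
    have h1 := hd.isLittleO.def (c := ‖W‖ / 10) (by positivity)
    filter_upwards [h1] with t ht
    simp only [sub_zero, hf0, smul_eq_mul, Real.norm_eq_abs] at ht
    have h2 : |t * (m * W.re)| = m * ‖W‖ * |t| := by
      rw [abs_mul, abs_mul, Nat.abs_cast, hre]; ring
    have h3 : |t * (m * W.re)| ≤ |f t| + |f t - t * (m * W.re)| := by
      calc |t * (m * W.re)| = |f t - (f t - t * (m * W.re))| := by ring_nf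
        _ ≤ _ := abs_sub _ _
    have h4 : (1 : ℝ) ≤ m := by exact_mod_cast hm
    have h5 : 1 * (‖W‖ * |t|) ≤ m * (‖W‖ * |t|) :=
      mul_le_mul_of_nonneg_right h4 (by positivity)
    show 9 / 10 * ‖W‖ * |t| ≤ |f t|
    nlinarith
  · have hf0 : f 0 = W.im := by simp [hf]
    have h1 : Tendsto (fun t => |f t|) (𝓝 0) (𝓝 |W.im|) := by
      rw [← hf0]
      exact hd.continuousAt.tendsto.abs
    have h2 : 0 < |W.im| := abs_pos.2 h0
    have h3 : ∀ᶠ t in 𝓝 (0 : ℝ), |W.im| / 2 < |f t| := h1.eventually (lt_mem_nhds (by linarith))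
    have h4 : ∀ᶠ t in 𝓝 (0 : ℝ), 9 / 10 * ‖W‖ * |t| < |W.im| / 2 := by
      have hc : Tendsto (fun t : ℝ => 9 / 10 * ‖W‖ * |t|) (𝓝 0) (𝓝 (9 / 10 * ‖W‖ * |(0 : ℝ)|)) :=
        (continuous_const.mul continuous_abs).tendsto 0
      rw [abs_zero, mul_zero] at hc
      exact hc.eventually (gt_mem_nhds (by linarith))
    filter_upwards [h3, h4] with t h5 h6
    exact (h6.trans h5).le

end Pool.Agent.Stek
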