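import Pool.Agent.Lib.MP_bd8415_an.Alg.Contin

/-!
# Continuation of a circular boundary arc: the main lemma
-/

open Filter Topology Metric Set Complex

namespace Pool.Agent.Stek

/-- Logarithmic polar coordinates. -/
noncomputable def lp (z₀ v : ℂ) (p : ℝ × ℝ) : ℂ := z₀ + v * Complex.exp ((p.2 : ℂ) + p.1 * I)

theorem lp_contDiff (z₀ v : ℂ) {n : WithTop ℕ∞} : ContDiff ℝ n (lp z₀ v) := by
  unfold lp
  have h1 : ContDiff ℝ n (fun p : ℝ × ℝ => ((p.2 : ℂ) + p.1 * I)) :=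
    (Complex.ofRealCLM.contDiff.comp contDiff_snd).add
      ((Complex.ofRealCLM.contDiff.comp contDiff_fst).mul contDiff_const)
  exact contDiff_const.add (contDiff_const.mul h1.cexp)

theorem lp_norm (z₀ v : ℂ) (p : ℝ × ℝ) : ‖lp z₀ v p - z₀‖ = ‖v‖ * Real.exp p.2 := by
  unfold lp
  rw [add_sub_cancel_left, norm_mul, Complex.norm_exp]
  simp

/-- The derivative of `lp` along a curve. -/
theorem lp_hasDerivAt (z₀ v : ℂ) {x : ℝ → ℝ} {x' t : ℝ} (hx : HasDerivAt x x' t) :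
    HasDerivAt (fun t => lp z₀ v (t, x t)) ((lp z₀ v (t, x t) - z₀) * (x' + I)) t := by
  have h1 : HasDerivAt (fun t : ℝ => ((x t : ℂ) + t * I)) (x' + I) t := by
    have h2 := hx.ofReal_comp
    have h3 := (Complex.ofRealCLM.hasDerivAt (x := t)).mul_const I
    have h4 := h2.add h3
    refine h4.congr_deriv ?_
    simp
  have h2 := (h1.cexp.const_mul v).const_add z₀
  refine h2.congr_deriv ?_
  unfold lp
  simp only
  ring

/-- The boundary condition in logarithmic polar coordinates, pointwise. -/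
theorem polar_ode {g u W : ℂ} {x' σ E : ℝ} {m : ℕ} (hm : 1 ≤ m) (hu : u ≠ 0)
    (hperp : ((starRingEnd ℂ) g * (u * (x' + I))).re = 0)
    (hpos : 0 < ((starRingEnd ℂ) g * u).re) (hE : σ * ‖u‖ = m * E)
    (hbc : ((m * W / u) * g).re = σ * W.re * ‖g‖) :
    W.re * (E * Real.sqrt (1 + x' ^ 2) - 1) = x' * W.im := by
  have hm0 : (0 : ℝ) < m := by exact_mod_cast hm
  set A := ((starRingEnd ℂ) g * u).re with hA
  set B := ((starRingEnd ℂ) g * u).im with hB
  have hAB : (starRingEnd ℂ) g * u = A + B * I := (Complex.re_add_im _).symm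
  have hBx : B = A * x' := by
    have h1 : (starRingEnd ℂ) g * (u * (x' + I)) = (A + B * I) * (x' + I) := by
      rw [← hAB]; ring
    rw [h1] at hperp
    simp at hperp
    linarith
  have hgu : g * (starRingEnd ℂ) u = A * (1 - x' * I) := by
    have h1 := congrArg (starRingEnd ℂ) hAB
    simp only [map_mul, map_add, Complex.conj_conj, Complex.conj_I, Complex.conj_ofReal] at h1
    rw [h1, hBx]
    push_cast
    ring
  have hun : 0 < ‖u‖ := norm_pos_iff.2 hu
  have huu : u * (starRingEnd ℂ) u = (‖u‖ : ℂ) ^ 2 := by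
    rw [Complex.mul_conj, Complex.normSq_eq_norm_sq]
    push_cast
    ring
  have hgn : ‖g‖ * ‖u‖ = A * Real.sqrt (1 + x' ^ 2) := by
    have h1 : ‖g * (starRingEnd ℂ) u‖ = ‖g‖ * ‖u‖ := by rw [norm_mul, Complex.norm_conj]
    rw [← h1, hgu, norm_mul, Complex.norm_real, Real.norm_eq_abs, abs_of_pos hpos]
    congr 1
    rw [Complex.norm_def, Complex.normSq_apply]
    congr 1
    simp
    ring
  have h2 : (m * W / u) * g = (m * A / ‖u‖ ^ 2 : ℝ) * (W * (1 - x' * I)) := by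
    have h3 : ((‖u‖ : ℂ) ^ 2) ≠ 0 := pow_ne_zero _ (by exact_mod_cast hun.ne')
    have h4 : (m * W / u) * g = m * W * (g * (starRingEnd ℂ) u) / (u * (starRingEnd ℂ) u) := by
      have h5 : (starRingEnd ℂ) u ≠ 0 := (map_ne_zero _).2 hu
      field_simp
    rw [h4, hgu, huu]
    push_cast
    field_simp
  rw [h2, Complex.re_ofReal_mul] at hbc
  have h3 : (W * (1 - x' * I)).re = W.re + x' * W.im := by
    simp [Complex.mul_re]
    ring
  rw [h3] at hbc
  have h4 : m * A / ‖u‖ ^ 2 * (W.re + x' * W.im) * ‖u‖ ^ 2 =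
      (m * A) * (W.re + x' * W.im) := by
    field_simp
  have h5 : σ * W.re * ‖g‖ * ‖u‖ ^ 2 = (m * A) * (E * Real.sqrt (1 + x' ^ 2) * W.re) := by
    calc σ * W.re * ‖g‖ * ‖u‖ ^ 2 = (σ * ‖u‖) * W.re * (‖g‖ * ‖u‖) := by ring
      _ = (m * E) * W.re * (A * Real.sqrt (1 + x' ^ 2)) := by rw [hE, hgn]
      _ = _ := by ring
  have h6 : (m * A) * (W.re + x' * W.im) = (m * A) * (E * Real.sqrt (1 + x' ^ 2) * W.re) := by
    rw [← h4, ← h5, hbc]
  have h7 := mul_left_cancel₀ (mul_ne_zero hm0.ne' hpos.ne') h6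
  linarith

/-- The continuation lemma: common points of the boundary and the circle accumulate at `z₁`. -/
theorem contin' {ρ : ℂ → ℝ} (hρ : ContDiff ℝ 2 ρ) {z₁ z₀ a b : ℂ} {r σ : ℝ} {m : ℕ}
    (hm : 1 ≤ m) (hσ : 0 < σ) (hr : r = m / σ) (ha : a ≠ 0) {G : ℂ → ℂ}
    (hG : ∀ y, G y = a * (y - z₀) ^ m + b) (hb : b.re = 0) (hz₁ : ρ z₁ = 0)
    (hg : grad ρ z₁ ≠ 0) (hcen : z₁ - ((r / ‖grad ρ z₁‖ : ℝ) : ℂ) * grad ρ z₁ = z₀)
    (hbc : ∀ᶠ z in 𝓝 z₁, ρ z = 0 →
      (deriv G z * grad ρ z).re = σ * (G z).re * ‖grad ρ z‖)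
    (hfr : ∃ᶠ w in 𝓝[≠] z₁, ρ w = 0 ∧ ‖w - z₀‖ = r) :
    ∀ᶠ y in 𝓝 z₁, ρ y = 0 → ‖y - z₀‖ = r := by
  have hm0 : (0 : ℝ) < m := by exact_mod_cast hm
  have hr0 : 0 < r := by rw [hr]; positivity
  have hσr : σ * r = m := by rw [hr]; field_simp
  have hρd : Differentiable ℝ ρ := hρ.differentiable two_ne_zero
  have hgn : 0 < ‖grad ρ z₁‖ := norm_pos_iff.2 hg
  set v : ℂ := z₁ - z₀ with hv
  have hvg : v = ((r / ‖grad ρ z₁‖ : ℝ) : ℂ) * grad ρ z₁ := by
    rw [hv, ← hcen]; ring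
  have hvn : ‖v‖ = r := by
    rw [hvg, norm_mul, Complex.norm_real, Real.norm_eq_abs, abs_of_pos (by positivity)]
    field_simp
  have hv0 : v ≠ 0 := norm_pos_iff.1 (by rw [hvn]; exact hr0)
  have hlp0 : lp z₀ v (0, 0) = z₁ := by
    unfold lp
    simp [hv]
  have hgv : ((starRingEnd ℂ) (grad ρ z₁) * v).re = ‖grad ρ z₁‖ * r := by
    rw [hvg]
    have h1 : (starRingEnd ℂ) (grad ρ z₁) * (((r / ‖grad ρ z₁‖ : ℝ) : ℂ) * grad ρ z₁) =
        ((r / ‖grad ρ z₁‖ * ‖grad ρ z₁‖ ^ 2 : ℝ) : ℂ) := by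
      have h2 : (starRingEnd ℂ) (grad ρ z₁) * grad ρ z₁ = (‖grad ρ z₁‖ : ℂ) ^ 2 := by
        rw [mul_comm, Complex.mul_conj, Complex.normSq_eq_norm_sq]
        push_cast
        ring
      push_cast
      linear_combination ((r : ℂ) / (‖grad ρ z₁‖ : ℂ)) * h2
    rw [h1, Complex.ofReal_re]
    field_simp
  -- the implicit function
  set f : ℝ × ℝ → ℝ := fun p => ρ (lp z₀ v p) with hf
  have hfc : ContDiff ℝ 2 f := hρ.comp (lp_contDiff z₀ v)
  have cdf : ContDiffAt ℝ 2 f (0, 0) := hfc.contDiffAt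
  have hfd : fderiv ℝ f (0, 0) (0, 1) = ‖grad ρ z₁‖ * r := by
    have h1 : HasDerivAt (fun s : ℝ => f (0, s)) (fderiv ℝ f (0, 0) (0, 1)) 0 := by
      have h2 : HasFDerivAt f (fderiv ℝ f (0, 0)) (0, 0) :=
        (hfc.differentiable two_ne_zero (0, 0)).hasFDerivAt
      exact h2.comp_hasDerivAt (0 : ℝ) ((hasDerivAt_const (0 : ℝ) (0 : ℝ)).prodMk (hasDerivAt_id 0))
    have h3 : HasDerivAt (fun s : ℝ => lp z₀ v (0, s)) v 0 := by
      have h4 : HasDerivAt (fun s : ℝ => ((s : ℂ))) 1 0 := Complex.ofRealCLM.hasDerivAt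
      have h5 := ((h4.add_const (((0 : ℝ) : ℂ) * I)).cexp.const_mul v).const_add z₀
      refine h5.congr_deriv ?_
      simp
    have h6 : HasDerivAt (fun s : ℝ => f (0, s)) (fderiv ℝ ρ z₁ v) 0 := by
      have h7 : HasFDerivAt ρ (fderiv ℝ ρ z₁) (lp z₀ v (0, 0)) := by
        rw [hlp0]; exact (hρd z₁).hasFDerivAt
      exact h7.comp_hasDerivAt (0 : ℝ) h3
    rw [h1.unique h6, fderiv_eq_grad, ← hgv]
    simp [Complex.mul_re]
  have hfd0 : fderiv ℝ f (0, 0) (0, 1) ≠ 0 := by rw [hfd]; positivity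
  have hinv : (fderiv ℝ f (0, 0) ∘L .inr ℝ ℝ ℝ).IsInvertible := by
    have e : (fderiv ℝ f (0, 0) ∘L .inr ℝ ℝ ℝ) =
        ((ContinuousLinearEquiv.unitsEquivAut ℝ (Units.mk0 _ hfd0) : ℝ ≃L[ℝ] ℝ) : ℝ →L[ℝ] ℝ) := by
      ext
      simp
    rw [e]
    exact ⟨_, rfl⟩
  have hf0 : f (0, 0) = 0 := by rw [hf]; simp only; rw [hlp0, hz₁]
  obtain ⟨x, hxc, hx0, hxiff⟩ : ∃ x : ℝ → ℝ, ContDiffAt ℝ 2 x 0 ∧ x 0 = 0 ∧
      ∀ᶠ p : ℝ × ℝ in 𝓝 (0, 0), f p = 0 ↔ x p.1 = p.2 := by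
    refine ⟨cdf.implicitFunction (by simp) hinv, cdf.contDiffAt_implicitFunction (by simp) hinv,
      cdf.implicitFunction_apply_self (by simp) hinv, ?_⟩
    have h1 := cdf.eventually_apply_eq_iff_implicitFunction (by simp) hinv
    filter_upwards [h1] with p hp
    rw [← hp, hf0]
  have hx2 : ContDiffAt ℝ 1 (deriv x) 0 := by
    have h1 : ContDiffAt ℝ 1 (fderiv ℝ x) 0 := hxc.fderiv_right (by norm_num)
    have h2 : deriv x = fun t => (fderiv ℝ x t) 1 := by
      ext t; rw [fderiv_apply_one_eq_deriv]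
    rw [h2]
    exact h1.clm_apply contDiffAt_const
  have hx3 : ContinuousAt (deriv (deriv x)) 0 := by
    have h1 : ContDiffAt ℝ 0 (fderiv ℝ (deriv x)) 0 := hx2.fderiv_right (by norm_num)
    have h2 : deriv (deriv x) = fun t => (fderiv ℝ (deriv x) t) 1 := by
      ext t; rw [fderiv_apply_one_eq_deriv]
    rw [h2]
    exact (h1.clm_apply contDiffAt_const).continuousAt
  have hxd : ∀ᶠ t in 𝓝 (0 : ℝ), DifferentiableAt ℝ x t := by
    filter_upwards [hxc.eventually (by simp)] with t ht using ht.differentiableAt two_ne_zero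
  have hxcont : ContinuousAt x 0 := hxc.continuousAt
  have hpair : Tendsto (fun t : ℝ => (t, x t)) (𝓝 0) (𝓝 (0, 0)) := by
    have := (continuousAt_id (x := (0 : ℝ))).prodMk hxcont
    have h1 := this.tendsto
    simp only [id] at h1
    rw [hx0] at h1
    exact h1
  have hρx : ∀ᶠ t in 𝓝 (0 : ℝ), ρ (lp z₀ v (t, x t)) = 0 := by
    filter_upwards [hpair.eventually hxiff] with t ht using ht.2 rfl
  have hlpt : Tendsto (fun t : ℝ => lp z₀ v (t, x t)) (𝓝 0) (𝓝 z₁) := by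
    have h1 := ((lp_contDiff z₀ v (n := 1)).continuous.tendsto (0, 0)).comp hpair
    rw [hlp0] at h1
    exact h1
  -- logarithmic coordinates of a point near `z₁`
  set L : ℂ → ℂ := fun y => Complex.log ((y - z₀) / v) with hL
  have hL1 : L z₁ = 0 := by rw [hL]; simp [← hv, div_self hv0]
  have hLc : ContinuousAt L z₁ := by
    have h1 : ContinuousAt (fun y : ℂ => (y - z₀) / v) z₁ := by fun_prop
    apply ContinuousAt.clog h1
    rw [← hv, div_self hv0]
    simp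
  have hLt : Tendsto (fun y => ((L y).im, (L y).re)) (𝓝 z₁) (𝓝 ((0 : ℝ), (0 : ℝ))) := by
    have h1 : Tendsto L (𝓝 z₁) (𝓝 0) := by
      have := hLc.tendsto
      rw [hL1] at this
      exact this
    have h2 := ((Complex.continuous_im.tendsto 0).comp h1).prodMk_nhds
      ((Complex.continuous_re.tendsto 0).comp h1)
    simpa using h2
  have hLlp : ∀ᶠ y in 𝓝 z₁, lp z₀ v ((L y).im, (L y).re) = y := by
    have hz₁0 : z₁ ≠ z₀ := fun h => hv0 (by rw [hv, h, sub_self])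
    filter_upwards [isOpen_ne.mem_nhds hz₁0] with y hy
    have h1 : (y - z₀) / v ≠ 0 := div_ne_zero (sub_ne_zero.2 hy) hv0
    unfold lp
    simp only
    rw [Complex.re_add_im, hL]
    simp only
    rw [Complex.exp_log h1]
    field_simp
    ring
  have hyx : ∀ᶠ y in 𝓝 z₁, ρ y = 0 → x (L y).im = (L y).re := by
    filter_upwards [hLt.eventually hxiff, hLlp] with y h1 h2 h3
    apply h1.1
    rw [hf]
    simp only
    rw [h2, h3]
  -- enough: `x` vanishes near `0`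
  suffices hx : ∀ᶠ t in 𝓝 (0 : ℝ), x t = 0 by
    have h1 : Tendsto (fun y => (L y).im) (𝓝 z₁) (𝓝 0) := by
      have := (continuous_fst.tendsto ((0 : ℝ), (0 : ℝ))).comp hLt
      exact this
    filter_upwards [h1.eventually hx, hyx, hLlp] with y h2 h3 h4 h5
    have h6 := h3 h5
    rw [h2] at h6
    rw [← h4, lp_norm, ← h6, Real.exp_zero, mul_one, hvn]
  -- zeros of `x` accumulate at `0`
  have hfx : ∃ᶠ t in 𝓝[≠] (0 : ℝ), x t = 0 := by
    have h1 : Tendsto (fun y => (L y).im) (𝓝[≠] z₁) (𝓝 0) := by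
      have := (continuous_fst.tendsto ((0 : ℝ), (0 : ℝ))).comp hLt
      exact this.mono_left nhdsWithin_le_nhds
    -- a common point has `x = 0` and nonzero angle
    have h2 : ∃ᶠ w in 𝓝[≠] z₁, x (L w).im = 0 ∧ (L w).im ≠ 0 := by
      refine ((hfr.and_eventually ((hyx.and hLlp).filter_mono nhdsWithin_le_nhds)).and_eventually
        self_mem_nhdsWithin).mono ?_
      rintro w ⟨⟨⟨hw0, hw1⟩, hw2, hw3⟩, hw4⟩
      have h3 := hw2 hw0
      have h4 : (L w).re = 0 := by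
        have h5 := hw1
        rw [← hw3, lp_norm, hvn] at h5
        have h10 : Real.exp (L w).re = 1 := by
          have : r * Real.exp (L w).re = r * 1 := by rw [mul_one]; exact h5
          exact mul_left_cancel₀ hr0.ne' this
        exact (Real.exp_eq_one_iff _).1 h10
      refine ⟨by rw [h3, h4], fun h5 => hw4 ?_⟩
      show w = z₁
      rw [← hw3, h4, h5, hlp0]
    rw [Filter.Frequently, eventually_nhdsWithin_iff]
    intro hcon
    exact h2 ((h1.eventually hcon).mono fun w hw h5 => hw h5.2 h5.1)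
  have hxda : HasDerivAt x (deriv x 0) 0 := hxd.self_of_nhds.hasDerivAt
  have hx'0 : deriv x 0 = 0 := by
    by_contra hne
    have h1 := hxda.eventually_ne (c := 0) hne
    exact hfx (h1.mono fun t ht => ht)
  have hfx1 : ∃ᶠ t in 𝓝[≠] (0 : ℝ), deriv x t = 0 := by
    rw [Filter.Frequently, eventually_nhdsWithin_iff]
    intro hcon
    obtain ⟨δ, hδ, hb1⟩ := Metric.eventually_nhds_iff_ball.1 (hcon.and hxd)
    have h2 : ∃ t, t ∈ ball (0 : ℝ) δ ∧ t ≠ 0 ∧ x t = 0 := by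
      have h3 := hfx.and_eventually (nhdsWithin_le_nhds (Metric.ball_mem_nhds (0 : ℝ) hδ))
      obtain ⟨t, ⟨h4, h5⟩, h6⟩ := (h3.and_eventually self_mem_nhdsWithin).exists
      exact ⟨t, h5, h6, h4⟩
    obtain ⟨t, ht, ht0, hxt⟩ := h2
    have ht' : |t| < δ := by simpa [Real.dist_eq] using ht
    have hin : ∀ s, |s| ≤ |t| → s ∈ ball (0 : ℝ) δ := by
      intro s hs
      rw [mem_ball, Real.dist_eq, sub_zero]
      linarith
    rcases lt_or_gt_of_ne ht0 with h | h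
    · obtain ⟨s, hs, hs0⟩ := exists_deriv_eq_zero (f := x) h (fun s hs =>
        (hb1 s (hin s (by rw [abs_of_nonpos hs.2, abs_of_neg h]; linarith [hs.1]))).2.continuousAt.continuousWithinAt)
        (by rw [hxt, hx0])
      exact (hb1 s (hin s (by rw [abs_of_neg hs.2, abs_of_neg h]; linarith [hs.1]))).1 hs.2.ne hs0
    · obtain ⟨s, hs, hs0⟩ := exists_deriv_eq_zero (f := x) h (fun s hs =>
        (hb1 s (hin s (by rw [abs_of_nonneg hs.1, abs_of_pos h]; linarith [hs.2]))).2.continuousAt.continuousWithinAt)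
        (by rw [hxt, hx0])
      exact (hb1 s (hin s (by rw [abs_of_pos hs.1, abs_of_pos h]; linarith [hs.2]))).1 hs.1.ne' hs0
  have hx''0 : deriv (deriv x) 0 = 0 := by
    by_contra hne
    have h1 := (hx2.differentiableAt one_ne_zero).hasDerivAt.eventually_ne (c := 0) hne
    exact hfx1 (h1.mono fun t ht => ht)
  -- `x' = o(t)`
  have hsmall : ∀ᶠ t in 𝓝 (0 : ℝ), |deriv x t| ≤ 1 / 20 * |t| := by
    have h1 : HasDerivAt (deriv x) 0 0 := by
      have := (hx2.differentiableAt one_ne_zero).hasDerivAt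
      rw [hx''0] at this
      exact this
    have h2 := h1.isLittleO.def (c := 1 / 20) (by norm_num)
    filter_upwards [h2] with t ht
    simpa [hx'0] using ht
  have hquad : ∀ᶠ t in 𝓝 (0 : ℝ), |x t| ≤ 1 / 20 * t ^ 2 := by
    obtain ⟨δ, hδ, hb1⟩ := Metric.eventually_nhds_iff_ball.1 (hsmall.and hxd)
    refine Metric.eventually_nhds_iff_ball.2 ⟨δ, hδ, fun t ht => ?_⟩
    have ht' : |t| < δ := by simpa [Real.dist_eq] using ht
    have hseg : ∀ s ∈ Set.uIcc 0 t, |s| ≤ |t| := by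
      intro s hs
      have := Set.abs_sub_left_of_mem_uIcc hs
      simpa using this
    have h1 := Convex.norm_image_sub_le_of_norm_deriv_le (f := x) (C := 1 / 20 * |t|)
      (s := Set.uIcc 0 t) (x := 0) (y := t)
      (fun s hs => (hb1 s (by
        have := hseg s hs
        rw [mem_ball, Real.dist_eq, sub_zero]; linarith)).2)
      (fun s hs => by
        have h2 := (hb1 s (by
          have := hseg s hs
          rw [mem_ball, Real.dist_eq, sub_zero]; linarith)).1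
        rw [Real.norm_eq_abs]
        refine h2.trans ?_
        exact mul_le_mul_of_nonneg_left (hseg s hs) (by norm_num))
      (convex_uIcc 0 t) Set.left_mem_uIcc Set.right_mem_uIcc
    rw [hx0, sub_zero, sub_zero, Real.norm_eq_abs, Real.norm_eq_abs] at h1
    calc |x t| ≤ 1 / 20 * |t| * |t| := h1
      _ = 1 / 20 * |t| ^ 2 := by ring
      _ = _ := by rw [sq_abs]
  -- the differential equation
  set W₀ : ℂ := a * v ^ m with hW₀
  have hW₀ne : W₀ ≠ 0 := mul_ne_zero ha (pow_ne_zero _ hv0)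
  have hpos : ∀ᶠ t in 𝓝 (0 : ℝ), 0 <
      ((starRingEnd ℂ) (grad ρ (lp z₀ v (t, x t))) * (lp z₀ v (t, x t) - z₀)).re := by
    have hfdc : Continuous (fderiv ℝ ρ) := hρ.continuous_fderiv two_ne_zero
    have hgc : Continuous (grad ρ) := by
      unfold grad
      fun_prop
    have h1 : Continuous fun y => ((starRingEnd ℂ) (grad ρ y) * (y - z₀)).re := by fun_prop
    have h2 := (h1.tendsto z₁).comp hlpt
    have h3 : 0 < ((starRingEnd ℂ) (grad ρ z₁) * (z₁ - z₀)).re := by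
      rw [← hv, hgv]; positivity
    exact h2.eventually (lt_mem_nhds h3)
  have hode : ∀ᶠ t : ℝ in 𝓝 0, (W₀ * Complex.exp (m * (t : ℂ) * I)).re *
      (Real.exp (x t) * Real.sqrt (1 + (deriv x t) ^ 2) - 1) =
        deriv x t * (W₀ * Complex.exp (m * (t : ℂ) * I)).im := by
    filter_upwards [hρx.eventually_nhds, hxd, hpos, hlpt.eventually hbc] with t h1 h2 h3 h4
    have h5 := h4 h1.self_of_nhds
    set z := lp z₀ v (t, x t) with hz
    have hun : ‖z - z₀‖ = r * Real.exp (x t) := by rw [hz, lp_norm, hvn]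
    have hu : z - z₀ ≠ 0 := norm_pos_iff.1 (by rw [hun]; positivity)
    have hperp : ((starRingEnd ℂ) (grad ρ z) * ((z - z₀) * (deriv x t + I))).re = 0 := by
      have d1 := lp_hasDerivAt z₀ v h2.hasDerivAt
      have d2 := (hρd z).hasFDerivAt.comp_hasDerivAt t d1
      have d3 : HasDerivAt (ρ ∘ fun t => lp z₀ v (t, x t)) 0 t :=
        (hasDerivAt_const t (0 : ℝ)).congr_of_eventuallyEq h1
      have d4 := d2.unique d3
      rw [← hz, fderiv_eq_grad] at d4
      rw [← d4]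
      simp [Complex.mul_re]
    have hder : deriv G z = m * (a * (z - z₀) ^ m) / (z - z₀) := by
      have e1 : G = fun y => a * (y - z₀) ^ m + b := funext hG
      have e2 : HasDerivAt G (a * (m * (z - z₀) ^ (m - 1) * 1)) z := by
        rw [e1]
        exact ((((hasDerivAt_id z).sub_const z₀).pow m).const_mul a).add_const b
      rw [e2.deriv, eq_div_iff hu]
      obtain ⟨k, rfl⟩ : ∃ k, m = k + 1 := ⟨m - 1, by omega⟩
      rw [Nat.add_sub_cancel, pow_succ]
      ring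
    have hGre : (G z).re = (a * (z - z₀) ^ m).re := by rw [hG, Complex.add_re, hb, add_zero]
    rw [hder, hGre] at h5
    have h6 := polar_ode (E := Real.exp (x t)) hm hu hperp h3 (by
      rw [hun, ← hσr]; ring) h5
    -- remove the factor `exp (m x)`
    have h7 : a * (z - z₀) ^ m = ((Real.exp (m * x t) : ℝ) : ℂ) * (W₀ * Complex.exp (m * t * I)) := by
      have e1 : z - z₀ = v * Complex.exp ((x t : ℂ) + t * I) := by
        rw [hz]; unfold lp; simp
      rw [e1, mul_pow, ← Complex.exp_nat_mul, hW₀, mul_add, Complex.exp_add]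
      push_cast
      have e2 : (m : ℂ) * (t * I) = m * t * I := by ring
      rw [e2]
      ring
    rw [h7, Complex.re_ofReal_mul, Complex.im_ofReal_mul] at h6
    have h8 : Real.exp (m * x t) ≠ 0 := (Real.exp_pos _).ne'
    apply mul_left_cancel₀ h8
    linarith
  have hest : ∀ᶠ t in 𝓝 (0 : ℝ), |t| * |deriv x t| ≤ 3 / 2 * |x t| := by
    have h1 : ∀ᶠ t in 𝓝 (0 : ℝ), |t| < 1 := by
      have : Tendsto (fun t : ℝ => |t|) (𝓝 0) (𝓝 0) := by
        simpa using (continuous_abs.tendsto (0 : ℝ))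
      exact this.eventually (gt_mem_nhds one_pos)
    filter_upwards [h1, hsmall, hquad, hode, im_lower hm hW₀ne] with t h2 h3 h4 h5 h6
    have hκ : 0 < ‖W₀‖ := norm_pos_iff.2 hW₀ne
    have hn : ‖W₀ * Complex.exp (m * t * I)‖ = ‖W₀‖ := by
      rw [norm_mul]
      have : (m * t * I : ℂ) = ((m * t : ℝ) : ℂ) * I := by push_cast; ring
      rw [this, Complex.norm_exp_ofReal_mul_I, mul_one]
    apply slope_est hκ h2.le _ h3 _ h6 h5
    · refine h4.trans ?_
      have : t ^ 2 ≤ 1 := by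
        rw [← sq_abs]
        exact pow_le_one₀ (abs_nonneg _) h2.le
      linarith
    · rw [← hn]
      exact Complex.abs_re_le_norm _
  exact sing_unique hxd hx0 hquad hest

/-- The continuation lemma. -/
theorem contin {ρ : ℂ → ℝ} (hρ : ContDiff ℝ 2 ρ) {z₁ z₀ a b : ℂ} {r σ : ℝ} {m : ℕ}
    (hm : 1 ≤ m) (hσ : 0 < σ) (hr : r = m / σ) (ha : a ≠ 0) {G : ℂ → ℂ}
    (hG : ∀ y, G y = a * (y - z₀) ^ m + b) (hb : b.re = 0) (hz₁ : ρ z₁ = 0)
    (hg : grad ρ z₁ ≠ 0) (hcen : z₁ - ((r / ‖grad ρ z₁‖ : ℝ) : ℂ) * grad ρ z₁ = z₀)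
    (hbc : ∀ᶠ z in 𝓝 z₁, ρ z = 0 →
      (deriv G z * grad ρ z).re = σ * (G z).re * ‖grad ρ z‖)
    (hfr : ∃ᶠ w in 𝓝 z₁, ρ w = 0 ∧ ∀ᶠ y in 𝓝 w, ρ y = 0 → ‖y - z₀‖ = r) :
    ∀ᶠ y in 𝓝 z₁, ρ y = 0 → ‖y - z₀‖ = r := by
  by_cases hz : ∀ᶠ y in 𝓝 z₁, ρ y = 0 → ‖y - z₀‖ = r
  · exact hz
  · apply contin' hρ hm hσ hr ha hG hb hz₁ hg hcen hbc
    rw [Filter.Frequently, eventually_nhdsWithin_iff]
    intro hcon
    apply hfr
    filter_upwards [hcon] with w h1 h2
    by_cases h3 : w = z₁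
    · rw [h3] at h2
      exact hz h2.2
    · exact h1 h3 ⟨h2.1, h2.2.self_of_nhds h2.1⟩

end Pool.Agent.Stek
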