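import Pool.Agent.Lib.MP_bd8415_an.Alg.Defs2

/-!
# Monodromy over convex sets
-/

open Polynomial Filter Topology Metric Set Complex

namespace Pool.Agent.Stek

/-- The curve `Q = 0`. -/
private abbrev CvE (Q : Biv) : Type := {p : ℂ × ℂ // ev Q p.1 p.2 = 0}

/-- The projection of the curve to the `z` plane. -/
private def cvProj (Q : Biv) : CvE Q → ℂ := fun e => e.1.1

private theorem cvProj_continuous (Q : Biv) : Continuous (cvProj Q) :=
  continuous_fst.comp continuous_subtype_val

private theorem cv_evenly {Q : Biv} {n : ℕ} {z : ℂ} {r : ℝ} {φ : Fin n → ℂ → ℂ}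
    (h : IsBranches Q n z r φ) : IsEvenlyCovered (cvProj Q) z (Fin n) := by
  have hidx : ∀ e : cvProj Q ⁻¹' ball z r, ∃ j, e.1.1.2 = φ j e.1.1.1 := fun e =>
    h.all e.1.1.1 e.2 e.1.1.2 e.1.2
  choose idx hi using hidx
  have hcont : Continuous idx := by
    rw [continuous_iff_continuousAt]
    intro e
    rw [ContinuousAt, nhds_discrete (Fin n), tendsto_pure]
    have h1 := h.eventually_eq (z := e.1.1.1) e.2 (idx e)
    rw [← hi e] at h1
    have h2 : Tendsto (fun e' : cvProj Q ⁻¹' ball z r => e'.1.1) (𝓝 e) (𝓝 (e.1.1.1, e.1.1.2)) :=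
      (continuous_subtype_val.comp continuous_subtype_val).tendsto e
    filter_upwards [h2.eventually h1] with e' h3
    have h4 := h3 e'.1.2
    rw [hi e'] at h4
    exact h.inj e'.1.1.1 e'.2 h4
  refine ⟨inferInstance, ball z r, mem_ball_self h.pos, isOpen_ball,
    isOpen_ball.preimage (cvProj_continuous Q), ?_⟩
  refine ⟨{ toFun := fun e => (⟨e.1.1.1, e.2⟩, idx e)
            invFun := fun p => ⟨⟨(p.1.1, φ p.2 p.1.1), h.root p.2 p.1.1 p.1.2⟩, p.1.2⟩
            left_inv := ?_
            right_inv := ?_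
            continuous_toFun := ?_
            continuous_invFun := ?_ }, fun x => rfl⟩
  · intro e
    apply Subtype.ext
    apply Subtype.ext
    exact Prod.ext rfl (hi e).symm
  · rintro ⟨⟨y, hy⟩, j⟩
    refine Prod.ext rfl ?_
    exact (h.inj y hy (hi ⟨⟨(y, φ j y), h.root j y hy⟩, hy⟩)).symm
  · exact (Continuous.subtype_mk (continuous_fst.comp
      (continuous_subtype_val.comp continuous_subtype_val)) _).prodMk hcont
  · refine Continuous.subtype_mk (Continuous.subtype_mk ?_ _) _
    refine (continuous_subtype_val.comp continuous_fst).prodMk ?_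
    rw [continuous_prod_of_discrete_right]
    intro j
    rw [continuous_iff_continuousAt]
    rintro ⟨y, hy⟩
    exact (h.an j y hy).continuousAt.comp continuous_subtype_val.continuousAt

private theorem cv_covering {Q : Biv} {S : Set ℂ} (h : Curve Q S) :
    IsCoveringMapOn (cvProj Q) Sᶜ := by
  intro z hz
  obtain ⟨r, φ, hφ, -⟩ := exists_branches (h.lead z hz) (h.simple z hz) (U := univ) univ_mem
  exact (cv_evenly hφ).to_isEvenlyCovered_preimage

/-- Over a convex open set which avoids `S` all roots are given by `natDegree` analytic functions.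

Proof sketch. Let `E := {p : ℂ × ℂ // ev Q p.1 p.2 = 0}` and `proj : E → ℂ := fun e => e.1.1`.
(1) `IsCoveringMapOn proj Sᶜ`: for `z ∉ S` take `exists_branches` (file Branches, with `U = Sᶜ`,
which is open because `S` is finite) to get `IsBranches Q n z r φ` on a ball; the map
`proj ⁻¹' ball ≃ₜ ball × Fin n`, `(y,w) ↦ (y, the j with w = φ j y)`, inverse `(y,j) ↦ (y, φ j y)`, is
a homeomorphism (the index is locally constant by `IsBranches.eventually_eq`; `IsBranches.all`,
`IsBranches.inj` for bijectivity). Use this in `IsEvenlyCovered` (then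
`IsEvenlyCovered.to_isEvenlyCovered_preimage`).
(2) `IsCoveringMapOn.existsUnique_continuousMap_lifts` (Mathlib.Topology.Homotopy.Lifting) for the
inclusion `A → ℂ` of the subtype `A` (convex nonempty, hence contractible, hence simply connected;
open in `ℂ`, hence locally path connected) and each root `u j` over a base point `a₀ ∈ A`
(`exists_roots`, file Branches) gives continuous sections.
(3) Two sections which agree at one point agree everywhere (uniqueness in the lifting theorem, with
the point as base point), so they are pointwise distinct; they are analytic because near each point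
`(z, section z)` the curve is the graph of an analytic function (`local_branch`, file Basic, with
`Curve.simple`); they are all the roots by `all_roots_of_injective` (file Branches). -/
theorem exists_br {Q : Biv} {S : Set ℂ} (h : Curve Q S) {A : Set ℂ} (hA : IsOpen A)
    (hc : Convex ℝ A) (hne : A.Nonempty) (hAS : ∀ z ∈ A, z ∉ S) :
    ∃ φ : Fin Q.natDegree → ℂ → ℂ, IsBr Q Q.natDegree A φ := by
  classical
  have i1 : ContractibleSpace A := hc.contractibleSpace hne
  have i2 : SimplyConnectedSpace A := SimplyConnectedSpace.ofContractible A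
  have i3 : LocallyPathConnectedSpace A := hA.locallyPathConnectedSpace
  obtain ⟨a₀, ha₀⟩ := hne
  have hcov := cv_covering h
  let f : C(A, ℂ) := ⟨Subtype.val, continuous_subtype_val⟩
  have hfS : ∀ a, f a ∈ Sᶜ := fun a => hAS a.1 a.2
  obtain ⟨u, hu, hr⟩ := exists_roots (h.lead a₀ (hAS a₀ ha₀)) (h.simple a₀ (hAS a₀ ha₀))
  have hex : ∀ j, ∃ F : C(A, CvE Q), F ⟨a₀, ha₀⟩ = ⟨(a₀, u j), hr j⟩ ∧ cvProj Q ∘ F = f :=
    fun j => (hcov.existsUnique_continuousMap_lifts f (a₀ := ⟨a₀, ha₀⟩)
      (e₀ := ⟨(a₀, u j), hr j⟩) rfl hfS).exists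
  choose F hF0 hF1 using hex
  have hfst : ∀ j (a : A), (F j a).1.1 = a.1 := fun j a => congrFun (hF1 j) a
  have huniq : ∀ i j (a : A), F i a = F j a → i = j := by
    intro i j a hij
    have h1 := (hcov.existsUnique_continuousMap_lifts f (a₀ := a) (e₀ := F i a)
      (hfst i a) hfS).unique (y₁ := F i) (y₂ := F j) ⟨rfl, hF1 i⟩ ⟨hij.symm, hF1 j⟩
    apply hu
    have h2 := hF0 i
    rw [h1, hF0 j] at h2
    have h3 := congrArg (fun e : CvE Q => e.1.2) h2
    exact h3.symm
  let φ : Fin Q.natDegree → ℂ → ℂ := fun j z => if hz : z ∈ A then (F j ⟨z, hz⟩).1.2 else 0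
  have hφ : ∀ j (a : A), φ j a.1 = (F j a).1.2 := fun j a => dif_pos a.2
  have hroot : ∀ j, ∀ z ∈ A, ev Q z (φ j z) = 0 := by
    intro j z hz
    have h1 := (F j ⟨z, hz⟩).2
    rw [hfst j ⟨z, hz⟩, ← hφ j ⟨z, hz⟩] at h1
    exact h1
  have hinj : ∀ z ∈ A, Function.Injective fun j => φ j z := by
    intro z hz i j hij
    refine huniq i j ⟨z, hz⟩ (Subtype.ext (Prod.ext ?_ ?_))
    · rw [hfst i, hfst j]
    · rw [← hφ i, ← hφ j]
      exact hij
  have hcont : ∀ j, ∀ z ∈ A, ContinuousAt (φ j) z := by
    intro j z hz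
    have h1 : ContinuousOn (φ j) A := by
      rw [continuousOn_iff_continuous_domRestrict]
      have h2 : A.domRestrict (φ j) = fun a => (F j a).1.2 := by
        ext a
        exact hφ j a
      rw [h2]
      exact continuous_snd.comp (continuous_subtype_val.comp (F j).continuous)
    exact h1.continuousAt (hA.mem_nhds hz)
  refine ⟨φ, fun j z hz => ?_, hroot, hinj, fun z hz w hw => ?_⟩
  · obtain ⟨ψ, hψ, hψ1, hψ2⟩ := local_branch Q (hroot j z hz) (h.simple z (hAS z hz) _ (hroot j z hz))
    refine hψ.congr ?_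
    have h1 : Tendsto (fun y => (y, φ j y)) (𝓝 z) (𝓝 (z, φ j z)) :=
      (continuousAt_id (x := z)).prodMk (hcont j z hz)
    filter_upwards [h1.eventually hψ2, hA.mem_nhds hz] with y h2 h3
    exact (h2.1 (hroot j y h3)).symm
  · refine all_roots_of_injective (sp_ne_zero (h.lead z (hAS z hz))) (sp_natDegree_le Q z)
      (hinj z hz) (fun j => ?_) ?_
    · rw [sp_eval]
      exact hroot j z hz
    · rw [sp_eval]
      exact hw

end Pool.Agent.Stek
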