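import Pool.Agent.Lib.MP_bd8415_an.Alg.Focus

/-!
# Curves without real points at infinity: definitions
-/

open Polynomial Filter Topology Metric Set Complex

namespace Pool.Agent.Stek

/-- The slope `dw/dz` of the curve `Q = 0`. -/
noncomputable def lam (Q : Biv) (z w : ℂ) : ℂ := -ev (dz Q) z w / ev (dw Q) z w

/-- The functions `φ j` are all the roots of `Q(z,·)` for `z ∈ A`. -/
structure IsBr (Q : Biv) (n : ℕ) (A : Set ℂ) (φ : Fin n → ℂ → ℂ) : Prop where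
  an : ∀ j, AnalyticOnNhd ℂ (φ j) A
  root : ∀ j, ∀ z ∈ A, ev Q z (φ j z) = 0
  inj : ∀ z ∈ A, Function.Injective fun j => φ j z
  all : ∀ z ∈ A, ∀ w, ev Q z w = 0 → ∃ j, w = φ j z

/-- An irreducible curve and a finite set outside of which everything is regular. -/
structure Curve (Q : Biv) (S : Set ℂ) : Prop where
  irr : Irreducible Q
  deg : Q.natDegree ≠ 0
  fin : S.Finite
  lead : ∀ z ∉ S, Q.leadingCoeff.eval z ≠ 0
  simple : ∀ z ∉ S, ∀ w, ev Q z w = 0 → ev (dw Q) z w ≠ 0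
  slope : ∀ z ∉ S, ∀ w, ev Q z w = 0 → ev (dz Q) z w ≠ 0

/-- Far points of the curve have `|w| ≤ α |z|` or `|z| ≤ α |w|`. -/
def Sep (Q : Biv) (α R : ℝ) : Prop :=
  ∀ z w, ev Q z w = 0 → (R ≤ ‖z‖ ∨ R ≤ ‖w‖) → ‖w‖ ≤ α * ‖z‖ ∨ ‖z‖ ≤ α * ‖w‖

/-- Standing assumptions at infinity. -/
structure AtInf (Q : Biv) (S : Set ℂ) (α R : ℝ) : Prop where
  curve : Curve Q S
  hα0 : 0 < α
  hα1 : α < 1
  hR : 1 ≤ R
  sep : Sep Q α R
  hS : ∀ s ∈ S, ‖s‖ < R

theorem AtInf.notMem {Q : Biv} {S : Set ℂ} {α R : ℝ} (h : AtInf Q S α R) {z : ℂ} (hz : R ≤ ‖z‖) :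
    z ∉ S := fun hs => absurd hz (not_le.2 (h.hS z hs))

/-- The reflected polynomial `Q*(z,w) = conj Q(conj w, conj z)`. -/
noncomputable def starQ (Q : Biv) : Biv :=
  Bivariate.swap (Q.map (mapRingHom (starRingEnd ℂ)))

theorem ev_map_conj (Q : Biv) (z w : ℂ) :
    ev (Q.map (mapRingHom (starRingEnd ℂ))) z w =
      (starRingEnd ℂ) (ev Q ((starRingEnd ℂ) z) ((starRingEnd ℂ) w)) := by
  rw [ev_eq_sum, ev_eq_sum, map_sum]
  have hdeg : (Q.map (mapRingHom (starRingEnd ℂ))).natDegree = Q.natDegree :=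
    natDegree_map_eq_of_injective (Polynomial.map_injective _ (starRingEnd ℂ).injective) Q
  rw [hdeg]
  refine Finset.sum_congr rfl fun i _ => ?_
  rw [coeff_map, map_mul, map_pow, Complex.conj_conj, coe_mapRingHom]
  congr 1
  have h : ∀ p : Polynomial ℂ, (p.map (starRingEnd ℂ)).eval z =
      (starRingEnd ℂ) (p.eval ((starRingEnd ℂ) z)) := by
    intro p
    have h1 := Polynomial.eval_map (starRingEnd ℂ) ((starRingEnd ℂ) ((starRingEnd ℂ) z)) (p := p)
    rw [Polynomial.eval₂_at_apply, Complex.conj_conj] at h1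
    exact h1
  exact h _

theorem ev_star (Q : Biv) (z w : ℂ) :
    ev (starQ Q) z w = (starRingEnd ℂ) (ev Q ((starRingEnd ℂ) w) ((starRingEnd ℂ) z)) := by
  rw [starQ, ev_swap, ev_map_conj]

theorem ev_dz_star (Q : Biv) (z w : ℂ) :
    ev (dz (starQ Q)) z w =
      (starRingEnd ℂ) (ev (dw Q) ((starRingEnd ℂ) w) ((starRingEnd ℂ) z)) := by
  have h1 := hasDerivAt_z (starQ Q) z w
  have h2 : HasDerivAt (sh fun y => ev Q ((starRingEnd ℂ) w) y)
      ((starRingEnd ℂ) (ev (dw Q) ((starRingEnd ℂ) w) ((starRingEnd ℂ) z))) z :=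
    sh_hasDerivAt (hasDerivAt_w Q ((starRingEnd ℂ) w) ((starRingEnd ℂ) z))
  have e : (fun z => ev (starQ Q) z w) = sh fun y => ev Q ((starRingEnd ℂ) w) y := by
    ext y
    rw [ev_star, sh]
  rw [e] at h1
  exact h1.unique h2

theorem ev_dw_star (Q : Biv) (z w : ℂ) :
    ev (dw (starQ Q)) z w =
      (starRingEnd ℂ) (ev (dz Q) ((starRingEnd ℂ) w) ((starRingEnd ℂ) z)) := by
  have h1 := hasDerivAt_w (starQ Q) z w
  have h2 : HasDerivAt (sh fun y => ev Q y ((starRingEnd ℂ) z))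
      ((starRingEnd ℂ) (ev (dz Q) ((starRingEnd ℂ) w) ((starRingEnd ℂ) z))) w :=
    sh_hasDerivAt (hasDerivAt_z Q ((starRingEnd ℂ) w) ((starRingEnd ℂ) z))
  have e : (fun w => ev (starQ Q) z w) = sh fun y => ev Q y ((starRingEnd ℂ) z) := by
    ext y
    rw [ev_star, sh]
  rw [e] at h1
  exact h1.unique h2

/-- The curve is invariant under `(z,w) ↦ (conj w, conj z)`. -/
def StarSym (Q : Biv) : Prop := ∃ c : ℂ, c ≠ 0 ∧ starQ Q = C (C c) * Q

theorem StarSym.zero {Q : Biv} (h : StarSym Q) {z w : ℂ} (h0 : ev Q z w = 0) :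
    ev Q ((starRingEnd ℂ) w) ((starRingEnd ℂ) z) = 0 := by
  obtain ⟨c, hc, he⟩ := h
  have h1 := congrArg (fun P => ev P z w) he
  simp only [ev_star, ev_mul, ev_C, eval_C, h0, mul_zero] at h1
  simpa using h1

theorem StarSym.lam_eq {Q : Biv} (h : StarSym Q) (z w : ℂ) :
    lam Q ((starRingEnd ℂ) w) ((starRingEnd ℂ) z) = (starRingEnd ℂ) ((lam Q z w)⁻¹) := by
  obtain ⟨c, hc, he⟩ := h
  have e1 : c * ev (dz Q) z w =
      (starRingEnd ℂ) (ev (dw Q) ((starRingEnd ℂ) w) ((starRingEnd ℂ) z)) := by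
    rw [← ev_dz_star, he]
    have h1 := hasDerivAt_z (C (C c) * Q) z w
    have h2 := (hasDerivAt_z Q z w).const_mul c
    have e : (fun z => ev (C (C c) * Q) z w) = fun z => c * ev Q z w := by
      ext y; rw [ev_mul, ev_C, eval_C]
    rw [e] at h1
    exact h2.unique h1
  have e2 : c * ev (dw Q) z w =
      (starRingEnd ℂ) (ev (dz Q) ((starRingEnd ℂ) w) ((starRingEnd ℂ) z)) := by
    rw [← ev_dw_star, he]
    have h1 := hasDerivAt_w (C (C c) * Q) z w
    have h2 := (hasDerivAt_w Q z w).const_mul c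
    have e : (fun w => ev (C (C c) * Q) z w) = fun w => c * ev Q z w := by
      ext y; rw [ev_mul, ev_C, eval_C]
    rw [e] at h1
    exact h2.unique h1
  have f1 : ev (dw Q) ((starRingEnd ℂ) w) ((starRingEnd ℂ) z) =
      (starRingEnd ℂ) (c * ev (dz Q) z w) := by rw [e1, Complex.conj_conj]
  have f2 : ev (dz Q) ((starRingEnd ℂ) w) ((starRingEnd ℂ) z) =
      (starRingEnd ℂ) (c * ev (dw Q) z w) := by rw [e2, Complex.conj_conj]
  unfold lam
  rw [f1, f2, inv_div, ← map_neg, ← map_div₀]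
  congr 1
  rw [div_neg, neg_div, mul_div_mul_left _ _ hc]

/-- The star symmetry holds as soon as the curve has infinitely many real points. -/
theorem starSym_of_infinite {Q : Biv} (hQ : Irreducible Q) (hd : Q.natDegree ≠ 0)
    (hinf : {z : ℂ | ev Q z ((starRingEnd ℂ) z) = 0}.Infinite) : StarSym Q := by
  have h1 : Q ∣ starQ Q := by
    apply dvd_of_infinite hQ hd
    refine hinf.mono ?_
    intro z hz
    refine ⟨(starRingEnd ℂ) z, hz, ?_⟩
    have hz' : ev Q z ((starRingEnd ℂ) z) = 0 := hz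
    rw [ev_star, Complex.conj_conj, hz', map_zero]
  have h2 : Irreducible (starQ Q) := by
    have e1 : Irreducible (Q.map (mapRingHom (starRingEnd ℂ))) := by
      have := (MulEquiv.irreducible_iff (Polynomial.mapEquiv (Polynomial.mapEquiv
        (starRingAut (R := ℂ)))) (x := Q)).2 hQ
      exact this
    exact (MulEquiv.irreducible_iff (Bivariate.swap (R := ℂ))).2 e1
  obtain ⟨u, hu⟩ := (hQ.associated_of_dvd h2 h1)
  obtain ⟨r, hr, hru⟩ := Polynomial.isUnit_iff.1 u.isUnit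
  obtain ⟨c, hc, hcr⟩ := Polynomial.isUnit_iff.1 hr
  refine ⟨c, hc.ne_zero, ?_⟩
  rw [← hu, ← hru, ← hcr, mul_comm]

theorem IsBr.deriv_eq {Q : Biv} {n : ℕ} {A : Set ℂ} {φ : Fin n → ℂ → ℂ} (h : IsBr Q n A φ)
    (hA : IsOpen A) (j : Fin n) {z : ℂ} (hz : z ∈ A) (hs : ev (dw Q) z (φ j z) ≠ 0) :
    deriv (φ j) z = lam Q z (φ j z) := by
  have d1 : HasDerivAt (fun z => ((z, φ j z) : ℂ × ℂ)) (1, deriv (φ j) z) z :=
    (hasDerivAt_id z).prodMk (h.an j z hz).differentiableAt.hasDerivAt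
  have d2 : HasFDerivAt (fun p : ℂ × ℂ => ev Q p.1 p.2)
      (fderiv ℂ (fun p : ℂ × ℂ => ev Q p.1 p.2) (z, φ j z)) (z, φ j z) :=
    (ev_differentiable Q (z, φ j z)).hasFDerivAt
  have d3 := d2.comp_hasDerivAt z d1
  have d4 : HasDerivAt ((fun p : ℂ × ℂ => ev Q p.1 p.2) ∘ fun z => ((z, φ j z) : ℂ × ℂ)) 0 z := by
    refine (hasDerivAt_const z (0 : ℂ)).congr_of_eventuallyEq ?_
    filter_upwards [hA.mem_nhds hz] with y hy using h.root j y hy
  have d5 := d3.unique d4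
  rw [fderiv_ev] at d5
  simp only [mul_one] at d5
  unfold lam
  rw [eq_div_iff hs]
  linear_combination d5

/-- Existence of a bad set. -/
theorem exists_curve {Q : Biv} (hQ : Irreducible Q) (hd : Q.natDegree ≠ 0) (hd' : dz Q ≠ 0) :
    ∃ S : Set ℂ, Curve Q S := by
  obtain ⟨S, hS, hbad⟩ := exists_bad hQ hd
  have h1 : ¬ Q ∣ dz Q := by
    intro h
    apply hd'
    have h2 : Bivariate.swap Q ∣ derivative (Bivariate.swap Q) := by
      have h3 := map_dvd (Bivariate.swap (R := ℂ)) h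
      rw [dz, Bivariate.swap_swap_apply] at h3
      exact h3
    have h3 : derivative (Bivariate.swap Q) = 0 := by
      by_contra hne
      have hd0 : (Bivariate.swap Q).natDegree ≠ 0 := by
        intro h0
        obtain ⟨q, hq⟩ := natDegree_eq_zero.1 h0
        rw [← hq] at hne
        simp at hne
      have := Polynomial.eq_zero_of_dvd_of_natDegree_lt h2 (natDegree_derivative_lt hd0)
      exact hne this
    rw [dz, h3, map_zero]
  obtain ⟨A, B, r, hr, hab⟩ := bezout hQ hd h1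
  refine ⟨S ∪ (r.rootSet ℂ), ⟨hQ, hd, hS.union (r.rootSet_finite ℂ), ?_, ?_, ?_⟩⟩
  · intro z hz
    exact (hbad z fun h => hz (Or.inl h)).1
  · intro z hz
    exact (hbad z fun h => hz (Or.inl h)).2
  · intro z hz w hw h0
    apply hz
    right
    rw [Polynomial.mem_rootSet]
    refine ⟨hr, ?_⟩
    have := congrArg (fun P => ev P z w) hab
    simp only [ev_add, ev_mul, ev_C, hw, h0, mul_zero, add_zero] at this
    simpa using this.symm

/-- The identity theorem, in terms of `Curve`. -/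
theorem Curve.identity {Q : Biv} {S : Set ℂ} (h : Curve Q S) {F : ℂ → ℂ → ℂ}
    (hF : Differentiable ℂ fun p : ℂ × ℂ => F p.1 p.2) {z₁ w₁ : ℂ} (hz₁ : z₁ ∉ S)
    (h0 : ev Q z₁ w₁ = 0) (hg : Good Q F z₁ w₁) : ∀ z ∉ S, ∀ w, ev Q z w = 0 → F z w = 0 :=
  Pool.Agent.Stek.identity h.irr h.deg h.fin (fun z hz => ⟨h.lead z hz, h.simple z hz⟩) hF hz₁ h0 hg

/-- The identity theorem from accumulating zeros on a branch. -/
theorem Curve.identity_branch {Q : Biv} {S : Set ℂ} (h : Curve Q S) {F : ℂ → ℂ → ℂ}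
    (hF : Differentiable ℂ fun p : ℂ × ℂ => F p.1 p.2) {f : ℂ → ℂ} {z₁ : ℂ} (hz₁ : z₁ ∉ S)
    (hf : ContinuousAt f z₁) (h0 : ev Q z₁ (f z₁) = 0)
    (hfr : ∃ᶠ z in 𝓝[≠] z₁, ev Q z (f z) = 0 ∧ F z (f z) = 0) :
    ∀ z ∉ S, ∀ w, ev Q z w = 0 → F z w = 0 := by
  obtain ⟨φ, hφ, hφ1, hφ2⟩ := local_branch Q h0 (h.simple z₁ hz₁ _ h0)
  have hFφ : ∀ᶠ y in 𝓝 z₁, F y (φ y) = 0 := by
    have han : AnalyticAt ℂ (fun y => F y (φ y)) z₁ := by
      obtain ⟨O, hO, hO2⟩ : ∃ O ∈ 𝓝 z₁, DifferentiableOn ℂ (fun y => F y (φ y)) O := by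
        refine ⟨_, hφ.eventually_analyticAt, fun y hy => ?_⟩
        have h1 : DifferentiableAt ℂ (fun y => ((y, φ y) : ℂ × ℂ)) y :=
          differentiableAt_id.prodMk (AnalyticAt.differentiableAt hy)
        exact ((hF (y, φ y)).comp y h1).differentiableWithinAt
      exact hO2.analyticAt hO
    rw [← han.frequently_zero_iff_eventually_zero]
    have hc : Tendsto (fun w : ℂ => ((w, f w) : ℂ × ℂ)) (𝓝[≠] z₁) (𝓝 (z₁, f z₁)) :=
      (continuousAt_id.prodMk hf).tendsto.mono_left nhdsWithin_le_nhds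
    refine (hfr.and_eventually (hc.eventually hφ2)).mono ?_
    rintro w ⟨⟨h1, h2⟩, h3⟩
    have h4 := h3.1 h1
    simp only at h4
    rw [← h4]
    exact h2
  apply h.identity hF hz₁ h0
  have h1 : ∀ᶠ p : ℂ × ℂ in 𝓝 (z₁, f z₁), F p.1 (φ p.1) = 0 :=
    (continuous_fst.tendsto (z₁, f z₁)).eventually hFφ
  show ∀ᶠ p : ℂ × ℂ in 𝓝 (z₁, f z₁), ev Q p.1 p.2 = 0 → F p.1 p.2 = 0
  filter_upwards [h1, hφ2] with p h2 h3 h4
  rw [h3.1 h4]
  exact h2

/-- All roots of `Q(z,·)`. -/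
noncomputable def allRoots (Q : Biv) (z : ℂ) : Finset ℂ := by
  classical exact (sp Q z).roots.toFinset

/-- The small roots of `Q(z,·)`: those with `|w| ≤ α |z|`. -/
noncomputable def smallRoots (Q : Biv) (α : ℝ) (z : ℂ) : Finset ℂ := by
  classical exact (sp Q z).roots.toFinset.filter fun w => ‖w‖ ≤ α * ‖z‖

theorem mem_allRoots {Q : Biv} {S : Set ℂ} (h : Curve Q S) {z : ℂ} (hz : z ∉ S) {w : ℂ} :
    w ∈ allRoots Q z ↔ ev Q z w = 0 := by
  classical
  unfold allRoots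
  rw [Multiset.mem_toFinset, mem_roots (sp_ne_zero (h.lead z hz)), IsRoot, sp_eval]

theorem mem_smallRoots {Q : Biv} {S : Set ℂ} (h : Curve Q S) {α : ℝ} {z : ℂ} (hz : z ∉ S) {w : ℂ} :
    w ∈ smallRoots Q α z ↔ ev Q z w = 0 ∧ ‖w‖ ≤ α * ‖z‖ := by
  classical
  unfold smallRoots
  rw [Finset.mem_filter, Multiset.mem_toFinset, mem_roots (sp_ne_zero (h.lead z hz)), IsRoot,
    sp_eval]

end Pool.Agent.Stek
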