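import Pool.Agent.Lib.MP_bd8415_an.Alg.FinalLocal
import Pool.Agent.Lib.MP_bd8415_an.Alg.Centres
import Pool.Agent.Lib.MP_bd8415_an.Alg.CircDir
import Pool.Agent.Lib.MP_bd8415_an.CsHopf

/-!
# Domains one of whose boundary curves is algebraic without real points at infinity
-/

open Polynomial Filter Topology Metric Set Complex

namespace Pool.Agent.Stek

/-- The zeros of `Re G` on the circle are finitely many. -/
theorem finite_zeros_circle {G : ℂ → ℂ} {a b z₀ : ℂ} (ha : a ≠ 0) (hb : b.re = 0) {m : ℕ}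
    (hm : 1 ≤ m) (hG : ∀ z, G z = a * (z - z₀) ^ m + b) {r : ℝ} (hr : 0 < r) :
    {z : ℂ | ‖z - z₀‖ = r ∧ (G z).re = 0}.Finite := by
  set q : Polynomial ℂ := C a * X ^ (2 * m) + C ((starRingEnd ℂ) a * (r : ℂ) ^ (2 * m)) with hq
  have hq0 : q ≠ 0 := by
    intro h0
    have h1 := congrArg (fun p => p.coeff 0) h0
    simp only [hq, coeff_add, coeff_C_mul, coeff_X_pow, coeff_C_zero, coeff_zero] at h1
    rw [if_neg (by omega), mul_zero, zero_add] at h1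
    have h2 : (starRingEnd ℂ) a * (r : ℂ) ^ (2 * m) ≠ 0 :=
      mul_ne_zero ((_root_.map_ne_zero _).2 ha) (pow_ne_zero _ (by exact_mod_cast hr.ne'))
    exact h2 h1
  refine ((q.rootSet_finite ℂ).image (fun u => u + z₀)).subset ?_
  rintro z ⟨hz, hz0⟩
  refine ⟨z - z₀, ?_, by simp⟩
  rw [Polynomial.mem_rootSet]
  refine ⟨hq0, ?_⟩
  have hu : (z - z₀) * (starRingEnd ℂ) (z - z₀) = (r : ℂ) ^ 2 := by
    rw [Complex.mul_conj, Complex.normSq_eq_norm_sq, hz]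
    push_cast
    ring
  have h1 : (G z) + (starRingEnd ℂ) (G z) = 0 := by
    rw [Complex.add_conj, hz0]
    simp
  have hb' : (starRingEnd ℂ) b = -b := by
    apply Complex.ext
    · simp [hb]
    · simp
  rw [hG, map_add, map_mul, map_pow, hb'] at h1
  set u := z - z₀ with hudef
  have h2 : a * u ^ m + (starRingEnd ℂ) a * (starRingEnd ℂ) u ^ m = 0 := by
    linear_combination h1
  have h3 : u ^ m * (starRingEnd ℂ) u ^ m = (r : ℂ) ^ (2 * m) := by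
    rw [← mul_pow, hu, ← pow_mul]
  have h4 : a * u ^ (2 * m) + (starRingEnd ℂ) a * (r : ℂ) ^ (2 * m) = 0 := by
    rw [← h3]
    have e : u ^ (2 * m) = u ^ m * u ^ m := by rw [two_mul, pow_add]
    rw [e]
    linear_combination u ^ m * h2
  rw [hq]
  simp only [map_add, aeval_C, map_mul, map_pow, aeval_X, Algebra.algebraMap_self, RingHom.id_apply]
  exact h4

/-- All the centres lie in a finite set, positive `σ`. -/
theorem centres_mem {ρ : ℂ → ℝ} {V : Set ℂ} {G : ℂ → ℂ} {σ : ℝ} (hρ : ContDiff ℝ 1 ρ)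
    (hV : IsOpen V) (hgrad : ∀ z ∈ V, ρ z = 0 → fderiv ℝ ρ z ≠ 0) (hσ : 0 < σ)
    (hbc : ∀ z ∈ V, ρ z = 0 → (deriv G z * grad ρ z).re = σ * (G z).re * ‖grad ρ z‖)
    {m : ℕ} {T : Finset ℂ} (hm : 1 ≤ m)
    (hT : ∀ z₀ ∈ T, ∃ a b : ℂ, a ≠ 0 ∧ b.re = 0 ∧ ∀ y, G y = a * (y - z₀) ^ m + b)
    (hTc : ∀ z ∈ V, ρ z = 0 → ∃ z₀ ∈ T, ‖z - z₀‖ = m / |σ|) :
    ∀ z ∈ V, ρ z = 0 → z - (((m / σ) / ‖grad ρ z‖ : ℝ) : ℂ) * grad ρ z ∈ T := by
  have hρd : Differentiable ℝ ρ := hρ.differentiable one_ne_zero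
  rw [abs_of_pos hσ] at hTc
  have hm0 : (0 : ℝ) < m := by exact_mod_cast hm
  set r : ℝ := m / σ with hr
  have hr0 : 0 < r := by positivity
  have hfr : ∀ z ∈ V, ρ z = 0 → ∃ᶠ w in 𝓝[≠] z, w ∈ V ∧ ρ w = 0 := by
    intro z hz h0
    have h1 := (zero_frequently hρd h0 (hgrad z hz h0)).and_eventually
      (nhdsWithin_le_nhds (hV.mem_nhds hz))
    exact h1.mono fun w hw => ⟨hw.2, hw.1⟩
  set cen : ℂ → ℂ := fun z => z - ((r / ‖grad ρ z‖ : ℝ) : ℂ) * grad ρ z with hcendef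
  set B : Set ℂ := ⋃ z₀ ∈ T, {z : ℂ | ‖z - z₀‖ = r ∧ (G z).re = 0} with hB
  have hBf : B.Finite := T.finite_toSet.biUnion fun z₀ hz₀ => by
    obtain ⟨a, b, ha, hb, hGf⟩ := hT z₀ hz₀
    exact finite_zeros_circle ha hb hm hGf hr0
  have hgood : ∀ z ∈ V, ρ z = 0 → z ∉ B → cen z ∈ (T : Set ℂ) := by
    intro z hz h0 hzB
    have h1 : ∃ᶠ w in 𝓝[≠] z, ∃ z₀ ∈ T, ρ w = 0 ∧ ‖w - z₀‖ = r :=
      (hfr z hz h0).mono fun w hw => by
        obtain ⟨z₀, hz₀, h2⟩ := hTc w hw.1 hw.2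
        exact ⟨z₀, hz₀, hw.2, h2⟩
    obtain ⟨z₀, hz₀, h2⟩ := frequently_finset T h1
    obtain ⟨a, b, ha, hb, hGf⟩ := hT z₀ hz₀
    have hcl : IsClosed {w : ℂ | ‖w - z₀‖ = r} := isClosed_eq (by fun_prop) continuous_const
    have hzr : ‖z - z₀‖ = r := by
      have : z ∈ closure {w : ℂ | ‖w - z₀‖ = r} :=
        mem_closure_iff_frequently.2
          ((h2.mono fun w hw => hw.2).filter_mono nhdsWithin_le_nhds)
      rw [hcl.closure_eq] at this
      exact this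
    have h3 := centre_of_circle hm (hρd z) (grad_ne_zero (hgrad z hz h0)) hσ hr h2 hGf hb
      (hbc z hz h0) fun h => hzB (mem_biUnion hz₀ ⟨hzr, h⟩)
    show z - ((r / ‖grad ρ z‖ : ℝ) : ℂ) * grad ρ z ∈ (T : Set ℂ)
    rw [h3]
    exact hz₀
  have hfd : Continuous (fderiv ℝ ρ) := hρ.continuous_fderiv one_ne_zero
  have hgc : Continuous (grad ρ) := by
    unfold grad
    fun_prop
  have hcenc : ∀ z ∈ V, ρ z = 0 → ContinuousAt cen z := by
    intro z hz h0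
    have h : ‖grad ρ z‖ ≠ 0 := norm_ne_zero_iff.2 (grad_ne_zero (hgrad z hz h0))
    have h1 : ContinuousAt (fun z => r / ‖grad ρ z‖) z :=
      continuousAt_const.div hgc.norm.continuousAt h
    have h2 : ContinuousAt (fun z => ((r / ‖grad ρ z‖ : ℝ) : ℂ)) z :=
      Complex.continuous_ofReal.continuousAt.comp h1
    exact continuousAt_id.sub (h2.mul hgc.continuousAt)
  intro z hz h0
  have h1 : ∃ᶠ w in 𝓝[≠] z, cen w ∈ (T : Set ℂ) := by
    refine ((hfr z hz h0).and_eventually (finite_nhdsNE hBf z)).mono ?_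
    rintro w ⟨⟨hw1, hw2⟩, hw3⟩
    exact hgood w hw1 hw2 hw3
  have h2 : Tendsto cen (𝓝[≠] z) (𝓝 (cen z)) :=
    (hcenc z hz h0).tendsto.mono_left nhdsWithin_le_nhds
  have h3 : ∃ᶠ x in 𝓝 (cen z), x ∈ (T : Set ℂ) := h2.frequently h1
  have h4 := mem_closure_iff_frequently.2 h3
  rw [T.finite_toSet.isClosed.closure_eq] at h4
  exact h4

/-- The local theorem: near each of its points the arc is an arc of a circle. -/
theorem alg_arc {ρ : ℂ → ℝ} {V : Set ℂ} {G : ℂ → ℂ} {σ : ℝ} (hρ : ContDiff ℝ 1 ρ)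
    (hV : IsOpen V) (hgrad : ∀ z ∈ V, ρ z = 0 → fderiv ℝ ρ z ≠ 0) (hne : ∃ z ∈ V, ρ z = 0)
    (P : MvPolynomial (Fin 2) ℝ)
    (htop : ∀ x y : ℝ, MvPolynomial.eval ![x, y]
      (MvPolynomial.homogeneousComponent P.totalDegree P) = 0 → x = 0 ∧ y = 0)
    (hcurve : ∀ z ∈ V, ρ z = 0 → MvPolynomial.eval ![z.re, z.im] P = 0)
    (hG : Differentiable ℂ G) (hσ : σ ≠ 0)
    (hbc : ∀ z ∈ V, ρ z = 0 → (deriv G z * grad ρ z).re = σ * (G z).re * ‖grad ρ z‖)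
    (hGne : ¬ ∀ z, (G z).re = 0) :
    ∃ (m : ℕ) (T : Finset ℂ), 1 ≤ m ∧
      (∀ z₀ ∈ T, ∃ a b : ℂ, a ≠ 0 ∧ b.re = 0 ∧ ∀ y, G y = a * (y - z₀) ^ m + b) ∧
      ∀ z ∈ V, ρ z = 0 → z - (((m / σ) / ‖grad ρ z‖ : ℝ) : ℂ) * grad ρ z ∈ T := by
  have hρd : Differentiable ℝ ρ := hρ.differentiable one_ne_zero
  obtain ⟨m, T, hm, hT, hTc⟩ := alg_local hρd hV hgrad hne P htop hcurve hG hσ hbc hGne
  refine ⟨m, T, hm, hT, fun z hz h0 => ?_⟩
  rcases lt_or_gt_of_ne hσ with h | h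
  · have h1 := centres_mem (ρ := fun w => -ρ w) (V := V) (G := G) (σ := -σ) hρ.neg hV
      (fun w hw h2 => by
        rw [fderiv_fun_neg, neg_ne_zero]
        exact hgrad w hw (neg_eq_zero.1 h2))
      (by linarith)
      (fun w hw h2 => by
        rw [grad_neg, norm_neg, mul_neg, Complex.neg_re, hbc w hw (neg_eq_zero.1 h2)]
        ring) hm hT
      (fun w hw h2 => by
        rw [abs_neg]
        exact hTc w hw (neg_eq_zero.1 h2)) z hz (by rw [h0, neg_zero])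
    rw [grad_neg, norm_neg, mul_neg, div_neg, neg_div] at h1
    push_cast at h1
    rw [neg_mul, neg_neg] at h1
    push_cast
    exact h1
  · exact centres_mem hρ hV hgrad h hbc hm hT hTc z hz h0

/-- The arc near a point is an arc of one circle. -/
theorem arc_on_circle {ρ : ℂ → ℝ} {V : Set ℂ} {t : ℝ} (hρ : ContDiff ℝ 1 ρ) (hV : IsOpen V)
    (hgrad : ∀ z ∈ V, ρ z = 0 → fderiv ℝ ρ z ≠ 0) {T : Finset ℂ}
    (hT : ∀ z ∈ V, ρ z = 0 → z - ((t / ‖grad ρ z‖ : ℝ) : ℂ) * grad ρ z ∈ T) {z : ℂ} (hz : z ∈ V)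
    (h0 : ρ z = 0) : ∃ z₀ ∈ T, ∀ᶠ y in 𝓝 z, ρ y = 0 → ‖y - z₀‖ = |t| := by
  have hfd : Continuous (fderiv ℝ ρ) := hρ.continuous_fderiv one_ne_zero
  have hgc : Continuous (grad ρ) := by
    unfold grad
    fun_prop
  set cen : ℂ → ℂ := fun z => z - ((t / ‖grad ρ z‖ : ℝ) : ℂ) * grad ρ z with hcendef
  have hcenc : ContinuousAt cen z := by
    have h : ‖grad ρ z‖ ≠ 0 := norm_ne_zero_iff.2 (grad_ne_zero (hgrad z hz h0))
    have h1 : ContinuousAt (fun z => t / ‖grad ρ z‖) z :=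
      continuousAt_const.div hgc.norm.continuousAt h
    have h2 : ContinuousAt (fun z => ((t / ‖grad ρ z‖ : ℝ) : ℂ)) z :=
      Complex.continuous_ofReal.continuousAt.comp h1
    exact continuousAt_id.sub (h2.mul hgc.continuousAt)
  have h1 : IsOpen ((T : Set ℂ) \ {cen z})ᶜ :=
    (T.finite_toSet.subset sdiff_subset).isClosed.isOpen_compl
  have h2 : ((T : Set ℂ) \ {cen z})ᶜ ∈ 𝓝 (cen z) := h1.mem_nhds (fun h => h.2 rfl)
  refine ⟨cen z, hT z hz h0, ?_⟩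
  filter_upwards [hcenc.eventually h2, hV.mem_nhds hz] with y hy hyV hy0
  have h3 : cen y = cen z := by
    by_contra hne
    exact hy ⟨hT y hyV hy0, hne⟩
  rw [← h3]
  have h : ‖grad ρ y‖ ≠ 0 := norm_ne_zero_iff.2 (grad_ne_zero (hgrad y hyV hy0))
  have e : y - cen y = ((t / ‖grad ρ y‖ : ℝ) : ℂ) * grad ρ y := by
    rw [hcendef]
    ring
  rw [e, norm_mul, Complex.norm_real, Real.norm_eq_abs, abs_div, abs_of_nonneg (norm_nonneg _)]
  field_simp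

/-- Domains one of whose boundary curves is algebraic without real points at infinity. -/
theorem alg_boundary {ρ : ℂ → ℝ} {V : Set ℂ} {G : ℂ → ℂ} {σ : ℝ} (hρ : ContDiff ℝ 1 ρ)
    (hgrad : ∀ z : ℂ, ρ z = 0 → fderiv ℝ ρ z ≠ 0)
    (hbdd : Bornology.IsBounded {z : ℂ | ρ z < 0})
    (hconn : IsConnected {z : ℂ | ρ z < 0})
    (hV : IsOpen V) (hcl : IsClosed ({z : ℂ | ρ z = 0} ∩ V)) (hne : ∃ z ∈ V, ρ z = 0)
    (hG : Differentiable ℂ G)
    (hbc : ∀ z, ρ z = 0 → (deriv G z * grad ρ z).re = σ * (G z).re * ‖grad ρ z‖)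
    {m : ℕ} {T : Finset ℂ} (hm : 1 ≤ m)
    (hT : ∀ z₀ ∈ T, ∃ a b : ℂ, a ≠ 0 ∧ b.re = 0 ∧ ∀ y, G y = a * (y - z₀) ^ m + b)
    (hcen : ∀ z ∈ V, ρ z = 0 → z - (((m / σ) / ‖grad ρ z‖ : ℝ) : ℂ) * grad ρ z ∈ T) :
    ∃ (z₀ : ℂ) (r : ℝ), {z : ℂ | ρ z < 0} = Metric.ball z₀ r := by
  have hρd : Differentiable ℝ ρ := hρ.differentiable one_ne_zero
  obtain ⟨z₁, hz₁V, hz₁0⟩ := hne
  set t₁ : ℂ := z₁ - (((m / σ) / ‖grad ρ z₁‖ : ℝ) : ℂ) * grad ρ z₁ with ht₁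
  obtain ⟨a₁, b₁, ha₁, hb₁, hG₁⟩ := hT t₁ (hcen z₁ hz₁V hz₁0)
  -- `G` is not constant
  have hGnc : ¬ ∀ z, deriv G z = 0 := by
    intro h0
    have h1 := is_const_of_deriv_eq_zero hG h0 (t₁ + 1) t₁
    rw [hG₁, hG₁] at h1
    have : a₁ = 0 := by
      have h2 : (t₁ + 1 - t₁ : ℂ) = 1 := by ring
      rw [h2, sub_self, one_pow, zero_pow (by omega)] at h1
      linear_combination h1
    exact ha₁ this
  have hnc : ∃ z w, ρ z < 0 ∧ ρ w < 0 ∧ (G z).re ≠ (G w).re := by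
    by_contra hcon
    push Not at hcon
    obtain ⟨x, hx⟩ := hconn.nonempty
    apply hGnc
    have hopen : IsOpen {z : ℂ | ρ z < 0} := isOpen_lt hρd.continuous continuous_const
    have hd0 : ∀ᶠ y in 𝓝 x, deriv G y = 0 := by
      filter_upwards [hopen.mem_nhds hx] with y hy
      have hre : ∀ᶠ w in 𝓝 y, (G w).re = (G x).re := by
        filter_upwards [hopen.mem_nhds hy] with w hw using hcon w x hw hx
      have h4 : ∀ v : ℂ, (deriv G y * v).re = 0 := by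
        intro v
        rw [← fderiv_re hG]
        have h5 : (fun w => (G w).re) =ᶠ[𝓝 y] fun _ => (G x).re := hre
        rw [h5.fderiv_eq]
        simp
      apply Complex.ext
      · simpa using h4 1
      · have := h4 Complex.I
        simp only [Complex.mul_re, Complex.I_re, Complex.I_im, mul_zero, mul_one, zero_sub] at this
        rw [Complex.zero_im]
        linarith
    have h1 := AnalyticOnNhd.eqOn_of_preconnected_of_frequently_eq
      (f := deriv G) (g := fun _ => 0) (U := univ)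
      (fun z _ => (deriv_differentiable hG).analyticAt z)
      (fun z _ => analyticAt_const) isPreconnected_univ (mem_univ x)
      ((hd0.filter_mono nhdsWithin_le_nhds).frequently)
    exact fun z => h1 (mem_univ z)
  have hσ : 0 < σ := sigma_pos hρd hgrad hbdd hG hbc hnc
  have hholes := no_holes hρ hgrad hbdd hG hbc hnc
  have hm0 : (0 : ℝ) < m := by exact_mod_cast hm
  have hr0 : 0 < m / σ := by positivity
  obtain ⟨z₀, hz₀⟩ := disk_of_centres hρ hgrad hbdd hconn hholes hV hcl ⟨z₁, hz₁0, hz₁V⟩ hr0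
    T.finite_toSet hcen
  exact ⟨z₀, m / σ, hz₀⟩

end Pool.Agent.Stek
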