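import Pool.Agent.Lib.MP_bd8415_an.Alg.Contin2

/-!
# Domains with a circular or algebraic boundary arc
-/

open Filter Topology Metric Set Complex

namespace Pool.Agent.Stek

/-- One circular boundary arc and one entire function of the form `a (z - z₀) ^ m + b`. -/
theorem disk_of_arc {ρ : ℂ → ℝ} {G : ℂ → ℂ} {σ : ℝ} (hρ : ContDiff ℝ 2 ρ)
    (hgrad : ∀ z : ℂ, ρ z = 0 → fderiv ℝ ρ z ≠ 0)
    (hbdd : Bornology.IsBounded {z : ℂ | ρ z < 0})
    (hconn : IsConnected {z : ℂ | ρ z < 0}) (hG : Differentiable ℂ G) (hσ : 0 < σ)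
    (hbc : ∀ z, ρ z = 0 → (deriv G z * grad ρ z).re = σ * (G z).re * ‖grad ρ z‖)
    {m : ℕ} (hm : 1 ≤ m) {a b z₀ z₁ : ℂ} (ha : a ≠ 0) (hb : b.re = 0)
    (hGf : ∀ y, G y = a * (y - z₀) ^ m + b) (hz₁ : ρ z₁ = 0)
    (harc : ∀ᶠ y in 𝓝 z₁, ρ y = 0 → ‖y - z₀‖ = m / σ) :
    ∃ (z₀ : ℂ) (r : ℝ), {z : ℂ | ρ z < 0} = Metric.ball z₀ r := by
  have hρ1 : ContDiff ℝ 1 ρ := hρ.of_le (by norm_num)
  have hm0 : (0 : ℝ) < m := by exact_mod_cast hm
  set r : ℝ := m / σ with hr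
  have hr0 : 0 < r := by positivity
  set V : Set ℂ := {z | ∀ᶠ y in 𝓝 z, ρ y = 0 → ‖y - z₀‖ = r} with hV
  have hVo : IsOpen V := isOpen_setOfPred_eventually_nhds
  have hT : ∀ t ∈ ({z₀} : Finset ℂ), ∃ a b : ℂ, a ≠ 0 ∧ b.re = 0 ∧
      ∀ y, G y = a * (y - t) ^ m + b := by
    intro t ht
    rw [Finset.mem_singleton] at ht
    subst ht
    exact ⟨a, b, ha, hb, hGf⟩
  have hcen := centres_mem (V := V) (T := {z₀}) hρ1 hVo (fun z _ => hgrad z) hσ
    (fun z _ => hbc z) hm hT (fun z hz h0 => ⟨z₀, Finset.mem_singleton_self _, by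
      rw [abs_of_pos hσ]
      exact hz.self_of_nhds h0⟩)
  have hfd : Continuous (fderiv ℝ ρ) := hρ1.continuous_fderiv one_ne_zero
  have hgc : Continuous (grad ρ) := by
    unfold grad
    fun_prop
  set cen : ℂ → ℂ := fun z => z - ((r / ‖grad ρ z‖ : ℝ) : ℂ) * grad ρ z with hcendef
  have hcenc : ∀ z, ρ z = 0 → ContinuousAt cen z := by
    intro z h0
    have h : ‖grad ρ z‖ ≠ 0 := norm_ne_zero_iff.2 (grad_ne_zero (hgrad z h0))
    have h1 : ContinuousAt (fun z => r / ‖grad ρ z‖) z :=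
      continuousAt_const.div hgc.norm.continuousAt h
    have h2 : ContinuousAt (fun z => ((r / ‖grad ρ z‖ : ℝ) : ℂ)) z :=
      Complex.continuous_ofReal.continuousAt.comp h1
    exact continuousAt_id.sub (h2.mul hgc.continuousAt)
  have hcl : IsClosed ({z : ℂ | ρ z = 0} ∩ V) := by
    rw [← closure_subset_iff_isClosed]
    intro z hz
    have hfr := mem_closure_iff_frequently.1 hz
    have h0 : ρ z = 0 := by
      have h1 : IsClosed {z : ℂ | ρ z = 0} := isClosed_eq hρ.continuous continuous_const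
      have h2 := closure_mono (inter_subset_left (s := {z : ℂ | ρ z = 0}) (t := V)) hz
      rw [h1.closure_eq] at h2
      exact h2
    have hc : cen z = z₀ := by
      have h1 : ∃ᶠ x in 𝓝 (cen z), x ∈ ({z₀} : Set ℂ) := by
        apply (hcenc z h0).tendsto.frequently
        refine hfr.mono fun w hw => ?_
        have := hcen w hw.2 hw.1
        rw [Finset.mem_singleton] at this
        exact this
      have h2 := mem_closure_iff_frequently.2 h1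
      rw [isClosed_singleton.closure_eq] at h2
      exact h2
    refine ⟨h0, ?_⟩
    exact contin hρ hm hσ hr ha hGf hb h0 (grad_ne_zero (hgrad z h0)) hc
      (Eventually.of_forall fun y hy => hbc y hy) hfr
  exact alg_boundary hρ1 hgrad hbdd hconn hVo hcl ⟨z₁, harc, hz₁⟩ hG hbc hm hT hcen

/-- The boundary and the circle have common points accumulating at a boundary point where
`Re G ≠ 0`. -/
theorem disk_of_common {ρ : ℂ → ℝ} {G : ℂ → ℂ} {σ : ℝ} (hρ : ContDiff ℝ 2 ρ)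
    (hgrad : ∀ z : ℂ, ρ z = 0 → fderiv ℝ ρ z ≠ 0)
    (hbdd : Bornology.IsBounded {z : ℂ | ρ z < 0})
    (hconn : IsConnected {z : ℂ | ρ z < 0}) (hG : Differentiable ℂ G) (hσ : 0 < σ)
    (hbc : ∀ z, ρ z = 0 → (deriv G z * grad ρ z).re = σ * (G z).re * ‖grad ρ z‖)
    {m : ℕ} (hm : 1 ≤ m) {a b z₀ z₁ : ℂ} (ha : a ≠ 0) (hb : b.re = 0)
    (hGf : ∀ y, G y = a * (y - z₀) ^ m + b) (hz₁ : ρ z₁ = 0)
    (hfr : ∃ᶠ w in 𝓝[≠] z₁, ρ w = 0 ∧ ‖w - z₀‖ = m / σ) (hU : (G z₁).re ≠ 0) :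
    ∃ (z₀ : ℂ) (r : ℝ), {z : ℂ | ρ z < 0} = Metric.ball z₀ r := by
  have hρd : Differentiable ℝ ρ := hρ.differentiable two_ne_zero
  have hg := grad_ne_zero (hgrad z₁ hz₁)
  have hcen := centre_of_circle hm (hρd z₁) hg hσ rfl hfr hGf hb (hbc z₁ hz₁) hU
  exact disk_of_arc hρ hgrad hbdd hconn hG hσ hbc hm ha hb hGf hz₁
    (contin' hρ hm hσ rfl ha hGf hb hz₁ hg hcen (Eventually.of_forall fun y hy => hbc y hy) hfr)

/-- One algebraic boundary arc without real points at infinity. -/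
theorem alg_domain {ρ : ℂ → ℝ} {V : Set ℂ} {G : ℂ → ℂ} {σ : ℝ} (hρ : ContDiff ℝ 2 ρ)
    (hgrad : ∀ z : ℂ, ρ z = 0 → fderiv ℝ ρ z ≠ 0)
    (hbdd : Bornology.IsBounded {z : ℂ | ρ z < 0})
    (hconn : IsConnected {z : ℂ | ρ z < 0})
    (hV : IsOpen V) (hne : ∃ z ∈ V, ρ z = 0)
    (P : MvPolynomial (Fin 2) ℝ)
    (htop : ∀ x y : ℝ, MvPolynomial.eval ![x, y]
      (MvPolynomial.homogeneousComponent P.totalDegree P) = 0 → x = 0 ∧ y = 0)
    (hcurve : ∀ z ∈ V, ρ z = 0 → MvPolynomial.eval ![z.re, z.im] P = 0)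
    (hG : Differentiable ℂ G)
    (hbc : ∀ z, ρ z = 0 → (deriv G z * grad ρ z).re = σ * (G z).re * ‖grad ρ z‖)
    (hnc : ∃ z w, ρ z < 0 ∧ ρ w < 0 ∧ (G z).re ≠ (G w).re) :
    ∃ (z₀ : ℂ) (r : ℝ), {z : ℂ | ρ z < 0} = Metric.ball z₀ r := by
  have hρ1 : ContDiff ℝ 1 ρ := hρ.of_le (by norm_num)
  have hρd : Differentiable ℝ ρ := hρ1.differentiable one_ne_zero
  have hσ : 0 < σ := sigma_pos hρd hgrad hbdd hG hbc hnc
  have hGne : ¬ ∀ z, (G z).re = 0 := by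
    intro h
    obtain ⟨z, w, -, -, h3⟩ := hnc
    exact h3 (by rw [h z, h w])
  obtain ⟨m, T, hm, hT, hcen⟩ := alg_arc hρ1 hV (fun z _ => hgrad z) hne P htop hcurve hG hσ.ne'
    (fun z _ => hbc z) hGne
  obtain ⟨z₁, hz₁V, hz₁0⟩ := hne
  obtain ⟨z₀, hz₀, harc⟩ := arc_on_circle hρ1 hV (fun z _ => hgrad z) hcen hz₁V hz₁0
  obtain ⟨a, b, ha, hb, hGf⟩ := hT z₀ hz₀
  have hm0 : (0 : ℝ) < m := by exact_mod_cast hm
  rw [abs_of_pos (by positivity)] at harc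
  exact disk_of_arc hρ hgrad hbdd hconn hG hσ hbc hm ha hb hGf hz₁0 harc

end Pool.Agent.Stek
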