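import Pool.Agent.Lib.MP_bd8415_an.Alg.Defs2

/-!
# The irreducible factors of a real polynomial with definite top form
-/

open Filter Topology Metric Set Complex

namespace Pool.Agent.Stek

/-- The polynomial `P(x,y)` in the variables `z`, `w`: `x = (z + w) / 2`, `y = (z - w) / (2 i)`. -/
noncomputable def toBiv (P : MvPolynomial (Fin 2) ℝ) : Biv :=
  MvPolynomial.eval₂ ((Polynomial.C.comp Polynomial.C).comp Complex.ofRealHom)
    ![Polynomial.C (Polynomial.C (1 / 2)) * (Polynomial.C Polynomial.X + Polynomial.X),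
      Polynomial.C (Polynomial.C (1 / (2 * I))) * (Polynomial.C Polynomial.X - Polynomial.X)] P

/-- The value of a real polynomial at the complex point `((z + w) / 2, (z - w) / (2 i))`. -/
private noncomputable def pv (P : MvPolynomial (Fin 2) ℝ) (z w : ℂ) : ℂ :=
  MvPolynomial.eval ![(z + w) / 2, (z - w) / (2 * I)] (MvPolynomial.map Complex.ofRealHom P)

private theorem ev_toBiv' (P : MvPolynomial (Fin 2) ℝ) (z w : ℂ) :
    ev (toBiv P) z w = pv P z w := by
  have h := MvPolynomial.eval₂_comp_left (Polynomial.evalEvalRingHom z w)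
    ((Polynomial.C.comp Polynomial.C).comp Complex.ofRealHom)
    ![Polynomial.C (Polynomial.C (1 / 2)) * (Polynomial.C Polynomial.X + Polynomial.X),
      Polynomial.C (Polynomial.C (1 / (2 * I))) * (Polynomial.C Polynomial.X - Polynomial.X)] P
  have e0 : ev (toBiv P) z w = Polynomial.evalEvalRingHom z w (toBiv P) := rfl
  rw [e0, toBiv, h, pv, MvPolynomial.eval_map]
  have e1 : (Polynomial.evalEvalRingHom z w).comp
      ((Polynomial.C.comp Polynomial.C).comp Complex.ofRealHom) = Complex.ofRealHom := by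
    ext x
    simp
  have e2 : (⇑(Polynomial.evalEvalRingHom z w) ∘
      ![Polynomial.C (Polynomial.C (1 / 2)) * (Polynomial.C Polynomial.X + Polynomial.X),
      Polynomial.C (Polynomial.C (1 / (2 * I))) * (Polynomial.C Polynomial.X - Polynomial.X)]) =
      ![(z + w) / 2, (z - w) / (2 * I)] := by
    funext i
    fin_cases i
    · simp
      ring
    · simp
      field_simp
      rw [Complex.I_sq]
      ring
  rw [e1, e2]

private theorem pv_conj (P : MvPolynomial (Fin 2) ℝ) (z : ℂ) :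
    pv P z ((starRingEnd ℂ) z) = ((MvPolynomial.eval ![z.re, z.im] P : ℝ) : ℂ) := by
  have h := MvPolynomial.eval₂_comp_left Complex.ofRealHom (RingHom.id ℝ) ![z.re, z.im] P
  have e0 : MvPolynomial.eval ![z.re, z.im] P =
      MvPolynomial.eval₂ (RingHom.id ℝ) ![z.re, z.im] P := rfl
  rw [e0, pv, MvPolynomial.eval_map]
  have e1 : ((MvPolynomial.eval₂ (RingHom.id ℝ) ![z.re, z.im] P : ℝ) : ℂ) =
      Complex.ofRealHom (MvPolynomial.eval₂ (RingHom.id ℝ) ![z.re, z.im] P) := rfl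
  rw [e1, h, RingHom.comp_id]
  congr 1
  funext i
  fin_cases i
  · simp [Complex.add_conj]
  · simp [Complex.sub_conj]
    field_simp

/-- Proof sketch: `ev` is a ring homomorphism in `Q`; check on generators. -/
theorem ev_toBiv (P : MvPolynomial (Fin 2) ℝ) (z : ℂ) :
    ev (toBiv P) z ((starRingEnd ℂ) z) = ((MvPolynomial.eval ![z.re, z.im] P : ℝ) : ℂ) := by
  rw [ev_toBiv', pv_conj]

private theorem eval_smul_hom {n : ℕ} {p : MvPolynomial (Fin 2) ℂ} (hp : p.IsHomogeneous n)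
    (c : ℂ) (g : Fin 2 → ℂ) :
    MvPolynomial.eval (fun i => c * g i) p = c ^ n * MvPolynomial.eval g p := by
  rw [MvPolynomial.eval_eq, MvPolynomial.eval_eq, Finset.mul_sum]
  refine Finset.sum_congr rfl fun d hd => ?_
  have h1 : d.degree = n := by
    by_contra hne
    exact (MvPolynomial.mem_support_iff.1 hd) (hp.coeff_eq_zero hne)
  have h2 : ∏ i ∈ d.support, (c * g i) ^ d i = c ^ n * ∏ i ∈ d.support, g i ^ d i := by
    rw [← h1, Finsupp.degree_apply, ← Finset.prod_pow_eq_pow_sum, ← Finset.prod_mul_distrib]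
    exact Finset.prod_congr rfl fun i _ => mul_pow _ _ _
  rw [h2]
  ring

private theorem pv_smul {n : ℕ} {P : MvPolynomial (Fin 2) ℝ} (hP : P.IsHomogeneous n)
    (c z w : ℂ) : pv P (c * z) (c * w) = c ^ n * pv P z w := by
  unfold pv
  rw [← eval_smul_hom (hP.map Complex.ofRealHom)]
  congr 1
  congr 1
  funext i
  fin_cases i
  · simp
    ring
  · simp
    ring

private theorem pv_sum (P : MvPolynomial (Fin 2) ℝ) (z w : ℂ) :
    pv P z w = ∑ i ∈ Finset.range (P.totalDegree + 1),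
      pv (MvPolynomial.homogeneousComponent i P) z w := by
  conv_lhs => rw [← MvPolynomial.sum_homogeneousComponent P]
  unfold pv
  rw [map_sum, map_sum]

private theorem continuous_pv (P : MvPolynomial (Fin 2) ℝ) :
    Continuous fun p : ℂ × ℂ => pv P p.1 p.2 := by
  unfold pv
  have h := MvPolynomial.continuous_eval (MvPolynomial.map Complex.ofRealHom P)
  refine h.comp (continuous_pi fun i => ?_)
  fin_cases i
  · simp
    fun_prop
  · simp
    fun_prop

/-- The homogenised polynomial. -/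
private noncomputable def gf (P : MvPolynomial (Fin 2) ℝ) (ε : ℝ) (z w : ℂ) : ℂ :=
  ∑ i ∈ Finset.range (P.totalDegree + 1),
    (ε : ℂ) ^ (P.totalDegree - i) * pv (MvPolynomial.homogeneousComponent i P) z w

private theorem gf_zero (P : MvPolynomial (Fin 2) ℝ) (z w : ℂ) :
    gf P 0 z w = pv (MvPolynomial.homogeneousComponent P.totalDegree P) z w := by
  unfold gf
  rw [Finset.sum_eq_single P.totalDegree]
  · simp
  · intro i hi hne
    have : P.totalDegree - i ≠ 0 := by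
      have := Finset.mem_range.1 hi
      omega
    simp [this]
  · intro h
    exact absurd (Finset.mem_range.2 (Nat.lt_succ_self _)) h

private theorem gf_scale (P : MvPolynomial (Fin 2) ℝ) (ε : ℝ) (z w : ℂ) :
    gf P ε (ε * z) (ε * w) = (ε : ℂ) ^ P.totalDegree * pv P z w := by
  unfold gf
  rw [pv_sum P z w, Finset.mul_sum]
  refine Finset.sum_congr rfl fun i hi => ?_
  rw [pv_smul (MvPolynomial.homogeneousComponent_isHomogeneous i P), ← mul_assoc, ← pow_add]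
  congr 2
  have := Finset.mem_range.1 hi
  omega

private theorem continuous_gf (P : MvPolynomial (Fin 2) ℝ) :
    Continuous fun p : ℝ × (ℂ × ℂ) => gf P p.1 p.2.1 p.2.2 := by
  unfold gf
  refine continuous_finsetSum _ fun i _ => ?_
  refine Continuous.mul ?_ ?_
  · exact (Complex.continuous_ofReal.comp continuous_fst).pow _
  · exact (continuous_pv _).comp continuous_snd

/-- The top form has no zeros with `‖z‖ = ‖w‖ ≠ 0`. -/
private theorem top_ne_zero {n : ℕ} {T : MvPolynomial (Fin 2) ℝ} (hT : T.IsHomogeneous n)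
    (htop : ∀ x y : ℝ, MvPolynomial.eval ![x, y] T = 0 → x = 0 ∧ y = 0) {z w : ℂ}
    (hzw : ‖z‖ = ‖w‖) (hz : z ≠ 0) : pv T z w ≠ 0 := by
  intro h0
  obtain ⟨c, hc⟩ := IsAlgClosed.exists_pow_nat_eq (z * w) (n := 2) (by norm_num)
  have hnz : 0 < ‖z‖ := norm_pos_iff.2 hz
  have hcn : ‖c‖ = ‖z‖ := by
    have h1 : ‖c‖ ^ 2 = ‖z‖ ^ 2 := by
      rw [← norm_pow, hc, norm_mul, ← hzw, sq]
    exact (pow_left_inj₀ (norm_nonneg _) (norm_nonneg _) (by norm_num)).1 h1
  have hc0 : c ≠ 0 := by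
    rw [← norm_pos_iff, hcn]
    exact hnz
  set u : ℂ := z / c with hu
  have hun : ‖u‖ = 1 := by
    rw [hu, norm_div, hcn, div_self hnz.ne']
  have hz' : z = c * u := by
    rw [hu]
    field_simp
  have hw' : w = c * (starRingEnd ℂ) u := by
    have hu0 : u ≠ 0 := by
      rw [← norm_pos_iff, hun]
      exact one_pos
    have h1 : (starRingEnd ℂ) u = u⁻¹ := by
      rw [Complex.inv_def, Complex.normSq_eq_norm_sq, hun]
      simp
    rw [h1, hu, inv_div]
    field_simp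
    rw [hc]
    ring
  rw [hz', hw', pv_smul hT, pv_conj, mul_eq_zero] at h0
  rcases h0 with h0 | h0
  · exact pow_ne_zero _ hc0 h0
  · have h1 := htop _ _ (by exact_mod_cast h0)
    have : u = 0 := Complex.ext h1.1 h1.2
    rw [this, norm_zero] at hun
    exact zero_ne_one hun

/-- Proof sketch. Let `P_d` be the top homogeneous component, `d = P.totalDegree`, and
`p_d(z,w)` its value at the complex point `((z + w) / 2, (z - w) / (2 i))`. If `‖z‖ = ‖w‖ ≠ 0`, write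
`z = s e^{iκ} e^{iθ}`, `w = s e^{iκ} e^{-iθ}`; then `p_d(z,w) = s ^ d e^{iκd} P_d(cos θ, sin θ) ≠ 0`. By
compactness and continuity there are `α < 1` and `c > 0` with `‖p_d(z,w)‖ ≥ c` whenever
`max ‖z‖ ‖w‖ = 1` and `α ‖z‖ ≤ ‖w‖`, `α ‖w‖ ≤ ‖z‖`, hence `‖p_d(z,w)‖ ≥ c (max ‖z‖ ‖w‖) ^ d` on that cone. The lower
homogeneous components are at most `C (max ‖z‖ ‖w‖) ^ (d - 1)` for `max ‖z‖ ‖w‖ ≥ 1`. -/
theorem sep_toBiv (P : MvPolynomial (Fin 2) ℝ)
    (htop : ∀ x y : ℝ, MvPolynomial.eval ![x, y]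
      (MvPolynomial.homogeneousComponent P.totalDegree P) = 0 → x = 0 ∧ y = 0) :
    ∃ α R : ℝ, 0 < α ∧ α < 1 ∧ Sep (toBiv P) α R := by
  set Z : Set ((ℝ × ℝ) × (ℂ × ℂ)) := {p | p.1.1 ∈ Set.Icc (0 : ℝ) 1 ∧ p.1.2 ∈ Set.Icc (0 : ℝ) 1 ∧
    ‖p.2‖ = 1 ∧ gf P p.1.1 p.2.1 p.2.2 = 0 ∧ (1 - p.1.2) * ‖p.2.1‖ ≤ ‖p.2.2‖ ∧
      (1 - p.1.2) * ‖p.2.2‖ ≤ ‖p.2.1‖} with hZ
  have hclosed : IsClosed Z := by
    have c1 : IsClosed {p : (ℝ × ℝ) × (ℂ × ℂ) | p.1.1 ∈ Set.Icc (0 : ℝ) 1} :=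
      isClosed_Icc.preimage (by fun_prop)
    have c2 : IsClosed {p : (ℝ × ℝ) × (ℂ × ℂ) | p.1.2 ∈ Set.Icc (0 : ℝ) 1} :=
      isClosed_Icc.preimage (by fun_prop)
    have c3 : IsClosed {p : (ℝ × ℝ) × (ℂ × ℂ) | ‖p.2‖ = 1} :=
      isClosed_eq (by fun_prop) (by fun_prop)
    have c4 : IsClosed {p : (ℝ × ℝ) × (ℂ × ℂ) | gf P p.1.1 p.2.1 p.2.2 = 0} := by
      refine isClosed_eq ?_ continuous_const
      exact (continuous_gf P).comp
        ((continuous_fst.comp continuous_fst).prodMk continuous_snd)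
    have c5 : IsClosed {p : (ℝ × ℝ) × (ℂ × ℂ) | (1 - p.1.2) * ‖p.2.1‖ ≤ ‖p.2.2‖} :=
      isClosed_le (by fun_prop) (by fun_prop)
    have c6 : IsClosed {p : (ℝ × ℝ) × (ℂ × ℂ) | (1 - p.1.2) * ‖p.2.2‖ ≤ ‖p.2.1‖} :=
      isClosed_le (by fun_prop) (by fun_prop)
    exact c1.inter (c2.inter (c3.inter (c4.inter (c5.inter c6))))
  have hcpt : IsCompact Z := by
    refine IsCompact.of_isClosed_subset
      ((isCompact_Icc (a := (0 : ℝ)) (b := 1)).prod (isCompact_Icc (a := (0 : ℝ)) (b := 1)) |>.prod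
        (isCompact_closedBall (0 : ℂ × ℂ) 1)) hclosed ?_
    rintro p ⟨h1, h2, h3, -⟩
    exact ⟨⟨h1, h2⟩, by rw [mem_closedBall_zero_iff, h3]⟩
  obtain ⟨m, hm0, hm1, hm⟩ : ∃ m : ℝ, 0 < m ∧ m ≤ 1 ∧ ∀ p ∈ Z, m ≤ p.1.1 + p.1.2 := by
    rcases Z.eq_empty_or_nonempty with he | hne
    · exact ⟨1, one_pos, le_refl 1, fun p hp => by rw [he] at hp; exact hp.elim⟩
    · obtain ⟨q, hq, hmin⟩ := hcpt.exists_isMinOn hne
        (f := fun p : (ℝ × ℝ) × (ℂ × ℂ) => p.1.1 + p.1.2) (by fun_prop)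
      have hq0 : 0 < q.1.1 + q.1.2 := by
        obtain ⟨h1, h2, h3, h4, h5, h6⟩ := hq
        rcases lt_or_ge 0 (q.1.1 + q.1.2) with h | h
        · exact h
        exfalso
        have e1 : q.1.1 = 0 := le_antisymm (by linarith [h2.1]) h1.1
        have e2 : q.1.2 = 0 := le_antisymm (by linarith [h1.1]) h2.1
        rw [e1, gf_zero] at h4
        rw [e2] at h5 h6
        have h7 : ‖q.2.1‖ = ‖q.2.2‖ := le_antisymm (by linarith) (by linarith)
        refine top_ne_zero (MvPolynomial.homogeneousComponent_isHomogeneous _ P) htop h7 ?_ h4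
        intro h8
        rw [h8, norm_zero] at h7
        rw [Prod.norm_def, ← h7, h8] at h3
        simp at h3
      exact ⟨min (q.1.1 + q.1.2) 1, lt_min hq0 one_pos, min_le_right _ _,
        fun p hp => le_trans (min_le_left _ _) (hmin hp)⟩
  refine ⟨1 - m / 4, 4 / m, by linarith, by linarith, ?_⟩
  intro z w hzw hR
  rw [ev_toBiv'] at hzw
  by_contra hcon
  push Not at hcon
  obtain ⟨hc1, hc2⟩ := hcon
  set s : ℝ := ‖((z, w) : ℂ × ℂ)‖ with hs
  have hsR : 4 / m ≤ s := by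
    rw [hs, Prod.norm_def]
    rcases hR with h | h
    · exact h.trans (le_max_left _ _)
    · exact h.trans (le_max_right _ _)
  have hs0 : 0 < s := lt_of_lt_of_le (by positivity) hsR
  have hinv : s⁻¹ ≤ m / 4 := by
    rw [inv_le_comm₀ hs0 (by positivity)]
    rw [inv_div]
    exact hsR
  have hmem : (((s⁻¹, m / 4), ((((s⁻¹ : ℝ) : ℂ) * z), (((s⁻¹ : ℝ) : ℂ) * w))) :
      (ℝ × ℝ) × (ℂ × ℂ)) ∈ Z := by
    have n1 : ‖((s⁻¹ : ℝ) : ℂ)‖ = s⁻¹ := by
      rw [Complex.norm_real, Real.norm_of_nonneg (by positivity)]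
    refine ⟨⟨by positivity, by linarith⟩, ⟨by positivity, by linarith⟩, ?_, ?_, ?_, ?_⟩
    · have e : ((((s⁻¹ : ℝ) : ℂ) * z, ((s⁻¹ : ℝ) : ℂ) * w) : ℂ × ℂ) =
          ((s⁻¹ : ℝ) : ℂ) • ((z, w) : ℂ × ℂ) := by
        ext <;> simp
      show ‖((((s⁻¹ : ℝ) : ℂ) * z, ((s⁻¹ : ℝ) : ℂ) * w) : ℂ × ℂ)‖ = 1
      rw [e, norm_smul, n1, ← hs, inv_mul_cancel₀ hs0.ne']
    · show gf P s⁻¹ (((s⁻¹ : ℝ) : ℂ) * z) (((s⁻¹ : ℝ) : ℂ) * w) = 0
      rw [gf_scale P s⁻¹, hzw, mul_zero]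
    · show (1 - m / 4) * ‖((s⁻¹ : ℝ) : ℂ) * z‖ ≤ ‖((s⁻¹ : ℝ) : ℂ) * w‖
      rw [norm_mul, norm_mul, n1]
      nlinarith [inv_pos.2 hs0, hc1, hc2]
    · show (1 - m / 4) * ‖((s⁻¹ : ℝ) : ℂ) * w‖ ≤ ‖((s⁻¹ : ℝ) : ℂ) * z‖
      rw [norm_mul, norm_mul, n1]
      nlinarith [inv_pos.2 hs0, hc1, hc2]
  have h1 : m ≤ s⁻¹ + m / 4 := hm _ hmem
  linarith

/-- Proof sketch: `toBiv P ≠ 0` (by `ev_toBiv` and `htop` applied to a large point, or by `sep_toBiv`);
take the irreducible factors (`UniqueFactorizationMonoid.factors`, a `Multiset`, `toFinset`);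
`ev` is multiplicative, a factor's zeros are zeros of `toBiv P` (`ev_of_dvd`), and a unit of
`ℂ[z][w]` has no zeros. -/
theorem factor_data (P : MvPolynomial (Fin 2) ℝ)
    (htop : ∀ x y : ℝ, MvPolynomial.eval ![x, y]
      (MvPolynomial.homogeneousComponent P.totalDegree P) = 0 → x = 0 ∧ y = 0) :
    ∃ L : Finset Biv, (∀ Q ∈ L, Irreducible Q ∧ ∃ α R : ℝ, 0 < α ∧ α < 1 ∧ Sep Q α R) ∧
      ∀ z : ℂ, MvPolynomial.eval ![z.re, z.im] P = 0 →
        ∃ Q ∈ L, ev Q z ((starRingEnd ℂ) z) = 0 := by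
  classical
  obtain ⟨α, R, hα0, hα1, hsep⟩ := sep_toBiv P htop
  have hne : toBiv P ≠ 0 := by
    intro h0
    have h1 := hsep ((|R| + 1 : ℝ) : ℂ) ((|R| + 1 : ℝ) : ℂ) (by rw [h0]; simp [ev]) (Or.inl (by
      rw [Complex.norm_real, Real.norm_of_nonneg (by positivity)]
      linarith [le_abs_self R]))
    rw [or_self, Complex.norm_real, Real.norm_of_nonneg (by positivity)] at h1
    nlinarith [abs_nonneg R]
  refine ⟨(UniqueFactorizationMonoid.factors (toBiv P)).toFinset, ?_, ?_⟩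
  · intro Q hQ
    rw [Multiset.mem_toFinset] at hQ
    refine ⟨UniqueFactorizationMonoid.irreducible_of_factor Q hQ, α, R, hα0, hα1, ?_⟩
    intro z w h0 hR
    exact hsep z w (ev_of_dvd (UniqueFactorizationMonoid.dvd_of_mem_factors hQ) h0) hR
  · intro z hz
    have h1 : ev (toBiv P) z ((starRingEnd ℂ) z) = 0 := by
      rw [ev_toBiv, hz, Complex.ofReal_zero]
    obtain ⟨u, hu⟩ := UniqueFactorizationMonoid.factors_prod hne
    rw [← hu, ev_mul, mul_eq_zero] at h1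
    rcases h1 with h1 | h1
    · have h2 : Polynomial.evalEvalRingHom z ((starRingEnd ℂ) z)
          (UniqueFactorizationMonoid.factors (toBiv P)).prod = 0 := h1
      rw [map_multiset_prod, Multiset.prod_eq_zero_iff, Multiset.mem_map] at h2
      obtain ⟨Q, hQ, hQ0⟩ := h2
      exact ⟨Q, Multiset.mem_toFinset.2 hQ, hQ0⟩
    · exfalso
      have h2 := (u.isUnit.map (Polynomial.evalEvalRingHom z ((starRingEnd ℂ) z)))
      exact h2.ne_zero h1

end Pool.Agent.Stek
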