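import Pool.Agent.Lib.MP_bd8415_an.Alg.ConstPoly
import Pool.Agent.Lib.MP_bd8415_an.Alg.MvFactor

/-!
# Boundary arcs on algebraic curves without real points at infinity
-/

open Polynomial Filter Topology Metric Set Complex

namespace Pool.Agent.Stek

/-- Pigeonhole for frequently. -/
theorem frequently_finset {ι X : Type*} {f : Filter X} (L : Finset ι) {p : ι → X → Prop}
    (h : ∃ᶠ x in f, ∃ i ∈ L, p i x) : ∃ i ∈ L, ∃ᶠ x in f, p i x := by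
  by_contra hcon
  push Not at hcon
  have h1 : ∀ᶠ x in f, ∀ i ∈ L, ¬ p i x :=
    (Filter.eventually_all_finset L).2 fun i hi => hcon i hi
  obtain ⟨x, ⟨i, hi, hp⟩, hx⟩ := (h.and_eventually h1).exists
  exact hx i hi hp

/-- `z` is an accumulation point of the part of the boundary in `V` that lies on `Q = 0`. -/
def Acc (ρ : ℂ → ℝ) (V : Set ℂ) (Q : Biv) (z : ℂ) : Prop :=
  z ∈ V ∧ ρ z = 0 ∧ ∃ᶠ w in 𝓝[≠] z, w ∈ V ∧ ρ w = 0 ∧ ev Q w ((starRingEnd ℂ) w) = 0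

theorem diag_closed (Q : Biv) : IsClosed {z : ℂ | ev Q z ((starRingEnd ℂ) z) = 0} :=
  isClosed_eq ((continuous_ev Q).comp (continuous_id.prodMk Complex.continuous_conj))
    continuous_const

theorem Acc.zero {ρ : ℂ → ℝ} {V : Set ℂ} {Q : Biv} {z : ℂ} (h : Acc ρ V Q z) :
    ev Q z ((starRingEnd ℂ) z) = 0 := by
  have : z ∈ closure {z : ℂ | ev Q z ((starRingEnd ℂ) z) = 0} :=
    mem_closure_iff_frequently.2
      ((h.2.2.mono fun w hw => hw.2.2).filter_mono nhdsWithin_le_nhds)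
  rw [(diag_closed Q).closure_eq] at this
  exact this

/-- `z` is an accumulation point of accumulation points. -/
def Acc2 (ρ : ℂ → ℝ) (V : Set ℂ) (Q : Biv) (z : ℂ) : Prop :=
  ∃ᶠ w in 𝓝[≠] z, Acc ρ V Q w

theorem Acc2.infinite {ρ : ℂ → ℝ} {V : Set ℂ} {Q : Biv} {z : ℂ} (h : Acc2 ρ V Q z) :
    {z : ℂ | ev Q z ((starRingEnd ℂ) z) = 0}.Infinite := by
  intro hfin
  obtain ⟨w, hw, hw2⟩ := (h.and_eventually (finite_nhdsNE hfin z)).exists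
  exact hw2 hw.zero

theorem Acc2.zero {ρ : ℂ → ℝ} {V : Set ℂ} {Q : Biv} {z : ℂ} (h : Acc2 ρ V Q z) :
    ev Q z ((starRingEnd ℂ) z) = 0 := by
  have : z ∈ closure {z : ℂ | ev Q z ((starRingEnd ℂ) z) = 0} :=
    mem_closure_iff_frequently.2
      ((h.mono fun w hw => hw.zero).filter_mono nhdsWithin_le_nhds)
  rw [(diag_closed Q).closure_eq] at this
  exact this

/-- An irreducible polynomial with infinitely many real points depends on both variables. -/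
theorem depends {Q : Biv} (hQ : Irreducible Q)
    (hinf : {z : ℂ | ev Q z ((starRingEnd ℂ) z) = 0}.Infinite) :
    Q.natDegree ≠ 0 ∧ dz Q ≠ 0 := by
  constructor
  · intro h0
    obtain ⟨q, rfl⟩ := natDegree_eq_zero.1 h0
    have hq : q ≠ 0 := by
      rintro rfl
      exact hQ.ne_zero (by simp)
    apply hinf
    refine (q.rootSet_finite ℂ).subset fun z hz => ?_
    rw [Polynomial.mem_rootSet]
    refine ⟨hq, ?_⟩
    have h1 : ev (C q) z ((starRingEnd ℂ) z) = 0 := hz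
    rw [ev_C] at h1
    simpa using h1
  · intro h0
    have h1 : derivative (Bivariate.swap Q) = 0 := by
      rw [dz] at h0
      exact (map_eq_zero_iff _ (Bivariate.swap (R := ℂ)).injective).1 h0
    obtain ⟨q, hq⟩ := natDegree_eq_zero.1 (derivative_eq_zero.1 h1)
    have hev : ∀ z w, ev Q z w = q.eval w := by
      intro z w
      rw [← ev_swap Q w z, ← hq, ev_C]
    have hq0 : q ≠ 0 := by
      rintro rfl
      apply hQ.ne_zero
      have h2 : Bivariate.swap Q = 0 := by rw [← hq]; simp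
      exact (map_eq_zero_iff _ (Bivariate.swap (R := ℂ)).injective).1 h2
    apply hinf
    refine (((q.rootSet_finite ℂ).image (starRingEnd ℂ))).subset fun z hz => ?_
    refine ⟨(starRingEnd ℂ) z, ?_, Complex.conj_conj z⟩
    rw [Polynomial.mem_rootSet]
    refine ⟨hq0, ?_⟩
    have h1 : ev Q z ((starRingEnd ℂ) z) = 0 := hz
    rw [hev] at h1
    simpa using h1

section

variable {ρ : ℂ → ℝ} {V : Set ℂ} {G : ℂ → ℂ} {σ : ℝ}

/-- The data of one relevant factor. -/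
theorem factor_relevant (hρ : Differentiable ℝ ρ) (hgrad : ∀ z ∈ V, ρ z = 0 → fderiv ℝ ρ z ≠ 0)
    (hG : Differentiable ℂ G)
    (hbc : ∀ z ∈ V, ρ z = 0 → (deriv G z * grad ρ z).re = σ * (G z).re * ‖grad ρ z‖)
    {Q : Biv} (hQ : Irreducible Q) {α R : ℝ} (hα0 : 0 < α) (hα1 : α < 1) (hsep : Sep Q α R) :
    ∃ S : Set ℂ, S.Finite ∧ ∀ z ∉ S, Acc2 ρ V Q z →
      (∃ R', AtInf Q S α R') ∧ StarSym Q ∧
      (∀ z ∉ S, ∀ w, ev Q z w = 0 → FF Q G σ z w = 0) := by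
  by_cases hinf : {z : ℂ | ev Q z ((starRingEnd ℂ) z) = 0}.Infinite
  · obtain ⟨hd, hdz⟩ := depends hQ hinf
    obtain ⟨S, hS⟩ := exists_curve hQ hd hdz
    refine ⟨S, hS.fin, fun z₁ hz₁ hacc => ⟨?_, starSym_of_infinite hQ hd hinf, ?_⟩⟩
    · obtain ⟨M, hM⟩ := hS.fin.isBounded.exists_norm_le
      refine ⟨max (max R 1) (M + 1), hS, hα0, hα1, (le_max_right _ _).trans (le_max_left _ _),
        ?_, fun s hs => ?_⟩
      · intro z w h0 h1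
        have h2 : R ≤ max (max R 1) (M + 1) := (le_max_left _ _).trans (le_max_left _ _)
        exact hsep z w h0 (h1.imp h2.trans h2.trans)
      · have h1 := hM s hs
        have h2 : M + 1 ≤ max (max R 1) (M + 1) := le_max_right _ _
        linarith
    · apply hS.identity_branch (FF_differentiable Q hG σ) (f := starRingEnd ℂ) hz₁
        Complex.continuous_conj.continuousAt hacc.zero
      refine hacc.mono fun y hy => ⟨hy.zero, ?_⟩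
      exact FF_boundary Q (hρ y) (grad_ne_zero (hgrad y hy.1 hy.2.1))
        (hy.2.2.mono fun w hw => hw.2) hG (hbc y hy.1 hy.2.1)
  · rw [not_infinite] at hinf
    exact ⟨_, hinf, fun z _ hacc => absurd hinf hacc.infinite⟩

/-- The local theorem. -/
theorem alg_local (hρ : Differentiable ℝ ρ) (hV : IsOpen V)
    (hgrad : ∀ z ∈ V, ρ z = 0 → fderiv ℝ ρ z ≠ 0) (hne : ∃ z ∈ V, ρ z = 0)
    (P : MvPolynomial (Fin 2) ℝ)
    (htop : ∀ x y : ℝ, MvPolynomial.eval ![x, y]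
      (MvPolynomial.homogeneousComponent P.totalDegree P) = 0 → x = 0 ∧ y = 0)
    (hcurve : ∀ z ∈ V, ρ z = 0 → MvPolynomial.eval ![z.re, z.im] P = 0)
    (hG : Differentiable ℂ G) (hσ : σ ≠ 0)
    (hbc : ∀ z ∈ V, ρ z = 0 → (deriv G z * grad ρ z).re = σ * (G z).re * ‖grad ρ z‖)
    (hGne : ¬ ∀ z, (G z).re = 0) :
    ∃ (m : ℕ) (T : Finset ℂ), 1 ≤ m ∧
      (∀ z₀ ∈ T, ∃ a b : ℂ, a ≠ 0 ∧ b.re = 0 ∧ ∀ y, G y = a * (y - z₀) ^ m + b) ∧
      ∀ z ∈ V, ρ z = 0 → ∃ z₀ ∈ T, ‖z - z₀‖ = m / |σ| := by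
  classical
  obtain ⟨L, hL, hLP⟩ := factor_data P htop
  -- boundary points accumulate
  have hfr : ∀ z ∈ V, ρ z = 0 → ∃ᶠ w in 𝓝[≠] z, w ∈ V ∧ ρ w = 0 := by
    intro z hz h0
    have h1 := (zero_frequently hρ h0 (hgrad z hz h0)).and_eventually
      (nhdsWithin_le_nhds (hV.mem_nhds hz))
    exact h1.mono fun w hw => ⟨hw.2, hw.1⟩
  have hacc : ∀ z ∈ V, ρ z = 0 → ∃ Q ∈ L, Acc ρ V Q z := by
    intro z hz h0
    have h1 : ∃ᶠ w in 𝓝[≠] z, ∃ Q ∈ L, w ∈ V ∧ ρ w = 0 ∧ ev Q w ((starRingEnd ℂ) w) = 0 :=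
      (hfr z hz h0).mono fun w hw => by
        obtain ⟨Q, hQ, hQ0⟩ := hLP w (hcurve w hw.1 hw.2)
        exact ⟨Q, hQ, hw.1, hw.2, hQ0⟩
    obtain ⟨Q, hQ, h2⟩ := frequently_finset L h1
    exact ⟨Q, hQ, hz, h0, h2⟩
  have hacc2 : ∀ z ∈ V, ρ z = 0 → ∃ Q ∈ L, Acc2 ρ V Q z := by
    intro z hz h0
    exact frequently_finset L ((hfr z hz h0).mono fun w hw => hacc w hw.1 hw.2)
  have hrel : ∀ Q ∈ L, ∃ S : Set ℂ, S.Finite ∧ ∀ z ∉ S, Acc2 ρ V Q z →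
      (∃ α R', AtInf Q S α R') ∧ StarSym Q ∧
      (∀ z ∉ S, ∀ w, ev Q z w = 0 → FF Q G σ z w = 0) := by
    intro Q hQ
    obtain ⟨hirr, α, R, hα0, hα1, hsep⟩ := hL Q hQ
    obtain ⟨S, hS, h1⟩ := factor_relevant (V := V) hρ hgrad hG hbc hirr hα0 hα1 hsep
    refine ⟨S, hS, fun z hz hacc => ?_⟩
    obtain ⟨⟨R', h2⟩, h3⟩ := h1 z hz hacc
    exact ⟨⟨α, R', h2⟩, h3⟩
  choose! S hSf hS using hrel
  have hSL : (⋃ Q ∈ L, S Q).Finite := L.finite_toSet.biUnion fun Q hQ => hSf Q hQ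
  obtain ⟨z₁, hz₁V, hz₁0⟩ := hne
  obtain ⟨z₂, ⟨hz₂V, hz₂0⟩, hz₂⟩ := ((hfr z₁ hz₁V hz₁0).and_eventually (finite_nhdsNE hSL z₁)).exists
  obtain ⟨Q₂, hQ₂, hacc₂⟩ := hacc2 z₂ hz₂V hz₂0
  have hz₂S : z₂ ∉ S Q₂ := fun h => hz₂ (mem_biUnion hQ₂ h)
  obtain ⟨⟨α₂, R₂, hinf₂⟩, hstar₂, hF₂⟩ := hS Q₂ hQ₂ z₂ hz₂S hacc₂
  obtain ⟨p, hp⟩ := entire_is_poly hinf₂ hstar₂ hG hσ hF₂ hGne
  have hp1 : 1 ≤ p.natDegree := by
    by_contra hcon
    obtain ⟨c, hc⟩ := natDegree_eq_zero.1 (by omega : p.natDegree = 0)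
    have hGc : ∀ z, G z = c := fun z => by rw [hp z, ← hc, eval_C]
    have hd : deriv G z₁ = 0 := by
      have : G = fun _ => c := funext hGc
      rw [this, deriv_const]
    have h1 := hbc z₁ hz₁V hz₁0
    have h2 : 0 < ‖grad ρ z₁‖ := norm_pos_iff.2 (grad_ne_zero (hgrad z₁ hz₁V hz₁0))
    rw [hd, zero_mul, Complex.zero_re, hGc] at h1
    have h3 : c.re = 0 := by
      have := (mul_eq_zero.1 h1.symm).resolve_right h2.ne'
      exact (mul_eq_zero.1 this).resolve_left hσ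
    exact hGne fun z => by rw [hGc, h3]
  -- the centres
  have hcen : ∀ Q ∈ L, ∃ c : ℂ, ∀ z ∉ S Q, Acc2 ρ V Q z →
      (∃ a b : ℂ, a ≠ 0 ∧ b.re = 0 ∧ ∀ y, G y = a * (y - c) ^ p.natDegree + b) ∧
      ‖z - c‖ = p.natDegree / |σ| := by
    intro Q hQ
    by_cases hex : ∃ z ∉ S Q, Acc2 ρ V Q z
    · obtain ⟨z₃, hz₃, hacc₃⟩ := hex
      obtain ⟨⟨α, R', hinf⟩, hstar, hF⟩ := hS Q hQ z₃ hz₃ hacc₃
      obtain ⟨z₀, a, b, ha, hb, hGf, hcirc⟩ := const_main hinf hstar hp1 hp hσ hF hz₃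
        (hacc₃.mono fun w hw => hw.zero)
      exact ⟨z₀, fun z hz h1 => ⟨⟨a, b, ha, hb, hGf⟩, hcirc z hz h1.zero⟩⟩
    · push Not at hex
      exact ⟨0, fun z hz h1 => absurd h1 (hex z hz)⟩
  choose! c hc using hcen
  set T : Finset ℂ := (L.image c).filter fun z₀ => ∃ a b : ℂ, a ≠ 0 ∧ b.re = 0 ∧
    ∀ y, G y = a * (y - z₀) ^ p.natDegree + b with hT
  have hgood : ∀ z ∈ V, ρ z = 0 → z ∉ (⋃ Q ∈ L, S Q) →
      ∃ z₀ ∈ T, ‖z - z₀‖ = p.natDegree / |σ| := by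
    intro z hz h0 hzB
    obtain ⟨Q, hQ, h1⟩ := hacc2 z hz h0
    obtain ⟨h2, h3⟩ := hc Q hQ z (fun h => hzB (mem_biUnion hQ h)) h1
    exact ⟨c Q, Finset.mem_filter.2 ⟨Finset.mem_image_of_mem c hQ, h2⟩, h3⟩
  refine ⟨p.natDegree, T, hp1, fun z₀ hz₀ => (Finset.mem_filter.1 hz₀).2, fun z hz h0 => ?_⟩
  have h1 : ∃ᶠ w in 𝓝[≠] z, ∃ z₀ ∈ T, ‖w - z₀‖ = p.natDegree / |σ| := by
    refine ((hfr z hz h0).and_eventually (finite_nhdsNE hSL z)).mono ?_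
    rintro w ⟨⟨hw1, hw2⟩, hw3⟩
    exact hgood w hw1 hw2 hw3
  obtain ⟨z₀, hz₀, h2⟩ := frequently_finset T h1
  refine ⟨z₀, hz₀, ?_⟩
  have hcl : IsClosed {w : ℂ | ‖w - z₀‖ = p.natDegree / |σ|} :=
    isClosed_eq (by fun_prop) continuous_const
  have h3 : z ∈ closure {w : ℂ | ‖w - z₀‖ = p.natDegree / |σ|} :=
    mem_closure_iff_frequently.2 (h2.filter_mono nhdsWithin_le_nhds)
  rw [hcl.closure_eq] at h3
  exact h3

end

end Pool.Agent.Stek
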