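import Pool.Agent.Lib.MP_bd8415_an.Alg.Rel

/-!
# Foci of algebraic curves and entire Steklov data on an arc
-/

open Polynomial Filter Topology Metric Set Complex

namespace Pool.Agent.Stek

theorem finite_nhdsNE {S : Set ℂ} (hS : S.Finite) (z : ℂ) : ∀ᶠ w in 𝓝[≠] z, w ∉ S := by
  have h1 : (S \ {z})ᶜ ∈ 𝓝 z := by
    apply (hS.subset sdiff_subset).isClosed.isOpen_compl.mem_nhds
    simp
  rw [eventually_nhdsWithin_iff]
  filter_upwards [h1] with w hw hwz hwS
  exact hw ⟨hwS, hwz⟩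

/-- An analytic function whose derivative is not locally zero avoids a finite set. -/
theorem avoid_finite {a : ℂ → ℂ} {t₀ : ℂ} (ha : AnalyticAt ℂ a t₀)
    (hd : ∀ᶠ t in 𝓝[≠] t₀, deriv a t ≠ 0) {S : Set ℂ} (hS : S.Finite) :
    ∀ᶠ t in 𝓝[≠] t₀, a t ∉ S := by
  have h1 : ∀ᶠ t in 𝓝[≠] t₀, a t ≠ a t₀ := by
    by_contra hcon
    have h2 : ∃ᶠ t in 𝓝[≠] t₀, a t = a t₀ := by
      rw [Filter.Frequently]
      exact hcon
    have h3 : ∀ᶠ t in 𝓝 t₀, a t = a t₀ :=
      (ha.frequently_eq_iff_eventually_eq analyticAt_const).1 h2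
    have h4 : ∀ᶠ t in 𝓝 t₀, deriv a t = 0 := by
      filter_upwards [h3.eventually_nhds] with t ht
      have : a =ᶠ[𝓝 t] fun _ => a t₀ := ht
      rw [this.deriv_eq, deriv_const]
    obtain ⟨t, h5, h6⟩ := (hd.and (h4.filter_mono nhdsWithin_le_nhds)).exists
    exact h5 h6
  have h2 : Tendsto a (𝓝[≠] t₀) (𝓝[≠] (a t₀)) :=
    tendsto_nhdsWithin_iff.2 ⟨ha.continuousAt.tendsto.mono_left nhdsWithin_le_nhds, h1⟩
  exact h2.eventually (finite_nhdsNE hS (a t₀))

theorem parity {x y : ℕ∞} {k : ℕ} (h : 2 * x = ((2 * k + 1 : ℕ) : ℕ∞) + 2 * y) : x = ⊤ := by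
  induction x using ENat.recTopCoe with
  | top => rfl
  | coe x =>
    induction y using ENat.recTopCoe with
    | top =>
      exfalso
      have : (2 : ℕ∞) * ⊤ = ⊤ := ENat.mul_top (by norm_num)
      rw [this, add_top] at h
      exact ENat.natCast_ne_top (2 * x) (by exact_mod_cast h)
    | coe y =>
      exfalso
      have h1 : 2 * x = 2 * k + 1 + 2 * y := by exact_mod_cast h
      omega

/-- Entire data which satisfy the continued relation near a point of the curve where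
`dz dw` vanishes to odd order are trivial. -/
theorem focus_kill {Q : Biv} {S : Set ℂ} (hS : S.Finite)
    (hbad : ∀ z ∉ S, ∀ w, ev Q z w = 0 → ev (dw Q) z w ≠ 0)
    {G : ℂ → ℂ} (hG : Differentiable ℂ G) {σ : ℝ} (hσ : σ ≠ 0)
    (hF : ∀ z ∉ S, ∀ w, ev Q z w = 0 → FF Q G σ z w = 0)
    {a b : ℂ → ℂ} {t₀ : ℂ} (ha : AnalyticAt ℂ a t₀) (hb : AnalyticAt ℂ b t₀)
    (hab : ∀ᶠ t in 𝓝 t₀, ev Q (a t) (b t) = 0) {k : ℕ}
    (hord : analyticOrderAt (fun t => deriv a t * deriv b t) t₀ = ((2 * k + 1 : ℕ) : ℕ∞)) :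
    ∀ z, (G z).re = 0 := by
  have hsG := sh_differentiable hG
  have hda := ha.deriv
  have hdb := hb.deriv
  -- the derivatives do not vanish near `t₀`
  have hne : ∀ᶠ t in 𝓝[≠] t₀, deriv a t * deriv b t ≠ 0 := by
    rcases (hda.mul hdb).eventually_eq_zero_or_eventually_ne_zero with h | h
    · exfalso
      have : analyticOrderAt (fun t => deriv a t * deriv b t) t₀ = ⊤ := analyticOrderAt_eq_top.2 h
      rw [this] at hord
      exact ENat.natCast_ne_top _ hord.symm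
    · exact h
  have hda0 : ∀ᶠ t in 𝓝[≠] t₀, deriv a t ≠ 0 := hne.mono fun t h => left_ne_zero_of_mul h
  have hdb0 : ∀ᶠ t in 𝓝[≠] t₀, deriv b t ≠ 0 := hne.mono fun t h => right_ne_zero_of_mul h
  have hGa : AnalyticAt ℂ (fun t => deriv G (a t)) t₀ :=
    ((deriv_differentiable hG).analyticAt (a t₀)).fun_comp ha
  have hGb : AnalyticAt ℂ (fun t => deriv (sh G) (b t)) t₀ :=
    ((deriv_differentiable hsG).analyticAt (b t₀)).fun_comp hb
  have hga : AnalyticAt ℂ (fun t => G (a t)) t₀ := (hG.analyticAt (a t₀)).fun_comp ha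
  have hgb : AnalyticAt ℂ (fun t => sh G (b t)) t₀ := (hsG.analyticAt (b t₀)).fun_comp hb
  -- analyticity and the curve near `t₀`
  have han : ∀ᶠ t in 𝓝 t₀, AnalyticAt ℂ a t ∧ AnalyticAt ℂ b t :=
    ha.eventually_analyticAt.and hb.eventually_analyticAt
  set f : ℂ → ℂ := fun t => deriv a t * deriv G (a t) - deriv b t * deriv (sh G) (b t) with hf
  set g : ℂ → ℂ := fun t => G (a t) + sh G (b t) with hg
  have hfa : AnalyticAt ℂ f t₀ := (hda.mul hGa).sub (hdb.mul hGb)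
  have hgan : AnalyticAt ℂ g t₀ := hga.add hgb
  have hrel : ∀ᶠ t in 𝓝[≠] t₀, f t ^ 2 = (-(σ : ℂ) ^ 2) * (deriv a t * deriv b t) * g t ^ 2 := by
    filter_upwards [han.filter_mono nhdsWithin_le_nhds,
      hab.eventually_nhds.filter_mono nhdsWithin_le_nhds, avoid_finite ha hda0 hS, hda0, hdb0]
      with t h1 h2 h3 h4 h5
    have e1 := hF (a t) h3 (b t) h2.self_of_nhds
    have e2 := hbad (a t) h3 (b t) h2.self_of_nhds
    -- differentiate the equation of the curve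
    have e3 : ev (dz Q) (a t) (b t) * deriv a t + ev (dw Q) (a t) (b t) * deriv b t = 0 := by
      have d1 : HasDerivAt (fun t => ((a t, b t) : ℂ × ℂ)) (deriv a t, deriv b t) t :=
        h1.1.differentiableAt.hasDerivAt.prodMk h1.2.differentiableAt.hasDerivAt
      have d2 : HasFDerivAt (fun p : ℂ × ℂ => ev Q p.1 p.2)
          (fderiv ℂ (fun p : ℂ × ℂ => ev Q p.1 p.2) (a t, b t)) (a t, b t) :=
        (ev_differentiable Q (a t, b t)).hasFDerivAt
      have d3 := d2.comp_hasDerivAt t d1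
      have d4 : HasDerivAt ((fun p : ℂ × ℂ => ev Q p.1 p.2) ∘ fun t => ((a t, b t) : ℂ × ℂ)) 0 t :=
        (hasDerivAt_const t (0 : ℂ)).congr_of_eventuallyEq h2
      have d5 := d3.unique d4
      rw [fderiv_ev] at d5
      exact d5
    unfold FF at e1
    set A := ev (dz Q) (a t) (b t) with hA
    set B := ev (dw Q) (a t) (b t) with hB
    have e4 : B ^ 2 * (f t ^ 2 - (-(σ : ℂ) ^ 2) * (deriv a t * deriv b t) * g t ^ 2) = 0 := by
      have e5 : B * f t = deriv a t * (B * deriv G (a t) + A * deriv (sh G) (b t)) := by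
        rw [hf]
        simp only
        linear_combination (-deriv (sh G) (b t)) * e3
      have e6 : B ^ 2 * (deriv a t * deriv b t) = - (A * B) * (deriv a t) ^ 2 := by
        linear_combination B * deriv a t * e3
      have e7 : (B * f t) ^ 2 = (deriv a t) ^ 2 * ((σ : ℂ) ^ 2 * (A * B) * g t ^ 2) := by
        rw [e5, hg]
        simp only
        linear_combination (deriv a t) ^ 2 * e1
      linear_combination e7 + (σ : ℂ) ^ 2 * g t ^ 2 * e6
    have e5 := (mul_eq_zero.1 e4).resolve_left (pow_ne_zero 2 e2)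
    linear_combination e5
  have hrel' : (fun t => f t ^ 2) =ᶠ[𝓝 t₀]
      fun t => (-(σ : ℂ) ^ 2) * (deriv a t * deriv b t) * g t ^ 2 :=
    ((hfa.pow 2).frequently_eq_iff_eventually_eq
      ((analyticAt_const.mul (hda.mul hdb)).mul (hgan.pow 2))).1 hrel.frequently
  -- orders
  have hσ' : (-(σ : ℂ) ^ 2) ≠ 0 := by
    apply neg_ne_zero.2
    apply pow_ne_zero
    exact_mod_cast hσ
  have o1 : analyticOrderAt (fun t => f t ^ 2) t₀ = 2 * analyticOrderAt f t₀ := by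
    have := analyticOrderAt_pow hfa 2
    have e : (fun t => f t ^ 2) = f ^ 2 := rfl
    rw [e, this]
    simp
  have o2 : analyticOrderAt (fun t => g t ^ 2) t₀ = 2 * analyticOrderAt g t₀ := by
    have := analyticOrderAt_pow hgan 2
    have e : (fun t => g t ^ 2) = g ^ 2 := rfl
    rw [e, this]
    simp
  have o3 : analyticOrderAt (fun t => (-(σ : ℂ) ^ 2) * (deriv a t * deriv b t)) t₀ =
      ((2 * k + 1 : ℕ) : ℕ∞) := by
    rw [← hord]
    have h1 := analyticOrderAt_mul (f := fun _ : ℂ => (-(σ : ℂ) ^ 2))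
      (g := fun t => deriv a t * deriv b t) (z₀ := t₀) analyticAt_const (hda.mul hdb)
    have h2 : analyticOrderAt (fun _ : ℂ => (-(σ : ℂ) ^ 2)) t₀ = 0 :=
      (analyticAt_const.analyticOrderAt_eq_zero).2 hσ'
    rw [h2, zero_add] at h1
    exact h1
  have o4 : analyticOrderAt (fun t => (-(σ : ℂ) ^ 2) * (deriv a t * deriv b t) * g t ^ 2) t₀ =
      ((2 * k + 1 : ℕ) : ℕ∞) + 2 * analyticOrderAt g t₀ := by
    rw [← o3, ← o2]
    exact analyticOrderAt_mul (f := fun t => (-(σ : ℂ) ^ 2) * (deriv a t * deriv b t))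
      (g := fun t => g t ^ 2) (analyticAt_const.mul (hda.mul hdb)) (hgan.pow 2)
  have o5 : 2 * analyticOrderAt f t₀ = ((2 * k + 1 : ℕ) : ℕ∞) + 2 * analyticOrderAt g t₀ := by
    rw [← o1, ← o4]
    exact analyticOrderAt_congr hrel'
  have of : analyticOrderAt f t₀ = ⊤ := parity o5
  have f0 : ∀ᶠ t in 𝓝 t₀, f t = 0 := analyticOrderAt_eq_top.1 of
  have g0 : ∀ᶠ t in 𝓝 t₀, g t = 0 := by
    have : ∀ᶠ t in 𝓝[≠] t₀, g t = 0 := by
      filter_upwards [hrel, f0.filter_mono nhdsWithin_le_nhds, hne] with t h1 h2 h3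
      rw [h2, zero_pow two_ne_zero] at h1
      have h4 := (mul_eq_zero.1 h1.symm).resolve_left (mul_ne_zero hσ' h3)
      exact pow_eq_zero_iff two_ne_zero |>.1 h4
    exact (hgan.frequently_zero_iff_eventually_zero).1 this.frequently
  -- `G' (a t) = 0`
  have hG0 : ∀ᶠ t in 𝓝[≠] t₀, deriv G (a t) = 0 := by
    filter_upwards [g0.eventually_nhds.filter_mono nhdsWithin_le_nhds,
      f0.filter_mono nhdsWithin_le_nhds, han.filter_mono nhdsWithin_le_nhds, hda0]
      with t h1 h2 h3 h4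
    have d1 : HasDerivAt g (deriv G (a t) * deriv a t + deriv (sh G) (b t) * deriv b t) t :=
      ((hG (a t)).hasDerivAt.comp t h3.1.differentiableAt.hasDerivAt).add
        ((hsG (b t)).hasDerivAt.comp t h3.2.differentiableAt.hasDerivAt)
    have d2 : HasDerivAt g 0 t := (hasDerivAt_const t (0 : ℂ)).congr_of_eventuallyEq h1
    have d3 := d1.unique d2
    have d4 : deriv a t * deriv G (a t) - deriv b t * deriv (sh G) (b t) = 0 := h2
    have d5 : 2 * (deriv a t * deriv G (a t)) = 0 := by linear_combination d3 + d4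
    have d6 := (mul_eq_zero.1 d5).resolve_left two_ne_zero
    exact (mul_eq_zero.1 d6).resolve_left h4
  have hGall : ∀ z, deriv G z = 0 := by
    have h1 : Tendsto a (𝓝[≠] t₀) (𝓝[≠] (a t₀)) := by
      refine tendsto_nhdsWithin_iff.2 ⟨ha.continuousAt.tendsto.mono_left nhdsWithin_le_nhds, ?_⟩
      have := avoid_finite ha hda0 (Set.finite_singleton (a t₀))
      simpa using this
    have h2 : ∃ᶠ z in 𝓝[≠] (a t₀), deriv G z = 0 := h1.frequently hG0.frequently
    have h3 := AnalyticOnNhd.eqOn_of_preconnected_of_frequently_eq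
      (f := deriv G) (g := fun _ => 0) (U := univ)
      (fun z _ => (deriv_differentiable hG).analyticAt z)
      (fun z _ => analyticAt_const) isPreconnected_univ (mem_univ (a t₀)) h2
    exact fun z => h3 (mem_univ z)
  have hGc : ∀ z, G z = G 0 := fun z => is_const_of_deriv_eq_zero hG hGall z 0
  have h1 : G 0 + (starRingEnd ℂ) (G 0) = 0 := by
    have h2 := g0.self_of_nhds
    simp only [hg, sh] at h2
    rw [hGc (a t₀), hGc ((starRingEnd ℂ) (b t₀))] at h2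
    exact h2
  rw [Complex.add_conj] at h1
  intro z
  rw [hGc z]
  have h2 : (2 * (G 0).re : ℝ) = 0 := by exact_mod_cast h1
  linarith

/-- No nonzero entire Steklov data on a boundary arc of an algebraic curve with a focus. -/
theorem focus_theorem {ρ : ℂ → ℝ} (hρ : Differentiable ℝ ρ) {V : Set ℂ} (hV : IsOpen V)
    (hgrad : ∀ z ∈ V, ρ z = 0 → fderiv ℝ ρ z ≠ 0) (hne : ∃ z ∈ V, ρ z = 0)
    {Q : Biv} (hQ : Irreducible Q)
    (hcurve : ∀ z ∈ V, ρ z = 0 → ev Q z ((starRingEnd ℂ) z) = 0)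
    {a b : ℂ → ℂ} {t₀ : ℂ} (ha : AnalyticAt ℂ a t₀) (hb : AnalyticAt ℂ b t₀)
    (hab : ∀ᶠ t in 𝓝 t₀, ev Q (a t) (b t) = 0) {k : ℕ}
    (hord : analyticOrderAt (fun t => deriv a t * deriv b t) t₀ = ((2 * k + 1 : ℕ) : ℕ∞))
    {G : ℂ → ℂ} (hG : Differentiable ℂ G) {σ : ℝ} (hσ : σ ≠ 0)
    (hbc : ∀ z ∈ V, ρ z = 0 → (deriv G z * grad ρ z).re = σ * (G z).re * ‖grad ρ z‖) :
    ∀ z, (G z).re = 0 := by
  obtain ⟨z₀, hz₀V, hz₀⟩ := hne
  -- nonisolated
  have hfr : ∀ z ∈ V, ρ z = 0 → ∃ᶠ w in 𝓝[≠] z, w ∈ V ∧ ρ w = 0 := by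
    intro z hz h0
    have h1 := (zero_frequently hρ h0 (hgrad z hz h0)).and_eventually
      (nhdsWithin_le_nhds (hV.mem_nhds hz))
    exact h1.mono fun w hw => ⟨hw.2, hw.1⟩
  have hfr' : ∀ S : Set ℂ, S.Finite → ∃ z, z ∉ S ∧ z ∈ V ∧ ρ z = 0 := by
    intro S hS
    obtain ⟨w, h1, h2⟩ := ((hfr z₀ hz₀V hz₀).and_eventually (finite_nhdsNE hS z₀)).exists
    exact ⟨w, h2, h1.1, h1.2⟩
  -- the degree is positive
  have hd : Q.natDegree ≠ 0 := by
    intro h0
    obtain ⟨q, rfl⟩ := natDegree_eq_zero.1 h0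
    have hq : q ≠ 0 := by
      rintro rfl
      exact hQ.ne_zero (by simp)
    obtain ⟨z, h1, h2, h3⟩ := hfr' _ (q.rootSet_finite ℂ)
    apply h1
    rw [Polynomial.mem_rootSet]
    refine ⟨hq, ?_⟩
    have := hcurve z h2 h3
    rw [ev_C] at this
    simpa using this
  obtain ⟨S, hS, hbad⟩ := exists_bad hQ hd
  obtain ⟨z₁, hz₁S, hz₁V, hz₁⟩ := hfr' S hS
  have hFb : ∀ z ∈ V, ρ z = 0 → FF Q G σ z ((starRingEnd ℂ) z) = 0 := by
    intro z hz h0
    apply FF_boundary Q (hρ z) (grad_ne_zero (hgrad z hz h0)) _ hG (hbc z hz h0)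
    exact (hfr z hz h0).mono fun w hw => ⟨hw.2, hcurve w hw.1 hw.2⟩
  have hFd := FF_differentiable Q hG σ
  have hz₁Q := hcurve z₁ hz₁V hz₁
  obtain ⟨φ, hφ, hφ1, hφ2⟩ := local_branch Q hz₁Q ((hbad z₁ hz₁S).2 _ hz₁Q)
  have hFφ : ∀ᶠ y in 𝓝 z₁, FF Q G σ y (φ y) = 0 := by
    have han : AnalyticAt ℂ (fun y => FF Q G σ y (φ y)) z₁ := by
      obtain ⟨O, hO, hO2⟩ : ∃ O ∈ 𝓝 z₁, DifferentiableOn ℂ (fun y => FF Q G σ y (φ y)) O := by
        refine ⟨_, hφ.eventually_analyticAt, fun y hy => ?_⟩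
        have h1 : DifferentiableAt ℂ (fun y => ((y, φ y) : ℂ × ℂ)) y :=
          differentiableAt_id.prodMk (AnalyticAt.differentiableAt hy)
        exact ((hFd (y, φ y)).comp y h1).differentiableWithinAt
      exact hO2.analyticAt hO
    rw [← han.frequently_zero_iff_eventually_zero]
    have hc : Tendsto (fun w : ℂ => ((w, (starRingEnd ℂ) w) : ℂ × ℂ)) (𝓝[≠] z₁)
        (𝓝 (z₁, (starRingEnd ℂ) z₁)) := by
      have : Continuous (fun w : ℂ => ((w, (starRingEnd ℂ) w) : ℂ × ℂ)) :=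
        continuous_id.prodMk Complex.continuous_conj
      exact (this.tendsto z₁).mono_left nhdsWithin_le_nhds
    refine ((hfr z₁ hz₁V hz₁).and_eventually (hc.eventually hφ2)).mono ?_
    rintro w ⟨⟨h1, h2⟩, h3⟩
    have h4 := h3.1 (hcurve w h1 h2)
    simp only at h4
    rw [← h4]
    exact hFb w h1 h2
  have hgood : Good Q (FF Q G σ) z₁ ((starRingEnd ℂ) z₁) := by
    have h1 : ∀ᶠ p : ℂ × ℂ in 𝓝 (z₁, (starRingEnd ℂ) z₁), FF Q G σ p.1 (φ p.1) = 0 :=
      (continuous_fst.tendsto (z₁, (starRingEnd ℂ) z₁)).eventually hFφ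
    show ∀ᶠ p : ℂ × ℂ in 𝓝 (z₁, (starRingEnd ℂ) z₁), ev Q p.1 p.2 = 0 → FF Q G σ p.1 p.2 = 0
    filter_upwards [h1, hφ2] with p h2 h3 h4
    rw [h3.1 h4]
    exact h2
  have hF := identity hQ hd hS hbad hFd hz₁S hz₁Q hgood
  exact focus_kill hS (fun z hz => (hbad z hz).2) hG hσ hF ha hb hab hord

end Pool.Agent.Stek
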