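import Pool.Agent.Lib.MP_bd8415_an.Alg.Branches
import Pool.Agent.Lib.MP_bd8415_an.CsPole

/-!
# The identity theorem on an irreducible algebraic curve
-/

open Polynomial Filter Topology Metric Set Complex

namespace Pool.Agent.Stek

/-- Functions of polynomial growth with finitely many singularities are polynomials. -/
theorem poly_ext {f : ℂ → ℂ} {S : Set ℂ} (hS : S.Finite)
    (hf : ∀ z ∉ S, DifferentiableAt ℂ f z) {C : ℝ} {D : ℕ} (hC : 0 ≤ C)
    (hb : ∀ z ∉ S, ‖f z‖ ≤ C * (1 + ‖z‖) ^ D) : ∃ p : Polynomial ℂ, ∀ z ∉ S, f z = p.eval z := by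
  have hSc : S.Countable := hS.countable
  have hScl : IsClosed S := hS.isClosed
  have key : ∀ x : ℂ, AnalyticAt ℂ (ext S f) x := by
    intro x
    refine (ext_analyticAt hSc hScl (D := ball x 1) isOpen_ball (f := f)
      (fun z hz => (hf z hz.2).differentiableWithinAt) (M := C * (1 + (‖x‖ + 1)) ^ D) ?_ x
      (mem_ball_self one_pos)).1
    intro z hz
    refine (hb z hz.2).trans ?_
    have : ‖z‖ ≤ ‖x‖ + 1 := by
      have h1 : ‖z - x‖ < 1 := mem_ball_iff_norm.1 hz.1
      have h2 : z = x + (z - x) := by ring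
      calc ‖z‖ = ‖x + (z - x)‖ := by rw [← h2]
        _ ≤ ‖x‖ + ‖z - x‖ := norm_add_le _ _
        _ ≤ ‖x‖ + 1 := by linarith
    gcongr
  have heq : ∀ z ∉ S, ext S f z = f z := by
    intro z hz
    have h1 : AnalyticAt ℂ f z := by
      rw [Complex.analyticAt_iff_eventually_differentiableAt]
      filter_upwards [hScl.isOpen_compl.mem_nhds hz] with y hy using hf y hy
    exact (ext_eventuallyEq hSc h1 (Eventually.of_forall fun y _ => rfl)).eq_of_nhds
  obtain ⟨B, hB⟩ := hS.isBounded.exists_norm_le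
  obtain ⟨p, hp⟩ := poly_of_growth (S := ext S f) (fun x => (key x).differentiableAt) (w₀ := 0)
    (R := max 1 (B + 1)) (C := C * 2 ^ D) (M := D) (by positivity) (by
      intro w hw
      rw [sub_zero] at hw ⊢
      have h1 : 1 ≤ ‖w‖ := (le_max_left _ _).trans hw
      have h2 : w ∉ S := fun h => by
        have := hB w h
        have := (le_max_right 1 (B + 1)).trans hw
        linarith
      rw [heq w h2, mul_assoc, ← mul_pow]
      refine (hb w h2).trans ?_
      have : 1 + ‖w‖ ≤ 2 * ‖w‖ := by linarith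
      gcongr)
  exact ⟨p, fun z hz => by rw [← heq z hz, hp]⟩

theorem coeff_X_sub_C_mul (a : ℂ) (P : Polynomial ℂ) (k : ℕ) :
    ((X - C a) * P).coeff k = (if k = 0 then 0 else P.coeff (k - 1)) - a * P.coeff k := by
  rw [sub_mul, coeff_sub, coeff_C_mul]
  cases k with
  | zero => simp
  | succ k => simp [coeff_X_mul]

theorem coeff_prod_analyticAt {ι : Type*} (J : Finset ι) (ψ : ι → ℂ → ℂ) {z₁ : ℂ}
    (h : ∀ j ∈ J, AnalyticAt ℂ (ψ j) z₁) (k : ℕ) :
    AnalyticAt ℂ (fun z => (∏ j ∈ J, (X - C (ψ j z))).coeff k) z₁ := by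
  classical
  induction J using Finset.induction_on generalizing k with
  | empty => simpa using analyticAt_const
  | insert a s ha ih =>
    have e : (fun z => (∏ j ∈ insert a s, (X - C (ψ j z))).coeff k) = fun z =>
        (if k = 0 then 0 else (∏ j ∈ s, (X - C (ψ j z))).coeff (k - 1)) -
          ψ a z * (∏ j ∈ s, (X - C (ψ j z))).coeff k := by
      ext z
      rw [Finset.prod_insert ha, coeff_X_sub_C_mul]
    rw [e]
    have ih' := fun k => ih (fun j hj => h j (Finset.mem_insert_of_mem hj)) k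
    apply AnalyticAt.sub
    · by_cases hk : k = 0
      · simpa [hk] using analyticAt_const
      · simpa [hk] using ih' (k - 1)
    · exact (h a (Finset.mem_insert_self a s)).mul (ih' k)

theorem coeff_prod_bound {ι : Type*} (J : Finset ι) (a : ι → ℂ) {H : ℝ} (hH : 1 ≤ H)
    (h : ∀ j ∈ J, ‖a j‖ ≤ H) (k : ℕ) : ‖(∏ j ∈ J, (X - C (a j))).coeff k‖ ≤ (2 * H) ^ J.card := by
  classical
  induction J using Finset.induction_on generalizing k with
  | empty =>
    simp only [Finset.prod_empty, Finset.card_empty, pow_zero, coeff_one]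
    split_ifs <;> simp
  | insert b s hb ih =>
    rw [Finset.prod_insert hb, coeff_X_sub_C_mul, Finset.card_insert_of_notMem hb]
    have ih' := fun k => ih (fun j hj => h j (Finset.mem_insert_of_mem hj)) k
    have h1 : ‖(if k = 0 then 0 else (∏ j ∈ s, (X - C (a j))).coeff (k - 1) : ℂ)‖
        ≤ (2 * H) ^ s.card := by
      split_ifs
      · simp only [norm_zero]; positivity
      · exact ih' _
    calc _ ≤ (2 * H) ^ s.card + ‖a b‖ * ‖(∏ j ∈ s, (X - C (a j))).coeff k‖ := by
          refine (norm_sub_le _ _).trans ?_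
          rw [norm_mul]
          gcongr
      _ ≤ (2 * H) ^ s.card + H * (2 * H) ^ s.card := by
          gcongr
          · exact h b (Finset.mem_insert_self b s)
          · exact ih' k
      _ ≤ (2 * H) ^ (s.card + 1) := by
          rw [pow_succ]
          nlinarith [pow_pos (show (0:ℝ) < 2 * H by linarith) s.card]

/-- Roots are bounded by the coefficients. -/
theorem root_bound (Q : Biv) {z w : ℂ} (h : ev Q z w = 0) (hd : Q.natDegree ≠ 0) :
    ‖Q.leadingCoeff.eval z * w‖ ≤ ∑ i ∈ Finset.range (Q.natDegree + 1), ‖(Q.coeff i).eval z‖ := by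
  have hsum : ∀ i ∈ Finset.range (Q.natDegree + 1), 0 ≤ ‖(Q.coeff i).eval z‖ :=
    fun i _ => norm_nonneg _
  rcases le_or_gt ‖w‖ 1 with h1 | h1
  · rw [norm_mul]
    calc ‖eval z Q.leadingCoeff‖ * ‖w‖ ≤ ‖eval z Q.leadingCoeff‖ * 1 := by gcongr
      _ = ‖(Q.coeff Q.natDegree).eval z‖ := by rw [mul_one, leadingCoeff]
      _ ≤ _ := Finset.single_le_sum hsum (Finset.self_mem_range_succ _)
  · rw [ev_eq_sum, Finset.sum_range_succ] at h
    have hw : w ≠ 0 := by
      rw [← norm_pos_iff]; linarith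
    obtain ⟨m, hm⟩ : ∃ m, Q.natDegree = m + 1 := ⟨Q.natDegree - 1, by omega⟩
    rw [hm] at h
    have e1 : (Q.leadingCoeff.eval z * w) * w ^ m =
        -∑ i ∈ Finset.range (m + 1), (Q.coeff i).eval z * w ^ i := by
      rw [leadingCoeff, hm]
      rw [pow_succ] at h
      linear_combination h
    have e2 : ‖Q.leadingCoeff.eval z * w‖ * ‖w‖ ^ m ≤
        (∑ i ∈ Finset.range (m + 1), ‖(Q.coeff i).eval z‖) * ‖w‖ ^ m := by
      calc ‖Q.leadingCoeff.eval z * w‖ * ‖w‖ ^ m = ‖(Q.leadingCoeff.eval z * w) * w ^ m‖ := by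
            rw [norm_mul _ (w ^ m), norm_pow]
        _ = ‖∑ i ∈ Finset.range (m + 1), (Q.coeff i).eval z * w ^ i‖ := by rw [e1, norm_neg]
        _ ≤ ∑ i ∈ Finset.range (m + 1), ‖(Q.coeff i).eval z * w ^ i‖ := norm_sum_le _ _
        _ ≤ ∑ i ∈ Finset.range (m + 1), ‖(Q.coeff i).eval z‖ * ‖w‖ ^ m := by
            apply Finset.sum_le_sum
            intro i hi
            rw [norm_mul, norm_pow]
            gcongr
            · exact h1.le
            · have := Finset.mem_range.1 hi; omega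
        _ = _ := by rw [Finset.sum_mul]
    have e3 := le_of_mul_le_mul_right e2 (by positivity)
    refine e3.trans ?_
    rw [hm]
    apply Finset.sum_le_sum_of_subset_of_nonneg
    · intro i hi
      rw [Finset.mem_range] at hi ⊢; omega
    · intro i _ _; exact norm_nonneg _

theorem poly_growth (p : Polynomial ℂ) : ∃ C : ℝ, 0 ≤ C ∧ ∀ z, ‖p.eval z‖ ≤ C * (1 + ‖z‖) ^ p.natDegree := by
  refine ⟨∑ i ∈ Finset.range (p.natDegree + 1), ‖p.coeff i‖,
    Finset.sum_nonneg fun i _ => norm_nonneg _, fun z => ?_⟩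
  rw [eval_eq_sum_range, Finset.sum_mul]
  refine (norm_sum_le _ _).trans (Finset.sum_le_sum fun i hi => ?_)
  rw [norm_mul, norm_pow]
  have h1 : ‖z‖ ^ i ≤ (1 + ‖z‖) ^ p.natDegree := by
    calc ‖z‖ ^ i ≤ (1 + ‖z‖) ^ i := by gcongr; linarith
      _ ≤ _ := by
        apply pow_le_pow_right₀ (by linarith [norm_nonneg z])
        have := Finset.mem_range.1 hi; omega
  gcongr

theorem sum_growth (Q : Biv) : ∃ (C : ℝ) (D : ℕ), 1 ≤ C ∧ ∀ z : ℂ,
    ∑ i ∈ Finset.range (Q.natDegree + 1), ‖(Q.coeff i).eval z‖ ≤ C * (1 + ‖z‖) ^ D := by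
  choose C hC0 hC using fun i => poly_growth (Q.coeff i)
  set D := ∑ i ∈ Finset.range (Q.natDegree + 1), (Q.coeff i).natDegree with hD
  refine ⟨1 + ∑ i ∈ Finset.range (Q.natDegree + 1), C i, D, by
    linarith [Finset.sum_nonneg fun i (_ : i ∈ Finset.range (Q.natDegree + 1)) => hC0 i],
    fun z => ?_⟩
  have h1 : (1 : ℝ) ≤ 1 + ‖z‖ := by linarith [norm_nonneg z]
  calc ∑ i ∈ Finset.range (Q.natDegree + 1), ‖(Q.coeff i).eval z‖
      ≤ ∑ i ∈ Finset.range (Q.natDegree + 1), C i * (1 + ‖z‖) ^ D := by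
        apply Finset.sum_le_sum
        intro i hi
        refine (hC i z).trans ?_
        apply mul_le_mul_of_nonneg_left _ (hC0 i)
        apply pow_le_pow_right₀ h1
        exact Finset.single_le_sum (f := fun i => (Q.coeff i).natDegree) (fun _ _ => Nat.zero_le _) hi
    _ = (∑ i ∈ Finset.range (Q.natDegree + 1), C i) * (1 + ‖z‖) ^ D := by rw [Finset.sum_mul]
    _ ≤ _ := by
        apply mul_le_mul_of_nonneg_right _ (by positivity)
        linarith

end Pool.Agent.Stek
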