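import Pool.Agent.Lib.MP_bd8415_an.Alg.Ident

/-!
# The identity theorem on an irreducible algebraic curve: conclusion
-/

open Polynomial Filter Topology Metric Set Complex

namespace Pool.Agent.Stek

/-- `F` vanishes on the curve near the point. -/
def Good (Q : Biv) (F : ℂ → ℂ → ℂ) (z w : ℂ) : Prop :=
  ∀ᶠ p : ℂ × ℂ in 𝓝 (z, w), ev Q p.1 p.2 = 0 → F p.1 p.2 = 0

theorem good_iff {Q : Biv} {F : ℂ → ℂ → ℂ} (hF : Differentiable ℂ fun p : ℂ × ℂ => F p.1 p.2)
    {n : ℕ} {z₁ : ℂ} {r : ℝ} {φ : Fin n → ℂ → ℂ} (h : IsBranches Q n z₁ r φ) (j : Fin n)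
    {z : ℂ} (hz : z ∈ ball z₁ r) :
    Good Q F z (φ j z) ↔ ∀ y ∈ ball z₁ r, F y (φ j y) = 0 := by
  have han : AnalyticOnNhd ℂ (fun y => F y (φ j y)) (ball z₁ r) := by
    apply DifferentiableOn.analyticOnNhd _ isOpen_ball
    intro y hy
    have h1 : DifferentiableAt ℂ (fun y => ((y, φ j y) : ℂ × ℂ)) y :=
      differentiableAt_id.prodMk (h.an j y hy).differentiableAt
    exact ((hF (y, φ j y)).comp y h1).differentiableWithinAt
  constructor
  · intro hg
    have hc : Tendsto (fun y => (y, φ j y)) (𝓝 z) (𝓝 (z, φ j z)) :=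
      (continuousAt_id (x := z)).prodMk (h.an j z hz).continuousAt
    have h1 : ∀ᶠ y in 𝓝 z, F y (φ j y) = 0 := by
      filter_upwards [hc.eventually hg, isOpen_ball.mem_nhds hz] with y hy1 hy2
      exact hy1 (h.root j y hy2)
    intro y hy
    exact han.eqOn_zero_of_preconnected_of_eventuallyEq_zero
      (convex_ball z₁ r).isPreconnected hz h1 hy
  · intro hall
    have e1 : ∀ᶠ p : ℂ × ℂ in 𝓝 (z, φ j z), p.1 ∈ ball z₁ r :=
      (continuous_fst.tendsto _).eventually (isOpen_ball.mem_nhds hz)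
    filter_upwards [h.eventually_eq hz j, e1] with p h1 h2 h3
    rw [h1 h3]
    exact hall _ h2

/-- The good points of the fibre. -/
def gset (Q : Biv) (F : ℂ → ℂ → ℂ) (z : ℂ) : Set ℂ := {w | ev Q z w = 0 ∧ Good Q F z w}

open Classical in
/-- On a small disc the good points form a fixed set of branches. -/
theorem gset_eq {Q : Biv} {F : ℂ → ℂ → ℂ} (hF : Differentiable ℂ fun p : ℂ × ℂ => F p.1 p.2)
    {n : ℕ} {z₁ : ℂ} {r : ℝ} {φ : Fin n → ℂ → ℂ} (h : IsBranches Q n z₁ r φ)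
    {z : ℂ} (hz : z ∈ ball z₁ r) :
    gset Q F z = ((Finset.univ.filter fun j => ∀ y ∈ ball z₁ r, F y (φ j y) = 0).image
      fun j => φ j z : Finset ℂ) := by
  ext w
  simp only [gset, mem_ofPred_eq, Finset.coe_image, Finset.coe_filter, Finset.mem_univ, true_and,
    mem_image]
  constructor
  · rintro ⟨h1, h2⟩
    obtain ⟨j, rfl⟩ := h.all z hz w h1
    exact ⟨j, (good_iff hF h j hz).1 h2, rfl⟩
  · rintro ⟨j, hj, rfl⟩
    exact ⟨h.root j z hz, (good_iff hF h j hz).2 hj⟩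

/-- The scaled polynomial of the good points. -/
noncomputable def gpoly (Q : Biv) (F : ℂ → ℂ → ℂ) (z : ℂ) : Polynomial ℂ :=
  ∏ᶠ w ∈ gset Q F z, (X - C (Q.leadingCoeff.eval z * w))

open Classical in
theorem gpoly_eq {Q : Biv} {F : ℂ → ℂ → ℂ} (hF : Differentiable ℂ fun p : ℂ × ℂ => F p.1 p.2)
    {n : ℕ} {z₁ : ℂ} {r : ℝ} {φ : Fin n → ℂ → ℂ} (h : IsBranches Q n z₁ r φ)
    {z : ℂ} (hz : z ∈ ball z₁ r) :
    gpoly Q F z = ∏ j ∈ Finset.univ.filter (fun j => ∀ y ∈ ball z₁ r, F y (φ j y) = 0),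
      (X - C (Q.leadingCoeff.eval z * φ j z)) := by
  unfold gpoly
  rw [gset_eq hF h hz, finprod_mem_coe_finset, Finset.prod_image]
  intro i _ j _ hij
  exact h.inj z hz hij

/-- The identity theorem: an entire function of two variables which vanishes on a piece of an
irreducible algebraic curve vanishes on the whole curve (outside finitely many fibres). -/
theorem identity {Q : Biv} (hQ : Irreducible Q) (hd : Q.natDegree ≠ 0) {S : Set ℂ} (hS : S.Finite)
    (hbad : ∀ z ∉ S, (Q.leadingCoeff).eval z ≠ 0 ∧ ∀ w, ev Q z w = 0 → ev (dw Q) z w ≠ 0)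
    {F : ℂ → ℂ → ℂ} (hF : Differentiable ℂ fun p : ℂ × ℂ => F p.1 p.2) {z₁ w₁ : ℂ} (hz₁ : z₁ ∉ S)
    (h0 : ev Q z₁ w₁ = 0) (hg : Good Q F z₁ w₁) :
    ∀ z ∉ S, ∀ w, ev Q z w = 0 → F z w = 0 := by
  classical
  have hSo : IsOpen Sᶜ := hS.isClosed.isOpen_compl
  have loc : ∀ z ∉ S, ∃ (r : ℝ) (φ : Fin Q.natDegree → ℂ → ℂ),
      IsBranches Q Q.natDegree z r φ ∧ ball z r ⊆ Sᶜ := fun z hz =>
    exists_branches (hbad z hz).1 (hbad z hz).2 (hSo.mem_nhds hz)
  -- the number of good points is constant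
  have hpre : IsPreconnected (Sᶜ : Set ℂ) := preconn_compl hS.countable
  have hcont : ContinuousOn (fun z => (gpoly Q F z).natDegree) Sᶜ := by
    intro z hz
    obtain ⟨r, φ, hφ, -⟩ := loc z hz
    apply ContinuousAt.continuousWithinAt
    have : (fun z => (gpoly Q F z).natDegree) =ᶠ[𝓝 z] fun _ =>
        (Finset.univ.filter (fun j => ∀ y ∈ ball z r, F y (φ j y) = 0)).card := by
      filter_upwards [ball_mem_nhds z hφ.pos] with y hy
      rw [gpoly_eq hF hφ hy, natDegree_finset_prod_X_sub_C_eq_card]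
    exact continuousAt_const.congr this.symm
  have hconst : ∀ z ∉ S, (gpoly Q F z).natDegree = (gpoly Q F z₁).natDegree := fun z hz =>
    hpre.constant hcont hz hz₁
  have hpos : 0 < (gpoly Q F z₁).natDegree := by
    obtain ⟨r, φ, hφ, -⟩ := loc z₁ hz₁
    have hz : z₁ ∈ ball z₁ r := mem_ball_self hφ.pos
    rw [gpoly_eq hF hφ hz, natDegree_finset_prod_X_sub_C_eq_card, Finset.card_pos]
    obtain ⟨j, rfl⟩ := hφ.all z₁ hz w₁ h0
    exact ⟨j, Finset.mem_filter.2 ⟨Finset.mem_univ _, (good_iff hF hφ j hz).1 hg⟩⟩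
  -- the coefficients are polynomials
  obtain ⟨C₀, D, hC₀, hgrow⟩ := sum_growth Q
  have hcoef : ∀ k, ∃ p : Polynomial ℂ, ∀ z ∉ S, (gpoly Q F z).coeff k = p.eval z := by
    intro k
    apply poly_ext hS (C := (2 * C₀) ^ Q.natDegree) (D := D * Q.natDegree) ?_ (by positivity)
    · intro z hz
      obtain ⟨r, φ, hφ, -⟩ := loc z hz
      have e1 := gpoly_eq hF hφ (mem_ball_self hφ.pos)
      have hb := coeff_prod_bound
        (Finset.univ.filter (fun j => ∀ y ∈ ball z r, F y (φ j y) = 0))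
        (fun j => Q.leadingCoeff.eval z * φ j z) (H := C₀ * (1 + ‖z‖) ^ D)
        (one_le_mul_of_one_le_of_one_le hC₀ (one_le_pow₀ (by linarith [norm_nonneg z])))
        (fun j _ => (root_bound Q (hφ.root j z (mem_ball_self hφ.pos)) hd).trans (hgrow z)) k
      rw [e1]
      refine hb.trans ?_
      have h1 : (1 : ℝ) ≤ 2 * (C₀ * (1 + ‖z‖) ^ D) := by
        have := one_le_mul_of_one_le_of_one_le hC₀
          (one_le_pow₀ (n := D) (show (1 : ℝ) ≤ 1 + ‖z‖ by linarith [norm_nonneg z]))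
        linarith
      calc (2 * (C₀ * (1 + ‖z‖) ^ D)) ^ (Finset.univ.filter
            (fun j => ∀ y ∈ ball z r, F y (φ j y) = 0)).card
          ≤ (2 * (C₀ * (1 + ‖z‖) ^ D)) ^ Q.natDegree := by
            apply pow_le_pow_right₀ h1
            refine (Finset.card_filter_le _ _).trans ?_
            rw [Finset.card_univ, Fintype.card_fin]
        _ = (2 * C₀) ^ Q.natDegree * (1 + ‖z‖) ^ (D * Q.natDegree) := by
            rw [← mul_assoc, mul_pow, ← pow_mul]
    · intro z hz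
      obtain ⟨r, φ, hφ, -⟩ := loc z hz
      have h1 := coeff_prod_analyticAt
        (Finset.univ.filter (fun j => ∀ y ∈ ball z r, F y (φ j y) = 0))
        (fun j y => Q.leadingCoeff.eval y * φ j y) (z₁ := z)
        (fun j _ => ((Polynomial.differentiable Q.leadingCoeff).analyticAt z).mul
          (hφ.an j z (mem_ball_self hφ.pos))) k
      refine h1.differentiableAt.congr_of_eventuallyEq ?_
      filter_upwards [ball_mem_nhds z hφ.pos] with y hy
      rw [gpoly_eq hF hφ hy]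
  choose p hp using hcoef
  set T : Biv := ∑ k ∈ Finset.range ((gpoly Q F z₁).natDegree + 1),
    C (p k) * (C Q.leadingCoeff * X) ^ k with hT
  have hTev : ∀ z ∉ S, ∀ w, ev T z w = (gpoly Q F z).eval (Q.leadingCoeff.eval z * w) := by
    intro z hz w
    rw [eval_eq_sum_range, hconst z hz, hT]
    unfold ev
    rw [evalEval_finsetSum]
    apply Finset.sum_congr rfl
    intro k _
    rw [evalEval_mul, evalEval_pow, evalEval_mul, evalEval_C, evalEval_C, evalEval_X, hp k z hz]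
  have hroot : ∀ z ∉ S, ∀ w, ev Q z w = 0 → (ev T z w = 0 ↔ Good Q F z w) := by
    intro z hz w hw
    obtain ⟨r, φ, hφ, -⟩ := loc z hz
    have hzz := mem_ball_self (x := z) hφ.pos
    rw [hTev z hz, gpoly_eq hF hφ hzz, eval_prod, Finset.prod_eq_zero_iff]
    obtain ⟨i, rfl⟩ := hφ.all z hzz w hw
    constructor
    · rintro ⟨j, hj, h1⟩
      rw [eval_sub, eval_X, eval_C, sub_eq_zero] at h1
      have h2 := mul_left_cancel₀ (hbad z hz).1 h1
      rw [h2]
      exact (good_iff hF hφ j hzz).2 (Finset.mem_filter.1 hj).2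
    · intro h1
      exact ⟨i, Finset.mem_filter.2 ⟨Finset.mem_univ _, (good_iff hF hφ i hzz).1 h1⟩, by simp⟩
  have hdvd : Q ∣ T := by
    apply dvd_of_infinite hQ hd
    have hinf : (Sᶜ : Set ℂ).Infinite := hS.infinite_compl
    refine hinf.mono ?_
    intro z hz
    obtain ⟨r, φ, hφ, -⟩ := loc z hz
    have hzz := mem_ball_self (x := z) hφ.pos
    have h1 : 0 < (gpoly Q F z).natDegree := by rw [hconst z hz]; exact hpos
    rw [gpoly_eq hF hφ hzz, natDegree_finset_prod_X_sub_C_eq_card, Finset.card_pos] at h1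
    obtain ⟨j, hj⟩ := h1
    refine ⟨φ j z, hφ.root j z hzz, ?_⟩
    rw [hroot z hz _ (hφ.root j z hzz)]
    exact (good_iff hF hφ j hzz).2 (Finset.mem_filter.1 hj).2
  intro z hz w hw
  exact ((hroot z hz w hw).1 (ev_of_dvd hdvd hw)).self_of_nhds hw

end Pool.Agent.Stek
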