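import Pool.Agent.Lib.MP_bd8415_an.Alg.SmallProd

/-!
# Bounds for the slope
-/

open Polynomial Filter Topology Metric Set Complex

namespace Pool.Agent.Stek

/-- Branches on the ball of radius `‖z‖ / 2` around a far point `z`, and Cauchy's estimate. -/
private theorem lam_cauchy {Q : Biv} {S : Set ℂ} {α R : ℝ} (h : AtInf Q S α R) {z w : ℂ}
    (hz : 2 * R ≤ ‖z‖) (hw : ev Q z w = 0) {B : ℝ}
    (hB : ∀ f : ℂ → ℂ, ContinuousOn f (ball z (‖z‖ / 2)) → (∀ y ∈ ball z (‖z‖ / 2), R ≤ ‖y‖) →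
      (∀ y ∈ ball z (‖z‖ / 2), ev Q y (f y) = 0) → f z = w →
      ∀ y ∈ sphere z (‖z‖ / 4), ‖f y‖ ≤ B) :
    ‖lam Q z w‖ ≤ B / (‖z‖ / 4) := by
  have hR := h.hR
  have hz0 : 0 < ‖z‖ := by linarith
  have hzA : z ∈ ball z (‖z‖ / 2) := mem_ball_self (by linarith)
  have hAR : ∀ y ∈ ball z (‖z‖ / 2), R ≤ ‖y‖ := by
    intro y hy
    rw [mem_ball, dist_eq_norm] at hy
    have h1 : ‖z‖ ≤ ‖y‖ + ‖y - z‖ := by
      have h2 : ‖y - (y - z)‖ ≤ ‖y‖ + ‖y - z‖ := norm_sub_le _ _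
      have h3 : y - (y - z) = z := by ring
      rwa [h3] at h2
    linarith
  obtain ⟨φ, hφ⟩ := exists_br h.curve isOpen_ball (convex_ball z (‖z‖ / 2)) ⟨z, hzA⟩
    (fun y hy => h.notMem (hAR y hy))
  obtain ⟨j, hj⟩ := hφ.all z hzA w hw
  have hder : deriv (φ j) z = lam Q z w := by
    rw [hφ.deriv_eq isOpen_ball j hzA, ← hj]
    rw [← hj]
    exact h.curve.simple z (h.notMem (hAR z hzA)) w hw
  rw [← hder]
  have hsub : closedBall z (‖z‖ / 4) ⊆ ball z (‖z‖ / 2) := closedBall_subset_ball (by linarith)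
  have hd : DiffContOnCl ℂ (φ j) (ball z (‖z‖ / 4)) := by
    have h1 : DifferentiableOn ℂ (φ j) (ball z (‖z‖ / 2)) := (hφ.an j).differentiableOn
    exact (h1.mono hsub).diffContOnCl_ball subset_rfl
  exact Complex.norm_deriv_le_of_forall_mem_sphere_norm_le (by linarith) hd
    (hB (φ j) (hφ.an j).continuousOn hAR (hφ.root j) hj.symm)

/-- Proof sketch: on the ball `A = ball z (‖z‖ / 2)` we have `‖z‖ / 2 < ‖y‖`, so `A` avoids `S` and lies in
`{R ≤ ‖y‖}`; take branches on `A` (`exists_br`) and `j` with `φ j z = w` (`IsBr.all`). By `small_all` the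
branch is small on `A`: `‖φ j y‖ ≤ α ‖y‖ ≤ 5/4 ‖z‖` for `‖y - z‖ ≤ ‖z‖ / 4`; Cauchy's estimate on the circle of
radius `‖z‖ / 4` (`Complex.norm_deriv_le_of_forall_mem_sphere_norm_le`) gives
`‖deriv (φ j) z‖ ≤ 5`, and `deriv (φ j) z = lam Q z w` by `IsBr.deriv_eq`. -/
theorem lam_bound_small {Q : Biv} {S : Set ℂ} {α R : ℝ} (h : AtInf Q S α R) :
    ∀ z w, 2 * R ≤ ‖z‖ → ev Q z w = 0 → ‖w‖ ≤ α * ‖z‖ → ‖lam Q z w‖ ≤ 5 := by
  intro z w hz hw hs
  have hR := h.hR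
  have hα0 := h.hα0
  have hα1 := h.hα1
  have hz0 : 0 < ‖z‖ := by linarith
  have key := lam_cauchy h hz hw (B := 5 / 4 * ‖z‖) ?_
  · refine key.trans (le_of_eq ?_)
    field_simp
  · intro f hf hAR hroot hfz y hy
    have hyA : y ∈ ball z (‖z‖ / 2) := by
      rw [mem_sphere] at hy
      rw [mem_ball, hy]
      linarith
    have hsm := small_all h (convex_ball z (‖z‖ / 2)).isPreconnected hAR hf hroot
      (mem_ball_self (by linarith)) (by rw [hfz]; exact hs) y hyA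
    have hyn : ‖y‖ ≤ 5 / 4 * ‖z‖ := by
      rw [mem_sphere, dist_eq_norm] at hy
      have h2 : ‖z + (y - z)‖ ≤ ‖z‖ + ‖y - z‖ := norm_add_le _ _
      have h3 : z + (y - z) = y := by ring
      rw [h3, hy] at h2
      linarith
    calc ‖f y‖ ≤ α * ‖y‖ := hsm
      _ ≤ 1 * ‖y‖ := by gcongr
      _ ≤ 5 / 4 * ‖z‖ := by rw [one_mul]; exact hyn

/-- A nonzero polynomial is bounded below near infinity. -/
private theorem poly_lower {p : Polynomial ℂ} (hp : p ≠ 0) :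
    ∃ c R₂ : ℝ, 0 < c ∧ ∀ z : ℂ, R₂ ≤ ‖z‖ → c ≤ ‖p.eval z‖ := by
  rcases le_or_gt p.degree 0 with hd | hd
  · have h1 : p = C (p.coeff 0) := eq_C_of_degree_le_zero hd
    have h2 : p.coeff 0 ≠ 0 := by
      intro h0
      rw [h0, C_0] at h1
      exact hp h1
    refine ⟨‖p.coeff 0‖, 0, norm_pos_iff.2 h2, fun z _ => ?_⟩
    rw [h1]
    simp
  · have h1 := Polynomial.tendsto_norm_atTop p hd
      (tendsto_comap : Tendsto (fun z : ℂ => ‖z‖) (comap (fun z : ℂ => ‖z‖) atTop) atTop)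
    have h2 := h1.eventually (eventually_ge_atTop 1)
    rw [Filter.eventually_comap] at h2
    obtain ⟨R₂, hR₂⟩ := Filter.eventually_atTop.1 h2
    exact ⟨1, R₂, one_pos, fun z hz => hR₂ ‖z‖ hz z rfl⟩

/-- Proof sketch: the same with the trivial bound for all roots: `root_bound` and `sum_growth` (file
Ident) bound `‖Q.leadingCoeff.eval z * w‖` by `C₀ (1 + ‖z‖) ^ D`, and `‖Q.leadingCoeff.eval z‖` is bounded
below by a positive constant for large `‖z‖` (nonzero polynomial: either a nonzero constant or it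
tends to infinity, `Polynomial.tendsto_norm_atTop`). -/
theorem lam_bound_all {Q : Biv} {S : Set ℂ} {α R : ℝ} (h : AtInf Q S α R) :
    ∃ (C : ℝ) (K : ℕ) (R₁ : ℝ), 0 < C ∧ 2 * R ≤ R₁ ∧
      ∀ z w, R₁ ≤ ‖z‖ → ev Q z w = 0 → ‖lam Q z w‖ ≤ C * ‖z‖ ^ K := by
  have hR := h.hR
  have hQ0 : Q.leadingCoeff ≠ 0 := leadingCoeff_ne_zero.2 h.curve.irr.ne_zero
  obtain ⟨c, R₂, hc, hlow⟩ := poly_lower hQ0
  obtain ⟨C₀, D, hC₀, hup⟩ := sum_growth Q
  refine ⟨4 * (C₀ * 3 ^ D / c), D, max (2 * R) (2 * R₂), by positivity, le_max_left _ _, ?_⟩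
  intro z w hz hw
  have hz1 : 2 * R ≤ ‖z‖ := (le_max_left _ _).trans hz
  have hz2 : 2 * R₂ ≤ ‖z‖ := (le_max_right _ _).trans hz
  have hz0 : 0 < ‖z‖ := by linarith
  have key := lam_cauchy h hz1 hw (B := C₀ * 3 ^ D / c * ‖z‖ ^ D) ?_
  · refine key.trans ?_
    have h1 : C₀ * 3 ^ D / c * ‖z‖ ^ D / (‖z‖ / 4) = 4 * (C₀ * 3 ^ D / c) * ‖z‖ ^ D / ‖z‖ := by
      field_simp
    rw [h1]
    apply div_le_self (by positivity)
    linarith
  · intro f hf hAR hroot hfz y hy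
    have hyA : y ∈ ball z (‖z‖ / 2) := by
      rw [mem_sphere] at hy
      rw [mem_ball, hy]
      linarith
    rw [mem_sphere, dist_eq_norm] at hy
    have hyn : ‖y‖ ≤ 5 / 4 * ‖z‖ := by
      have h2 : ‖z + (y - z)‖ ≤ ‖z‖ + ‖y - z‖ := norm_add_le _ _
      have h3 : z + (y - z) = y := by ring
      rw [h3, hy] at h2
      linarith
    have hyl : R₂ ≤ ‖y‖ := by
      have h2 : ‖y - (y - z)‖ ≤ ‖y‖ + ‖y - z‖ := norm_sub_le _ _
      have h3 : y - (y - z) = z := by ring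
      rw [h3, hy] at h2
      linarith
    have h1 := root_bound Q (hroot y hyA) h.curve.deg
    have h2 := h1.trans (hup y)
    rw [norm_mul] at h2
    have h3 : c * ‖f y‖ ≤ ‖eval y Q.leadingCoeff‖ * ‖f y‖ := by
      gcongr
      exact hlow y hyl
    have h4 : (1 + ‖y‖) ^ D ≤ (3 * ‖z‖) ^ D := by
      gcongr
      linarith
    have h5 : c * ‖f y‖ ≤ C₀ * (3 * ‖z‖) ^ D := (h3.trans h2).trans (by gcongr)
    rw [mul_pow] at h5
    have h6 : C₀ * 3 ^ D / c * ‖z‖ ^ D = (C₀ * (3 ^ D * ‖z‖ ^ D)) / c := by ring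
    rw [h6, le_div_iff₀ hc]
    linarith

end Pool.Agent.Stek
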