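import Mathlib

/-!
# Analytic functions of polynomial growth near infinity
-/

open Polynomial Filter Topology Metric Set Complex

namespace Pool.Agent.Stek

private theorem li_ball {R : ℝ} (hR : 0 < R) {z : ℂ} (hz : R < ‖z‖) :
    z⁻¹ ∈ ball (0 : ℂ) (1 / R) := by
  rw [mem_ball_zero_iff, norm_inv, one_div]
  exact inv_strictAnti₀ hR hz

private theorem li_inv {R : ℝ} {t : ℂ} (ht : t ∈ ball (0 : ℂ) (1 / R)) (h0 : t ≠ 0) :
    R < ‖t⁻¹‖ := by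
  rw [mem_ball_zero_iff] at ht
  have h1 : 0 < ‖t‖ := norm_pos_iff.2 h0
  rw [norm_inv]
  by_cases hR : 0 < R
  · rw [lt_inv_comm₀ hR h1, ← one_div]
    exact ht
  · exact lt_of_le_of_lt (not_lt.1 hR) (inv_pos.2 h1)

private theorem li_ext {F : ℂ → ℂ} {R C : ℝ} {K : ℕ} (hR : 0 < R)
    (hF : DifferentiableOn ℂ F {z : ℂ | R < ‖z‖})
    (hb : ∀ z : ℂ, R < ‖z‖ → ‖F z‖ ≤ C * ‖z‖ ^ K) :
    ∃ g : ℂ → ℂ, DifferentiableOn ℂ g (ball (0 : ℂ) (1 / R)) ∧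
      ∀ z : ℂ, R < ‖z‖ → F z = z ^ K * g z⁻¹ := by
  have hR' : (0 : ℝ) < 1 / R := one_div_pos.2 hR
  have hopen : IsOpen {z : ℂ | R < ‖z‖} := isOpen_lt continuous_const continuous_norm
  have hd : DifferentiableOn ℂ (fun t : ℂ => t ^ K * F t⁻¹) (ball (0 : ℂ) (1 / R) \ {0}) := by
    intro t ht
    have h0 : t ≠ 0 := ht.2
    have h1 : R < ‖t⁻¹‖ := li_inv ht.1 h0
    have h2 : DifferentiableAt ℂ F t⁻¹ := (hF t⁻¹ h1).differentiableAt (hopen.mem_nhds h1)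
    have h3 : DifferentiableAt ℂ (fun t : ℂ => t⁻¹) t := differentiableAt_inv h0
    exact ((differentiableAt_id.pow K).mul (h2.comp t h3)).differentiableWithinAt
  have hbd : BddAbove (norm ∘ (fun t : ℂ => t ^ K * F t⁻¹) '' (ball (0 : ℂ) (1 / R) \ {0})) := by
    refine ⟨C, ?_⟩
    rintro _ ⟨t, ht, rfl⟩
    have h0 : t ≠ 0 := ht.2
    have h1 : R < ‖t⁻¹‖ := li_inv ht.1 h0
    have h2 := hb t⁻¹ h1
    have h3 : 0 < ‖t‖ := norm_pos_iff.2 h0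
    simp only [Function.comp_apply, norm_mul, norm_pow]
    calc ‖t‖ ^ K * ‖F t⁻¹‖ ≤ ‖t‖ ^ K * (C * ‖t⁻¹‖ ^ K) :=
          mul_le_mul_of_nonneg_left h2 (pow_nonneg h3.le K)
      _ = C := by
          rw [norm_inv, inv_pow]
          field_simp
  refine ⟨_, Complex.differentiableOn_update_limUnder_of_bddAbove
    (isOpen_ball.mem_nhds (mem_ball_self hR')) hd hbd, ?_⟩
  intro z hz
  have hz0 : z ≠ 0 := by
    rintro rfl
    rw [norm_zero] at hz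
    exact absurd hz (not_lt.2 hR.le)
  rw [Function.update_of_ne (inv_ne_zero hz0)]
  simp only [inv_inv]
  rw [← mul_assoc, ← mul_pow, mul_inv_cancel₀ hz0, one_pow, one_mul]

/-- a function of `1 / z` which is analytic at infinity -/
private theorem li_deriv {g F : ℂ → ℂ} {R : ℝ} (hR : 0 < R)
    (hg : DifferentiableOn ℂ g (ball (0 : ℂ) (1 / R)))
    (hF : ∀ z : ℂ, R < ‖z‖ → F z = g z⁻¹) :
    ∃ C' : ℝ, ∀ z : ℂ, 2 * R ≤ ‖z‖ → ‖F z‖ ≤ C' ∧ ‖deriv F z‖ ≤ C' / ‖z‖ ^ 2 := by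
  have hopen : IsOpen {z : ℂ | R < ‖z‖} := isOpen_lt continuous_const continuous_norm
  have hsub : closedBall (0 : ℂ) (1 / (2 * R)) ⊆ ball (0 : ℂ) (1 / R) := by
    refine closedBall_subset_ball ?_
    exact one_div_lt_one_div_of_lt hR (by linarith)
  obtain ⟨C1, hC1⟩ := (isCompact_closedBall (0 : ℂ) (1 / (2 * R))).exists_bound_of_continuousOn
    (hg.continuousOn.mono hsub)
  obtain ⟨C2, hC2⟩ := (isCompact_closedBall (0 : ℂ) (1 / (2 * R))).exists_bound_of_continuousOn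
    ((hg.deriv isOpen_ball).continuousOn.mono hsub)
  refine ⟨max C1 C2, fun z hz => ?_⟩
  have hz1 : R < ‖z‖ := by linarith
  have hzp : 0 < ‖z‖ := hR.trans hz1
  have hz0 : z ≠ 0 := norm_pos_iff.1 hzp
  have hzi : z⁻¹ ∈ closedBall (0 : ℂ) (1 / (2 * R)) := by
    rw [mem_closedBall_zero_iff, norm_inv, one_div]
    exact inv_anti₀ (by linarith) hz
  have h1 : HasDerivAt F (deriv g z⁻¹ * (-(z ^ 2)⁻¹)) z := by
    have h2 : HasDerivAt g (deriv g z⁻¹) z⁻¹ :=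
      ((hg z⁻¹ (hsub hzi)).differentiableAt (isOpen_ball.mem_nhds (hsub hzi))).hasDerivAt
    have h3 : HasDerivAt (fun w : ℂ => w⁻¹) (-(z ^ 2)⁻¹) z := hasDerivAt_inv hz0
    have h4 : HasDerivAt (fun w : ℂ => g w⁻¹) (deriv g z⁻¹ * (-(z ^ 2)⁻¹)) z := h2.comp z h3
    refine h4.congr_of_eventuallyEq ?_
    filter_upwards [hopen.mem_nhds hz1] with w hw
    exact hF w hw
  constructor
  · rw [hF z hz1]
    exact (hC1 _ hzi).trans (le_max_left _ _)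
  · rw [h1.deriv, norm_mul, norm_neg, norm_inv, norm_pow, div_eq_mul_inv]
    exact mul_le_mul_of_nonneg_right ((hC2 _ hzi).trans (le_max_right _ _)) (by positivity)

/-- Proof sketch: `g t = t ^ (K + 1) * F (1 / t)` is bounded on the punctured disc `0 < |t| < 1 / R`, so
it extends analytically over `0` (removable singularity); its order at `0` is either infinite (then
`F = 0` near infinity, hence everywhere: `{z | R < ‖z‖}` is preconnected) or a natural number `m`, and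
then `‖g t‖` is comparable to `‖t‖ ^ m`; put `E = K + 1 - m`. -/
theorem laurent_infinity {F : ℂ → ℂ} {R C : ℝ} {K : ℕ} (hR : 0 < R)
    (hF : DifferentiableOn ℂ F {z : ℂ | R < ‖z‖})
    (hb : ∀ z : ℂ, R < ‖z‖ → ‖F z‖ ≤ C * ‖z‖ ^ K) :
    (∀ z : ℂ, R < ‖z‖ → F z = 0) ∨
    ∃ (E : ℤ) (c C' R' : ℝ), 0 < c ∧ 0 < C' ∧ R < R' ∧
      ∀ z : ℂ, R' ≤ ‖z‖ → c * ‖z‖ ^ E ≤ ‖F z‖ ∧ ‖F z‖ ≤ C' * ‖z‖ ^ E := by
  obtain ⟨g, hg, hFg⟩ := li_ext hR hF hb
  have hR' : (0 : ℝ) < 1 / R := one_div_pos.2 hR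
  have h0 : (0 : ℂ) ∈ ball (0 : ℂ) (1 / R) := mem_ball_self hR'
  have han : AnalyticOnNhd ℂ g (ball (0 : ℂ) (1 / R)) := hg.analyticOnNhd isOpen_ball
  by_cases hz : ∀ᶠ t in 𝓝 (0 : ℂ), g t = 0
  · left
    intro z hz1
    have h1 : Set.EqOn g 0 (ball (0 : ℂ) (1 / R)) :=
      han.eqOn_zero_of_preconnected_of_eventuallyEq_zero
        (convex_ball (0 : ℂ) (1 / R)).isPreconnected h0 hz
    rw [hFg z hz1, h1 (li_ball hR hz1)]
    simp
  · right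
    obtain ⟨m, h, hh, hh0, hev⟩ := (han 0 h0).exists_eventuallyEq_pow_smul_nonzero_iff.2 hz
    have hp : 0 < ‖h 0‖ := norm_pos_iff.2 hh0
    have h1 : ∀ᶠ t in 𝓝 (0 : ℂ), ‖h 0‖ / 2 < ‖h t‖ :=
      hh.continuousAt.norm.eventually_const_lt (by linarith)
    have h2 : ∀ᶠ t in 𝓝 (0 : ℂ), ‖h t‖ < 2 * ‖h 0‖ :=
      hh.continuousAt.norm.eventually_lt_const (by linarith)
    obtain ⟨ε, hε, hball⟩ := Metric.eventually_nhds_iff_ball.1 (hev.and (h1.and h2))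
    refine ⟨(K : ℤ) - m, ‖h 0‖ / 2, 2 * ‖h 0‖, max (R + 1) (ε⁻¹ + 1), by linarith, by linarith,
      lt_of_lt_of_le (by linarith) (le_max_left _ _), fun z hz1 => ?_⟩
    have hz2 : R < ‖z‖ := by linarith [le_max_left (R + 1) (ε⁻¹ + 1)]
    have hz3 : ε⁻¹ < ‖z‖ := by linarith [le_max_right (R + 1) (ε⁻¹ + 1)]
    have hzp : 0 < ‖z‖ := hR.trans hz2
    have hz0 : z ≠ 0 := norm_pos_iff.1 hzp
    have hzε : z⁻¹ ∈ ball (0 : ℂ) ε := by
      rw [mem_ball_zero_iff, norm_inv]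
      exact inv_lt_of_inv_lt₀ hε hz3
    obtain ⟨e1, e2, e3⟩ := hball _ hzε
    have hN : ‖F z‖ = ‖z‖ ^ ((K : ℤ) - m) * ‖h z⁻¹‖ := by
      rw [hFg z hz2, e1, sub_zero, smul_eq_mul, norm_mul, norm_mul, norm_pow, norm_pow, norm_inv,
        zpow_sub₀ hzp.ne', zpow_natCast, zpow_natCast, inv_pow, div_eq_mul_inv, mul_assoc]
    have hE : 0 < ‖z‖ ^ ((K : ℤ) - m) := zpow_pos hzp _
    rw [hN]
    constructor
    · rw [mul_comm]
      exact mul_le_mul_of_nonneg_left e2.le hE.le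
    · rw [mul_comm (2 * ‖h 0‖)]
      exact mul_le_mul_of_nonneg_left e3.le hE.le

/-- Proof sketch: `g t = F (1 / t)` extends analytically over `0`, and `F' z = - g' (1 / z) / z ^ 2`. -/
theorem deriv_bound_infinity {F : ℂ → ℂ} {R C : ℝ} (hR : 0 < R)
    (hF : DifferentiableOn ℂ F {z : ℂ | R < ‖z‖}) (hb : ∀ z : ℂ, R < ‖z‖ → ‖F z‖ ≤ C) :
    ∃ C' : ℝ, ∀ z : ℂ, 2 * R ≤ ‖z‖ → ‖deriv F z‖ ≤ C' / ‖z‖ ^ 2 := by
  obtain ⟨g, hg, hFg⟩ := li_ext (K := 0) hR hF (fun z hz => by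
    rw [pow_zero, mul_one]; exact hb z hz)
  obtain ⟨C', hC'⟩ := li_deriv hR hg (F := F) (fun z hz => by
    rw [hFg z hz, pow_zero, one_mul])
  exact ⟨C', fun z hz => (hC' z hz).2⟩

/-- Proof sketch: `g t = t * F (1 / t)` is bounded, extends over `0`; `β = g 0`. If `β = 0` then
`g t = t * g₁ t`, `F z = g₁ (1 / z)` is bounded near infinity, and it is at most `α ‖z‖` elsewhere, so
`hunb` fails. In general `F z = β z + g₁ (1 / z)` with `g₁` analytic near `0`. -/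
theorem linear_at_infinity {F : ℂ → ℂ} {R α : ℝ} (hR : 0 < R)
    (hF : DifferentiableOn ℂ F {z : ℂ | R < ‖z‖}) (hb : ∀ z : ℂ, R < ‖z‖ → ‖F z‖ ≤ α * ‖z‖)
    (hunb : ∀ C : ℝ, ∃ z : ℂ, R < ‖z‖ ∧ C < ‖F z‖) :
    ∃ (β : ℂ) (C' R' : ℝ), β ≠ 0 ∧ R < R' ∧
      ∀ z : ℂ, R' ≤ ‖z‖ → ‖F z - β * z‖ ≤ C' ∧ ‖deriv F z - β‖ ≤ C' / ‖z‖ ^ 2 := by
  obtain ⟨g, hg, hFg⟩ := li_ext (K := 1) hR hF (fun z hz => by
    rw [pow_one]; exact hb z hz)
  have hR' : (0 : ℝ) < 1 / R := one_div_pos.2 hR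
  have hopen : IsOpen {z : ℂ | R < ‖z‖} := isOpen_lt continuous_const continuous_norm
  have h0 : (0 : ℂ) ∈ ball (0 : ℂ) (1 / R) := mem_ball_self hR'
  have hg1 : DifferentiableOn ℂ (dslope g 0) (ball (0 : ℂ) (1 / R)) :=
    (Complex.differentiableOn_dslope (isOpen_ball.mem_nhds h0)).2 hg
  have hF1 : ∀ z : ℂ, R < ‖z‖ → F z - g 0 * z = dslope g 0 z⁻¹ := by
    intro z hz
    have hz0 : z ≠ 0 := by
      rintro rfl
      rw [norm_zero] at hz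
      exact absurd hz (not_lt.2 hR.le)
    have h1 := sub_smul_dslope g 0 z⁻¹
    rw [sub_zero, smul_eq_mul] at h1
    rw [hFg z hz, pow_one]
    have h2 : g z⁻¹ = g 0 + z⁻¹ * dslope g 0 z⁻¹ := by rw [h1]; ring
    rw [h2, mul_add, ← mul_assoc, mul_inv_cancel₀ hz0]
    ring
  obtain ⟨C', hC'⟩ := li_deriv hR hg1 (F := fun z => F z - g 0 * z) hF1
  refine ⟨g 0, C', 2 * R, ?_, by linarith, fun z hz => ⟨(hC' z hz).1, ?_⟩⟩
  · intro hβ
    obtain ⟨z, hz, hzC⟩ := hunb (max C' (|α| * (2 * R)))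
    by_cases h2 : 2 * R ≤ ‖z‖
    · have h3 := (hC' z h2).1
      simp only [hβ, zero_mul, sub_zero] at h3
      have h4 := le_max_left C' (|α| * (2 * R))
      linarith
    · have h3 := hb z hz
      have h4 : α * ‖z‖ ≤ |α| * (2 * R) :=
        (mul_le_mul_of_nonneg_right (le_abs_self α) (norm_nonneg z)).trans
          (mul_le_mul_of_nonneg_left (not_le.1 h2).le (abs_nonneg α))
      have h5 := le_max_right C' (|α| * (2 * R))
      linarith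
  · have h1 := (hC' z hz).2
    have hz1 : R < ‖z‖ := by linarith
    have h2 : DifferentiableAt ℂ F z := (hF z hz1).differentiableAt (hopen.mem_nhds hz1)
    have h3 : HasDerivAt (fun z => F z - g 0 * z) (deriv F z - g 0 * 1) z :=
      h2.hasDerivAt.sub ((hasDerivAt_id z).const_mul (g 0))
    rw [h3.deriv, mul_one] at h1
    exact h1

end Pool.Agent.Stek
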