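import Pool.Agent.Lib.MP_bd8415_an.Alg.Ident2
import Pool.Agent.Lib.MP_bd8415_an.CsFinal2

/-!
# The boundary relation on an algebraic boundary arc
-/

open Polynomial Filter Topology Metric Set Complex

namespace Pool.Agent.Stek

/-- The continued relation. -/
noncomputable def FF (Q : Biv) (G : ℂ → ℂ) (σ : ℝ) (z w : ℂ) : ℂ :=
  (ev (dw Q) z w * deriv G z + ev (dz Q) z w * deriv (sh G) w) ^ 2 -
    (σ : ℂ) ^ 2 * (ev (dz Q) z w * ev (dw Q) z w) * (G z + sh G w) ^ 2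

theorem ev_differentiable (Q : Biv) : Differentiable ℂ (fun p : ℂ × ℂ => ev Q p.1 p.2) :=
  (contDiff_ev Q (n := 1)).differentiable (by simp)

theorem FF_differentiable (Q : Biv) {G : ℂ → ℂ} (hG : Differentiable ℂ G) (σ : ℝ) :
    Differentiable ℂ (fun p : ℂ × ℂ => FF Q G σ p.1 p.2) := by
  have hGd := deriv_differentiable hG
  have hsG := sh_differentiable hG
  have hsGd := deriv_differentiable hsG
  have a1 := ev_differentiable (dw Q)
  have a2 := ev_differentiable (dz Q)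
  have a3 : Differentiable ℂ (fun p : ℂ × ℂ => deriv G p.1) := hGd.comp differentiable_fst
  have a4 : Differentiable ℂ (fun p : ℂ × ℂ => deriv (sh G) p.2) := hsGd.comp differentiable_snd
  have a5 : Differentiable ℂ (fun p : ℂ × ℂ => G p.1) := hG.comp differentiable_fst
  have a6 : Differentiable ℂ (fun p : ℂ × ℂ => sh G p.2) := hsG.comp differentiable_snd
  unfold FF
  exact (((a1.mul a3).add (a2.mul a4)).pow 2).sub
    (((a2.mul a1).const_mul _).mul ((a5.add a6).pow 2))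

/-- The real derivative of `z ↦ Q(z, conj z)`. -/
theorem hasFDerivAt_diag (Q : Biv) (z : ℂ) :
    HasFDerivAt (fun w : ℂ => ev Q w ((starRingEnd ℂ) w))
      (ev (dz Q) z ((starRingEnd ℂ) z) • (ContinuousLinearMap.id ℝ ℂ) +
        ev (dw Q) z ((starRingEnd ℂ) z) • (Complex.conjCLE : ℂ →L[ℝ] ℂ)) z := by
  have h1 : HasFDerivAt (fun p : ℂ × ℂ => ev Q p.1 p.2)
      ((fderiv ℂ (fun p : ℂ × ℂ => ev Q p.1 p.2) (z, (starRingEnd ℂ) z)).restrictScalars ℝ)
      (z, (starRingEnd ℂ) z) :=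
    (ev_differentiable Q (z, (starRingEnd ℂ) z)).hasFDerivAt.restrictScalars ℝ
  have h2 : HasFDerivAt (fun w : ℂ => ((w, (starRingEnd ℂ) w) : ℂ × ℂ))
      ((ContinuousLinearMap.id ℝ ℂ).prod (Complex.conjCLE : ℂ →L[ℝ] ℂ)) z :=
    (hasFDerivAt_id z).prodMk (Complex.conjCLE : ℂ →L[ℝ] ℂ).hasFDerivAt
  have h3 := HasFDerivAt.comp z (g := fun p : ℂ × ℂ => ev Q p.1 p.2)
    (f := fun w : ℂ => ((w, (starRingEnd ℂ) w) : ℂ × ℂ)) h1 h2
  refine h3.congr_fderiv ?_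
  ext v
  simp [fderiv_ev]

/-- At a nonisolated zero of `ρ` and of `Q(z, conj z)` the two have a common tangent direction. -/
theorem exists_dir (Q : Biv) {ρ : ℂ → ℝ} {z : ℂ} (hρ : DifferentiableAt ℝ ρ z)
    (hfr : ∃ᶠ w in 𝓝[≠] z, ρ w = 0 ∧ ev Q w ((starRingEnd ℂ) w) = 0) :
    ∃ τ : ℂ, τ ≠ 0 ∧ fderiv ℝ ρ z τ = 0 ∧
      ev (dz Q) z ((starRingEnd ℂ) z) * τ + ev (dw Q) z ((starRingEnd ℂ) z) * (starRingEnd ℂ) τ = 0 := by
  by_contra hcon
  push Not at hcon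
  set M : ℂ →L[ℝ] ℂ := ev (dz Q) z ((starRingEnd ℂ) z) • (ContinuousLinearMap.id ℝ ℂ) +
        ev (dw Q) z ((starRingEnd ℂ) z) • (Complex.conjCLE : ℂ →L[ℝ] ℂ) with hM
  have hL : HasFDerivAt (fun w : ℂ => ((ρ w, ev Q w ((starRingEnd ℂ) w)) : ℝ × ℂ))
      ((fderiv ℝ ρ z).prod M) z := hρ.hasFDerivAt.prodMk (hasFDerivAt_diag Q z)
  have hker : LinearMap.ker (((fderiv ℝ ρ z).prod M : ℂ →L[ℝ] ℝ × ℂ) : ℂ →ₗ[ℝ] ℝ × ℂ) = ⊥ := by
    rw [LinearMap.ker_eq_bot']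
    intro τ hτ
    by_contra hne
    have h1 : fderiv ℝ ρ z τ = 0 := congrArg Prod.fst hτ
    have h2 : M τ = 0 := congrArg Prod.snd hτ
    apply hcon τ hne h1
    rw [hM] at h2
    simpa using h2
  obtain ⟨K, -, hK⟩ := LinearMap.exists_antilipschitzWith
    (((fderiv ℝ ρ z).prod M : ℂ →L[ℝ] ℝ × ℂ) : ℂ →ₗ[ℝ] ℝ × ℂ) hker
  have h1 := hL.eventually_ne (c := (0, 0)) ⟨K, hK⟩
  apply hfr
  filter_upwards [h1] with w hw h2
  apply hw
  rw [h2.1, h2.2]

/-- The relation at a boundary point. -/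
theorem FF_boundary (Q : Biv) {ρ : ℂ → ℝ} {z : ℂ} (hρ : DifferentiableAt ℝ ρ z)
    (hg : grad ρ z ≠ 0)
    (hfr : ∃ᶠ w in 𝓝[≠] z, ρ w = 0 ∧ ev Q w ((starRingEnd ℂ) w) = 0)
    {G : ℂ → ℂ} (hG : Differentiable ℂ G) {σ : ℝ}
    (hbc : (deriv G z * grad ρ z).re = σ * (G z).re * ‖grad ρ z‖) :
    FF Q G σ z ((starRingEnd ℂ) z) = 0 := by
  obtain ⟨τ, hτ0, hτ1, hτ2⟩ := exists_dir Q hρ hfr
  set g := grad ρ z with hgdef
  set A := ev (dz Q) z ((starRingEnd ℂ) z) with hA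
  set B := ev (dw Q) z ((starRingEnd ℂ) z) with hB
  -- `τ` is orthogonal to `g`
  have hτg : (starRingEnd ℂ) τ * g = - (τ * (starRingEnd ℂ) g) := by
    rw [fderiv_eq_grad, ← hgdef] at hτ1
    apply Complex.ext
    · simp only [Complex.mul_re, Complex.conj_re, Complex.conj_im, Complex.neg_re]
      nlinarith [hτ1]
    · simp only [Complex.mul_im, Complex.conj_re, Complex.conj_im, Complex.neg_im]
      nlinarith [hτ1]
  have hAB : A * g = B * (starRingEnd ℂ) g := by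
    have h1 : τ * (A * g - B * (starRingEnd ℂ) g) = 0 := by
      linear_combination g * hτ2 - B * hτg
    have h2 := (mul_eq_zero.1 h1).resolve_left hτ0
    linear_combination h2
  -- the boundary condition
  set a := deriv G z with ha
  have h1 : a * g + (starRingEnd ℂ) a * (starRingEnd ℂ) g =
      σ * (G z + (starRingEnd ℂ) (G z)) * ‖g‖ := by
    have e1 : a * g + (starRingEnd ℂ) a * (starRingEnd ℂ) g = ((2 * (a * g).re : ℝ) : ℂ) := by
      rw [← map_mul, Complex.add_conj]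
    have e2 : G z + (starRingEnd ℂ) (G z) = ((2 * (G z).re : ℝ) : ℂ) := Complex.add_conj _
    rw [e1, e2, hbc]
    push_cast
    ring
  have h2 : g * (starRingEnd ℂ) g = (‖g‖ : ℂ) ^ 2 := by
    rw [Complex.mul_conj, Complex.normSq_eq_norm_sq]
    push_cast
    rfl
  have e3 : deriv (sh G) ((starRingEnd ℂ) z) = (starRingEnd ℂ) a := by
    rw [deriv_sh hG, Complex.conj_conj]
  have e4 : sh G ((starRingEnd ℂ) z) = (starRingEnd ℂ) (G z) := by
    rw [sh, Complex.conj_conj]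
  have h3 : g ^ 2 * FF Q G σ z ((starRingEnd ℂ) z) = 0 := by
    unfold FF
    rw [← hA, ← hB, ← ha, e3, e4]
    have h4 : g * (B * a + A * (starRingEnd ℂ) a) =
        B * (σ * (G z + (starRingEnd ℂ) (G z)) * ‖g‖) := by
      rw [← h1]
      linear_combination (starRingEnd ℂ) a * hAB
    have h5 : g ^ 2 * (A * B) = B ^ 2 * (‖g‖ : ℂ) ^ 2 := by
      rw [← h2]
      linear_combination g * B * hAB
    linear_combination (g * (B * a + A * (starRingEnd ℂ) a) +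
        B * (σ * (G z + (starRingEnd ℂ) (G z)) * ‖g‖)) * h4 -
      (σ : ℂ) ^ 2 * (G z + (starRingEnd ℂ) (G z)) ^ 2 * h5
  exact (mul_eq_zero.1 h3).resolve_left (pow_ne_zero 2 hg)

end Pool.Agent.Stek
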