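import Pool.Agent.Lib.MP_bd8415_an.Alg.Defs2

/-!
# The curve is not invariant under translations in `w`
-/

open Polynomial Filter Topology Metric Set Complex

namespace Pool.Agent.Stek

/-- Proof sketch: `Q' = Q.comp (X + C (C c))` has `ev Q' z w = ev Q z (w + c)`, the same `natDegree` and
the same leading coefficient as `Q`. By `dvd_of_infinite` (file Bezout) `Q ∣ Q'`, so `Q' = Q` (compare
degrees and leading coefficients). Hence for `z ∉ S` and a root `w` of `Q(z,·)` (exists: `exists_roots`,
file Branches, the degree is positive) all `w + k c`, `k : ℕ`, are roots: contradiction to finiteness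
(`sp Q z ≠ 0` by `sp_ne_zero`). -/
theorem no_translate {Q : Biv} {S : Set ℂ} (h : Curve Q S) {c : ℂ} (hc : c ≠ 0) {B : Set ℂ}
    (hB : B.Infinite) {f : ℂ → ℂ} (h1 : ∀ z ∈ B, ev Q z (f z) = 0)
    (h2 : ∀ z ∈ B, ev Q z (f z + c) = 0) : False := by
  have hev : ∀ z w, ev (Q.comp (X + C (C c))) z w = ev Q z (w + c) := by
    intro z w
    unfold ev evalEval
    rw [eval_comp]
    simp
  have hdvd : Q ∣ Q.comp (X + C (C c)) := by
    apply dvd_of_infinite h.irr h.deg
    refine hB.mono ?_
    intro z hz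
    exact ⟨f z, h1 z hz, by rw [hev]; exact h2 z hz⟩
  obtain ⟨z, hz⟩ := h.fin.exists_notMem
  obtain ⟨u, -, hu⟩ := exists_roots (h.lead z hz) (h.simple z hz)
  have hpos : 0 < Q.natDegree := Nat.pos_of_ne_zero h.deg
  have hroot : ∀ k : ℕ, ev Q z (u ⟨0, hpos⟩ + k * c) = 0 := by
    intro k
    induction k with
    | zero => simpa using hu ⟨0, hpos⟩
    | succ k ih =>
      have h3 := ev_of_dvd hdvd ih
      rw [hev] at h3
      push_cast
      rw [add_mul, one_mul, ← add_assoc]
      exact h3
  have hinf : (range fun k : ℕ => u ⟨0, hpos⟩ + k * c).Infinite := by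
    apply infinite_range_of_injective
    intro a b hab
    have h3 : (a : ℂ) * c = b * c := add_left_cancel hab
    exact_mod_cast mul_right_cancel₀ hc h3
  apply hinf
  refine ((sp Q z).rootSet_finite ℂ).subset ?_
  rintro _ ⟨k, rfl⟩
  rw [mem_rootSet]
  refine ⟨sp_ne_zero (h.lead z hz), ?_⟩
  rw [coe_aeval_eq_eval, sp_eval]
  exact hroot k

end Pool.Agent.Stek
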