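import Pool.Agent.Lib.MP_bd8415_an.Alg.LamBound
import Pool.Agent.Lib.MP_bd8415_an.Alg.Trans
import Pool.Agent.Lib.MP_bd8415_an.Alg.LaurentInf

/-!
# Different branches have different slopes, quantitatively
-/

open Polynomial Filter Topology Metric Set Complex

namespace Pool.Agent.Stek

/-- The discriminant of the slopes. -/
private noncomputable def slopeDisc (Q : Biv) (z : ℂ) : ℂ :=
  ∏ p ∈ (allRoots Q z).offDiag, (lam Q z p.1 - lam Q z p.2)

private theorem slope_ball {z y : ℂ} {R : ℝ} (hy : y ∈ ball z (‖z‖ - R)) : R < ‖y‖ := by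
  have h1 : ‖y - z‖ < ‖z‖ - R := by simpa [dist_eq_norm] using hy
  have h2 : ‖z‖ ≤ ‖y‖ + ‖y - z‖ := by
    calc ‖z‖ = ‖y - (y - z)‖ := by congr 1; ring
      _ ≤ ‖y‖ + ‖y - z‖ := norm_sub_le _ _
  linarith

private theorem slope_lam_diff {Q : Biv} {S : Set ℂ} (h : Curve Q S) {n : ℕ} {A : Set ℂ}
    {φ : Fin n → ℂ → ℂ} (hφ : IsBr Q n A φ) (hAS : ∀ z ∈ A, z ∉ S) (j : Fin n) {z : ℂ}
    (hz : z ∈ A) : DifferentiableAt ℂ (fun y => lam Q y (φ j y)) z := by
  have d1 : DifferentiableAt ℂ (fun y => ((y, φ j y) : ℂ × ℂ)) z :=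
    differentiableAt_id.prodMk (hφ.an j z hz).differentiableAt
  have d2 : DifferentiableAt ℂ (fun y => ev (dz Q) y (φ j y)) z :=
    DifferentiableAt.comp (g := fun p : ℂ × ℂ => ev (dz Q) p.1 p.2)
      (f := fun y => ((y, φ j y) : ℂ × ℂ)) z (ev_differentiable (dz Q) (z, φ j z)) d1
  have d3 : DifferentiableAt ℂ (fun y => ev (dw Q) y (φ j y)) z :=
    DifferentiableAt.comp (g := fun p : ℂ × ℂ => ev (dw Q) p.1 p.2)
      (f := fun y => ((y, φ j y) : ℂ × ℂ)) z (ev_differentiable (dw Q) (z, φ j z)) d1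
  exact d2.neg.div d3 (h.simple z (hAS z hz) _ (hφ.root j z hz))

private theorem slopeDisc_eq {Q : Biv} {S : Set ℂ} (h : Curve Q S) {n : ℕ} {A : Set ℂ}
    {φ : Fin n → ℂ → ℂ} (hφ : IsBr Q n A φ) (hAS : ∀ z ∈ A, z ∉ S) {z : ℂ} (hz : z ∈ A) :
    slopeDisc Q z = ∏ p ∈ (Finset.univ : Finset (Fin n)).offDiag,
      (lam Q z (φ p.1 z) - lam Q z (φ p.2 z)) := by
  symm
  unfold slopeDisc
  refine Finset.prod_nbij (fun p => (φ p.1 z, φ p.2 z)) ?_ ?_ ?_ ?_
  · rintro ⟨i, j⟩ hij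
    rw [Finset.mem_offDiag] at hij ⊢
    refine ⟨(mem_allRoots h (hAS z hz)).2 (hφ.root i z hz),
      (mem_allRoots h (hAS z hz)).2 (hφ.root j z hz), fun he => hij.2.2 (hφ.inj z hz he)⟩
  · rintro ⟨i, j⟩ - ⟨i', j'⟩ - he
    simp only [Prod.mk.injEq] at he
    have e1 := hφ.inj z hz he.1
    have e2 := hφ.inj z hz he.2
    rw [e1, e2]
  · rintro ⟨w, w'⟩ hw
    rw [Finset.mem_coe, Finset.mem_offDiag] at hw
    obtain ⟨i, hi⟩ := hφ.all z hz w ((mem_allRoots h (hAS z hz)).1 hw.1)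
    obtain ⟨j, hj⟩ := hφ.all z hz w' ((mem_allRoots h (hAS z hz)).1 hw.2.1)
    refine ⟨(i, j), ?_, ?_⟩
    · rw [Finset.mem_coe, Finset.mem_offDiag]
      refine ⟨Finset.mem_univ _, Finset.mem_univ _, fun hij => ?_⟩
      simp only at hij
      apply hw.2.2
      show w = w'
      rw [hi, hj, hij]
    · simp only [hi, hj]
  · rintro ⟨i, j⟩ -
    rfl

private theorem slopeDisc_diff {Q : Biv} {S : Set ℂ} {α R : ℝ} (h : AtInf Q S α R) {z : ℂ}
    (hz : R < ‖z‖) : DifferentiableAt ℂ (slopeDisc Q) z := by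
  have hAS : ∀ y ∈ ball z (‖z‖ - R), y ∉ S := fun y hy => h.notMem (slope_ball hy).le
  have hz0 : z ∈ ball z (‖z‖ - R) := mem_ball_self (by linarith)
  obtain ⟨φ, hφ⟩ := exists_br h.curve isOpen_ball (convex_ball z (‖z‖ - R)) ⟨z, hz0⟩ hAS
  have e : slopeDisc Q =ᶠ[𝓝 z] fun y => ∏ p ∈ (Finset.univ : Finset (Fin Q.natDegree)).offDiag,
      (lam Q y (φ p.1 y) - lam Q y (φ p.2 y)) := by
    filter_upwards [isOpen_ball.mem_nhds hz0] with y hy
    exact slopeDisc_eq h.curve hφ hAS hy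
  refine DifferentiableAt.congr_of_eventuallyEq ?_ e
  refine DifferentiableAt.fun_finsetProd fun p _ => ?_
  exact (slope_lam_diff h.curve hφ hAS p.1 hz0).sub (slope_lam_diff h.curve hφ hAS p.2 hz0)

private theorem card_offDiag_le (Q : Biv) (z : ℂ) :
    (allRoots Q z).offDiag.card ≤ Q.natDegree * Q.natDegree := by
  have h1 : (allRoots Q z).card ≤ Q.natDegree := by
    classical
    unfold allRoots
    exact (Multiset.toFinset_card_le _).trans ((card_roots' _).trans (sp_natDegree_le Q z))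
  rw [Finset.offDiag_card]
  exact (Nat.sub_le _ _).trans (Nat.mul_le_mul h1 h1)

private theorem prod_bound {T : Finset (ℂ × ℂ)} {f : ℂ × ℂ → ℂ} {B : ℝ} {N : ℕ} (hB : 1 ≤ B)
    (hN : T.card ≤ N) (hf : ∀ p ∈ T, ‖f p‖ ≤ B) : ‖∏ p ∈ T, f p‖ ≤ B ^ N := by
  rw [norm_prod]
  calc ∏ p ∈ T, ‖f p‖ ≤ ∏ _p ∈ T, B := Finset.prod_le_prod (fun p _ => norm_nonneg _) hf
    _ = B ^ T.card := by rw [Finset.prod_const]
    _ ≤ B ^ N := pow_le_pow_right₀ hB hN

/-- Proof sketch: `D z = ∏ w ∈ allRoots Q z, ∏ w' ∈ (allRoots Q z).erase w, (lam Q z w - lam Q z w')`.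
On a ball in `{R < ‖z‖}` with branches `φ` it equals `∏ i, ∏ j ≠ i, (lam Q y (φ i y) - lam Q y (φ j y))`
(`allRoots` is the image of `φ`), so `D` is differentiable on `{R < ‖z‖}`; by `lam_bound_all` it is
polynomially bounded for `‖z‖ ≥ R₁`. By `laurent_infinity` (on `{R₁ < ‖z‖}`) either `D = 0` there or
`‖D z‖ ≥ c ‖z‖ ^ E`. In the first case, on a ball some factor `lam Q y (φ i y) - lam Q y (φ j y)` vanishes
identically (product of analytic functions on a connected set), so `φ i - φ j` has zero derivative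
(`IsBr.deriv_eq`) and is a constant `c ≠ 0` (`IsBr.inj`): contradiction to `no_translate`. In the second
case bound the other factors above by `lam_bound_all`. -/
theorem slope_sep {Q : Biv} {S : Set ℂ} {α R : ℝ} (h : AtInf Q S α R) :
    ∃ (c : ℝ) (K : ℕ) (R₁ : ℝ), 0 < c ∧ R < R₁ ∧
      ∀ z w w', R₁ ≤ ‖z‖ → ev Q z w = 0 → ev Q z w' = 0 → w ≠ w' →
        c ≤ ‖lam Q z w - lam Q z w'‖ * ‖z‖ ^ K := by
  obtain ⟨C₀, K, R₁, hC₀, hRR, hlam₀⟩ := lam_bound_all h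
  have hR1 : 1 ≤ R := h.hR
  have hR : R < R₁ := by linarith
  set C : ℝ := max C₀ 1 with hCdef
  have hC1 : 1 ≤ C := le_max_right _ _
  have hlam : ∀ z w, R₁ ≤ ‖z‖ → ev Q z w = 0 → ‖lam Q z w‖ ≤ C * ‖z‖ ^ K := by
    intro z w hz hw
    exact (hlam₀ z w hz hw).trans (mul_le_mul_of_nonneg_right (le_max_left _ _) (by positivity))
  have hB1 : ∀ z : ℂ, R₁ ≤ ‖z‖ → 1 ≤ 2 * C * ‖z‖ ^ K := by
    intro z hz
    have h1 : (1 : ℝ) ≤ ‖z‖ ^ K := one_le_pow₀ (by linarith)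
    nlinarith
  have hfac : ∀ z : ℂ, R₁ ≤ ‖z‖ → ∀ p ∈ (allRoots Q z).offDiag,
      ‖lam Q z p.1 - lam Q z p.2‖ ≤ 2 * C * ‖z‖ ^ K := by
    intro z hz p hp
    have hzS : z ∉ S := h.notMem (by linarith)
    rw [Finset.mem_offDiag] at hp
    have h1 := hlam z p.1 hz ((mem_allRoots h.curve hzS).1 hp.1)
    have h2 := hlam z p.2 hz ((mem_allRoots h.curve hzS).1 hp.2.1)
    calc ‖lam Q z p.1 - lam Q z p.2‖ ≤ ‖lam Q z p.1‖ + ‖lam Q z p.2‖ := norm_sub_le _ _
      _ ≤ 2 * C * ‖z‖ ^ K := by linarith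
  set N : ℕ := Q.natDegree * Q.natDegree with hN
  have hup : ∀ z : ℂ, R₁ < ‖z‖ → ‖slopeDisc Q z‖ ≤ (2 * C) ^ N * ‖z‖ ^ (K * N) := by
    intro z hz
    have hzS : z ∉ S := h.notMem (by linarith)
    have := prod_bound (hB1 z hz.le) (card_offDiag_le Q z) (hfac z hz.le)
    calc ‖slopeDisc Q z‖ ≤ (2 * C * ‖z‖ ^ K) ^ N := this
      _ = (2 * C) ^ N * ‖z‖ ^ (K * N) := by rw [mul_pow, ← pow_mul ‖z‖]
  have hdiff : DifferentiableOn ℂ (slopeDisc Q) {z : ℂ | R₁ < ‖z‖} := fun z hz =>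
    (slopeDisc_diff h (hR.trans hz)).differentiableWithinAt
  have hR₁0 : 0 < R₁ := by linarith
  rcases laurent_infinity hR₁0 hdiff hup with hzero | ⟨E, c, C', R', hc, -, hR', hlow⟩
  · exfalso
    set z₀ : ℂ := ((2 * R₁ : ℝ) : ℂ) with hz₀
    have hz₀n : ‖z₀‖ = 2 * R₁ := by
      rw [hz₀, Complex.norm_real, Real.norm_eq_abs, abs_of_pos (by linarith)]
    have hballR : ∀ y ∈ ball z₀ R₁, R₁ < ‖y‖ := by
      intro y hy
      apply slope_ball (z := z₀)
      rw [hz₀n]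
      have e : 2 * R₁ - R₁ = R₁ := by ring
      rwa [e]
    have hAS : ∀ y ∈ ball z₀ R₁, y ∉ S := fun y hy => h.notMem (by linarith [hballR y hy])
    have hz₀b : z₀ ∈ ball z₀ R₁ := mem_ball_self hR₁0
    obtain ⟨φ, hφ⟩ := exists_br h.curve isOpen_ball (convex_ball z₀ R₁) ⟨z₀, hz₀b⟩ hAS
    have hex : ∃ p ∈ (Finset.univ : Finset (Fin Q.natDegree)).offDiag,
        ∃ᶠ y in 𝓝[≠] z₀, lam Q y (φ p.1 y) - lam Q y (φ p.2 y) = 0 := by
      by_contra hcon
      push Not at hcon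
      have h1 : ∀ᶠ y in 𝓝[≠] z₀, ∀ p ∈ (Finset.univ : Finset (Fin Q.natDegree)).offDiag,
          lam Q y (φ p.1 y) - lam Q y (φ p.2 y) ≠ 0 := by
        rw [Finset.eventually_all]
        intro p hp
        exact hcon p hp
      have h2 : ∀ᶠ y in 𝓝[≠] z₀, y ∈ ball z₀ R₁ :=
        (isOpen_ball.mem_nhds hz₀b : ball z₀ R₁ ∈ 𝓝 z₀) |> mem_nhdsWithin_of_mem_nhds
      obtain ⟨y, hy1, hy2⟩ := (h1.and h2).exists
      have h3 := hzero y (hballR y hy2)
      rw [slopeDisc_eq h.curve hφ hAS hy2, Finset.prod_eq_zero_iff] at h3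
      obtain ⟨p, hp, hp0⟩ := h3
      exact hy1 p hp hp0
    obtain ⟨⟨i, j⟩, hij, hfr⟩ := hex
    rw [Finset.mem_offDiag] at hij
    have hne : i ≠ j := hij.2.2
    simp only at hfr
    have han : AnalyticOnNhd ℂ (fun y => lam Q y (φ i y) - lam Q y (φ j y)) (ball z₀ R₁) := by
      apply DifferentiableOn.analyticOnNhd _ isOpen_ball
      intro y hy
      exact ((slope_lam_diff h.curve hφ hAS i hy).sub
        (slope_lam_diff h.curve hφ hAS j hy)).differentiableWithinAt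
    have hid := han.eqOn_zero_of_preconnected_of_frequently_eq_zero
      (convex_ball z₀ R₁).isPreconnected hz₀b hfr
    have hd0 : (ball z₀ R₁).EqOn (deriv (fun y => φ i y - φ j y)) 0 := by
      intro y hy
      have di : DifferentiableAt ℂ (φ i) y := (hφ.an i y hy).differentiableAt
      have dj : DifferentiableAt ℂ (φ j) y := (hφ.an j y hy).differentiableAt
      have e1 : deriv (fun y => φ i y - φ j y) y = deriv (φ i) y - deriv (φ j) y :=
        deriv_fun_sub di dj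
      rw [e1, hφ.deriv_eq isOpen_ball i hy (h.curve.simple y (hAS y hy) _ (hφ.root i y hy)),
        hφ.deriv_eq isOpen_ball j hy (h.curve.simple y (hAS y hy) _ (hφ.root j y hy))]
      exact hid hy
    have hdo : DifferentiableOn ℂ (fun y => φ i y - φ j y) (ball z₀ R₁) := fun y hy =>
      ((hφ.an i y hy).differentiableAt.sub (hφ.an j y hy).differentiableAt).differentiableWithinAt
    have hconst : ∀ y ∈ ball z₀ R₁, φ i y - φ j y = φ i z₀ - φ j z₀ := fun y hy =>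
      isOpen_ball.is_const_of_deriv_eq_zero (convex_ball z₀ R₁).isPreconnected hdo hd0 hy hz₀b
    have hc0 : φ i z₀ - φ j z₀ ≠ 0 := fun h0 =>
      hne (hφ.inj z₀ hz₀b (sub_eq_zero.1 h0))
    refine no_translate h.curve hc0 (B := ball z₀ R₁)
      (infinite_of_mem_nhds z₀ (isOpen_ball.mem_nhds hz₀b)) (f := φ j)
      (fun y hy => hφ.root j y hy) ?_
    intro y hy
    rw [← hconst y hy]
    have e : φ j y + (φ i y - φ j y) = φ i y := by ring
    rw [e]
    exact hφ.root i y hy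
  · refine ⟨c / (2 * C) ^ N, K * N + E.natAbs, R', by positivity, hR.trans hR', ?_⟩
    intro z w w' hz hw hw' hne
    have hzR₁ : R₁ ≤ ‖z‖ := by linarith
    have hz1 : 1 ≤ ‖z‖ := by linarith
    have hz0 : 0 < ‖z‖ := by linarith
    have hzS : z ∉ S := h.notMem (by linarith)
    have hmem : (w, w') ∈ (allRoots Q z).offDiag := by
      rw [Finset.mem_offDiag]
      exact ⟨(mem_allRoots h.curve hzS).2 hw, (mem_allRoots h.curve hzS).2 hw', hne⟩
    have h1 := (hlow z hz).1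
    have h2 : slopeDisc Q z = (lam Q z w - lam Q z w') *
        ∏ p ∈ (allRoots Q z).offDiag.erase (w, w'), (lam Q z p.1 - lam Q z p.2) := by
      unfold slopeDisc
      exact (Finset.mul_prod_erase _ (fun p : ℂ × ℂ => lam Q z p.1 - lam Q z p.2) hmem).symm
    have h3 := prod_bound (T := (allRoots Q z).offDiag.erase (w, w')) (hB1 z hzR₁)
      ((Finset.card_le_card (Finset.erase_subset _ _)).trans (card_offDiag_le Q z))
      (fun p hp => hfac z hzR₁ p (Finset.mem_of_mem_erase hp))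
    rw [h2, norm_mul] at h1
    have h4 : c * ‖z‖ ^ E ≤ ‖lam Q z w - lam Q z w'‖ * ((2 * C) ^ N * ‖z‖ ^ (K * N)) := by
      refine h1.trans (mul_le_mul_of_nonneg_left ?_ (norm_nonneg _))
      calc _ ≤ (2 * C * ‖z‖ ^ K) ^ N := h3
        _ = (2 * C) ^ N * ‖z‖ ^ (K * N) := by rw [mul_pow, ← pow_mul ‖z‖]
    have h5 : (1 : ℝ) ≤ ‖z‖ ^ E * ‖z‖ ^ E.natAbs := by
      have e : ‖z‖ ^ E * ‖z‖ ^ E.natAbs = ‖z‖ ^ (E + (E.natAbs : ℤ)) := by
        rw [zpow_add₀ hz0.ne', zpow_natCast]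
      rw [e]
      apply one_le_zpow₀ hz1
      omega
    rw [div_le_iff₀ (by positivity)]
    calc c = c * 1 := (mul_one c).symm
      _ ≤ c * (‖z‖ ^ E * ‖z‖ ^ E.natAbs) := mul_le_mul_of_nonneg_left h5 hc.le
      _ = (c * ‖z‖ ^ E) * ‖z‖ ^ E.natAbs := by ring
      _ ≤ (‖lam Q z w - lam Q z w'‖ * ((2 * C) ^ N * ‖z‖ ^ (K * N))) * ‖z‖ ^ E.natAbs :=
        mul_le_mul_of_nonneg_right h4 (by positivity)
      _ = ‖lam Q z w - lam Q z w'‖ * ‖z‖ ^ (K * N + E.natAbs) * (2 * C) ^ N := by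
        rw [pow_add]; ring

end Pool.Agent.Stek
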