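import Pool.Agent.Lib.MP_bd8415_an.Alg.Cover
import Pool.Agent.Lib.MP_bd8415_an.CsTop

/-!
# Symmetric functions of the small roots
-/

open Polynomial Filter Topology Metric Set Complex

namespace Pool.Agent.Stek

/-- On a preconnected set of points `|z| > R`, a continuous branch is small everywhere or nowhere.
Proof sketch: by `h.sep` each value satisfies `‖φ z‖ ≤ α ‖z‖` or `‖z‖ ≤ α ‖φ z‖`; these are relatively
closed and disjoint (`α < 1`, `z ≠ 0`). -/
theorem small_all {Q : Biv} {S : Set ℂ} {α R : ℝ} (h : AtInf Q S α R) {A : Set ℂ}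
    (hA : IsPreconnected A) (hAR : ∀ z ∈ A, R ≤ ‖z‖) {f : ℂ → ℂ} (hf : ContinuousOn f A)
    (h0 : ∀ z ∈ A, ev Q z (f z) = 0) {z₁ : ℂ} (hz₁ : z₁ ∈ A) (h1 : ‖f z₁‖ ≤ α * ‖z₁‖) :
    ∀ z ∈ A, ‖f z‖ ≤ α * ‖z‖ := by
  intro z hz
  by_contra hcon
  have hpos : ∀ y ∈ A, 0 < ‖y‖ := fun y hy => by
    have := hAR y hy
    have := h.hR
    linarith
  have h2 : ‖z‖ ≤ α * ‖f z‖ := by
    rcases h.sep z (f z) (h0 z hz) (Or.inl (hAR z hz)) with h3 | h3
    · exact absurd h3 hcon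
    · exact h3
  have hg : ContinuousOn (fun y => ‖f y‖ - ‖y‖) A := hf.norm.sub continuous_norm.continuousOn
  have hmem : (0 : ℝ) ∈ Icc (‖f z₁‖ - ‖z₁‖) (‖f z‖ - ‖z‖) := by
    constructor
    · have := hpos z₁ hz₁
      nlinarith [h.hα1]
    · have h3 := hpos z hz
      have h4 : 0 ≤ ‖f z‖ := norm_nonneg _
      nlinarith [h.hα1, h.hα0]
  obtain ⟨y, hy, hy0⟩ := hA.intermediate_value hz₁ hz hg hmem
  have hy1 : ‖f y‖ = ‖y‖ := by
    simp only at hy0
    linarith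
  have hy2 := hpos y hy
  rcases h.sep y (f y) (h0 y hy) (Or.inl (hAR y hy)) with h3 | h3
  · rw [hy1] at h3
    nlinarith [h.hα1]
  · rw [hy1] at h3
    nlinarith [h.hα1]

private theorem smallProd_preconn {R : ℝ} (hR : 0 ≤ R) : IsPreconnected {z : ℂ | R < ‖z‖} := by
  have h1 : {z : ℂ | R < ‖z‖} =
      (fun p : ℝ × ℝ => (p.1 : ℂ) * Complex.exp (p.2 * I)) '' (Ioi R ×ˢ univ) := by
    ext z
    constructor
    · intro hz
      exact ⟨(‖z‖, z.arg), ⟨hz, mem_univ _⟩, Complex.norm_mul_exp_arg_mul_I z⟩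
    · rintro ⟨⟨r, t⟩, ⟨hr, -⟩, rfl⟩
      have hr' : R < r := hr
      have hr0 : 0 < r := lt_of_le_of_lt hR hr'
      simp only [mem_ofPred_eq, norm_mul, Complex.norm_exp_ofReal_mul_I, mul_one,
        Complex.norm_real, Real.norm_eq_abs, abs_of_pos hr0]
      exact hr'
  rw [h1]
  apply IsPreconnected.image
  · exact isPreconnected_Ioi.prod isPreconnected_univ
  · fun_prop

private theorem smallProd_local {Q : Biv} {S : Set ℂ} {α R : ℝ} (h : AtInf Q S α R) {z₁ : ℂ}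
    (hz₁ : R < ‖z₁‖) : ∃ (n : ℕ) (φ : Fin n → ℂ → ℂ) (A : Set ℂ) (J : Finset (Fin n)),
      IsOpen A ∧ z₁ ∈ A ∧ (∀ z ∈ A, R < ‖z‖) ∧ IsBr Q n A φ ∧
      ∀ z ∈ A, smallRoots Q α z = J.image fun j => φ j z := by
  classical
  have hopen : IsOpen {z : ℂ | R < ‖z‖} := isOpen_lt continuous_const continuous_norm
  obtain ⟨ε, hε, hball⟩ := Metric.isOpen_iff.1 hopen z₁ hz₁
  have hAR : ∀ z ∈ ball z₁ ε, R < ‖z‖ := fun z hz => hball hz
  obtain ⟨φ, hφ⟩ := exists_br h.curve (A := ball z₁ ε) isOpen_ball (convex_ball z₁ ε)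
    ⟨z₁, mem_ball_self hε⟩ (fun z hz => h.notMem (hAR z hz).le)
  refine ⟨Q.natDegree, φ, ball z₁ ε, Finset.univ.filter fun j => ‖φ j z₁‖ ≤ α * ‖z₁‖,
    isOpen_ball, mem_ball_self hε, hAR, hφ, fun z hz => ?_⟩
  have key : ∀ j, ∀ a ∈ ball z₁ ε, ‖φ j a‖ ≤ α * ‖a‖ → ∀ b ∈ ball z₁ ε, ‖φ j b‖ ≤ α * ‖b‖ :=
    fun j a ha haj => small_all h (convex_ball z₁ ε).isPreconnected (fun z hz => (hAR z hz).le)
      (hφ.an j).continuousOn (hφ.root j) ha haj
  ext w
  rw [mem_smallRoots h.curve (h.notMem (hAR z hz).le), Finset.mem_image]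
  constructor
  · rintro ⟨hw0, hw1⟩
    obtain ⟨j, rfl⟩ := hφ.all z hz w hw0
    exact ⟨j, Finset.mem_filter.2 ⟨Finset.mem_univ _, key j z hz hw1 z₁ (mem_ball_self hε)⟩, rfl⟩
  · rintro ⟨j, hj, rfl⟩
    exact ⟨hφ.root j z hz, key j z₁ (mem_ball_self hε) (Finset.mem_filter.1 hj).2 z hz⟩

private theorem smallProd_lam {Q : Biv} {S : Set ℂ} {α R : ℝ} (h : AtInf Q S α R) {n : ℕ}
    {φ : Fin n → ℂ → ℂ} {A : Set ℂ} (hAR : ∀ z ∈ A, R < ‖z‖) (hφ : IsBr Q n A φ) (j : Fin n)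
    {z : ℂ} (hz : z ∈ A) : DifferentiableAt ℂ (fun y => lam Q y (φ j y)) z := by
  have h1 : DifferentiableAt ℂ (fun y => ((y, φ j y) : ℂ × ℂ)) z :=
    differentiableAt_id.prodMk (hφ.an j z hz).differentiableAt
  have h2 : DifferentiableAt ℂ (fun y => ev (dz Q) y (φ j y)) z :=
    DifferentiableAt.comp (f := fun y => ((y, φ j y) : ℂ × ℂ))
      (g := fun p : ℂ × ℂ => ev (dz Q) p.1 p.2) z (ev_differentiable (dz Q) (z, φ j z)) h1
  have h3 : DifferentiableAt ℂ (fun y => ev (dw Q) y (φ j y)) z :=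
    DifferentiableAt.comp (f := fun y => ((y, φ j y) : ℂ × ℂ))
      (g := fun p : ℂ × ℂ => ev (dw Q) p.1 p.2) z (ev_differentiable (dw Q) (z, φ j z)) h1
  unfold lam
  exact h2.neg.div h3 (h.curve.simple z (h.notMem (hAR z hz).le) _ (hφ.root j z hz))

/-- Proof sketch: near `z₁` with `R < ‖z₁‖` take a small ball `A` in `{R < ‖z‖}` and branches
(`exists_br`; or `exists_branches`); by `small_all` the set `J` of the indices `j` with `φ j` small is
the same for all points of the ball, and `smallRoots Q α z` is the image of `J` under `j ↦ φ j z`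
(injective). So the cardinality is locally constant (`{z | R < ‖z‖}` is preconnected), the product and
the sum are `∏ j ∈ J, lam Q z (φ j z)` and `∑ j ∈ J, φ j z` on the ball, `lam` is analytic along a branch
(`Curve.simple`, `ev_differentiable`), and `deriv (φ j) z = lam Q z (φ j z)` (`IsBr.deriv_eq`). -/
theorem small_product {Q : Biv} {S : Set ℂ} {α R : ℝ} (h : AtInf Q S α R) :
    (∃ m : ℕ, ∀ z : ℂ, R < ‖z‖ → (smallRoots Q α z).card = m) ∧
    DifferentiableOn ℂ (fun z => ∏ w ∈ smallRoots Q α z, lam Q z w) {z : ℂ | R < ‖z‖} ∧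
    DifferentiableOn ℂ (fun z => ∑ w ∈ smallRoots Q α z, w) {z : ℂ | R < ‖z‖} ∧
    ∀ z : ℂ, R < ‖z‖ → deriv (fun z => ∑ w ∈ smallRoots Q α z, w) z =
      ∑ w ∈ smallRoots Q α z, lam Q z w := by
  classical
  refine ⟨?_, ?_, ?_, ?_⟩
  · have hR0 : 0 ≤ R := by linarith [h.hR]
    have hpre := smallProd_preconn hR0
    have hcont : ContinuousOn (fun z => (smallRoots Q α z).card) {z : ℂ | R < ‖z‖} := by
      intro z₁ hz₁
      obtain ⟨n, φ, A, J, hA, hzA, hAR, hφ, hJ⟩ := smallProd_local h hz₁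
      have hev : (fun z => (smallRoots Q α z).card) =ᶠ[𝓝 z₁] fun _ => J.card := by
        filter_upwards [hA.mem_nhds hzA] with z hz
        rw [hJ z hz, Finset.card_image_of_injective _ (hφ.inj z hz)]
      exact (continuousAt_const.congr hev.symm).continuousWithinAt
    have hmem : ((R + 1 : ℝ) : ℂ) ∈ {z : ℂ | R < ‖z‖} := by
      simp only [mem_ofPred_eq, Complex.norm_real, Real.norm_eq_abs]
      rw [abs_of_pos (by linarith)]
      linarith
    refine ⟨(smallRoots Q α ((R + 1 : ℝ) : ℂ)).card, fun z hz => ?_⟩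
    exact hpre.constant hcont hz hmem
  · intro z₁ hz₁
    obtain ⟨n, φ, A, J, hA, hzA, hAR, hφ, hJ⟩ := smallProd_local h hz₁
    have hev : (fun z => ∏ w ∈ smallRoots Q α z, lam Q z w) =ᶠ[𝓝 z₁]
        fun z => ∏ j ∈ J, lam Q z (φ j z) := by
      filter_upwards [hA.mem_nhds hzA] with z hz
      rw [hJ z hz, Finset.prod_image fun a _ b _ hab => hφ.inj z hz hab]
    have hd : DifferentiableAt ℂ (fun z => ∏ j ∈ J, lam Q z (φ j z)) z₁ :=
      DifferentiableAt.fun_finsetProd fun j _ => smallProd_lam h hAR hφ j hzA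
    exact (hd.congr_of_eventuallyEq hev).differentiableWithinAt
  · intro z₁ hz₁
    obtain ⟨n, φ, A, J, hA, hzA, hAR, hφ, hJ⟩ := smallProd_local h hz₁
    have hev : (fun z => ∑ w ∈ smallRoots Q α z, w) =ᶠ[𝓝 z₁] fun z => ∑ j ∈ J, φ j z := by
      filter_upwards [hA.mem_nhds hzA] with z hz
      rw [hJ z hz, Finset.sum_image fun a _ b _ hab => hφ.inj z hz hab]
    have hd : DifferentiableAt ℂ (fun z => ∑ j ∈ J, φ j z) z₁ :=
      DifferentiableAt.fun_sum fun j _ => (hφ.an j z₁ hzA).differentiableAt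
    exact (hd.congr_of_eventuallyEq hev).differentiableWithinAt
  · intro z₁ hz₁
    obtain ⟨n, φ, A, J, hA, hzA, hAR, hφ, hJ⟩ := smallProd_local h hz₁
    have hev : (fun z => ∑ w ∈ smallRoots Q α z, w) =ᶠ[𝓝 z₁] fun z => ∑ j ∈ J, φ j z := by
      filter_upwards [hA.mem_nhds hzA] with z hz
      rw [hJ z hz, Finset.sum_image fun a _ b _ hab => hφ.inj z hz hab]
    rw [hev.deriv_eq, deriv_fun_sum fun j _ => (hφ.an j z₁ hzA).differentiableAt, hJ z₁ hzA,
      Finset.sum_image fun a _ b _ hab => hφ.inj z₁ hzA hab]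
    refine Finset.sum_congr rfl fun j _ => ?_
    exact hφ.deriv_eq hA j hzA
      (h.curve.simple z₁ (h.notMem hz₁.le) _ (hφ.root j z₁ hzA))

end Pool.Agent.Stek
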